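import Pool.Agent.Helper25.RB.Stm

set_option autoImplicit false

open Filter Topology Metric Set MeasureTheory Finset

namespace Pool.Agent.Helper25.RB.BES

/-- the exponential function of frequency `2 ^ j` -/
noncomputable def e (j : ℕ) (θ : ℝ) : ℂ := Complex.exp ((2 ^ j * θ) * Complex.I)

lemma e_cont (j : ℕ) : Continuous (e j) := by unfold e; fun_prop

lemma e_conj (j : ℕ) (θ : ℝ) : (starRingEnd ℂ) (e j θ) = Complex.exp (-(2 ^ j * θ) * Complex.I) := by
  unfold e
  rw [← Complex.exp_conj]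
  congr 1
  have h2 : (starRingEnd ℂ) (2 : ℂ) = 2 := Complex.conj_ofNat 2
  simp [h2]

lemma e_orth (j k : ℕ) : ∫ θ in (0 : ℝ)..(2 * Real.pi), e j θ * (starRingEnd ℂ) (e k θ) =
    if j = k then (2 * Real.pi : ℂ) else 0 := by
  split_ifs with h
  · subst h
    have : ∀ θ : ℝ, e j θ * (starRingEnd ℂ) (e j θ) = 1 := by
      intro θ
      rw [e_conj, e, ← Complex.exp_add]
      ring_nf
      simp
    simp only [this]
    simp
  · have h1 : ∀ θ : ℝ, e j θ * (starRingEnd ℂ) (e k θ) =
        Complex.exp ((((2 : ℂ) ^ j - 2 ^ k) * Complex.I) * θ) := by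
      intro θ
      rw [e_conj, e, ← Complex.exp_add]
      congr 1; ring
    simp only [h1]
    have h2 : ((2 : ℂ) ^ j - 2 ^ k) * Complex.I ≠ 0 := by
      refine mul_ne_zero ?_ Complex.I_ne_zero
      intro h3
      have h4 : (2 : ℂ) ^ j = 2 ^ k := sub_eq_zero.mp h3
      have h5 : (2 : ℕ) ^ j = 2 ^ k := by exact_mod_cast h4
      exact h (Nat.pow_right_injective le_rfl h5)
    rw [integral_exp_mul_complex h2]
    have h6 : Complex.exp (((2 : ℂ) ^ j - 2 ^ k) * Complex.I * ((2 * Real.pi : ℝ) : ℂ)) = 1 := by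
      have : ((2 : ℂ) ^ j - 2 ^ k) * Complex.I * ((2 * Real.pi : ℝ) : ℂ) =
          (((2 : ℤ) ^ j - 2 ^ k : ℤ) : ℂ) * (2 * Real.pi * Complex.I) := by
        push_cast; ring
      rw [this, Complex.exp_int_mul_two_pi_mul_I]
    rw [h6]
    simp

theorem main : S_BES := by
  intro f m hf
  have hpi := Real.pi_pos
  set c : ℕ → ℂ := fun j => ∫ θ in (0 : ℝ)..(2 * Real.pi), f θ * (starRingEnd ℂ) (e j θ) with hc
  have hcj : ∀ j, ∫ θ in (0 : ℝ)..(2 * Real.pi), f θ * Complex.exp (-(2 ^ j * θ) * Complex.I) = c j := by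
    intro j
    simp only [hc, e_conj]
  simp only [hcj]
  -- the approximation
  set a : ℕ → ℂ := fun j => c j / (2 * Real.pi) with ha
  set g : ℝ → ℂ := fun θ => ∑ j ∈ range m, a j * e j θ with hg
  have hgc : Continuous g := by
    simp only [hg]
    exact continuous_finsetSum _ fun j _ => continuous_const.mul (e_cont j)
  have hsc : Continuous (starRingEnd ℂ : ℂ → ℂ) := Complex.continuous_conj
  have hii : ∀ φ : ℝ → ℂ, Continuous φ → IntervalIntegrable φ volume 0 (2 * Real.pi) :=
    fun φ hφ => hφ.intervalIntegrable _ _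
  -- f conj g
  have h1 : ∫ θ in (0 : ℝ)..(2 * Real.pi), f θ * (starRingEnd ℂ) (g θ) =
      ∑ j ∈ range m, (starRingEnd ℂ) (a j) * c j := by
    have : ∀ θ, f θ * (starRingEnd ℂ) (g θ) =
        ∑ j ∈ range m, (starRingEnd ℂ) (a j) * (f θ * (starRingEnd ℂ) (e j θ)) := by
      intro θ
      simp only [hg, map_sum, map_mul, Finset.mul_sum]
      exact Finset.sum_congr rfl fun j _ => by ring
    simp only [this]
    rw [intervalIntegral.integral_finsetSum]
    · exact Finset.sum_congr rfl fun j _ => by rw [intervalIntegral.integral_const_mul]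
    · intro j _
      exact hii _ (continuous_const.mul (hf.mul (hsc.comp (e_cont j))))
  have h2 : ∫ θ in (0 : ℝ)..(2 * Real.pi), g θ * (starRingEnd ℂ) (g θ) =
      ∑ j ∈ range m, a j * (starRingEnd ℂ) (a j) * (2 * Real.pi) := by
    have : ∀ θ, g θ * (starRingEnd ℂ) (g θ) = ∑ j ∈ range m, ∑ k ∈ range m,
        (a j * (starRingEnd ℂ) (a k)) * (e j θ * (starRingEnd ℂ) (e k θ)) := by
      intro θ
      simp only [hg, map_sum, map_mul]
      rw [Finset.sum_mul_sum]
      exact Finset.sum_congr rfl fun j _ => Finset.sum_congr rfl fun k _ => by ring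
    simp only [this]
    rw [intervalIntegral.integral_finsetSum]
    · refine Finset.sum_congr rfl fun j hj => ?_
      rw [intervalIntegral.integral_finsetSum]
      · simp only [intervalIntegral.integral_const_mul, e_orth]
        simp [Finset.mem_range.mp hj]
      · intro k _
        exact hii _ (continuous_const.mul ((e_cont j).mul (hsc.comp (e_cont k))))
    · intro j _
      exact hii _ (continuous_finsetSum _ fun k _ =>
        continuous_const.mul ((e_cont j).mul (hsc.comp (e_cont k))))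
  -- nonnegativity
  have h3 : 0 ≤ ∫ θ in (0 : ℝ)..(2 * Real.pi), ‖f θ - g θ‖ ^ 2 :=
    intervalIntegral.integral_nonneg (by positivity) fun θ _ => by positivity
  have h4 : ∀ θ, ‖f θ - g θ‖ ^ 2 = ‖f θ‖ ^ 2 - 2 * (f θ * (starRingEnd ℂ) (g θ)).re +
      (g θ * (starRingEnd ℂ) (g θ)).re := by
    intro θ
    rw [← Complex.normSq_eq_norm_sq, ← Complex.normSq_eq_norm_sq, Complex.normSq_sub,
      Complex.mul_conj (g θ), Complex.ofReal_re]
    ring
  have hre : ∀ φ : ℝ → ℂ, Continuous φ → ∫ θ in (0 : ℝ)..(2 * Real.pi), (φ θ).re =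
      (∫ θ in (0 : ℝ)..(2 * Real.pi), φ θ).re := by
    intro φ hφ
    have := Complex.reCLM.intervalIntegral_comp_comm (hii φ hφ)
    simpa using this
  have hfg : Continuous fun θ => f θ * (starRingEnd ℂ) (g θ) := hf.mul (hsc.comp hgc)
  have hgg : Continuous fun θ => g θ * (starRingEnd ℂ) (g θ) := hgc.mul (hsc.comp hgc)
  have hrr : ∀ φ : ℝ → ℝ, Continuous φ → IntervalIntegrable φ volume 0 (2 * Real.pi) :=
    fun φ hφ => hφ.intervalIntegrable _ _
  have h5 : ∫ θ in (0 : ℝ)..(2 * Real.pi), ‖f θ - g θ‖ ^ 2 =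
      (∫ θ in (0 : ℝ)..(2 * Real.pi), ‖f θ‖ ^ 2) -
        2 * (∑ j ∈ range m, (starRingEnd ℂ) (a j) * c j).re +
        (∑ j ∈ range m, a j * (starRingEnd ℂ) (a j) * (2 * Real.pi)).re := by
    simp only [h4]
    rw [intervalIntegral.integral_add, intervalIntegral.integral_sub,
      intervalIntegral.integral_const_mul, hre _ hfg, hre _ hgg, h1, h2]
    · exact hrr _ (by fun_prop)
    · exact hrr _ (continuous_const.mul (Complex.continuous_re.comp hfg))
    · exact hrr _ ((by fun_prop : Continuous fun θ => ‖f θ‖ ^ 2).sub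
        (continuous_const.mul (Complex.continuous_re.comp hfg)))
    · exact hrr _ (Complex.continuous_re.comp hgg)
  have h6 : (∑ j ∈ range m, (starRingEnd ℂ) (a j) * c j).re =
      (∑ j ∈ range m, ‖c j‖ ^ 2) / (2 * Real.pi) := by
    rw [Complex.re_sum, Finset.sum_div]
    refine Finset.sum_congr rfl fun j _ => ?_
    have : (starRingEnd ℂ) (a j) * c j = ((‖c j‖ ^ 2 / (2 * Real.pi) : ℝ) : ℂ) := by
      simp only [ha, map_div₀, map_mul, Complex.conj_ofReal, map_ofNat]
      rw [div_mul_eq_mul_div, mul_comm, Complex.mul_conj, Complex.normSq_eq_norm_sq]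
      push_cast; ring
    rw [this, Complex.ofReal_re]
  have h7 : (∑ j ∈ range m, a j * (starRingEnd ℂ) (a j) * (2 * Real.pi)).re =
      (∑ j ∈ range m, ‖c j‖ ^ 2) / (2 * Real.pi) := by
    rw [Complex.re_sum, Finset.sum_div]
    refine Finset.sum_congr rfl fun j _ => ?_
    have hpi' : (Real.pi : ℂ) ≠ 0 := by exact_mod_cast hpi.ne'
    have : a j * (starRingEnd ℂ) (a j) * (2 * Real.pi) = ((‖c j‖ ^ 2 / (2 * Real.pi) : ℝ) : ℂ) := by
      rw [Complex.mul_conj, Complex.normSq_eq_norm_sq]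
      simp only [ha, norm_div, norm_mul, Complex.norm_real, Complex.norm_ofNat, Real.norm_eq_abs,
        abs_of_pos hpi]
      push_cast
      field_simp
    rw [this, Complex.ofReal_re]
  rw [h5, h6, h7] at h3
  have h8 : (∑ j ∈ range m, ‖c j‖ ^ 2) / (2 * Real.pi) ≤ ∫ θ in (0 : ℝ)..(2 * Real.pi), ‖f θ‖ ^ 2 := by
    linarith
  rwa [div_le_iff₀ (by positivity), mul_comm] at h8

end Pool.Agent.Helper25.RB.BES
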