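import Mathlib

/-!
# Statements for the boundary lengths
-/

set_option autoImplicit false

open Filter Topology Metric Set MeasureTheory

namespace Pool.Agent.Helper25.RB

/-- Q: products along the doubling map, the Fourier coefficient at the resonant frequency `2^j`. -/
def S_Q : Prop := ∃ C : ℝ, 0 < C ∧ ∀ (ε : ℝ) (e : ℕ → ℝ → ℂ), 0 ≤ ε → ε ≤ 1 / 100 →
  (∀ k, Function.Periodic (e k) (2 * Real.pi)) →
  (∀ k θ, ‖e k θ - 1‖ ≤ ε) →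
  (∀ k θ θ', ‖e k θ - e k θ'‖ ≤ ε * Real.sqrt |θ - θ'|) →
  (∀ j : ℕ, ∫ θ in (0 : ℝ)..(2 * Real.pi), ∏ i ∈ Finset.range j, e i (2 ^ i * θ) = 2 * Real.pi) →
  ∀ j : ℕ, ‖(∫ θ in (0 : ℝ)..(2 * Real.pi), (∏ i ∈ Finset.range (j + 1), e i (2 ^ i * θ)) *
      Complex.exp (-(2 ^ j * θ) * Complex.I)) -
    ∑ i ∈ Finset.range (j + 1), ∫ θ in (0 : ℝ)..(2 * Real.pi), (e (j - i) θ - 1) *
      Complex.exp (-(2 ^ i * θ) * Complex.I)‖ ≤ C * ε ^ 2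

/-- BES: Bessel's inequality for the frequencies `2^j`. -/
def S_BES : Prop := ∀ (f : ℝ → ℂ) (m : ℕ), Continuous f →
  ∑ j ∈ Finset.range m, ‖∫ θ in (0 : ℝ)..(2 * Real.pi), f θ * Complex.exp (-(2 ^ j * θ) * Complex.I)‖ ^ 2 ≤
    2 * Real.pi * ∫ θ in (0 : ℝ)..(2 * Real.pi), ‖f θ‖ ^ 2

/-- CHO: the sum of the chords of an inscribed polygon is at most the length of the Jordan curve. -/
def S_CHO : Prop := ∀ Ψ : ℂ → ℂ, ContinuousOn Ψ (sphere 0 1) → InjOn Ψ (sphere 0 1) →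
  μH[1] (Ψ '' sphere 0 1) < ⊤ → ∀ (N : ℕ) (ζ : ℂ), 0 < N → ‖ζ‖ = 1 →
    ∑ j ∈ Finset.range N, ‖Ψ (ζ * Complex.exp (2 * Real.pi * ((j : ℝ) + 1) / N * Complex.I)) -
      Ψ (ζ * Complex.exp (2 * Real.pi * (j : ℝ) / N * Complex.I))‖ ≤ (μH[1] (Ψ '' sphere 0 1)).toReal

/-- MAX: maximum principle, from the chord sums on the circle to the integral means of the derivative. -/
def S_MAX : Prop := ∀ (Ψ : ℂ → ℂ) (A : ℝ), ContinuousOn Ψ (closedBall 0 1) → DifferentiableOn ℂ Ψ (ball 0 1) →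
  (∀ (N : ℕ) (ζ : ℂ), 0 < N → ‖ζ‖ = 1 →
    ∑ j ∈ Finset.range N, ‖Ψ (ζ * Complex.exp (2 * Real.pi * ((j : ℝ) + 1) / N * Complex.I)) -
      Ψ (ζ * Complex.exp (2 * Real.pi * (j : ℝ) / N * Complex.I))‖ ≤ A) →
  ∀ r : ℝ, 0 < r → r < 1 → ∫ θ in (0 : ℝ)..(2 * Real.pi), ‖deriv Ψ (r * Complex.exp (θ * Complex.I))‖ * r ≤ A

end Pool.Agent.Helper25.RB
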