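import Mathlib
import Pool.Agent.Helper25.RB.Stm

/-!
# Products along the doubling map
-/

set_option autoImplicit false

open Filter Topology Metric Set MeasureTheory

namespace Pool.Agent.Helper25.RB.Q

open Real (pi)

/-- the transfer operator of the doubling map -/
noncomputable def L (f : ℝ → ℂ) (t : ℝ) : ℂ := (f (t / 2) + f (t / 2 + Real.pi)) / 2

/-- the densities -/
noncomputable def Qf (e : ℕ → ℝ → ℂ) : ℕ → ℝ → ℂ
  | 0 => fun _ => 1
  | k + 1 => L (fun t => e k t * Qf e k t)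

/-- the exponentials -/
noncomputable def E (i : ℕ) (t : ℝ) : ℂ := Complex.exp (-(2 ^ i * t) * Complex.I)

lemma E_norm (i : ℕ) (t : ℝ) : ‖E i t‖ = 1 := by
  have h : (-(2 ^ i * t) * Complex.I : ℂ) = ((-(2 ^ i * t) : ℝ) : ℂ) * Complex.I := by push_cast; ring
  rw [E, h, Complex.norm_exp_ofReal_mul_I]

lemma E_cont (i : ℕ) : Continuous (E i) := by
  unfold E
  fun_prop

lemma E_per (i : ℕ) : Function.Periodic (E i) (2 * Real.pi) := by
  intro t
  unfold E
  have h : (-(2 ^ i * ((t + 2 * Real.pi : ℝ) : ℂ)) * Complex.I : ℂ) =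
      -(2 ^ i * t) * Complex.I + ((-(2 ^ i) : ℤ) : ℂ) * (2 * Real.pi * Complex.I) := by
    push_cast; ring
  rw [h, Complex.exp_add, Complex.exp_int_mul_two_pi_mul_I, mul_one]

lemma E_half (i : ℕ) (t : ℝ) : E i (t + Real.pi / 2 ^ i) = - E i t := by
  unfold E
  have h : (-(2 ^ i * ((t + Real.pi / 2 ^ i : ℝ) : ℂ)) * Complex.I : ℂ) =
      -(2 ^ i * t) * Complex.I + -(Real.pi * Complex.I) := by
    push_cast
    field_simp
    ring
  rw [h, Complex.exp_add, Complex.exp_neg (Real.pi * Complex.I), Complex.exp_pi_mul_I]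
  norm_num

lemma E_two (i : ℕ) (t : ℝ) : E i (2 * t) = E (i + 1) t := by
  unfold E
  congr 1
  push_cast
  ring

lemma int_E (i : ℕ) : ∫ t in (0 : ℝ)..(2 * Real.pi), E i t = 0 := by
  have h1 : ∫ t in (0 : ℝ)..(2 * Real.pi), E i (t + Real.pi / 2 ^ i) =
      ∫ t in (0 : ℝ)..(2 * Real.pi), E i t := by
    rw [intervalIntegral.integral_comp_add_right (fun t => E i t)]
    rw [zero_add, add_comm (2 * Real.pi)]
    rw [(E_per i).intervalIntegral_add_eq (Real.pi / 2 ^ i) 0, zero_add]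
  have h2 : ∫ t in (0 : ℝ)..(2 * Real.pi), E i (t + Real.pi / 2 ^ i) =
      - ∫ t in (0 : ℝ)..(2 * Real.pi), E i t := by
    rw [← intervalIntegral.integral_neg]
    exact intervalIntegral.integral_congr fun t _ => E_half i t
  rw [h2] at h1
  have h3 : (2 : ℂ) * ∫ t in (0 : ℝ)..(2 * Real.pi), E i t = 0 := by linear_combination -h1
  exact (mul_eq_zero.1 h3).resolve_left two_ne_zero

/-- the decay of the Fourier coefficients -/
lemma four (v : ℝ → ℂ) (hv : Continuous v) (hp : Function.Periodic v (2 * Real.pi)) (h : ℝ)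
    (h0 : 0 ≤ h) (hh : ∀ t t', ‖v t - v t'‖ ≤ h * Real.sqrt |t - t'|) (i : ℕ) :
    ‖∫ t in (0 : ℝ)..(2 * Real.pi), v t * E i t‖ ≤ Real.pi * h * Real.sqrt (Real.pi / 2 ^ i) := by
  have hvE : Function.Periodic (fun t => v t * E i t) (2 * Real.pi) := hp.mul (E_per i)
  have h1 : ∫ t in (0 : ℝ)..(2 * Real.pi), v (t + Real.pi / 2 ^ i) * E i (t + Real.pi / 2 ^ i) =
      ∫ t in (0 : ℝ)..(2 * Real.pi), v t * E i t := by
    rw [intervalIntegral.integral_comp_add_right (fun t => v t * E i t)]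
    rw [zero_add, add_comm (2 * Real.pi)]
    rw [hvE.intervalIntegral_add_eq (Real.pi / 2 ^ i) 0, zero_add]
  have hc1 : Continuous fun t => v t * E i t := hv.mul (E_cont i)
  have hc2 : Continuous fun t => v (t + Real.pi / 2 ^ i) * E i t :=
    (hv.comp (continuous_id.add continuous_const)).mul (E_cont i)
  have h2 : ∫ t in (0 : ℝ)..(2 * Real.pi), v (t + Real.pi / 2 ^ i) * E i (t + Real.pi / 2 ^ i) =
      - ∫ t in (0 : ℝ)..(2 * Real.pi), v (t + Real.pi / 2 ^ i) * E i t := by
    rw [← intervalIntegral.integral_neg]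
    exact intervalIntegral.integral_congr fun t _ => by
      simp only [E_half]
      ring
  have h3 : (2 : ℂ) * ∫ t in (0 : ℝ)..(2 * Real.pi), v t * E i t =
      ∫ t in (0 : ℝ)..(2 * Real.pi), (v t - v (t + Real.pi / 2 ^ i)) * E i t := by
    have h4 : ∫ t in (0 : ℝ)..(2 * Real.pi), (v t - v (t + Real.pi / 2 ^ i)) * E i t =
        (∫ t in (0 : ℝ)..(2 * Real.pi), v t * E i t) -
          ∫ t in (0 : ℝ)..(2 * Real.pi), v (t + Real.pi / 2 ^ i) * E i t := by
      rw [← intervalIntegral.integral_sub (hc1.intervalIntegrable _ _)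
        (hc2.intervalIntegrable _ _)]
      exact intervalIntegral.integral_congr fun t _ => by
        ring
    rw [h4]
    rw [h2] at h1
    linear_combination -h1
  have hpi := Real.pi_pos
  have h5 : ‖∫ t in (0 : ℝ)..(2 * Real.pi), (v t - v (t + Real.pi / 2 ^ i)) * E i t‖ ≤
      (h * Real.sqrt (Real.pi / 2 ^ i)) * |2 * Real.pi - 0| := by
    apply intervalIntegral.norm_integral_le_of_norm_le_const
    intro t _
    rw [norm_mul, E_norm, mul_one]
    refine (hh _ _).trans (le_of_eq ?_)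
    have : |t - (t + Real.pi / 2 ^ i)| = Real.pi / 2 ^ i := by
      rw [sub_add_cancel_left, abs_neg, abs_of_nonneg (by positivity)]
    rw [this]
  rw [← h3, norm_mul, sub_zero, abs_of_pos (by positivity)] at h5
  simp only [Complex.norm_ofNat] at h5
  nlinarith

/-- duality -/
lemma dual (f v : ℝ → ℂ) (hf : Continuous f) (hv : Continuous v)
    (hp : Function.Periodic v (2 * Real.pi)) :
    ∫ t in (0 : ℝ)..(2 * Real.pi), L f t * v t =
      ∫ t in (0 : ℝ)..(2 * Real.pi), f t * v (2 * t) := by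
  have hg : Continuous fun s => f s * v (2 * s) := hf.mul (hv.comp (continuous_const.mul continuous_id))
  have hg2 : Continuous fun s => f (s + Real.pi) * v (2 * s) :=
    (hf.comp (continuous_id.add continuous_const)).mul (hv.comp (continuous_const.mul continuous_id))
  have h1 : ∫ t in (0 : ℝ)..(2 * Real.pi), L f t * v t =
      ∫ t in (0 : ℝ)..(2 * Real.pi), ((fun s => f s * v (2 * s)) (t / 2) * (1 / 2) +
        (fun s => f (s + Real.pi) * v (2 * s)) (t / 2) * (1 / 2)) := by
    refine intervalIntegral.integral_congr fun t _ => ?_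
    have e : 2 * (t / 2) = t := by ring
    simp only [L, e]
    ring
  have hd : Continuous fun t : ℝ => t / 2 := by fun_prop
  have hi1 : IntervalIntegrable (fun t => (fun s => f s * v (2 * s)) (t / 2) * (1 / 2)) volume 0
      (2 * Real.pi) := ((hg.comp hd).mul continuous_const).intervalIntegrable _ _
  have hi2 : IntervalIntegrable (fun t => (fun s => f (s + Real.pi) * v (2 * s)) (t / 2) * (1 / 2))
      volume 0 (2 * Real.pi) := ((hg2.comp hd).mul continuous_const).intervalIntegrable _ _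
  rw [h1, intervalIntegral.integral_add hi1 hi2,
    intervalIntegral.integral_mul_const, intervalIntegral.integral_mul_const,
    intervalIntegral.integral_comp_div (fun s => f s * v (2 * s)) two_ne_zero,
    intervalIntegral.integral_comp_div (fun s => f (s + Real.pi) * v (2 * s)) two_ne_zero]
  have h2 : ∫ s in (0 / 2 : ℝ)..(2 * Real.pi / 2), f (s + Real.pi) * v (2 * s) =
      ∫ s in Real.pi..(2 * Real.pi), f s * v (2 * s) := by
    have h3 : ∫ s in (0 / 2 : ℝ)..(2 * Real.pi / 2), f (s + Real.pi) * v (2 * s) =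
        ∫ s in (0 / 2 : ℝ)..(2 * Real.pi / 2), (fun s => f s * v (2 * s)) (s + Real.pi) := by
      refine intervalIntegral.integral_congr fun s _ => ?_
      have e : 2 * (s + Real.pi) = 2 * s + 2 * Real.pi := by ring
      simp only [e, hp (2 * s)]
    rw [h3, intervalIntegral.integral_comp_add_right (fun s => f s * v (2 * s))]
    congr 1 <;> ring
  rw [h2]
  have e1 : (0 / 2 : ℝ) = 0 := by norm_num
  have e2 : (2 * Real.pi / 2 : ℝ) = Real.pi := by ring
  rw [e1, e2]
  have h4 := intervalIntegral.integral_add_adjacent_intervals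
    (hg.intervalIntegrable (μ := volume) 0 Real.pi) (hg.intervalIntegrable Real.pi (2 * Real.pi))
  rw [← h4]
  simp only [Complex.real_smul]
  push_cast
  ring

section

variable {ε : ℝ} {e : ℕ → ℝ → ℂ}

lemma cont_of (h0 : 0 ≤ ε) (v : ℝ → ℂ) (hh : ∀ t t', ‖v t - v t'‖ ≤ ε * Real.sqrt |t - t'|) :
    Continuous v := by
  rw [continuous_iff_continuousAt]
  intro x
  rw [ContinuousAt, tendsto_iff_norm_sub_tendsto_zero]
  have h1 : Tendsto (fun y : ℝ => ε * Real.sqrt |y - x|) (𝓝 x) (𝓝 0) := by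
    have hc : Continuous fun y : ℝ => ε * Real.sqrt |y - x| := by fun_prop
    have := hc.tendsto x
    simpa using this
  exact squeeze_zero (fun y => norm_nonneg _) (fun y => hh y x) h1

lemma Qf_cont (he : ∀ k, Continuous (e k)) (k : ℕ) : Continuous (Qf e k) := by
  induction k with
  | zero => exact continuous_const
  | succ k ih =>
    have h1 : Continuous fun t => e k t * Qf e k t := (he k).mul ih
    show Continuous (L fun t => e k t * Qf e k t)
    unfold L
    have h2 : Continuous fun t : ℝ => t / 2 := by fun_prop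
    have h3 : Continuous fun t : ℝ => t / 2 + Real.pi := by fun_prop
    exact ((h1.comp h2).add (h1.comp h3)).div_const 2

lemma Qf_per (hp : ∀ k, Function.Periodic (e k) (2 * Real.pi)) (k : ℕ) :
    Function.Periodic (Qf e k) (2 * Real.pi) := by
  induction k with
  | zero => exact fun _ => rfl
  | succ k ih =>
    intro t
    show L (fun t => e k t * Qf e k t) (t + 2 * Real.pi) = L (fun t => e k t * Qf e k t) t
    have e1 : (t + 2 * Real.pi) / 2 = t / 2 + Real.pi := by ring
    have e2 : t / 2 + Real.pi + Real.pi = t / 2 + 2 * Real.pi := by ring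
    unfold L
    rw [e1, e2]
    simp only [hp k (t / 2), ih (t / 2)]
    ring

/-- the product as an integral against `Qf` -/
lemma prod_eq (he : ∀ k, Continuous (e k)) (hp : ∀ k, Function.Periodic (e k) (2 * Real.pi))
    (j : ℕ) : ∀ v : ℝ → ℂ, Continuous v → Function.Periodic v (2 * Real.pi) →
    ∫ θ in (0 : ℝ)..(2 * Real.pi), (∏ i ∈ Finset.range j, e i (2 ^ i * θ)) * v (2 ^ j * θ) =
      ∫ θ in (0 : ℝ)..(2 * Real.pi), Qf e j θ * v θ := by
  induction j with
  | zero =>
    intro v _ _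
    refine intervalIntegral.integral_congr fun θ _ => ?_
    simp [Qf]
  | succ j ih =>
    intro v hv hvp
    have hc : Continuous fun t => e j t * v (2 * t) :=
      (he j).mul (hv.comp (continuous_const.mul continuous_id))
    have hpp : Function.Periodic (fun t => e j t * v (2 * t)) (2 * Real.pi) := by
      intro t
      have e1 : 2 * (t + 2 * Real.pi) = 2 * t + 2 * Real.pi + 2 * Real.pi := by ring
      simp only [hp j t, e1, hvp (2 * t + 2 * Real.pi), hvp (2 * t)]
    have h1 := ih _ hc hpp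
    have h2 : ∫ θ in (0 : ℝ)..(2 * Real.pi), (∏ i ∈ Finset.range (j + 1), e i (2 ^ i * θ)) *
        v (2 ^ (j + 1) * θ) = ∫ θ in (0 : ℝ)..(2 * Real.pi),
          (∏ i ∈ Finset.range j, e i (2 ^ i * θ)) * (fun t => e j t * v (2 * t)) (2 ^ j * θ) := by
      refine intervalIntegral.integral_congr fun θ _ => ?_
      have e1 : (2 : ℝ) ^ (j + 1) * θ = 2 * (2 ^ j * θ) := by ring
      simp only [Finset.prod_range_succ, e1]
      ring
    rw [h2, h1]
    have h3 := dual (fun t => e j t * Qf e j t) v ((he j).mul (Qf_cont he j)) hv hvp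
    show _ = ∫ θ in (0 : ℝ)..(2 * Real.pi), L (fun t => e j t * Qf e j t) θ * v θ
    rw [h3]
    exact intervalIntegral.integral_congr fun θ _ => by
      ring

lemma near_one (hε : 0 ≤ ε) (v : ℝ → ℂ) (hv : Continuous v)
    (hp : Function.Periodic v (2 * Real.pi))
    (hh : ∀ t t', ‖v t - v t'‖ ≤ 3 * ε * Real.sqrt |t - t'|)
    (hm : ∫ t in (0 : ℝ)..(2 * Real.pi), v t = 2 * Real.pi) (t : ℝ) : ‖v t - 1‖ ≤ 8 * ε := by
  have hpi := Real.pi_pos
  have h1 : ∫ s in t..(t + 2 * Real.pi), v s = 2 * Real.pi := by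
    rw [hp.intervalIntegral_add_eq t 0, zero_add, hm]
  have h2 : ∫ s in t..(t + 2 * Real.pi), (v t - v s) = 2 * Real.pi * (v t - 1) := by
    rw [intervalIntegral.integral_sub (continuous_const.intervalIntegrable _ _)
      (hv.intervalIntegrable _ _), h1, intervalIntegral.integral_const]
    simp only [add_sub_cancel_left, Complex.real_smul]
    push_cast
    ring
  have h3 : ‖∫ s in t..(t + 2 * Real.pi), (v t - v s)‖ ≤ (8 * ε) * |t + 2 * Real.pi - t| := by
    apply intervalIntegral.norm_integral_le_of_norm_le_const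
    intro s hs
    rw [Set.uIoc_of_le (by linarith)] at hs
    refine (hh t s).trans ?_
    have h4 : |t - s| ≤ 64 / 9 := by
      rw [abs_le]
      have := Real.pi_lt_d2
      constructor <;> linarith [hs.1, hs.2]
    have h5 : Real.sqrt |t - s| ≤ 8 / 3 := by
      rw [show (8 / 3 : ℝ) = Real.sqrt (64 / 9) by
        rw [show (64 / 9 : ℝ) = (8 / 3) ^ 2 by norm_num, Real.sqrt_sq (by norm_num)]]
      exact Real.sqrt_le_sqrt h4
    nlinarith
  rw [h2, norm_mul, add_sub_cancel_left, abs_of_pos (by positivity)] at h3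
  have h6 : ‖(2 * Real.pi : ℂ)‖ = 2 * Real.pi := by
    rw [show (2 * Real.pi : ℂ) = ((2 * Real.pi : ℝ) : ℂ) by push_cast; rfl, Complex.norm_real,
      Real.norm_of_nonneg (by positivity)]
  rw [h6] at h3
  have h7 : (2 * Real.pi) * ‖v t - 1‖ ≤ (2 * Real.pi) * (8 * ε) := by linarith
  exact le_of_mul_le_mul_left h7 (by positivity)

lemma norm_e_le (h1 : ∀ k θ, ‖e k θ - 1‖ ≤ ε) (k : ℕ) (θ : ℝ) : ‖e k θ‖ ≤ 1 + ε := by
  calc ‖e k θ‖ = ‖1 + (e k θ - 1)‖ := by rw [add_sub_cancel]
    _ ≤ ‖(1 : ℂ)‖ + ‖e k θ - 1‖ := norm_add_le _ _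
    _ ≤ 1 + ε := by rw [norm_one]; linarith [h1 k θ]

lemma sqrt_half (x : ℝ) (hx : 0 ≤ x) : Real.sqrt (x / 2) ≤ 0.7072 * Real.sqrt x := by
  rw [show (0.7072 : ℝ) = Real.sqrt (0.7072 ^ 2) by rw [Real.sqrt_sq (by norm_num)],
    ← Real.sqrt_mul (by positivity)]
  apply Real.sqrt_le_sqrt
  nlinarith

lemma prod_holder (hε : 0 ≤ ε) (hε1 : ε ≤ 1 / 100) (u v : ℝ → ℂ) (hu1 : ∀ t, ‖u t‖ ≤ 1 + ε)
    (hu2 : ∀ t t', ‖u t - u t'‖ ≤ ε * Real.sqrt |t - t'|) (hv1 : ∀ t, ‖v t - 1‖ ≤ 8 * ε)
    (hv2 : ∀ t t', ‖v t - v t'‖ ≤ 3 * ε * Real.sqrt |t - t'|) (a b : ℝ) :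
    ‖u a * v a - u b * v b‖ ≤ 4.11 * ε * Real.sqrt |a - b| := by
  have hv3 : ‖v a‖ ≤ 1 + 8 * ε := by
    calc ‖v a‖ = ‖1 + (v a - 1)‖ := by rw [add_sub_cancel]
      _ ≤ ‖(1 : ℂ)‖ + ‖v a - 1‖ := norm_add_le _ _
      _ ≤ 1 + 8 * ε := by rw [norm_one]; linarith [hv1 a]
  have h1 : u a * v a - u b * v b = (u a - u b) * v a + u b * (v a - v b) := by ring
  rw [h1]
  have hs := Real.sqrt_nonneg |a - b|
  have h2 : ‖(u a - u b) * v a‖ ≤ (ε * Real.sqrt |a - b|) * (1 + 8 * ε) := by
    rw [norm_mul]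
    exact mul_le_mul (hu2 a b) hv3 (norm_nonneg _) (by positivity)
  have h3 : ‖u b * (v a - v b)‖ ≤ (1 + ε) * (3 * ε * Real.sqrt |a - b|) := by
    rw [norm_mul]
    exact mul_le_mul (hu1 b) (hv2 a b) (norm_nonneg _) (by positivity)
  refine (norm_add_le _ _).trans ((add_le_add h2 h3).trans ?_)
  have h4 : (ε * Real.sqrt |a - b|) * (1 + 8 * ε) + (1 + ε) * (3 * ε * Real.sqrt |a - b|) =
      (ε * Real.sqrt |a - b|) * (4 + 11 * ε) := by ring
  have h5 : 4.11 * ε * Real.sqrt |a - b| = (ε * Real.sqrt |a - b|) * 4.11 := by ring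
  rw [h4, h5]
  apply mul_le_mul_of_nonneg_left _ (by positivity)
  linarith

lemma holder_near (hε : 0 ≤ ε) (hε1 : ε ≤ 1 / 100)
    (hp : ∀ k, Function.Periodic (e k) (2 * Real.pi)) (h1 : ∀ k θ, ‖e k θ - 1‖ ≤ ε)
    (h2 : ∀ k θ θ', ‖e k θ - e k θ'‖ ≤ ε * Real.sqrt |θ - θ'|)
    (hm : ∀ j : ℕ, ∫ θ in (0 : ℝ)..(2 * Real.pi), ∏ i ∈ Finset.range j, e i (2 ^ i * θ) =
      2 * Real.pi) (k : ℕ) :
    (∀ t t', ‖Qf e k t - Qf e k t'‖ ≤ 3 * ε * Real.sqrt |t - t'|) ∧
      ∀ t, ‖Qf e k t - 1‖ ≤ 8 * ε := by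
  have he : ∀ k, Continuous (e k) := fun k => cont_of hε _ (h2 k)
  have hmean : ∀ j, ∫ t in (0 : ℝ)..(2 * Real.pi), Qf e j t = 2 * Real.pi := by
    intro j
    have h3 := prod_eq he hp j (fun _ => 1) continuous_const (fun _ => rfl)
    simp only [mul_one] at h3
    rw [← h3, hm j]
  induction k with
  | zero =>
    have h3 : ∀ t t', ‖Qf e 0 t - Qf e 0 t'‖ ≤ 3 * ε * Real.sqrt |t - t'| := by
      intro t t'
      simp only [Qf, sub_self, norm_zero]
      positivity
    exact ⟨h3, near_one hε _ (Qf_cont he 0) (Qf_per hp 0) h3 (hmean 0)⟩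
  | succ k ih =>
    have h3 : ∀ t t', ‖Qf e (k + 1) t - Qf e (k + 1) t'‖ ≤ 3 * ε * Real.sqrt |t - t'| := by
      intro t t'
      have hP := prod_holder hε hε1 (e k) (Qf e k) (norm_e_le h1 k) (h2 k) ih.2 ih.1
      have ha := hP (t / 2) (t' / 2)
      have hb := hP (t / 2 + Real.pi) (t' / 2 + Real.pi)
      have e1 : |t / 2 - t' / 2| = |t - t'| / 2 := by
        rw [← sub_div, abs_div, abs_of_pos (two_pos : (0 : ℝ) < 2)]
      have e2 : |t / 2 + Real.pi - (t' / 2 + Real.pi)| = |t - t'| / 2 := by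
        rw [← e1]; congr 1; ring
      rw [e1] at ha
      rw [e2] at hb
      have hs := sqrt_half |t - t'| (abs_nonneg _)
      have hs0 := Real.sqrt_nonneg |t - t'|
      have e3 : Qf e (k + 1) t - Qf e (k + 1) t' =
          ((e k (t / 2) * Qf e k (t / 2) - e k (t' / 2) * Qf e k (t' / 2)) +
          (e k (t / 2 + Real.pi) * Qf e k (t / 2 + Real.pi) -
            e k (t' / 2 + Real.pi) * Qf e k (t' / 2 + Real.pi))) / 2 := by
        show L (fun t => e k t * Qf e k t) t - L (fun t => e k t * Qf e k t) t' = _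
        unfold L
        ring
      rw [e3, norm_div]
      have e4 : ‖(2 : ℂ)‖ = 2 := by simp
      rw [e4, div_le_iff₀ two_pos]
      refine (norm_add_le _ _).trans ((add_le_add ha hb).trans ?_)
      have h5 : 4.11 * ε * Real.sqrt (|t - t'| / 2) ≤ 4.11 * ε * (0.7072 * Real.sqrt |t - t'|) :=
        mul_le_mul_of_nonneg_left hs (by positivity)
      have h6 : 0 ≤ ε * Real.sqrt |t - t'| := by positivity
      nlinarith
    exact ⟨h3, near_one hε _ (Qf_cont he _) (Qf_per hp _) h3 (hmean _)⟩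

lemma expand (he : ∀ k, Continuous (e k)) (k : ℕ) : ∀ i : ℕ,
    ∫ t in (0 : ℝ)..(2 * Real.pi), (e k t * Qf e k t) * E i t =
      ∑ l ∈ Finset.range (k + 1), ∫ t in (0 : ℝ)..(2 * Real.pi),
        ((e (k - l) t - 1) * Qf e (k - l) t) * E (i + l) t := by
  have split : ∀ k i, ∫ t in (0 : ℝ)..(2 * Real.pi), (e k t * Qf e k t) * E i t =
      (∫ t in (0 : ℝ)..(2 * Real.pi), Qf e k t * E i t) +
        ∫ t in (0 : ℝ)..(2 * Real.pi), ((e k t - 1) * Qf e k t) * E i t := by
    intro k i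
    have hi1 : IntervalIntegrable (fun t => Qf e k t * E i t) volume 0 (2 * Real.pi) :=
      ((Qf_cont he k).mul (E_cont i)).intervalIntegrable _ _
    have hi2 : IntervalIntegrable (fun t => ((e k t - 1) * Qf e k t) * E i t) volume 0
        (2 * Real.pi) :=
      ((((he k).sub continuous_const).mul (Qf_cont he k)).mul (E_cont i)).intervalIntegrable _ _
    rw [← intervalIntegral.integral_add hi1 hi2]
    exact intervalIntegral.integral_congr fun t _ => by
      ring
  induction k with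
  | zero =>
    intro i
    rw [split, zero_add, Finset.sum_range_one]
    have : ∫ t in (0 : ℝ)..(2 * Real.pi), Qf e 0 t * E i t = 0 := by
      rw [← int_E i]
      exact intervalIntegral.integral_congr fun t _ => by simp [Qf]
    rw [this, zero_add]
    simp
  | succ k ih =>
    intro i
    rw [split, Finset.sum_range_succ']
    congr 1
    have h1 := dual (fun t => e k t * Qf e k t) (E i) ((he k).mul (Qf_cont he k)) (E_cont i)
      (E_per i)
    have h2 : ∫ t in (0 : ℝ)..(2 * Real.pi), Qf e (k + 1) t * E i t =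
        ∫ t in (0 : ℝ)..(2 * Real.pi), (e k t * Qf e k t) * E (i + 1) t := by
      show ∫ t in (0 : ℝ)..(2 * Real.pi), L (fun t => e k t * Qf e k t) t * E i t = _
      rw [h1]
      exact intervalIntegral.integral_congr fun t _ => by simp only [E_two]
    rw [h2, ih (i + 1)]
    refine Finset.sum_congr rfl fun l _ => ?_
    rw [Nat.add_sub_add_right, show i + 1 + l = i + (l + 1) by ring]

end

theorem main : S_Q := by
  refine ⟨300, by norm_num, ?_⟩
  intro ε e hε hε1 hp h1 h2 hm j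
  have he : ∀ k, Continuous (e k) := fun k => cont_of hε _ (h2 k)
  have hpi := Real.pi_pos
  have hb := holder_near hε hε1 hp h1 h2 hm
  have hE0 : ∀ (i : ℕ) (θ : ℝ), Complex.exp (-(2 ^ i * (θ : ℂ)) * Complex.I) = E i θ :=
    fun _ _ => rfl
  -- the left side
  have e1 : ∫ θ in (0 : ℝ)..(2 * Real.pi), (∏ i ∈ Finset.range (j + 1), e i (2 ^ i * θ)) *
      Complex.exp (-(2 ^ j * θ) * Complex.I) =
      ∫ t in (0 : ℝ)..(2 * Real.pi), (e j t * Qf e j t) * E 0 t := by
    have h3 := prod_eq he hp j (fun t => e j t * E 0 t) ((he j).mul (E_cont 0))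
      ((hp j).mul (E_per 0))
    have h4 : ∫ θ in (0 : ℝ)..(2 * Real.pi), (∏ i ∈ Finset.range (j + 1), e i (2 ^ i * θ)) *
        Complex.exp (-(2 ^ j * θ) * Complex.I) =
        ∫ θ in (0 : ℝ)..(2 * Real.pi), (∏ i ∈ Finset.range j, e i (2 ^ i * θ)) *
          (fun t => e j t * E 0 t) (2 ^ j * θ) := by
      refine intervalIntegral.integral_congr fun θ _ => ?_
      have e2 : E 0 (2 ^ j * θ) = Complex.exp (-(2 ^ j * θ) * Complex.I) := by
        unfold E
        congr 1
        push_cast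
        ring
      simp only [Finset.prod_range_succ, e2]
      ring
    rw [h4, h3]
    exact intervalIntegral.integral_congr fun t _ => by
      ring
  rw [e1, expand he j 0, ← Finset.sum_sub_distrib]
  have hterm : ∀ l ∈ Finset.range (j + 1),
      ‖(∫ t in (0 : ℝ)..(2 * Real.pi), ((e (j - l) t - 1) * Qf e (j - l) t) * E (0 + l) t) -
        ∫ θ in (0 : ℝ)..(2 * Real.pi), (e (j - l) θ - 1) *
          Complex.exp (-(2 ^ l * θ) * Complex.I)‖ ≤ 22 * Real.pi * ε ^ 2 * (3 / 4) ^ l := by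
    intro l _
    set k := j - l
    have hc1 : Continuous fun t => ((e k t - 1) * Qf e k t) * E l t :=
      (((he k).sub continuous_const).mul (Qf_cont he k)).mul (E_cont l)
    have hc2 : Continuous fun t => (e k t - 1) * E l t :=
      ((he k).sub continuous_const).mul (E_cont l)
    have h3 : (∫ t in (0 : ℝ)..(2 * Real.pi), ((e k t - 1) * Qf e k t) * E (0 + l) t) -
        ∫ θ in (0 : ℝ)..(2 * Real.pi), (e k θ - 1) * Complex.exp (-(2 ^ l * θ) * Complex.I) =
        ∫ t in (0 : ℝ)..(2 * Real.pi), ((e k t - 1) * (Qf e k t - 1)) * E l t := by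
      simp only [hE0, zero_add]
      rw [← intervalIntegral.integral_sub (hc1.intervalIntegrable _ _)
        (hc2.intervalIntegrable _ _)]
      exact intervalIntegral.integral_congr fun t _ => by
        ring
    rw [h3]
    have h4 : ∀ t t', ‖(e k t - 1) * (Qf e k t - 1) - (e k t' - 1) * (Qf e k t' - 1)‖ ≤
        11 * ε ^ 2 * Real.sqrt |t - t'| := by
      intro t t'
      have e2 : (e k t - 1) * (Qf e k t - 1) - (e k t' - 1) * (Qf e k t' - 1) =
          (e k t - e k t') * (Qf e k t - 1) + (e k t' - 1) * (Qf e k t - Qf e k t') := by ring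
      rw [e2]
      have hs := Real.sqrt_nonneg |t - t'|
      have h5 : ‖(e k t - e k t') * (Qf e k t - 1)‖ ≤ (ε * Real.sqrt |t - t'|) * (8 * ε) := by
        rw [norm_mul]
        exact mul_le_mul (h2 k t t') ((hb k).2 t) (norm_nonneg _) (by positivity)
      have h6 : ‖(e k t' - 1) * (Qf e k t - Qf e k t')‖ ≤ ε * (3 * ε * Real.sqrt |t - t'|) := by
        rw [norm_mul]
        exact mul_le_mul (h1 k t') ((hb k).1 t t') (norm_nonneg _) hε
      refine (norm_add_le _ _).trans ((add_le_add h5 h6).trans (le_of_eq ?_))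
      ring
    have h5 := four (fun t => (e k t - 1) * (Qf e k t - 1))
      (((he k).sub continuous_const).mul ((Qf_cont he k).sub continuous_const))
      (by
        intro t
        simp only [hp k t, Qf_per hp k t])
      (11 * ε ^ 2) (by positivity) h4 l
    refine h5.trans ?_
    have h6 : Real.sqrt (Real.pi / 2 ^ l) ≤ 2 * (3 / 4) ^ l := by
      rw [Real.sqrt_le_left (by positivity), mul_pow, ← pow_mul, mul_comm l 2, pow_mul]
      rw [div_le_iff₀ (by positivity), mul_assoc, ← mul_pow]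
      have h7 : (1 : ℝ) ≤ ((3 / 4) ^ 2 * 2) ^ l := one_le_pow₀ (by norm_num)
      have h8 := Real.pi_lt_d2
      nlinarith
    calc Real.pi * (11 * ε ^ 2) * Real.sqrt (Real.pi / 2 ^ l)
        ≤ Real.pi * (11 * ε ^ 2) * (2 * (3 / 4) ^ l) :=
          mul_le_mul_of_nonneg_left h6 (by positivity)
      _ = 22 * Real.pi * ε ^ 2 * (3 / 4) ^ l := by ring
  refine (norm_sum_le _ _).trans ((Finset.sum_le_sum hterm).trans ?_)
  rw [← Finset.mul_sum]
  have hgeo : ∑ l ∈ Finset.range (j + 1), (3 / 4 : ℝ) ^ l ≤ 4 := by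
    have h3 := geom_sum_eq (show (3 / 4 : ℝ) ≠ 1 by norm_num) (j + 1)
    rw [h3]
    have h4 : 0 ≤ (3 / 4 : ℝ) ^ (j + 1) := by positivity
    rw [div_le_iff_of_neg (by norm_num)]
    linarith
  have h8 := Real.pi_lt_d2
  calc 22 * Real.pi * ε ^ 2 * ∑ l ∈ Finset.range (j + 1), (3 / 4 : ℝ) ^ l
      ≤ 22 * Real.pi * ε ^ 2 * 4 := mul_le_mul_of_nonneg_left hgeo (by positivity)
    _ = (88 * Real.pi) * ε ^ 2 := by ring
    _ ≤ 300 * ε ^ 2 := by
        apply mul_le_mul_of_nonneg_right _ (by positivity)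
        linarith

end Pool.Agent.Helper25.RB.Q
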