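import Pool.Agent.Helper25.RB.Stm2

/-!
# Statements for the dimension formula
-/

set_option autoImplicit false

open Filter Topology Metric Set MeasureTheory

namespace Pool.Agent.Helper25.RB

open Pool.Agent.Helper25.JB

/-- DSN: `S_DIS` with the explicit function `D n θ = 2^n exp (Re S_n(e^{iθ}))`
(`∏ H_j'(Φ_j(z^(2^j))) = 2^n (Φ_n(z^(2^n)) / Φ_0(z)) exp (S_n(z))`). -/
def S_DSN : Prop := ∃ C : ℝ, 1 ≤ C ∧ ∀ (δ : ℝ) (L : ℕ → ℂ → ℂ), Sys δ L → ∀ (n : ℕ) (θ θ' θ'' : ℝ),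
  |θ - θ'| ≤ 2 * Real.pi / 2 ^ n → |θ - θ''| ≤ 2 * Real.pi / 2 ^ n → |θ' - θ''| ≤ 2 * Real.pi / 2 ^ n →
  ‖Phi L n (Complex.exp (θ * Complex.I) ^ (2 ^ n)) - Phi L n (Complex.exp (θ' * Complex.I) ^ (2 ^ n))‖ ≤
      C * (2 ^ n * Real.exp ((S L n (Complex.exp (θ'' * Complex.I))).re)) *
        ‖Phi L 0 (Complex.exp (θ * Complex.I)) - Phi L 0 (Complex.exp (θ' * Complex.I))‖ ∧
    ‖Phi L 0 (Complex.exp (θ * Complex.I)) - Phi L 0 (Complex.exp (θ' * Complex.I))‖ *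
      (2 ^ n * Real.exp ((S L n (Complex.exp (θ'' * Complex.I))).re)) ≤ C

/-- EXP: exponential moments along the doubling map (Mathlib only). -/
def S_EXP : Prop := ∃ C : ℝ, 1 ≤ C ∧ ∀ (w : ℕ → ℝ) (h : ℕ → ℝ → ℝ), (∀ k, 0 ≤ w k) → (∀ k, w k ≤ 1 / 1000) →
  (∀ k, Function.Periodic (h k) (2 * Real.pi)) → (∀ k θ, |h k θ| ≤ w k) →
  (∀ k θ θ', |h k θ - h k θ'| ≤ w k * Real.sqrt |θ - θ'|) →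
  (∀ k, ∫ θ in (0 : ℝ)..(2 * Real.pi), h k θ = 0) → ∀ (s : ℝ) (N : ℕ), 0 ≤ s → s ≤ 2 →
  ∫ θ in (0 : ℝ)..(2 * Real.pi), Real.exp (-(s * ∑ k ∈ Finset.range N, h k (2 ^ k * θ))) ≤
    2 * Real.pi * Real.exp (C * ∑ k ∈ Finset.range N, w k ^ 2)

/-- COV: covering of the boundary by the arcs of generation `N`. -/
def S_COV : Prop := ∀ (δ : ℝ) (L : ℕ → ℂ → ℂ), Sys δ L → ∀ s A : ℝ, 1 ≤ s → s ≤ 2 →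
  (∃ᶠ N : ℕ in atTop, (2 : ℝ) ^ ((N : ℝ) * (1 - s)) *
    ∫ θ in (0 : ℝ)..(2 * Real.pi), Real.exp (-(s * (S L N (Complex.exp (θ * Complex.I))).re)) ≤ A) →
  dimH (Phi L 0 '' sphere 0 1) ≤ ENNReal.ofReal s

/-- HK: the terms of the sums, with local bounds. -/
def S_HK : Prop := ∃ C : ℝ, 1 ≤ C ∧ ∀ (δ : ℝ) (L : ℕ → ℂ → ℂ) (w : ℕ → ℝ), Sys δ L → (∀ k, w k ≤ δ) →
  (∀ k, ∀ v ∈ ball (0 : ℂ) 2, ‖L k v‖ ≤ w k) → ∀ k : ℕ,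
    (∀ θ : ℝ, ‖ell L k (Phi L k (Complex.exp (θ * Complex.I)))‖ ≤ C * w k) ∧
    (∀ θ θ' : ℝ, ‖ell L k (Phi L k (Complex.exp (θ * Complex.I))) -
      ell L k (Phi L k (Complex.exp (θ' * Complex.I)))‖ ≤ C * w k * Real.sqrt |θ - θ'|) ∧
    ∫ θ in (0 : ℝ)..(2 * Real.pi), ell L k (Phi L k (Complex.exp (θ * Complex.I))) = 0

/-- CI1: `S_CIR` on the unit circle. -/
def S_CI1 : Prop := ∀ (δ : ℝ) (L : ℕ → ℂ → ℂ), Sys δ L →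
  (∀ j : ℕ, ∫ θ in (0 : ℝ)..(2 * Real.pi), Complex.exp (-S L j (Complex.exp (θ * Complex.I)) / 2) =
    2 * Real.pi) ∧
  (∀ j m : ℕ, j < m → ∫ θ in (0 : ℝ)..(2 * Real.pi), Complex.exp (-S L m (Complex.exp (θ * Complex.I)) / 2) *
      Complex.exp (-(2 ^ j * θ) * Complex.I) =
    ∫ θ in (0 : ℝ)..(2 * Real.pi), Complex.exp (-S L (j + 1) (Complex.exp (θ * Complex.I)) / 2) *
      Complex.exp (-(2 ^ j * θ) * Complex.I))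

/-- VL: `S_V` with local bounds, on the unit circle. -/
def S_VL : Prop := ∃ C : ℝ, 1 ≤ C ∧ ∀ (δ : ℝ) (L : ℕ → ℂ → ℂ) (w : ℕ → ℝ) (a b : ℕ → ℂ), Sys δ L →
  (∀ k, w k ≤ δ) → (∀ k, ∀ v ∈ ball (0 : ℂ) 2, ‖L k v‖ ≤ w k) → (∀ k, ‖a k‖ ≤ w k) → (∀ k, ‖b k‖ ≤ w k) →
  (∀ k, ∀ v ∈ ball (0 : ℂ) 2, ‖L k v - (a k * v + b k * v ^ 2)‖ ≤ w k ^ 2) → ∀ k : ℕ,
    (∀ θ : ℝ, ‖ee L k 1 θ - 1‖ ≤ C * w k) ∧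
    (∀ θ θ' : ℝ, ‖ee L k 1 θ - ee L k 1 θ'‖ ≤ C * w k * Real.sqrt |θ - θ'|) ∧
    (∀ θ θ' : ℝ,
      ‖(ee L k 1 θ - 1 + (a k / 2 * Complex.exp (θ * Complex.I) + b k * Complex.exp (θ * Complex.I) ^ 2) / 2) -
        (ee L k 1 θ' - 1 + (a k / 2 * Complex.exp (θ' * Complex.I) +
          b k * Complex.exp (θ' * Complex.I) ^ 2) / 2)‖ ≤ C * δ * w k * Real.sqrt |θ - θ'|)

/-- QL: `S_Q` with local bounds (Mathlib only). -/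
def S_QL : Prop := ∃ C : ℝ, 0 < C ∧ ∀ (ε : ℝ) (u : ℕ → ℝ) (e : ℕ → ℝ → ℂ), 0 ≤ ε → ε ≤ 1 / 100 →
  (∀ k, 0 ≤ u k) → (∀ k, u k ≤ ε) →
  (∀ k, Function.Periodic (e k) (2 * Real.pi)) →
  (∀ k θ, ‖e k θ - 1‖ ≤ u k) →
  (∀ k θ θ', ‖e k θ - e k θ'‖ ≤ u k * Real.sqrt |θ - θ'|) →
  (∀ j : ℕ, ∫ θ in (0 : ℝ)..(2 * Real.pi), ∏ i ∈ Finset.range j, e i (2 ^ i * θ) = 2 * Real.pi) →
  ∀ j : ℕ, ‖(∫ θ in (0 : ℝ)..(2 * Real.pi), (∏ i ∈ Finset.range (j + 1), e i (2 ^ i * θ)) *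
      Complex.exp (-(2 ^ j * θ) * Complex.I)) -
    ∑ i ∈ Finset.range (j + 1), ∫ θ in (0 : ℝ)..(2 * Real.pi), (e (j - i) θ - 1) *
      Complex.exp (-(2 ^ i * θ) * Complex.I)‖ ≤
    C * ε * ∑ i ∈ Finset.range (j + 1), (3 / 4 : ℝ) ^ i * u (j - i)

/-- COEL: `S_COE` with local bounds, on the unit circle. -/
def S_COEL : Prop := ∃ C : ℝ, 1 ≤ C ∧ ∀ (δ : ℝ) (L : ℕ → ℂ → ℂ) (w : ℕ → ℝ) (a b : ℕ → ℂ), Sys δ L →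
  C * δ ≤ 1 → (∀ k, w k ≤ δ) → (∀ k, ∀ v ∈ ball (0 : ℂ) 2, ‖L k v‖ ≤ w k) →
  (∀ k, ‖a k‖ ≤ w k) → (∀ k, ‖b k‖ ≤ w k) →
  (∀ k, ∀ v ∈ ball (0 : ℂ) 2, ‖L k v - (a k * v + b k * v ^ 2)‖ ≤ w k ^ 2) →
  ∀ j : ℕ, ‖(∫ θ in (0 : ℝ)..(2 * Real.pi), Complex.exp (-S L (j + 2) (Complex.exp (θ * Complex.I)) / 2) *
      Complex.exp (-(2 ^ (j + 1) * θ) * Complex.I)) + Real.pi * (a (j + 1) / 2 + b j)‖ ≤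
    C * δ * ∑ i ∈ Finset.range (j + 2), (3 / 4 : ℝ) ^ i * w (j + 1 - i)

/-- BES0: Bessel's inequality for the frequencies `0` and `2^j`. -/
def S_BES0 : Prop := ∀ (f : ℝ → ℂ) (m : ℕ), Continuous f →
  ‖∫ θ in (0 : ℝ)..(2 * Real.pi), f θ‖ ^ 2 +
  ∑ j ∈ Finset.range m, ‖∫ θ in (0 : ℝ)..(2 * Real.pi), f θ * Complex.exp (-(2 ^ j * θ) * Complex.I)‖ ^ 2 ≤
    2 * Real.pi * ∫ θ in (0 : ℝ)..(2 * Real.pi), ‖f θ‖ ^ 2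

/-- LOWE: growth of the second moments over one block. -/
def S_LOWE : Prop := ∃ C : ℝ, 1 ≤ C ∧ ∀ (δ κ : ℝ) (L : ℕ → ℂ → ℂ) (w : ℕ → ℝ) (a b : ℕ → ℂ), Sys δ L →
  0 < κ → κ ≤ 1 → C * δ ≤ κ → (∀ k, w k ≤ δ) → (∀ k, ∀ v ∈ ball (0 : ℂ) 2, ‖L k v‖ ≤ w k) →
  (∀ k, ‖a k‖ ≤ w k) → (∀ k, ‖b k‖ ≤ w k) →
  (∀ k, ∀ v ∈ ball (0 : ℂ) 2, ‖L k v - (a k * v + b k * v ^ 2)‖ ≤ w k ^ 2) →
  (∀ k, κ * w (k + 1) ≤ ‖a (k + 1) / 2 + b k‖) →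
  ∀ M : ℕ, 2 * Real.pi * (1 + κ ^ 2 / C * (∑ j ∈ Finset.range M, w (j + 1) ^ 2) - C * δ ^ 2) ≤
    ∫ θ in (0 : ℝ)..(2 * Real.pi), ‖Complex.exp (-S L (M + 1) (Complex.exp (θ * Complex.I)) / 2)‖ ^ 2

/-- MUL: supermultiplicativity by bounded distortion (Mathlib only). -/
def S_MUL : Prop := ∃ C : ℝ, 1 ≤ C ∧ ∀ (δ : ℝ) (h : ℕ → ℝ → ℝ) (F : ℝ → ℝ), 0 ≤ δ → δ ≤ 1 →
  (∀ k, Function.Periodic (h k) (2 * Real.pi)) → (∀ k θ θ', |h k θ - h k θ'| ≤ δ * Real.sqrt |θ - θ'|) →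
  Continuous F → (∀ θ, 0 ≤ F θ) → Function.Periodic F (2 * Real.pi) → ∀ N : ℕ,
  Real.exp (-(C * δ)) * (∫ θ in (0 : ℝ)..(2 * Real.pi), Real.exp (-∑ k ∈ Finset.range N, h k (2 ^ k * θ))) *
      (∫ θ in (0 : ℝ)..(2 * Real.pi), F θ) ≤
    2 * Real.pi * ∫ θ in (0 : ℝ)..(2 * Real.pi),
      Real.exp (-∑ k ∈ Finset.range N, h k (2 ^ k * θ)) * F (2 ^ N * θ)

/-- BLK: the block argument (real sequences). -/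
def S_BLK : Prop := ∀ (A : ℕ → ℕ → ℝ) (u : ℕ → ℝ) (η : ℝ), 0 < η → (∀ k, 0 ≤ u k) → (∀ k, u k ≤ 1) →
  (∀ N M, 1 / 2 ≤ A N M) →
  (∀ N M₁ M₂, Real.exp (-η) * A N M₁ * A (N + M₁) M₂ ≤ A N (M₁ + M₂)) →
  (∀ N M, 1 ≤ ∑ j ∈ Finset.range M, u (N + 1 + j) → Real.exp (2 * η) ≤ A N (M + 1)) →
  ∀ N, Real.exp (η * ((∑ j ∈ Finset.range N, u j) / 4 - 2)) / 2 ≤ A 0 N

/-- FALC: the counting estimate behind `S_FAL`, with a general exponent. -/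
def S_FALC : Prop := ∀ (J : Set ℂ) (a r₀ s : ℝ), IsCompact J → 0 < a → 0 < r₀ → 0 < s →
  (∀ x ∈ J, ∀ r : ℝ, 0 < r → r ≤ r₀ → ∃ g : ℂ → ℂ, MapsTo g J (J ∩ closedBall x r) ∧
    ∀ u ∈ J, ∀ v ∈ J, a * r * ‖u - v‖ ≤ ‖g u - g v‖) →
  dimH J ≤ ENNReal.ofReal s →
  ∃ A : ℝ, ∀ r : ℝ, 0 < r → r ≤ r₀ → ∀ (m : ℕ) (x : Fin m → ℂ), (∀ i, x i ∈ J) →
    (∀ i j, i ≠ j → 3 * r ≤ ‖x i - x j‖) → (m : ℝ) * r ^ s ≤ A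

/-- SEPB: from the counting estimate to the moments. -/
def S_SEPB : Prop := ∀ (δ : ℝ) (L : ℕ → ℂ → ℂ), Sys δ L → ∀ (τ c : ℂ) (s A r₀ : ℝ), τ ≠ 0 → 1 ≤ s → s ≤ 2 →
  0 < r₀ →
  (∀ r : ℝ, 0 < r → r ≤ r₀ → ∀ (m : ℕ) (x : Fin m → ℂ),
    (∀ i, x i ∈ (fun z => c + τ * Phi L 0 z) '' sphere 0 1) →
    (∀ i j, i ≠ j → 3 * r ≤ ‖x i - x j‖) → (m : ℝ) * r ^ s ≤ A) →
  ∃ B : ℝ, ∀ n : ℕ, (2 : ℝ) ^ ((n : ℝ) * (1 - s)) *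
    ∫ θ in (0 : ℝ)..(2 * Real.pi), Real.exp (-(s * (S L n (Complex.exp (θ * Complex.I))).re)) ≤
    B * ((n : ℝ) + 1)

/-- PER: Cesàro means of eventually periodic sequences (Mathlib only). -/
def S_PER : Prop := ∀ (u : ℕ → ℝ) (K p : ℕ), 0 < p → (∀ k, K ≤ k → u (k + p) = u k) →
  Tendsto (fun N : ℕ => (∑ k ∈ Finset.range N, u k) / N) atTop
    (𝓝 ((∑ j ∈ Finset.range p, u (K + j)) / p))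

end Pool.Agent.Helper25.RB
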