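import Pool.Agent.Helper25.RB.BES
import Pool.Agent.Helper25.RB.Q
import Pool.Agent.Helper25.RB.Stm6

/-!
# Bessel's inequality with the frequency zero
-/

set_option autoImplicit false

open Filter Topology Metric Set MeasureTheory

namespace Pool.Agent.Helper25.RB.BES0

theorem main : S_BES0 := by
  intro f m hf
  have hpi := Real.pi_pos
  have hpi' : (Real.pi : ℂ) ≠ 0 := by exact_mod_cast hpi.ne'
  set c := ∫ θ in (0 : ℝ)..(2 * Real.pi), f θ with hc
  set μ : ℂ := c / (2 * Real.pi) with hμ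
  have hg : Continuous fun θ => f θ - μ := hf.sub continuous_const
  have h1 := BES.main (fun θ => f θ - μ) m hg
  have hE : ∀ j : ℕ, Continuous fun θ : ℝ => Complex.exp (-(2 ^ j * (θ : ℂ)) * Complex.I) := fun j => by
    fun_prop
  have h2 : ∀ j : ℕ, ∫ θ in (0 : ℝ)..(2 * Real.pi), (f θ - μ) * Complex.exp (-(2 ^ j * θ) * Complex.I) =
      ∫ θ in (0 : ℝ)..(2 * Real.pi), f θ * Complex.exp (-(2 ^ j * θ) * Complex.I) := by
    intro j
    have h3 := Q.int_E j
    have h3' : ∫ t in (0 : ℝ)..(2 * Real.pi), Complex.exp (-(2 ^ j * (t : ℂ)) * Complex.I) = 0 := h3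
    have h4 : ∫ θ in (0 : ℝ)..(2 * Real.pi), (f θ - μ) * Complex.exp (-(2 ^ j * θ) * Complex.I) =
        (∫ θ in (0 : ℝ)..(2 * Real.pi), f θ * Complex.exp (-(2 ^ j * θ) * Complex.I)) -
        ∫ θ in (0 : ℝ)..(2 * Real.pi), μ * Complex.exp (-(2 ^ j * θ) * Complex.I) := by
      rw [← intervalIntegral.integral_sub]
      · exact intervalIntegral.integral_congr fun θ _ => by ring
      · exact (hf.mul (hE j)).intervalIntegrable _ _
      · exact (continuous_const.mul (hE j)).intervalIntegrable _ _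
    rw [h4, intervalIntegral.integral_const_mul, h3', mul_zero, sub_zero]
  simp only [h2] at h1
  have h5 : ∫ θ in (0 : ℝ)..(2 * Real.pi), ‖f θ - μ‖ ^ 2 =
      (∫ θ in (0 : ℝ)..(2 * Real.pi), ‖f θ‖ ^ 2) - ‖c‖ ^ 2 / (2 * Real.pi) := by
    have h6 : ∀ θ, ‖f θ - μ‖ ^ 2 = ‖f θ‖ ^ 2 + (‖μ‖ ^ 2 - 2 * (f θ * (starRingEnd ℂ) μ).re) := by
      intro θ
      rw [← Complex.normSq_eq_norm_sq, ← Complex.normSq_eq_norm_sq, ← Complex.normSq_eq_norm_sq,
        Complex.normSq_sub]
      ring
    have hfc : Continuous fun θ => f θ * (starRingEnd ℂ) μ := hf.mul continuous_const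
    have hre : ∫ θ in (0 : ℝ)..(2 * Real.pi), (f θ * (starRingEnd ℂ) μ).re = (c * (starRingEnd ℂ) μ).re := by
      have h7 := Complex.reCLM.intervalIntegral_comp_comm (hfc.intervalIntegrable (μ := volume) 0 (2 * Real.pi))
      simp only [Complex.reCLM_apply] at h7
      rw [h7, intervalIntegral.integral_mul_const]
    have i1 : IntervalIntegrable (fun θ => ‖f θ‖ ^ 2) volume 0 (2 * Real.pi) :=
      (hf.norm.pow 2).intervalIntegrable _ _
    have i3 : IntervalIntegrable (fun θ => 2 * (f θ * (starRingEnd ℂ) μ).re) volume 0 (2 * Real.pi) :=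
      (continuous_const.mul (Complex.continuous_re.comp hfc)).intervalIntegrable _ _
    have i2 : IntervalIntegrable (fun θ => ‖μ‖ ^ 2 - 2 * (f θ * (starRingEnd ℂ) μ).re) volume 0
        (2 * Real.pi) := (continuous_const.intervalIntegrable _ _).sub i3
    simp only [h6]
    rw [intervalIntegral.integral_add i1 i2,
      intervalIntegral.integral_sub (continuous_const.intervalIntegrable _ _) i3,
      intervalIntegral.integral_const_mul, hre, intervalIntegral.integral_const]
    have h8 : (c * (starRingEnd ℂ) μ).re = ‖c‖ ^ 2 / (2 * Real.pi) := by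
      have h9 : c * (starRingEnd ℂ) μ = ((‖c‖ ^ 2 / (2 * Real.pi) : ℝ) : ℂ) := by
        simp only [hμ, map_div₀, map_mul, Complex.conj_ofReal, map_ofNat]
        rw [mul_div_assoc', Complex.mul_conj, Complex.normSq_eq_norm_sq]
        push_cast; ring
      rw [h9, Complex.ofReal_re]
    have h10 : ‖μ‖ ^ 2 = ‖c‖ ^ 2 / (2 * Real.pi) ^ 2 := by
      rw [hμ, norm_div, div_pow]
      congr 2
      rw [norm_mul, Complex.norm_real, Complex.norm_ofNat, Real.norm_of_nonneg hpi.le]
    rw [h8, h10, sub_zero, smul_eq_mul]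
    field_simp
    ring
  rw [h5, mul_sub, mul_div_cancel₀ _ (by positivity)] at h1
  linarith

end Pool.Agent.Helper25.RB.BES0
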