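import Pool.Agent.Helper25.RB.Stm6

/-!
# BLK: the block argument
-/

set_option autoImplicit false

open Filter Topology Metric Set MeasureTheory

namespace Pool.Agent.Helper25.RB.BLK

theorem main : S_BLK := by
  intro A u η hη hu0 hu1 hA hmul hblk
  have key : ∀ M N : ℕ,
      Real.exp (η * ((∑ j ∈ Finset.range M, u (N + j)) / 4 - 2)) / 2 ≤ A N M := by
    intro M
    induction M using Nat.strong_induction_on with
    | _ M ih =>
      intro N
      set S := ∑ j ∈ Finset.range M, u (N + j) with hS
      by_cases h8 : S ≤ 8
      · have h1 : Real.exp (η * (S / 4 - 2)) ≤ 1 := by
          rw [Real.exp_le_one_iff]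
          nlinarith
        have := hA N M
        linarith
      · push Not at h8
        -- the partial sums
        set P : ℕ → ℝ := fun m => ∑ j ∈ Finset.range m, u (N + 1 + j) with hP
        have hPS : ∀ m, ∑ j ∈ Finset.range (m + 1), u (N + j) = P m + u N := by
          intro m
          rw [Finset.sum_range_succ']
          simp only [hP, add_zero]
          congr 1
          refine Finset.sum_congr rfl fun j _ => ?_
          congr 1
          ring
        have hM0 : 0 < M := by
          rcases Nat.eq_zero_or_pos M with h | h
          · exfalso
            rw [hS, h, Finset.sum_range_zero] at h8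
            linarith
          · exact h
        have hex : ∃ m, 1 ≤ P m := by
          refine ⟨M - 1, ?_⟩
          have h1 := hPS (M - 1)
          have h2 : M - 1 + 1 = M := by omega
          rw [h2] at h1
          have := hu1 N
          linarith
        classical
        set m := Nat.find hex with hm
        have hm1 : 1 ≤ P m := Nat.find_spec hex
        have hm0 : 0 < m := by
          rcases Nat.eq_zero_or_pos m with h | h
          · exfalso
            rw [h] at hm1
            simp only [hP, Finset.sum_range_zero] at hm1
            linarith
          · exact h
        have hm2 : P m ≤ 2 := by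
          have h1 : ¬ 1 ≤ P (m - 1) := Nat.find_min hex (by omega)
          have h2 : P m = P (m - 1) + u (N + 1 + (m - 1)) := by
            have h3 : m = (m - 1) + 1 := by omega
            rw [h3]
            simp only [hP]
            rw [Finset.sum_range_succ]
            simp
          have h3 := hu1 (N + 1 + (m - 1))
          push Not at h1
          linarith
        have hmM : m + 1 ≤ M := by
          by_contra hc
          push Not at hc
          have h1 : S ≤ ∑ j ∈ Finset.range (m + 1), u (N + j) := by
            rw [hS]
            refine Finset.sum_le_sum_of_subset_of_nonneg ?_ (fun _ _ _ => hu0 _)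
            intro x hx
            rw [Finset.mem_range] at hx ⊢
            omega
          rw [hPS m] at h1
          have := hu1 N
          linarith
        obtain ⟨r, hr⟩ := Nat.exists_eq_add_of_le hmM
        have hsplit : S = (P m + u N) + ∑ j ∈ Finset.range r, u (N + (m + 1) + j) := by
          rw [hS, hr, Finset.sum_range_add, hPS m]
          congr 1
          refine Finset.sum_congr rfl fun j _ => ?_
          congr 1
          ring
        set S' := ∑ j ∈ Finset.range r, u (N + (m + 1) + j) with hS'
        have hih := ih r (by omega) (N + (m + 1))
        rw [← hS'] at hih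
        have h1 := hblk N m hm1
        have h2 := hmul N (m + 1) r
        rw [← hr] at h2
        refine le_trans ?_ h2
        have h3 : Real.exp (2 * η) * (Real.exp (η * (S' / 4 - 2)) / 2) ≤
            A N (m + 1) * A (N + (m + 1)) r :=
          mul_le_mul h1 hih (by positivity) (by linarith [hA N (m + 1)])
        have h4 : Real.exp (-η) * (Real.exp (2 * η) * (Real.exp (η * (S' / 4 - 2)) / 2)) ≤
            Real.exp (-η) * (A N (m + 1) * A (N + (m + 1)) r) :=
          mul_le_mul_of_nonneg_left h3 (Real.exp_pos _).le
        have h5 : Real.exp (-η) * (Real.exp (2 * η) * (Real.exp (η * (S' / 4 - 2)) / 2)) =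
            Real.exp (-η + (2 * η + η * (S' / 4 - 2))) / 2 := by
          rw [Real.exp_add, Real.exp_add]
          ring
        have h6 : Real.exp (η * (S / 4 - 2)) ≤ Real.exp (-η + (2 * η + η * (S' / 4 - 2))) := by
          rw [Real.exp_le_exp, hsplit]
          have := hu1 N
          nlinarith
        calc Real.exp (η * (S / 4 - 2)) / 2 ≤
            Real.exp (-η + (2 * η + η * (S' / 4 - 2))) / 2 := by linarith
          _ = Real.exp (-η) * (Real.exp (2 * η) * (Real.exp (η * (S' / 4 - 2)) / 2)) := h5.symm
          _ ≤ Real.exp (-η) * (A N (m + 1) * A (N + (m + 1)) r) := h4
          _ = Real.exp (-η) * A N (m + 1) * A (N + (m + 1)) r := by ring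
  intro N
  have h := key N 0
  simp only [zero_add] at h
  exact h


end Pool.Agent.Helper25.RB.BLK
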