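import Pool.Agent.Helper25.RB.Stm

set_option autoImplicit false

open Filter Topology Metric Set MeasureTheory

namespace Pool.Agent.Helper25.RB.CHO

/-- one chord -/
lemma chord (F : ℝ → ℂ) (hF : Continuous F) {a b : ℝ} (hab : a ≤ b) :
    ENNReal.ofReal ‖F b - F a‖ ≤ μH[1] (F '' Ico a b) := by
  have h1 : Ico (0 : ℝ) ‖F b - F a‖ ⊆ (fun z : ℂ => dist z (F a)) '' (F '' Ico a b) := by
    intro v hv
    have hg : ContinuousOn (fun θ : ℝ => dist (F θ) (F a)) (Icc a b) :=
      (hF.dist continuous_const).continuousOn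
    have hiv := intermediate_value_Icc hab hg
    have hv' : v ∈ Icc (dist (F a) (F a)) (dist (F b) (F a)) := by
      rw [dist_self, dist_eq_norm]; exact ⟨hv.1, hv.2.le⟩
    obtain ⟨θ, hθ, hθv⟩ := hiv hv'
    refine ⟨F θ, ⟨θ, ⟨hθ.1, lt_of_le_of_ne hθ.2 ?_⟩, rfl⟩, hθv⟩
    rintro rfl
    have : dist (F θ) (F a) = ‖F θ - F a‖ := dist_eq_norm _ _
    have h2 := hv.2
    simp only at hθv
    rw [← hθv, this] at h2
    exact lt_irrefl _ h2
  have hlip : LipschitzWith 1 (fun z : ℂ => dist z (F a)) := LipschitzWith.dist_left (F a)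
  have h3 := hlip.hausdorffMeasure_image_le (d := 1) zero_le_one (F '' Ico a b)
  calc ENNReal.ofReal ‖F b - F a‖ = volume (Ico (0 : ℝ) ‖F b - F a‖) := by simp
    _ = μH[1] (Ico (0 : ℝ) ‖F b - F a‖) := by rw [MeasureTheory.hausdorffMeasure_real]
    _ ≤ μH[1] ((fun z : ℂ => dist z (F a)) '' (F '' Ico a b)) := measure_mono h1
    _ ≤ _ := by simpa using h3

theorem main : S_CHO := by
  intro Ψ hc hi hfin N ζ hN hζ
  set F : ℝ → ℂ := fun θ => Ψ (ζ * Complex.exp (θ * Complex.I)) with hFdef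
  have hmem : ∀ θ : ℝ, ζ * Complex.exp (θ * Complex.I) ∈ sphere (0 : ℂ) 1 := by
    intro θ
    simp [hζ, Complex.norm_exp_ofReal_mul_I]
  have hFc : Continuous F := by
    refine hc.comp_continuous ?_ hmem
    fun_prop
  have hζ0 : ζ ≠ 0 := by
    intro h; rw [h] at hζ; simp at hζ
  have hFi : InjOn F (Ico 0 (2 * Real.pi)) := by
    intro s hs t ht hst
    have h1 := hi (hmem s) (hmem t) hst
    have h2 := mul_left_cancel₀ hζ0 h1
    rw [Complex.exp_eq_exp_iff_exists_int] at h2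
    obtain ⟨n, hn⟩ := h2
    have h3 : (s : ℂ) = t + n * (2 * Real.pi) := by
      have : (s : ℂ) * Complex.I = (t + n * (2 * Real.pi)) * Complex.I := by
        rw [hn]; ring
      exact mul_right_cancel₀ Complex.I_ne_zero this
    have h4 : s = t + n * (2 * Real.pi) := by exact_mod_cast h3
    have hpi := Real.pi_pos
    have h5 : (n : ℝ) < 1 := by
      by_contra hcon
      push Not at hcon
      nlinarith [hs.2, ht.1, mul_le_mul_of_nonneg_right hcon (by positivity : (0:ℝ) ≤ 2 * Real.pi)]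
    have h6 : (-1 : ℝ) < n := by
      by_contra hcon
      push Not at hcon
      nlinarith [hs.1, ht.2, mul_le_mul_of_nonneg_right hcon (by positivity : (0:ℝ) ≤ 2 * Real.pi)]
    have h7 : n < 1 := by exact_mod_cast h5
    have h8 : -1 < n := by exact_mod_cast h6
    have h9 : n = 0 := by omega
    rw [h4, h9]; simp
  have hNpos : (0 : ℝ) < N := by exact_mod_cast hN
  have hpi := Real.pi_pos
  set τ : ℕ → ℝ := fun j => 2 * Real.pi * j / N with hτ
  have hτmono : Monotone τ := by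
    intro i j hij
    simp only [hτ]
    have : (i : ℝ) ≤ j := by exact_mod_cast hij
    gcongr
  have hτ0 : τ 0 = 0 := by simp [hτ]
  have hτN : τ N = 2 * Real.pi := by simp only [hτ]; field_simp
  have hsub : ∀ j ∈ Finset.range N, Ico (τ j) (τ (j + 1)) ⊆ Ico 0 (2 * Real.pi) := by
    intro j hj
    have hj' := Finset.mem_range.mp hj
    refine Ico_subset_Ico ?_ ?_
    · rw [← hτ0]; exact hτmono (Nat.zero_le j)
    · rw [← hτN]; exact hτmono hj'
  have hdisj : (↑(Finset.range N) : Set ℕ).PairwiseDisjoint (fun j => F '' Ico (τ j) (τ (j + 1))) := by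
    intro i hi' j hj' hij
    have hi2 : i ∈ Finset.range N := by simpa using hi'
    have hj2 : j ∈ Finset.range N := by simpa using hj'
    refine Set.disjoint_left.mpr ?_
    rintro z ⟨s, hs, rfl⟩ ⟨t, ht, hts⟩
    have hst : t = s := hFi (hsub j hj2 ht) (hsub i hi2 hs) hts
    subst hst
    rcases lt_or_gt_of_ne hij with h | h
    · exact absurd (lt_of_lt_of_le hs.2 (hτmono h)) (not_lt.mpr ht.1)
    · exact absurd (lt_of_lt_of_le ht.2 (hτmono h)) (not_lt.mpr hs.1)
  have hmeas : ∀ j ∈ Finset.range N, MeasurableSet (F '' Ico (τ j) (τ (j + 1))) := by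
    intro j hj
    exact measurableSet_Ico.image_of_continuousOn_injOn hFc.continuousOn (hFi.mono (hsub j hj))
  have hsum : ∑ j ∈ Finset.range N, μH[1] (F '' Ico (τ j) (τ (j + 1))) ≤ μH[1] (Ψ '' sphere 0 1) := by
    rw [← measure_biUnion_finset hdisj hmeas]
    refine measure_mono ?_
    refine Set.iUnion₂_subset ?_
    rintro j hj _ ⟨s, hs, rfl⟩
    exact ⟨_, hmem s, rfl⟩
  have hterm : ∀ j : ℕ, ‖Ψ (ζ * Complex.exp (2 * Real.pi * ((j : ℝ) + 1) / N * Complex.I)) -
      Ψ (ζ * Complex.exp (2 * Real.pi * (j : ℝ) / N * Complex.I))‖ = ‖F (τ (j + 1)) - F (τ j)‖ := by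
    intro j
    simp only [hFdef, hτ]
    push_cast
    rfl
  rw [Finset.sum_congr rfl (fun j _ => hterm j)]
  rw [← ENNReal.ofReal_le_iff_le_toReal hfin.ne]
  rw [ENNReal.ofReal_sum_of_nonneg (fun _ _ => norm_nonneg _)]
  exact (Finset.sum_le_sum fun j _ => chord F hFc (hτmono (Nat.le_succ j))).trans hsum

end Pool.Agent.Helper25.RB.CHO
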