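import Pool.Agent.Helper25.RB.CIR
import Pool.Agent.Helper25.RB.Stm6

/-!
# CI1: mean values on the unit circle
-/

set_option autoImplicit false

open Filter Topology Metric Set MeasureTheory

namespace Pool.Agent.Helper25.RB.CI1

open Pool.Agent.Helper25.JB Pool.Agent.Helper25.RB.CIR

theorem ell_cont {δ : ℝ} {L : ℕ → ℂ → ℂ} (h : Sys δ L) (k : ℕ) :
    ContinuousOn (ell L k) (ball 0 (11 / 10)) := by
  have hsub2 : ball (0 : ℂ) (11 / 10) ⊆ ball 0 2 := ball_subset_ball (by norm_num)
  have hder : DifferentiableOn ℂ (deriv (L k)) (ball 0 2) :=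
    (h.diff k).deriv isOpen_ball
  have h1 : DifferentiableOn ℂ (fun v => 1 + v * deriv (L k) v / 2) (ball 0 (11 / 10)) := by
    refine (differentiableOn_const _).add ((differentiableOn_id.mul (hder.mono hsub2)).div_const 2)
  refine (h1.clog ?_).continuousOn
  intro v hv
  rw [mem_ball, dist_zero_right] at hv
  have hd : ‖deriv (L k) v‖ ≤ δ / (1 / 2) := by
    refine Complex.norm_deriv_le_of_forall_mem_sphere_norm_le (by norm_num) ?_ ?_
    · have hs : closedBall v (1 / 2) ⊆ ball (0 : ℂ) 2 := by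
        intro y hy
        rw [mem_closedBall, dist_eq_norm] at hy
        rw [mem_ball, dist_zero_right]
        have : ‖y‖ ≤ ‖y - v‖ + ‖v‖ := by
          have := norm_add_le (y - v) v
          simpa using this
        linarith
      exact ((h.diff k).mono hs).diffContOnCl_ball subset_rfl
    · intro y hy
      apply h.bd k
      rw [mem_sphere, dist_eq_norm] at hy
      rw [mem_ball, dist_zero_right]
      have : ‖y‖ ≤ ‖y - v‖ + ‖v‖ := by
        have := norm_add_le (y - v) v
        simpa using this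
      linarith
  have hsmall := h.small
  have hn : ‖v * deriv (L k) v / 2‖ < 1 := by
    rw [norm_div, norm_mul]
    have h2 : ‖v‖ * ‖deriv (L k) v‖ ≤ (11 / 10) * (δ / (1 / 2)) := by
      have := norm_nonneg (deriv (L k) v)
      have hδ0 := h.pos
      gcongr
    have h3 : ‖(2 : ℂ)‖ = 2 := by simp
    rw [h3]
    linarith
  rw [Complex.mem_slitPlane_iff]
  left
  have h4 : |(v * deriv (L k) v / 2).re| ≤ ‖v * deriv (L k) v / 2‖ := Complex.abs_re_le_norm _
  have h5 := neg_abs_le (v * deriv (L k) v / 2).re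
  simp only [Complex.add_re, Complex.one_re]
  linarith

theorem Phi_cont {δ : ℝ} {L : ℕ → ℂ → ℂ} (h : Sys δ L) (k : ℕ) :
    ContinuousOn (Phi L k) (closedBall 0 1) := by
  have hδ : δ ≤ 1 / 40 := h.small.trans (by norm_num)
  have hM := maps_Phi h.pos hδ h.diff h.bd h.zero
  intro z hz
  have hz' : ‖z‖ ≤ 1 := by simpa using hz
  rw [ContinuousWithinAt, tendsto_iff_norm_sub_tendsto_zero]
  have hexp : 0 < 1 - 20 * δ := by
    have := h.small
    linarith
  have h1 : Tendsto (fun w : ℂ => 6 * ‖w - z‖ ^ (1 - 20 * δ)) (𝓝[closedBall 0 1] z) (𝓝 0) := by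
    have h2 : Continuous (fun w : ℂ => 6 * ‖w - z‖ ^ (1 - 20 * δ)) := by
      refine continuous_const.mul ?_
      exact (continuous_id.sub continuous_const).norm.rpow_const fun _ => Or.inr hexp.le
    have h3 := h2.tendsto z
    simp only [sub_self, norm_zero] at h3
    rw [Real.zero_rpow hexp.ne', mul_zero] at h3
    exact h3.mono_left nhdsWithin_le_nhds
  refine squeeze_zero' (Eventually.of_forall fun _ => norm_nonneg _) ?_ h1
  filter_upwards [self_mem_nhdsWithin] with w hw
  exact hM.holder k w z (by simpa using hw) hz'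

theorem F_cont {δ : ℝ} {L : ℕ → ℂ → ℂ} (h : Sys δ L) (k : ℕ) :
    ContinuousOn (F L k) (closedBall 0 1) := by
  have hδ : δ ≤ 1 / 40 := h.small.trans (by norm_num)
  have hM := maps_Phi h.pos hδ h.diff h.bd h.zero
  refine (ell_cont h k).comp (Phi_cont h k) ?_
  intro z hz
  rw [mem_closedBall, dist_zero_right] at hz
  rw [mem_ball, dist_zero_right]
  have h1 := JB.upper hM hδ k hz
  linarith

theorem S_cont {δ : ℝ} {L : ℕ → ℂ → ℂ} (h : Sys δ L) (m : ℕ) :
    ContinuousOn (S L m) (closedBall 0 1) := by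
  have h1 : ContinuousOn (fun z => ∑ i ∈ Finset.range m, F L (0 + i) (z ^ (2 ^ i))) (closedBall 0 1) := by
    refine continuousOn_finsetSum _ fun i _ => ?_
    refine (F_cont h (0 + i)).comp (continuousOn_id.pow (2 ^ i)) ?_
    intro z hz
    simp only [id, Pi.pow_apply] at *
    rw [mem_closedBall, dist_zero_right] at hz ⊢
    rw [norm_pow]
    exact pow_le_one₀ (norm_nonneg _) hz
  exact h1.congr fun z _ => S_eq L m z

/-- the projection to `[0, 1]` -/
noncomputable def pr (r : ℝ) : ℝ := max 0 (min r 1)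

theorem pr_cont : Continuous pr := continuous_const.max (continuous_id.min continuous_const)

theorem pr_nonneg (r : ℝ) : 0 ≤ pr r := le_max_left _ _

theorem pr_le (r : ℝ) : pr r ≤ 1 := max_le zero_le_one (min_le_right _ _)

theorem pr_self {r : ℝ} (h0 : 0 ≤ r) (h1 : r ≤ 1) : pr r = r := by
  rw [pr, min_eq_left h1, max_eq_right h0]

/-- the integrals depend continuously on the radius -/
theorem int_cont {δ : ℝ} {L : ℕ → ℂ → ℂ} (h : Sys δ L) (m : ℕ) (g : ℝ → ℂ) (hg : Continuous g) :
    Continuous (fun r : ℝ => ∫ θ in (0 : ℝ)..(2 * Real.pi),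
      Complex.exp (-S L m ((pr r : ℂ) * Complex.exp (θ * Complex.I)) / 2) * g θ) := by
  refine intervalIntegral.continuous_parametric_intervalIntegral_of_continuous' ?_ _ _
  have h1 : Continuous (fun p : ℝ × ℝ => S L m ((pr p.1 : ℂ) * Complex.exp (p.2 * Complex.I))) := by
    refine (S_cont h m).comp_continuous ?_ ?_
    · have := pr_cont
      fun_prop
    · rintro ⟨r, θ⟩
      rw [mem_closedBall, dist_zero_right, norm_mul, Complex.norm_exp_ofReal_mul_I, mul_one,
        Complex.norm_real, Real.norm_eq_abs, abs_of_nonneg (pr_nonneg _)]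
      exact pr_le _
  show Continuous (fun p : ℝ × ℝ =>
    Complex.exp (-S L m ((pr p.1 : ℂ) * Complex.exp (p.2 * Complex.I)) / 2) * g p.2)
  exact ((h1.neg.div_const 2).cexp).mul (hg.comp continuous_snd)

/-- equalities valid for `0 < r < 1` are valid for `r = 1` -/
theorem limit {f g : ℝ → ℂ} (hf : Continuous f) (hg : Continuous g)
    (h : ∀ r : ℝ, 0 < r → r < 1 → f r = g r) : f 1 = g 1 := by
  have h1 : Tendsto f (𝓝[Ioo 0 1] 1) (𝓝 (f 1)) := (hf.tendsto 1).mono_left nhdsWithin_le_nhds
  have h2 : Tendsto g (𝓝[Ioo 0 1] 1) (𝓝 (g 1)) := (hg.tendsto 1).mono_left nhdsWithin_le_nhds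
  have h3 : Tendsto f (𝓝[Ioo 0 1] 1) (𝓝 (g 1)) := by
    refine h2.congr' ?_
    filter_upwards [self_mem_nhdsWithin] with r hr
    exact (h r hr.1 hr.2).symm
  have : (𝓝[Ioo (0 : ℝ) 1] (1 : ℝ)).NeBot := by
    have := right_nhdsWithin_Ioo_neBot (show (0 : ℝ) < 1 by norm_num)
    exact this
  exact tendsto_nhds_unique h1 h3

/-- **CI1**. -/
theorem main : S_CI1 := by
  intro δ L h
  have hC := CIR.main δ L h
  refine ⟨fun j => ?_, fun j m hjm => ?_⟩
  · have h1 := limit (int_cont h j (fun _ => 1) continuous_const)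
      (continuous_const (y := (2 * Real.pi : ℂ))) (fun r hr0 hr1 => ?_)
    · simpa [pr_self zero_le_one le_rfl] using h1
    · have := (hC r hr0 hr1).1 j
      simpa [pr_self hr0.le hr1.le] using this
  · have hg : Continuous (fun θ : ℝ => Complex.exp (-(2 ^ j * θ) * Complex.I)) := by fun_prop
    have h1 := limit (int_cont h m _ hg) (int_cont h (j + 1) _ hg) (fun r hr0 hr1 => ?_)
    · simpa [pr_self zero_le_one le_rfl] using h1
    · have := (hC r hr0 hr1).2 j m hjm
      simpa [pr_self hr0.le hr1.le] using this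

end Pool.Agent.Helper25.RB.CI1
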