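import Pool.Agent.Helper25.RB.Stm2

/-!
# CIR: mean values on the circles
-/

set_option autoImplicit false

open Filter Topology Metric Set MeasureTheory

namespace Pool.Agent.Helper25.RB.CIR

open Pool.Agent.Helper25.JB

/-- the mean value property -/
theorem mean {f : ℂ → ℂ} (hf : DifferentiableOn ℂ f (ball 0 1)) {r : ℝ} (h0 : 0 < r) (h1 : r < 1) :
    ∫ θ in (0 : ℝ)..(2 * Real.pi), f (r * Complex.exp (θ * Complex.I)) = 2 * Real.pi * f 0 := by
  have hsub : closedBall (0 : ℂ) r ⊆ ball 0 1 := closedBall_subset_ball h1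
  have h2 : DiffContOnCl ℂ f (ball 0 r) := (hf.mono hsub).diffContOnCl_ball subset_rfl
  have h3 := h2.circleIntegral_sub_inv_smul (w := 0) (by simpa using h0)
  rw [circleIntegral] at h3
  have h4 : ∀ θ : ℝ, deriv (circleMap 0 r) θ • ((circleMap 0 r θ - 0)⁻¹ • f (circleMap 0 r θ)) =
      Complex.I * f (r * Complex.exp (θ * Complex.I)) := by
    intro θ
    have hr : circleMap 0 r θ ≠ 0 := circleMap_ne_center h0.ne'
    rw [deriv_circleMap, sub_zero, smul_eq_mul, smul_eq_mul]
    have e : circleMap 0 r θ = r * Complex.exp (θ * Complex.I) := by simp [circleMap]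
    rw [← e]
    field_simp
  simp only [h4] at h3
  rw [intervalIntegral.integral_const_mul] at h3
  have hI : Complex.I ≠ 0 := Complex.I_ne_zero
  rw [smul_eq_mul] at h3
  have h5 : Complex.I * (∫ θ in (0 : ℝ)..(2 * Real.pi), f (r * Complex.exp (θ * Complex.I))) =
      Complex.I * (2 * Real.pi * f 0) := by
    rw [h3]; ring
  exact mul_left_cancel₀ hI h5

/-- the summands -/
noncomputable def F (L : ℕ → ℂ → ℂ) (k : ℕ) (w : ℂ) : ℂ := ell L k (Phi L k w)

theorem F_zero (L : ℕ → ℂ → ℂ) (k : ℕ) : F L k 0 = 0 := by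
  simp [F, ell, Phi]

theorem F_diff {δ : ℝ} {L : ℕ → ℂ → ℂ} (h : Sys δ L) (k : ℕ) :
    DifferentiableOn ℂ (F L k) (ball 0 1) := by
  have hδ : δ ≤ 1 / 40 := h.small.trans (by norm_num)
  have hM := maps_Phi h.pos hδ h.diff h.bd h.zero
  have hmap : MapsTo (Phi L k) (ball 0 1) (ball (0 : ℂ) (11 / 10)) := by
    intro z hz
    rw [mem_ball, dist_zero_right] at hz ⊢
    have h1 := JB.upper hM hδ k hz.le
    linarith
  have hell : DifferentiableOn ℂ (ell L k) (ball 0 (11 / 10)) := by
    have hsub2 : ball (0 : ℂ) (11 / 10) ⊆ ball 0 2 := ball_subset_ball (by norm_num)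
    have hder : DifferentiableOn ℂ (deriv (L k)) (ball 0 2) :=
      (h.diff k).deriv isOpen_ball
    have h1 : DifferentiableOn ℂ (fun v => 1 + v * deriv (L k) v / 2) (ball 0 (11 / 10)) := by
      refine (differentiableOn_const _).add ((differentiableOn_id.mul (hder.mono hsub2)).div_const 2)
    refine h1.clog ?_
    intro v hv
    rw [mem_ball, dist_zero_right] at hv
    have hd : ‖deriv (L k) v‖ ≤ δ / (1 / 2) := by
      refine Complex.norm_deriv_le_of_forall_mem_sphere_norm_le (by norm_num) ?_ ?_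
      · have hs : closedBall v (1 / 2) ⊆ ball (0 : ℂ) 2 := by
          intro y hy
          rw [mem_closedBall, dist_eq_norm] at hy
          rw [mem_ball, dist_zero_right]
          have : ‖y‖ ≤ ‖y - v‖ + ‖v‖ := by
            have := norm_add_le (y - v) v
            simpa using this
          linarith
        exact ((h.diff k).mono hs).diffContOnCl_ball subset_rfl
      · intro y hy
        apply h.bd k
        rw [mem_sphere, dist_eq_norm] at hy
        rw [mem_ball, dist_zero_right]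
        have : ‖y‖ ≤ ‖y - v‖ + ‖v‖ := by
          have := norm_add_le (y - v) v
          simpa using this
        linarith
    have hsmall := h.small
    have hn : ‖v * deriv (L k) v / 2‖ < 1 := by
      rw [norm_div, norm_mul]
      have h2 : ‖v‖ * ‖deriv (L k) v‖ ≤ (11 / 10) * (δ / (1 / 2)) := by
        have := norm_nonneg (deriv (L k) v)
        have hδ0 := h.pos
        gcongr
      have h3 : ‖(2 : ℂ)‖ = 2 := by simp
      rw [h3]
      linarith
    rw [Complex.mem_slitPlane_iff]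
    left
    have h4 : |(v * deriv (L k) v / 2).re| ≤ ‖v * deriv (L k) v / 2‖ := Complex.abs_re_le_norm _
    have h5 := neg_abs_le (v * deriv (L k) v / 2).re
    simp only [Complex.add_re, Complex.one_re]
    linarith
  exact hell.comp (hM.diff k) hmap

theorem pow_maps (n : ℕ) (hn : n ≠ 0) : MapsTo (fun z : ℂ => z ^ n) (ball 0 1) (ball 0 1) := by
  intro z hz
  rw [mem_ball, dist_zero_right] at hz ⊢
  rw [norm_pow]
  exact pow_lt_one₀ (norm_nonneg _) hz hn

theorem sum_diff {δ : ℝ} {L : ℕ → ℂ → ℂ} (h : Sys δ L) (k n : ℕ) :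
    DifferentiableOn ℂ (fun z => ∑ i ∈ Finset.range n, F L (k + i) (z ^ (2 ^ i))) (ball 0 1) := by
  refine DifferentiableOn.fun_sum fun i _ => ?_
  exact (F_diff h (k + i)).comp (differentiableOn_id.pow (2 ^ i)) (pow_maps _ (by positivity))

theorem S_eq (L : ℕ → ℂ → ℂ) (m : ℕ) (z : ℂ) :
    S L m z = ∑ i ∈ Finset.range m, F L (0 + i) (z ^ (2 ^ i)) := by
  simp [S, F]

theorem S_diff {δ : ℝ} {L : ℕ → ℂ → ℂ} (h : Sys δ L) (m : ℕ) :
    DifferentiableOn ℂ (S L m) (ball 0 1) := by
  have h1 := sum_diff h 0 m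
  refine h1.congr fun z _ => ?_
  exact S_eq L m z

theorem S_zero (L : ℕ → ℂ → ℂ) (m : ℕ) : S L m 0 = 0 := by
  rw [S_eq]
  refine Finset.sum_eq_zero fun i _ => ?_
  rw [zero_pow (by positivity), F_zero]

theorem S_split (L : ℕ → ℂ → ℂ) (j n : ℕ) (z : ℂ) :
    S L (j + n) z = S L j z + ∑ i ∈ Finset.range n, F L (j + i) ((z ^ (2 ^ j)) ^ (2 ^ i)) := by
  rw [S_eq, S_eq, Finset.sum_range_add]
  congr 1
  refine Finset.sum_congr rfl fun i _ => ?_
  rw [zero_add, ← pow_mul, ← pow_add]

theorem exp_diff {f : ℂ → ℂ} (hf : DifferentiableOn ℂ f (ball 0 1)) :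
    DifferentiableOn ℂ (fun z => Complex.exp (-f z / 2)) (ball 0 1) :=
  (hf.neg.div_const 2).cexp

/-- **CIR**. -/
theorem main : S_CIR := by
  intro δ L h r hr0 hr1
  refine ⟨fun j => ?_, fun j m hjm => ?_⟩
  · have h1 := mean (exp_diff (S_diff h j)) hr0 hr1
    rw [h1, S_zero]
    simp
  · obtain ⟨n, rfl⟩ : ∃ n, m = (j + 1) + n := ⟨m - (j + 1), by omega⟩
    obtain ⟨T, hTd⟩ : ∃ T : ℂ → ℂ, T = fun u => ∑ i ∈ Finset.range n, F L (j + 1 + i) (u ^ (2 ^ i)) :=
      ⟨_, rfl⟩
    have hT : DifferentiableOn ℂ T (ball 0 1) := by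
      rw [hTd]; exact sum_diff h (j + 1) n
    have hT0 : T 0 = 0 := by
      rw [hTd]
      refine Finset.sum_eq_zero fun i _ => ?_
      rw [zero_pow (by positivity), F_zero]
    obtain ⟨H, hHd⟩ : ∃ H : ℂ → ℂ, H = fun u => Complex.exp (-T u / 2) := ⟨_, rfl⟩
    have hH : DifferentiableOn ℂ H (ball 0 1) := by
      rw [hHd]; exact exp_diff hT
    have hH0 : H 0 = 1 := by rw [hHd]; simp [hT0]
    have hds : DifferentiableOn ℂ (dslope H 0) (ball 0 1) :=
      (Complex.differentiableOn_dslope (isOpen_ball.mem_nhds (by simp))).mpr hH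
    have hHe : ∀ u, H u - 1 = u * dslope H 0 u := by
      intro u
      have := sub_smul_dslope H 0 u
      rw [hH0, sub_zero, smul_eq_mul] at this
      exact this.symm
    have hsplit : ∀ z, Complex.exp (-S L (j + 1 + n) z / 2) - Complex.exp (-S L (j + 1) z / 2) =
        Complex.exp (-S L (j + 1) z / 2) *
          (z ^ (2 ^ (j + 1)) * dslope H 0 (z ^ (2 ^ (j + 1)))) := by
      intro z
      rw [← hHe, S_split L (j + 1) n z]
      have e : -(S L (j + 1) z + ∑ i ∈ Finset.range n, F L (j + 1 + i) ((z ^ 2 ^ (j + 1)) ^ 2 ^ i)) / 2 =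
          -S L (j + 1) z / 2 + -T (z ^ (2 ^ (j + 1))) / 2 := by
        rw [hTd]; ring
      rw [e, Complex.exp_add, hHd]
      ring
    obtain ⟨K, hKd⟩ : ∃ K : ℂ → ℂ, K = fun z => Complex.exp (-S L (j + 1) z / 2) *
        ((r : ℂ) ^ (2 ^ j) * z ^ (2 ^ j) * dslope H 0 (z ^ (2 ^ (j + 1)))) := ⟨_, rfl⟩
    have hK : DifferentiableOn ℂ K (ball 0 1) := by
      rw [hKd]
      refine (exp_diff (S_diff h (j + 1))).mul (((differentiableOn_const _).mul
        (differentiableOn_id.pow _)).mul ?_)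
      exact hds.comp (differentiableOn_id.pow _) (pow_maps _ (by positivity))
    have hK0 : K 0 = 0 := by
      rw [hKd]
      simp [zero_pow (show (2 : ℕ) ^ j ≠ 0 by positivity)]
    have hmK := mean hK hr0 hr1
    rw [hK0, mul_zero] at hmK
    have hcont : ∀ m' : ℕ, Continuous (fun θ : ℝ =>
        Complex.exp (-S L m' (r * Complex.exp (θ * Complex.I)) / 2) *
          Complex.exp (-(2 ^ j * θ) * Complex.I)) := by
      intro m'
      refine Continuous.mul ?_ (by fun_prop)
      have hc := (exp_diff (S_diff h m')).continuousOn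
      have hmaps : ∀ θ : ℝ, (r : ℂ) * Complex.exp (θ * Complex.I) ∈ ball (0 : ℂ) 1 := by
        intro θ
        rw [mem_ball, dist_zero_right, norm_mul, Complex.norm_exp_ofReal_mul_I, mul_one,
          Complex.norm_real, Real.norm_eq_abs, abs_of_pos hr0]
        exact hr1
      exact hc.comp_continuous (by fun_prop) hmaps
    rw [← sub_eq_zero, ← intervalIntegral.integral_sub
      ((hcont _).intervalIntegrable _ _) ((hcont _).intervalIntegrable _ _), ← hmK]
    congr 1
    funext θ
    rw [← sub_mul, hsplit, hKd]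
    have e1 : (r * Complex.exp (θ * Complex.I) : ℂ) ^ (2 ^ (j + 1)) *
        Complex.exp (-(2 ^ j * θ) * Complex.I) =
        (r : ℂ) ^ (2 ^ j) * (r * Complex.exp (θ * Complex.I) : ℂ) ^ (2 ^ j) := by
      rw [pow_succ 2 j, pow_mul, pow_two, mul_assoc]
      have e2 : (r * Complex.exp (θ * Complex.I) : ℂ) ^ (2 ^ j) *
          Complex.exp (-(2 ^ j * θ) * Complex.I) = (r : ℂ) ^ (2 ^ j) := by
        rw [mul_pow, ← Complex.exp_nat_mul, mul_assoc, ← Complex.exp_add]
        have e3 : ((2 ^ j : ℕ) : ℂ) * (θ * Complex.I) + -(2 ^ j * θ) * Complex.I = 0 := by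
          push_cast; ring
        rw [e3, Complex.exp_zero, mul_one]
      rw [e2]
      ring
    calc _ = Complex.exp (-S L (j + 1) (r * Complex.exp (θ * Complex.I)) / 2) *
          ((r * Complex.exp (θ * Complex.I) : ℂ) ^ (2 ^ (j + 1)) *
            Complex.exp (-(2 ^ j * θ) * Complex.I)) *
            dslope H 0 ((r * Complex.exp (θ * Complex.I) : ℂ) ^ (2 ^ (j + 1))) := by ring
      _ = _ := by rw [e1]; ring

end Pool.Agent.Helper25.RB.CIR
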