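import Pool.Agent.Helper25.RB.Stm2

/-!
# The Fourier coefficients at the frequencies `2^j` (helper14 for helper25)

`main : S_V → S_Q → S_CIR → S_COE`.
-/

set_option autoImplicit false

open Filter Topology Metric Set MeasureTheory intervalIntegral

namespace Pool.Agent.Helper25.RB.COE

open Pool.Agent.Helper25.JB Pool.Agent.Helper25.RB

theorem cont_of_sqrt {v : ℝ → ℂ} {H : ℝ} (hv : ∀ θ θ' : ℝ, ‖v θ - v θ'‖ ≤ H * Real.sqrt |θ - θ'|) :
    Continuous v := by
  rw [continuous_iff_continuousAt]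
  intro x
  rw [ContinuousAt, tendsto_iff_norm_sub_tendsto_zero]
  have h : Tendsto (fun y : ℝ => H * Real.sqrt |y - x|) (𝓝 x) (𝓝 0) := by
    have h1 : Continuous fun y : ℝ => H * Real.sqrt |y - x| := by fun_prop
    have h2 := h1.tendsto x
    simpa using h2
  exact squeeze_zero (fun y => norm_nonneg _) (fun y => hv y x) h

/-- Fourier coefficients of Hölder functions -/
theorem fou {v : ℝ → ℂ} {H : ℝ} (hp : Function.Periodic v (2 * Real.pi))
    (hv : ∀ θ θ' : ℝ, ‖v θ - v θ'‖ ≤ H * Real.sqrt |θ - θ'|) (N : ℕ) (hN : 0 < N) :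
    ‖∫ θ in (0 : ℝ)..(2 * Real.pi), v θ * Complex.exp (-(N * θ) * Complex.I)‖ ≤
      Real.pi * (H * Real.sqrt (Real.pi / N)) := by
  have hc := cont_of_sqrt hv
  have hN' : (N : ℝ) ≠ 0 := by positivity
  have hNc : (N : ℂ) ≠ 0 := by exact_mod_cast hN.ne'
  set g : ℝ → ℂ := fun θ => v θ * Complex.exp (-(N * θ) * Complex.I) with hg
  have hgp : Function.Periodic g (2 * Real.pi) := by
    intro θ
    simp only [hg, hp θ]
    congr 1
    have : -((N : ℂ) * ((θ + 2 * Real.pi : ℝ) : ℂ)) * Complex.I = -(N * θ) * Complex.I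
        + ((-(N : ℤ) : ℤ) : ℂ) * (2 * Real.pi * Complex.I) := by
      push_cast
      ring
    rw [this, Complex.exp_add, Complex.exp_int_mul_two_pi_mul_I, mul_one]
  have h1 : ∫ θ in (0 : ℝ)..(2 * Real.pi), g θ
      = - ∫ θ in (0 : ℝ)..(2 * Real.pi), v (θ + Real.pi / N) * Complex.exp (-(N * θ) * Complex.I) := by
    have h2 := hgp.intervalIntegral_add_eq 0 (Real.pi / N)
    rw [zero_add] at h2
    have h3 : ∫ θ in (0 : ℝ)..(2 * Real.pi), g (θ + Real.pi / N)
        = ∫ θ in (Real.pi / N)..(Real.pi / N + 2 * Real.pi), g θ := by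
      rw [intervalIntegral.integral_comp_add_right (fun θ => g θ) (Real.pi / N)]
      rw [zero_add, add_comm (2 * Real.pi)]
    rw [h2, ← h3, ← intervalIntegral.integral_neg]
    refine intervalIntegral.integral_congr fun θ _ => ?_
    simp only [hg]
    have : -((N : ℂ) * ((θ + Real.pi / N : ℝ) : ℂ)) * Complex.I
        = -(N * θ) * Complex.I - Real.pi * Complex.I := by
      push_cast
      field_simp
      ring
    rw [this, Complex.exp_sub, Complex.exp_pi_mul_I]
    ring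
  have h4 : (2 : ℂ) * ∫ θ in (0 : ℝ)..(2 * Real.pi), g θ
      = ∫ θ in (0 : ℝ)..(2 * Real.pi), (v θ - v (θ + Real.pi / N)) * Complex.exp (-(N * θ) * Complex.I) := by
    have e : ∀ θ : ℝ, (v θ - v (θ + Real.pi / N)) * Complex.exp (-(N * θ) * Complex.I)
        = g θ - v (θ + Real.pi / N) * Complex.exp (-(N * θ) * Complex.I) := by
      intro θ
      simp only [hg]
      ring
    simp_rw [e]
    rw [intervalIntegral.integral_sub, two_mul]
    · nth_rewrite 2 [h1]
      ring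
    · exact (Continuous.intervalIntegrable (by fun_prop) _ _)
    · exact (Continuous.intervalIntegrable (by fun_prop) _ _)
  have h5 : ‖∫ θ in (0 : ℝ)..(2 * Real.pi), (v θ - v (θ + Real.pi / N)) *
      Complex.exp (-(N * θ) * Complex.I)‖ ≤ (H * Real.sqrt (Real.pi / N)) * |2 * Real.pi - 0| := by
    refine intervalIntegral.norm_integral_le_of_norm_le_const fun θ _ => ?_
    have hn : ‖Complex.exp (-((N : ℂ) * θ) * Complex.I)‖ = 1 := by
      have := Complex.norm_exp_ofReal_mul_I (-(N * θ))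
      rw [← this]
      congr 3
      push_cast
      ring
    rw [norm_mul, hn, mul_one]
    refine (hv _ _).trans ?_
    have : |θ - (θ + Real.pi / N)| = Real.pi / N := by
      rw [show θ - (θ + Real.pi / N) = -(Real.pi / N) by ring, abs_neg, abs_of_pos (by positivity)]
    rw [this]
  rw [← h4, norm_mul, sub_zero, abs_of_pos (by positivity)] at h5
  have h6 : ‖(2 : ℂ)‖ = 2 := by norm_num
  rw [h6] at h5
  nlinarith [Real.pi_pos]

/-- orthogonality -/
theorem orth (m : ℤ) : ∫ θ in (0 : ℝ)..(2 * Real.pi), Complex.exp ((m : ℂ) * θ * Complex.I) =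
    if m = 0 then 2 * Real.pi else 0 := by
  split_ifs with h
  · subst h
    simp
  · have hc : (m : ℂ) * Complex.I ≠ 0 := by
      simp [h]
    have e : ∀ θ : ℝ, Complex.exp ((m : ℂ) * θ * Complex.I) = Complex.exp ((m : ℂ) * Complex.I * θ) := by
      intro θ
      congr 1
      ring
    simp_rw [e]
    rw [integral_exp_mul_complex hc]
    have h1 : (m : ℂ) * Complex.I * ((2 * Real.pi : ℝ) : ℂ) = m * (2 * Real.pi * Complex.I) := by
      push_cast
      ring
    rw [h1, Complex.exp_int_mul_two_pi_mul_I]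
    simp

/-- the polynomial part -/
theorem poly (A B : ℂ) (ρ : ℝ) (i : ℕ) :
    ∫ θ in (0 : ℝ)..(2 * Real.pi), (A / 2 * (ρ * Complex.exp (θ * Complex.I)) +
      B * (ρ * Complex.exp (θ * Complex.I)) ^ 2) / 2 * Complex.exp (-(2 ^ i * θ) * Complex.I) =
    if i = 0 then Real.pi * ρ * (A / 2) else if i = 1 then Real.pi * ρ ^ 2 * B else 0 := by
  have e : ∀ θ : ℝ, (A / 2 * (ρ * Complex.exp (θ * Complex.I)) +
      B * (ρ * Complex.exp (θ * Complex.I)) ^ 2) / 2 * Complex.exp (-(2 ^ i * θ) * Complex.I)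
      = A * ρ / 4 * Complex.exp (((1 - 2 ^ i : ℤ) : ℂ) * θ * Complex.I)
        + B * ρ ^ 2 / 2 * Complex.exp (((2 - 2 ^ i : ℤ) : ℂ) * θ * Complex.I) := by
    intro θ
    have e1 : Complex.exp (((1 - 2 ^ i : ℤ) : ℂ) * θ * Complex.I)
        = Complex.exp (θ * Complex.I) * Complex.exp (-(2 ^ i * θ) * Complex.I) := by
      rw [← Complex.exp_add]
      congr 1
      push_cast
      ring
    have e2 : Complex.exp (((2 - 2 ^ i : ℤ) : ℂ) * θ * Complex.I)
        = Complex.exp (θ * Complex.I) ^ 2 * Complex.exp (-(2 ^ i * θ) * Complex.I) := by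
      rw [← Complex.exp_nat_mul, ← Complex.exp_add]
      congr 1
      push_cast
      ring
    rw [e1, e2]
    ring
  simp_rw [e]
  rw [intervalIntegral.integral_add (Continuous.intervalIntegrable (by fun_prop) _ _)
    (Continuous.intervalIntegrable (by fun_prop) _ _), intervalIntegral.integral_const_mul,
    intervalIntegral.integral_const_mul, orth, orth]
  rcases i with _ | _ | i
  · simp
    ring
  · simp
    ring
  · have h1 : (1 - 2 ^ (i + 1 + 1) : ℤ) ≠ 0 := by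
      have : (2 : ℤ) ^ (i + 1 + 1) ≥ 2 ^ 2 := pow_le_pow_right₀ (by norm_num) (by omega)
      intro h
      norm_num at this
      omega
    have h2 : (2 - 2 ^ (i + 1 + 1) : ℤ) ≠ 0 := by
      have : (2 : ℤ) ^ (i + 1 + 1) ≥ 2 ^ 2 := pow_le_pow_right₀ (by norm_num) (by omega)
      intro h
      norm_num at this
      omega
    rw [if_neg h1, if_neg h2, if_neg (by omega), if_neg (by omega)]
    simp

/-- the products are exponentials of sums -/
theorem prod_eq (L : ℕ → ℂ → ℂ) (r : ℝ) (m : ℕ) (θ : ℝ) :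
    ∏ i ∈ Finset.range m, ee L i (r ^ (2 ^ i)) (2 ^ i * θ)
      = Complex.exp (-S L m (r * Complex.exp (θ * Complex.I)) / 2) := by
  rw [S, ← Finset.sum_neg_distrib, Finset.sum_div, Complex.exp_sum]
  refine Finset.prod_congr rfl fun i _ => ?_
  rw [ee]
  congr 5
  rw [mul_pow, ← Complex.exp_nat_mul]
  push_cast
  congr 2
  ring

theorem ee_per (L : ℕ → ℂ → ℂ) (k : ℕ) (r : ℝ) : Function.Periodic (ee L k r) (2 * Real.pi) := by
  intro θ
  have : Complex.exp (((θ + 2 * Real.pi : ℝ) : ℂ) * Complex.I) = Complex.exp (θ * Complex.I) := by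
    rw [show ((θ + 2 * Real.pi : ℝ) : ℂ) * Complex.I = θ * Complex.I + 2 * Real.pi * Complex.I by
      push_cast; ring, Complex.exp_add, Complex.exp_two_pi_mul_I, mul_one]
  rw [ee, ee, this]

/-- the geometric sum -/
theorem geo (m : ℕ) : ∑ i ∈ Finset.range m, Real.sqrt (Real.pi / (2 ^ i : ℕ)) ≤ 8 := by
  have h : ∀ m : ℕ, ∑ i ∈ Finset.range m, Real.sqrt (Real.pi / (2 ^ i : ℕ)) ≤ 8 * (1 - (3 / 4 : ℝ) ^ m) := by
    intro m
    induction m with
    | zero => simp
    | succ m ih =>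
      rw [Finset.sum_range_succ]
      have h1 : Real.sqrt (Real.pi / (2 ^ m : ℕ)) ≤ 2 * (3 / 4 : ℝ) ^ m := by
        rw [Real.sqrt_le_left (by positivity)]
        have h2 : (2 * (3 / 4 : ℝ) ^ m) ^ 2 = 4 * (9 / 16 : ℝ) ^ m := by
          rw [mul_pow, ← pow_mul, mul_comm m 2, pow_mul]
          norm_num
        rw [h2]
        push_cast
        rw [div_le_iff₀ (by positivity)]
        have h3 : (1 : ℝ) ≤ (9 / 16 : ℝ) ^ m * 2 ^ m := by
          rw [← mul_pow]
          exact one_le_pow₀ (by norm_num)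
        nlinarith [Real.pi_lt_four]
      have h4 : (3 / 4 : ℝ) ^ (m + 1) = (3 / 4) ^ m * (3 / 4) := pow_succ _ _
      rw [h4]
      linarith
  refine (h m).trans ?_
  have : (0 : ℝ) ≤ (3 / 4) ^ m := by positivity
  linarith

theorem main : S_V → S_Q → S_CIR → S_COE := by
  rintro ⟨C, hC, hV⟩ ⟨D, hD, hQ⟩ hCIR
  refine ⟨D * C ^ 2 + 100 * C, by nlinarith [mul_pos hD (pow_pos (lt_of_lt_of_le one_pos hC) 2)], ?_⟩
  intro δ L a b hS hδ ha hb hab j r hr0 hr1
  have hδ0 := hS.pos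
  have hCδ : C * δ ≤ 1 / 100 := by
    have h1 : 0 ≤ D * C ^ 2 * δ := by positivity
    nlinarith
  have hV' := hV δ L a b hS ha hb hab
  have hrk : ∀ k : ℕ, 0 ≤ r ^ (2 ^ k) ∧ r ^ (2 ^ k) ≤ 1 := fun k =>
    ⟨by positivity, pow_le_one₀ hr0.le hr1.le⟩
  set e : ℕ → ℝ → ℂ := fun k => ee L k (r ^ (2 ^ k)) with he
  have hq := hQ (C * δ) e (by positivity) hCδ (fun k => ee_per L k _)
    (fun k θ => (hV' k _ (hrk k).1 (hrk k).2).1 θ)
    (fun k θ θ' => (hV' k _ (hrk k).1 (hrk k).2).2.1 θ θ')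
    (fun m => by
      have h := (hCIR δ L hS r hr0 hr1).1 m
      rw [← h]
      refine intervalIntegral.integral_congr fun θ _ => ?_
      exact prod_eq L r m θ) (j + 1)
  have hq1 : ∫ θ in (0 : ℝ)..(2 * Real.pi), (∏ i ∈ Finset.range (j + 1 + 1), e i (2 ^ i * θ)) *
      Complex.exp (-(2 ^ (j + 1) * θ) * Complex.I) =
      ∫ θ in (0 : ℝ)..(2 * Real.pi), Complex.exp (-S L (j + 2) (r * Complex.exp (θ * Complex.I)) / 2) *
      Complex.exp (-(2 ^ (j + 1) * θ) * Complex.I) := by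
    refine intervalIntegral.integral_congr fun θ _ => ?_
    have := prod_eq L r (j + 2) θ
    simp only [he]
    rw [this]
  rw [hq1] at hq
  -- the remainders
  set v : ℕ → ℝ → ℂ := fun k θ => e k θ - 1 +
    (a k / 2 * ((r ^ (2 ^ k) : ℝ) * Complex.exp (θ * Complex.I)) +
      b k * ((r ^ (2 ^ k) : ℝ) * Complex.exp (θ * Complex.I)) ^ 2) / 2 with hv
  have hvH : ∀ k θ θ', ‖v k θ - v k θ'‖ ≤ C * δ ^ 2 * Real.sqrt |θ - θ'| := by
    intro k θ θ'
    exact (hV' k _ (hrk k).1 (hrk k).2).2.2 θ θ'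
  have hvp : ∀ k, Function.Periodic (v k) (2 * Real.pi) := by
    intro k θ
    have h1 : Complex.exp (((θ + 2 * Real.pi : ℝ) : ℂ) * Complex.I) = Complex.exp (θ * Complex.I) := by
      rw [show ((θ + 2 * Real.pi : ℝ) : ℂ) * Complex.I = θ * Complex.I + 2 * Real.pi * Complex.I by
        push_cast; ring, Complex.exp_add, Complex.exp_two_pi_mul_I, mul_one]
    have h2 := ee_per L k (r ^ (2 ^ k)) θ
    simp only [hv, he]
    rw [h2, h1]
  have hI : ∀ i ∈ Finset.range (j + 1 + 1), ∫ θ in (0 : ℝ)..(2 * Real.pi), (e (j + 1 - i) θ - 1) *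
      Complex.exp (-(2 ^ i * θ) * Complex.I) =
      (∫ θ in (0 : ℝ)..(2 * Real.pi), v (j + 1 - i) θ * Complex.exp (-((2 ^ i : ℕ) * θ) * Complex.I)) -
      (if i = 0 then Real.pi * ((r ^ (2 ^ (j + 1 - i)) : ℝ) : ℂ) * (a (j + 1 - i) / 2) else
        if i = 1 then Real.pi * ((r ^ (2 ^ (j + 1 - i)) : ℝ) : ℂ) ^ 2 * b (j + 1 - i) else 0) := by
    intro i _
    rw [← poly (a (j + 1 - i)) (b (j + 1 - i)) (r ^ (2 ^ (j + 1 - i))) i]
    have hc := cont_of_sqrt (hvH (j + 1 - i))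
    rw [← intervalIntegral.integral_sub]
    · refine intervalIntegral.integral_congr fun θ _ => ?_
      simp only [hv]
      push_cast
      ring
    · exact Continuous.intervalIntegrable (by fun_prop) _ _
    · exact Continuous.intervalIntegrable (by fun_prop) _ _
  rw [Finset.sum_congr rfl hI, Finset.sum_sub_distrib] at hq
  have hmain : ∑ i ∈ Finset.range (j + 1 + 1),
      (if i = 0 then Real.pi * ((r ^ (2 ^ (j + 1 - i)) : ℝ) : ℂ) * (a (j + 1 - i) / 2) else
        if i = 1 then Real.pi * ((r ^ (2 ^ (j + 1 - i)) : ℝ) : ℂ) ^ 2 * b (j + 1 - i) else 0)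
      = Real.pi * r ^ (2 ^ (j + 1)) * (a (j + 1) / 2 + b j) := by
    rw [Finset.sum_range_succ', Finset.sum_range_succ']
    simp only [Nat.add_eq_zero_iff, one_ne_zero, and_false, if_false, zero_add, if_true, Nat.sub_zero,
      Nat.add_sub_cancel]
    have h0 : ∑ x ∈ Finset.range j, (if x + 1 + 1 = 1 then
        Real.pi * ((r ^ (2 ^ (j + 1 - (x + 1 + 1))) : ℝ) : ℂ) ^ 2 * b (j + 1 - (x + 1 + 1)) else 0) = 0 :=
      Finset.sum_eq_zero fun x _ => if_neg (by omega)
    rw [h0]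
    have h2 : (((r ^ (2 ^ j) : ℝ) : ℂ)) ^ 2 = (r : ℂ) ^ (2 ^ (j + 1)) := by
      push_cast
      rw [← pow_mul, ← pow_succ]
    rw [h2]
    push_cast
    ring
  rw [hmain] at hq
  have hrem : ‖∑ i ∈ Finset.range (j + 1 + 1), ∫ θ in (0 : ℝ)..(2 * Real.pi), v (j + 1 - i) θ *
      Complex.exp (-((2 ^ i : ℕ) * θ) * Complex.I)‖ ≤ 50 * C * δ ^ 2 := by
    refine (norm_sum_le _ _).trans ?_
    have h1 : ∀ i ∈ Finset.range (j + 1 + 1), ‖∫ θ in (0 : ℝ)..(2 * Real.pi), v (j + 1 - i) θ *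
        Complex.exp (-((2 ^ i : ℕ) * θ) * Complex.I)‖ ≤
        Real.pi * (C * δ ^ 2) * Real.sqrt (Real.pi / (2 ^ i : ℕ)) := by
      intro i _
      have := fou (hvp (j + 1 - i)) (hvH (j + 1 - i)) (2 ^ i) (by positivity)
      rw [mul_assoc]
      exact this
    refine (Finset.sum_le_sum h1).trans ?_
    rw [← Finset.mul_sum]
    have h2 := geo (j + 1 + 1)
    have h3 : 0 ≤ Real.pi * (C * δ ^ 2) := by positivity
    have h4 : Real.pi * (C * δ ^ 2) * ∑ i ∈ Finset.range (j + 1 + 1), Real.sqrt (Real.pi / (2 ^ i : ℕ))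
        ≤ Real.pi * (C * δ ^ 2) * 8 := mul_le_mul_of_nonneg_left h2 h3
    have h5 : 0 ≤ C * δ ^ 2 := by positivity
    nlinarith [Real.pi_lt_four]
  have hfin : (∫ θ in (0 : ℝ)..(2 * Real.pi), Complex.exp (-S L (j + 2) (r * Complex.exp (θ * Complex.I)) / 2) *
      Complex.exp (-(2 ^ (j + 1) * θ) * Complex.I)) + Real.pi * r ^ (2 ^ (j + 1)) * (a (j + 1) / 2 + b j)
      = ((∫ θ in (0 : ℝ)..(2 * Real.pi),
          Complex.exp (-S L (j + 2) (r * Complex.exp (θ * Complex.I)) / 2) *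
          Complex.exp (-(2 ^ (j + 1) * θ) * Complex.I)) -
        (∑ i ∈ Finset.range (j + 1 + 1), (∫ θ in (0 : ℝ)..(2 * Real.pi), v (j + 1 - i) θ *
          Complex.exp (-((2 ^ i : ℕ) * θ) * Complex.I)) -
          Real.pi * r ^ (2 ^ (j + 1)) * (a (j + 1) / 2 + b j))) +
        ∑ i ∈ Finset.range (j + 1 + 1), ∫ θ in (0 : ℝ)..(2 * Real.pi), v (j + 1 - i) θ *
          Complex.exp (-((2 ^ i : ℕ) * θ) * Complex.I) := by ring
  rw [hfin]
  refine (norm_add_le _ _).trans ?_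
  have h5 : 0 ≤ C * δ ^ 2 := by positivity
  have := add_le_add hq hrem
  refine this.trans ?_
  nlinarith

end Pool.Agent.Helper25.RB.COE
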