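import Pool.Agent.Helper25.RB.Stm6
import Pool.Agent.Helper25.RB.COE

/-!
# The Fourier coefficients at the frequencies `2^j`, local bounds (helper14 for helper25)

`main : S_VL → S_QL → S_CI1 → S_COEL`.
-/

set_option autoImplicit false

open Filter Topology Metric Set MeasureTheory intervalIntegral

namespace Pool.Agent.Helper25.RB.COEL

open Pool.Agent.Helper25.JB Pool.Agent.Helper25.RB
open Pool.Agent.Helper25.RB.COE (cont_of_sqrt fou orth ee_per prod_eq)

/-- the polynomial part -/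
theorem poly (A B : ℂ) (i : ℕ) :
    ∫ θ in (0 : ℝ)..(2 * Real.pi), (A / 2 * Complex.exp (θ * Complex.I) +
      B * Complex.exp (θ * Complex.I) ^ 2) / 2 * Complex.exp (-(2 ^ i * θ) * Complex.I) =
    if i = 0 then Real.pi * (A / 2) else if i = 1 then Real.pi * B else 0 := by
  have h := COE.poly A B 1 i
  simp only [Complex.ofReal_one, one_mul, mul_one, one_pow] at h
  exact h

theorem prod1 (L : ℕ → ℂ → ℂ) (m : ℕ) (θ : ℝ) :
    ∏ i ∈ Finset.range m, ee L i 1 (2 ^ i * θ)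
      = Complex.exp (-S L m (Complex.exp (θ * Complex.I)) / 2) := by
  have h := prod_eq L 1 m θ
  simp only [one_pow, Complex.ofReal_one, one_mul] at h
  exact h

theorem sqrt_pow (i : ℕ) : Real.sqrt (Real.pi / (2 ^ i : ℕ)) ≤ 2 * (3 / 4 : ℝ) ^ i := by
  rw [Real.sqrt_le_left (by positivity)]
  have h2 : (2 * (3 / 4 : ℝ) ^ i) ^ 2 = 4 * (9 / 16 : ℝ) ^ i := by
    rw [mul_pow, ← pow_mul, mul_comm i 2, pow_mul]
    norm_num
  rw [h2]
  push_cast
  rw [div_le_iff₀ (by positivity)]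
  have h3 : (1 : ℝ) ≤ (9 / 16 : ℝ) ^ i * 2 ^ i := by
    rw [← mul_pow]
    exact one_le_pow₀ (by norm_num)
  nlinarith [Real.pi_lt_four]

theorem main : S_VL → S_QL → S_CI1 → S_COEL := by
  rintro ⟨C, hC, hV⟩ ⟨D, hD, hQ⟩ hCIR
  refine ⟨D * C ^ 2 + 100 * C, by nlinarith [mul_pos hD (pow_pos (lt_of_lt_of_le one_pos hC) 2)], ?_⟩
  intro δ L w a b hS hδ hw hLw ha hb hab j
  have hδ0 := hS.pos
  have hC0 : 0 ≤ C := by linarith
  have hw0 : ∀ k, 0 ≤ w k := fun k => (norm_nonneg _).trans (ha k)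
  have hCδ : C * δ ≤ 1 / 100 := by
    have h1 : 0 ≤ D * C ^ 2 * δ := by positivity
    nlinarith
  have hV' := hV δ L w a b hS hw hLw ha hb hab
  set e : ℕ → ℝ → ℂ := fun k => ee L k 1 with he
  have hq := hQ (C * δ) (fun k => C * w k) e (by positivity) hCδ
    (fun k => mul_nonneg hC0 (hw0 k)) (fun k => mul_le_mul_of_nonneg_left (hw k) hC0)
    (fun k => ee_per L k _)
    (fun k θ => (hV' k).1 θ)
    (fun k θ θ' => (hV' k).2.1 θ θ')
    (fun m => by
      have h := (hCIR δ L hS).1 m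
      rw [← h]
      refine intervalIntegral.integral_congr fun θ _ => ?_
      exact prod1 L m θ) (j + 1)
  have hq1 : ∫ θ in (0 : ℝ)..(2 * Real.pi), (∏ i ∈ Finset.range (j + 1 + 1), e i (2 ^ i * θ)) *
      Complex.exp (-(2 ^ (j + 1) * θ) * Complex.I) =
      ∫ θ in (0 : ℝ)..(2 * Real.pi), Complex.exp (-S L (j + 2) (Complex.exp (θ * Complex.I)) / 2) *
      Complex.exp (-(2 ^ (j + 1) * θ) * Complex.I) := by
    refine intervalIntegral.integral_congr fun θ _ => ?_
    have := prod1 L (j + 2) θ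
    simp only [he]
    rw [this]
  rw [hq1] at hq
  -- the remainders
  set v : ℕ → ℝ → ℂ := fun k θ => e k θ - 1 +
    (a k / 2 * Complex.exp (θ * Complex.I) + b k * Complex.exp (θ * Complex.I) ^ 2) / 2 with hv
  have hvH : ∀ k θ θ', ‖v k θ - v k θ'‖ ≤ C * δ * w k * Real.sqrt |θ - θ'| := by
    intro k θ θ'
    exact (hV' k).2.2 θ θ'
  have hvp : ∀ k, Function.Periodic (v k) (2 * Real.pi) := by
    intro k θ
    have h1 : Complex.exp (((θ + 2 * Real.pi : ℝ) : ℂ) * Complex.I) = Complex.exp (θ * Complex.I) := by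
      rw [show ((θ + 2 * Real.pi : ℝ) : ℂ) * Complex.I = θ * Complex.I + 2 * Real.pi * Complex.I by
        push_cast; ring, Complex.exp_add, Complex.exp_two_pi_mul_I, mul_one]
    have h2 := ee_per L k 1 θ
    simp only [hv, he]
    rw [h2, h1]
  have hI : ∀ i ∈ Finset.range (j + 1 + 1), ∫ θ in (0 : ℝ)..(2 * Real.pi), (e (j + 1 - i) θ - 1) *
      Complex.exp (-(2 ^ i * θ) * Complex.I) =
      (∫ θ in (0 : ℝ)..(2 * Real.pi), v (j + 1 - i) θ * Complex.exp (-((2 ^ i : ℕ) * θ) * Complex.I)) -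
      (if i = 0 then Real.pi * (a (j + 1 - i) / 2) else
        if i = 1 then Real.pi * b (j + 1 - i) else 0) := by
    intro i _
    rw [← poly (a (j + 1 - i)) (b (j + 1 - i)) i]
    have hc := cont_of_sqrt (hvH (j + 1 - i))
    rw [← intervalIntegral.integral_sub]
    · refine intervalIntegral.integral_congr fun θ _ => ?_
      simp only [hv]
      push_cast
      ring
    · exact Continuous.intervalIntegrable (by fun_prop) _ _
    · exact Continuous.intervalIntegrable (by fun_prop) _ _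
  rw [Finset.sum_congr rfl hI, Finset.sum_sub_distrib] at hq
  have hmain : ∑ i ∈ Finset.range (j + 1 + 1),
      (if i = 0 then Real.pi * (a (j + 1 - i) / 2) else
        if i = 1 then Real.pi * b (j + 1 - i) else 0)
      = Real.pi * (a (j + 1) / 2 + b j) := by
    rw [Finset.sum_range_succ', Finset.sum_range_succ']
    simp only [Nat.add_eq_zero_iff, one_ne_zero, and_false, if_false, zero_add, if_true, Nat.sub_zero,
      Nat.add_sub_cancel]
    have h0 : ∑ x ∈ Finset.range j, (if x + 1 + 1 = 1 then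
        (Real.pi : ℂ) * b (j + 1 - (x + 1 + 1)) else 0) = 0 :=
      Finset.sum_eq_zero fun x _ => if_neg (by omega)
    rw [h0]
    ring
  rw [hmain] at hq
  have hrem : ‖∑ i ∈ Finset.range (j + 1 + 1), ∫ θ in (0 : ℝ)..(2 * Real.pi), v (j + 1 - i) θ *
      Complex.exp (-((2 ^ i : ℕ) * θ) * Complex.I)‖ ≤
      8 * C * δ * ∑ i ∈ Finset.range (j + 1 + 1), (3 / 4 : ℝ) ^ i * w (j + 1 - i) := by
    refine (norm_sum_le _ _).trans ?_
    rw [Finset.mul_sum]
    refine Finset.sum_le_sum fun i _ => ?_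
    have h1 := fou (hvp (j + 1 - i)) (hvH (j + 1 - i)) (2 ^ i) (by positivity)
    refine h1.trans ?_
    have h2 := sqrt_pow i
    have h3 : 0 ≤ C * δ * w (j + 1 - i) := mul_nonneg (by positivity) (hw0 _)
    have h4 : C * δ * w (j + 1 - i) * Real.sqrt (Real.pi / (2 ^ i : ℕ)) ≤
        C * δ * w (j + 1 - i) * (2 * (3 / 4 : ℝ) ^ i) := mul_le_mul_of_nonneg_left h2 h3
    have h5 : 0 ≤ C * δ * w (j + 1 - i) * (2 * (3 / 4 : ℝ) ^ i) := by positivity
    nlinarith [Real.pi_lt_four, Real.pi_pos]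
  have hfin : (∫ θ in (0 : ℝ)..(2 * Real.pi), Complex.exp (-S L (j + 2) (Complex.exp (θ * Complex.I)) / 2) *
      Complex.exp (-(2 ^ (j + 1) * θ) * Complex.I)) + Real.pi * (a (j + 1) / 2 + b j)
      = ((∫ θ in (0 : ℝ)..(2 * Real.pi),
          Complex.exp (-S L (j + 2) (Complex.exp (θ * Complex.I)) / 2) *
          Complex.exp (-(2 ^ (j + 1) * θ) * Complex.I)) -
        (∑ i ∈ Finset.range (j + 1 + 1), (∫ θ in (0 : ℝ)..(2 * Real.pi), v (j + 1 - i) θ *
          Complex.exp (-((2 ^ i : ℕ) * θ) * Complex.I)) -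
          Real.pi * (a (j + 1) / 2 + b j))) +
        ∑ i ∈ Finset.range (j + 1 + 1), ∫ θ in (0 : ℝ)..(2 * Real.pi), v (j + 1 - i) θ *
          Complex.exp (-((2 ^ i : ℕ) * θ) * Complex.I) := by ring
  rw [hfin]
  refine (norm_add_le _ _).trans ?_
  refine (add_le_add hq hrem).trans ?_
  set Sg : ℝ := ∑ i ∈ Finset.range (j + 1 + 1), (3 / 4 : ℝ) ^ i * w (j + 1 - i) with hSg
  have h0 : 0 ≤ Sg := Finset.sum_nonneg fun i _ => mul_nonneg (by positivity) (hw0 _)
  have h1 : ∑ i ∈ Finset.range (j + 1 + 1), (3 / 4 : ℝ) ^ i * (C * w (j + 1 - i)) = C * Sg := by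
    rw [hSg, Finset.mul_sum]
    exact Finset.sum_congr rfl fun i _ => by ring
  rw [h1]
  show _ ≤ (D * C ^ 2 + 100 * C) * δ * Sg
  have h2 : 0 ≤ C * δ * Sg := by positivity
  nlinarith

end Pool.Agent.Helper25.RB.COEL
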