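import Pool.Agent.Helper25.RB.Stm2

/-!
# Statements for the Hausdorff dimension of the boundaries
-/

set_option autoImplicit false

open Filter Topology Metric Set MeasureTheory

namespace Pool.Agent.Helper25.RB

open Pool.Agent.Helper25.JB

/-- FAL: quasi self-similar sets (Falconer 1989): a compact set which can be embedded by lower Lipschitz maps
(not necessarily continuous) in its small balls and has dimension at most `1` has finite length. -/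
def S_FAL : Prop := ∀ (J : Set ℂ) (a r₀ : ℝ), IsCompact J → 0 < a → 0 < r₀ →
  (∀ x ∈ J, ∀ r : ℝ, 0 < r → r ≤ r₀ → ∃ g : ℂ → ℂ, MapsTo g J (J ∩ closedBall x r) ∧
    ∀ u ∈ J, ∀ v ∈ J, a * r * ‖u - v‖ ≤ ‖g u - g v‖) →
  dimH J ≤ 1 → μH[1] J < ⊤

/-- DIS: bounded distortion along the boundary. -/
def S_DIS : Prop := ∃ C : ℝ, 1 ≤ C ∧ ∀ (δ : ℝ) (L : ℕ → ℂ → ℂ), Sys δ L →
  ∃ D : ℕ → ℝ → ℝ, (∀ θ, D 0 θ = 1) ∧ (∀ n θ, 3 / 2 * D n θ ≤ D (n + 1) θ ∧ D (n + 1) θ ≤ 3 * D n θ) ∧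
    ∀ (n : ℕ) (θ θ' θ'' : ℝ), |θ - θ'| ≤ 2 * Real.pi / 2 ^ n → |θ - θ''| ≤ 2 * Real.pi / 2 ^ n →
      |θ' - θ''| ≤ 2 * Real.pi / 2 ^ n →
      ‖Phi L n (Complex.exp (θ * Complex.I) ^ (2 ^ n)) - Phi L n (Complex.exp (θ' * Complex.I) ^ (2 ^ n))‖ ≤
          C * D n θ'' * ‖Phi L 0 (Complex.exp (θ * Complex.I)) - Phi L 0 (Complex.exp (θ' * Complex.I))‖ ∧
        ‖Phi L 0 (Complex.exp (θ * Complex.I)) - Phi L 0 (Complex.exp (θ' * Complex.I))‖ * D n θ'' ≤ C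

end Pool.Agent.Helper25.RB
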