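import Pool.Agent.Helper25.RB.DER
import Pool.Agent.Helper25.RB.Stm3

/-!
# Bounded distortion along the boundary
-/

set_option autoImplicit false

open Filter Topology Metric Set MeasureTheory

namespace Pool.Agent.Helper25.RB.DIS

open Pool.Agent.Helper25.JB Pool.Agent.Helper25.RB Pool.Agent.Helper25.RB.DER

variable {δ : ℝ} {L : ℕ → ℂ → ℂ}

/-- the maps `v ↦ v² exp (L_j v)` -/
noncomputable def H (L : ℕ → ℂ → ℂ) (j : ℕ) (v : ℂ) : ℂ := v ^ 2 * Complex.exp (L j v)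

/-- the orbit of a boundary point -/
noncomputable def u (L : ℕ → ℂ → ℂ) (j : ℕ) (θ : ℝ) : ℂ := Phi L j (Complex.exp (θ * Complex.I) ^ (2 ^ j))

theorem norm_z (θ : ℝ) (j : ℕ) : ‖Complex.exp (θ * Complex.I) ^ (2 ^ j)‖ = 1 := by
  rw [norm_pow, Complex.norm_exp_ofReal_mul_I, one_pow]

theorem u_le (h : Sys δ L) (j : ℕ) (θ : ℝ) : ‖u L j θ‖ ≤ 21 / 20 := Phi_le h j (norm_z θ j).le

theorem u_ge (h : Sys δ L) (j : ℕ) (θ : ℝ) : 19 / 20 ≤ ‖u L j θ‖ := by
  have := lower (maps h) (le40 h) j (norm_z θ j).le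
  rw [norm_z] at this
  rw [u]
  linarith

theorem u_succ (h : Sys δ L) (j : ℕ) (θ : ℝ) : u L (j + 1) θ = H L j (u L j θ) := by
  have h1 := (maps h).func j _ (norm_z θ j).le
  rw [← pow_succ'] at h1
  exact h1.symm

theorem H_diff (h : Sys δ L) (j : ℕ) : DifferentiableOn ℂ (H L j) (ball 0 2) :=
  (differentiable_pow 2).differentiableOn.mul (h.diff j).cexp

theorem exp_le (h : Sys δ L) (j : ℕ) {v : ℂ} (hv : ‖v‖ < 2) :
    ‖Complex.exp (L j v) - 1‖ ≤ 2 * δ := by
  have h1 := h.bd j v (by simpa using hv)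
  have h2 := Complex.norm_exp_sub_one_le (x := L j v) (by linarith [h.small])
  linarith

theorem exp_up (h : Sys δ L) (j : ℕ) {v : ℂ} (hv : ‖v‖ < 2) : ‖Complex.exp (L j v)‖ ≤ 101 / 100 := by
  have h1 := exp_le h j hv
  have h5 : ‖Complex.exp (L j v)‖ ≤ ‖Complex.exp (L j v) - 1‖ + ‖(1 : ℂ)‖ := by
    have := norm_add_le (Complex.exp (L j v) - 1) 1
    simpa using this
  rw [norm_one] at h5
  linarith [h.small]

theorem exp_low (h : Sys δ L) (j : ℕ) {v : ℂ} (hv : ‖v‖ < 2) : 99 / 100 ≤ ‖Complex.exp (L j v)‖ := by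
  have h1 := exp_le h j hv
  have h4 : ‖(1 : ℂ)‖ ≤ ‖Complex.exp (L j v)‖ + ‖Complex.exp (L j v) - 1‖ := by
    have := norm_sub_le (Complex.exp (L j v)) (Complex.exp (L j v) - 1)
    simpa using this
  rw [norm_one] at h4
  linarith [h.small]

theorem H_bd (h : Sys δ L) (j : ℕ) : ∀ v ∈ ball (0 : ℂ) 2, ‖H L j v‖ ≤ 5 := by
  intro v hv
  rw [mem_ball, dist_zero_right] at hv
  have h1 := exp_up h j hv
  rw [H, norm_mul, norm_pow]
  calc ‖v‖ ^ 2 * ‖Complex.exp (L j v)‖ ≤ 2 ^ 2 * (101 / 100) := by gcongr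
    _ ≤ 5 := by norm_num

theorem dd_bd (h : Sys δ L) (j : ℕ) {x : ℂ} (hx : ‖x‖ ≤ 21 / 20) : ‖deriv (deriv (H L j)) x‖ ≤ 40 := by
  have hd : DifferentiableOn ℂ (deriv (H L j)) (ball 0 2) := (H_diff h j).deriv isOpen_ball
  have hin : ∀ y ∈ closedBall x (2 / 5), ‖y‖ ≤ 3 / 2 := by
    intro y hy
    rw [mem_closedBall, dist_eq_norm] at hy
    have : ‖y‖ ≤ ‖y - x‖ + ‖x‖ := by
      have := norm_add_le (y - x) x
      simpa using this
    linarith
  have hsub : closedBall x (2 / 5) ⊆ ball (0 : ℂ) 2 := by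
    intro y hy
    rw [mem_ball, dist_zero_right]
    linarith [hin y hy]
  have h2 : ‖deriv (deriv (H L j)) x‖ ≤ (3 * 5) / (2 / 5) := by
    refine Complex.norm_deriv_le_of_forall_mem_sphere_norm_le (by norm_num) ?_ ?_
    · exact (hd.mono hsub).diffContOnCl_ball subset_rfl
    · intro y hy
      exact deriv_bd (H_diff h j) (H_bd h j) (hin y (sphere_subset_closedBall hy))
  linarith

theorem dH_lip (h : Sys δ L) (j : ℕ) {v w : ℂ} (hv : ‖v‖ ≤ 21 / 20) (hw : ‖w‖ ≤ 21 / 20) :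
    ‖deriv (H L j) v - deriv (H L j) w‖ ≤ 40 * ‖v - w‖ := by
  have hd : DifferentiableOn ℂ (deriv (H L j)) (ball 0 2) := (H_diff h j).deriv isOpen_ball
  refine (convex_closedBall (0 : ℂ) (21 / 20)).norm_image_sub_le_of_norm_deriv_le
    (f := deriv (H L j)) (C := 40) (x := w) (y := v) (fun x hx => ?_) (fun x hx => ?_)
    (by simpa using hw) (by simpa using hv)
  · rw [mem_closedBall, dist_zero_right] at hx
    refine (hd x ?_).differentiableAt (isOpen_ball.mem_nhds ?_) <;>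
    · rw [mem_ball, dist_zero_right]; linarith
  · rw [mem_closedBall, dist_zero_right] at hx
    exact dd_bd h j hx

theorem key (h : Sys δ L) (j : ℕ) {a b w : ℂ} {ε : ℝ} (ha : ‖a‖ ≤ 21 / 20) (hb : ‖b‖ ≤ 21 / 20)
    (hw : ‖w‖ ≤ 21 / 20) (haw : ‖a - w‖ ≤ ε) (hbw : ‖b - w‖ ≤ ε) :
    ‖H L j a - H L j b - deriv (H L j) w * (a - b)‖ ≤ 40 * ε * ‖a - b‖ := by
  have hcv : Convex ℝ (closedBall (0 : ℂ) (21 / 20) ∩ closedBall w ε) :=
    (convex_closedBall _ _).inter (convex_closedBall _ _)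
  have hD : ∀ x : ℂ, ‖x‖ ≤ 21 / 20 → HasDerivAt (fun x => H L j x - deriv (H L j) w * x)
      (deriv (H L j) x - deriv (H L j) w) x := by
    intro x hx
    have h1 : HasDerivAt (H L j) (deriv (H L j) x) x := by
      refine (((H_diff h j) x ?_).differentiableAt (isOpen_ball.mem_nhds ?_)).hasDerivAt <;>
      · rw [mem_ball, dist_zero_right]; linarith
    have h2 := h1.sub ((hasDerivAt_id x).const_mul (deriv (H L j) w))
    refine h2.congr_deriv ?_
    ring
  have h3 := hcv.norm_image_sub_le_of_norm_deriv_le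
    (f := fun x => H L j x - deriv (H L j) w * x) (C := 40 * ε) (x := b) (y := a)
    (fun x hx => ?_) (fun x hx => ?_) ?_ ?_
  · have e : H L j a - H L j b - deriv (H L j) w * (a - b) =
      (H L j a - deriv (H L j) w * a) - (H L j b - deriv (H L j) w * b) := by ring
    rw [e]
    exact h3
  · have hx1 := hx.1
    rw [mem_closedBall, dist_zero_right] at hx1
    exact (hD x hx1).differentiableAt
  · have hx1 := hx.1
    have hx2 := hx.2
    rw [mem_closedBall, dist_zero_right] at hx1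
    rw [mem_closedBall, dist_eq_norm] at hx2
    rw [(hD x hx1).deriv]
    exact (dH_lip h j hx1 hw).trans (by gcongr)
  · exact ⟨by simpa using hb, by rw [mem_closedBall, dist_eq_norm]; exact hbw⟩
  · exact ⟨by simpa using ha, by rw [mem_closedBall, dist_eq_norm]; exact haw⟩

theorem dH_eq (h : Sys δ L) (j : ℕ) {v : ℂ} (hv : ‖v‖ < 2) :
    deriv (H L j) v = Complex.exp (L j v) * (2 * v + v ^ 2 * deriv (L j) v) := by
  have h1 : HasDerivAt (L j) (deriv (L j) v) v :=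
    ((h.diff j v (by simpa using hv)).differentiableAt (isOpen_ball.mem_nhds (by simpa using hv))).hasDerivAt
  have h2 := (hasDerivAt_pow 2 v).mul h1.cexp
  have h3 : HasDerivAt (H L j) _ v := h2
  rw [h3.deriv]
  simp
  ring

theorem dH_range (h : Sys δ L) (j : ℕ) {v : ℂ} (hv : ‖v‖ ≤ 21 / 20) (hv' : 19 / 20 ≤ ‖v‖) :
    3 / 2 ≤ ‖deriv (H L j) v‖ ∧ ‖deriv (H L j) v‖ ≤ 3 := by
  have hv2 : ‖v‖ < 2 := by linarith
  have h1 := exp_up h j hv2
  have h2 := exp_low h j hv2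
  have h3 := deriv_bd (h.diff j) (h.bd j) (x := v) (by linarith)
  have h4 : ‖v ^ 2 * deriv (L j) v‖ ≤ 1 / 100 := by
    rw [norm_mul, norm_pow]
    calc ‖v‖ ^ 2 * ‖deriv (L j) v‖ ≤ (21 / 20) ^ 2 * (3 * (1 / 100000)) := by
          gcongr
          exact h3.trans (by linarith [h.small])
      _ ≤ 1 / 100 := by norm_num
  have h5 : ‖(2 : ℂ) * v‖ = 2 * ‖v‖ := by rw [norm_mul, Complex.norm_ofNat]
  have h6 : ‖2 * v + v ^ 2 * deriv (L j) v‖ ≤ 211 / 100 := by
    refine (norm_add_le _ _).trans ?_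
    rw [h5]
    linarith
  have h7 : 189 / 100 ≤ ‖2 * v + v ^ 2 * deriv (L j) v‖ := by
    have := norm_sub_le (2 * v + v ^ 2 * deriv (L j) v) (v ^ 2 * deriv (L j) v)
    rw [add_sub_cancel_right, h5] at this
    linarith
  rw [dH_eq h j hv2, norm_mul]
  constructor
  · calc (3 : ℝ) / 2 ≤ 99 / 100 * (189 / 100) := by norm_num
      _ ≤ _ := by gcongr
  · calc ‖Complex.exp (L j v)‖ * ‖2 * v + v ^ 2 * deriv (L j) v‖ ≤ 101 / 100 * (211 / 100) := by gcongr
      _ ≤ 3 := by norm_num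

/-- the product of the derivatives along the orbit -/
noncomputable def D (L : ℕ → ℂ → ℂ) (n : ℕ) (θ : ℝ) : ℝ := ∏ j ∈ Finset.range n, ‖deriv (H L j) (u L j θ)‖

theorem D_pos (h : Sys δ L) (n : ℕ) (θ : ℝ) : 0 < D L n θ := by
  refine Finset.prod_pos fun j _ => ?_
  have := (dH_range h j (u_le h j θ) (u_ge h j θ)).1
  linarith

theorem D_succ (n : ℕ) (θ : ℝ) : D L (n + 1) θ = D L n θ * ‖deriv (H L n) (u L n θ)‖ := by
  rw [D, Finset.prod_range_succ, ← D]

theorem D_mono (h : Sys δ L) (n k : ℕ) (θ : ℝ) : D L (n + k) θ ≤ 3 ^ k * D L n θ := by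
  induction k with
  | zero => simp
  | succ k ih =>
    rw [← add_assoc, D_succ, pow_succ]
    have h1 := (dH_range h (n + k) (u_le h (n + k) θ) (u_ge h (n + k) θ)).2
    have h2 := (D_pos h n θ).le
    calc D L (n + k) θ * ‖deriv (H L (n + k)) (u L (n + k) θ)‖ ≤ 3 ^ k * D L n θ * 3 := by gcongr
      _ = _ := by ring

theorem circle (a b : ℝ) : ‖Complex.exp (a * Complex.I) - Complex.exp (b * Complex.I)‖ ≤ |a - b| := by
  have e : Complex.exp (a * Complex.I) - Complex.exp (b * Complex.I) =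
      Complex.exp (b * Complex.I) * (Complex.exp (Complex.I * ((a - b : ℝ) : ℂ)) - 1) := by
    rw [mul_sub, ← Complex.exp_add, mul_one]
    congr 2
    push_cast
    ring
  rw [e, norm_mul, Complex.norm_exp_ofReal_mul_I, one_mul]
  exact Real.norm_exp_I_mul_ofReal_sub_one_le

/-- `√(1/2)` -/
noncomputable def r : ℝ := Real.sqrt (1 / 2)

theorem r_pos : 0 < r := Real.sqrt_pos.2 (by norm_num)

theorem r_sq : r ^ 2 = 1 / 2 := Real.sq_sqrt (by norm_num)

theorem r_le : r ≤ 7072 / 10000 := by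
  have h := r_sq
  have h0 := r_pos
  nlinarith

theorem u_near (h : Sys δ L) (n j : ℕ) (hj : j ≤ n) {θ θ' : ℝ} (ht : |θ - θ'| ≤ 2 * Real.pi / 2 ^ n) :
    ‖u L j θ - u L j θ'‖ ≤ 36 * r ^ (n - j) := by
  have h1 := (maps h).holder j _ _ (norm_z θ j).le (norm_z θ' j).le
  have hp : ∀ t : ℝ, Complex.exp (t * Complex.I) ^ (2 ^ j) = Complex.exp (((2 ^ j * t : ℝ) : ℂ) * Complex.I) := by
    intro t
    rw [← Complex.exp_nat_mul]
    congr 1
    push_cast
    ring
  obtain ⟨x, hx⟩ : ∃ x, x = ‖Complex.exp (θ * Complex.I) ^ (2 ^ j) - Complex.exp (θ' * Complex.I) ^ (2 ^ j)‖ :=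
    ⟨_, rfl⟩
  have hx0 : 0 ≤ x := by rw [hx]; exact norm_nonneg _
  have hx2 : x ≤ 2 := by
    rw [hx]
    refine (norm_sub_le _ _).trans ?_
    rw [norm_z, norm_z]
    norm_num
  have hxt : x ≤ 2 * Real.pi * (r ^ (n - j)) ^ 2 := by
    rw [hx, hp, hp]
    refine (circle _ _).trans ?_
    rw [← mul_sub, abs_mul, abs_of_nonneg (by positivity : (0 : ℝ) ≤ 2 ^ j)]
    have e : (r ^ (n - j)) ^ 2 = 2 ^ j / 2 ^ n := by
      rw [← pow_mul, mul_comm, pow_mul, r_sq, one_div, inv_pow, eq_div_iff (by positivity)]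
      have : (2 : ℝ) ^ n = 2 ^ (n - j) * 2 ^ j := by
        rw [← pow_add]
        congr 1
        omega
      rw [this, ← mul_assoc, inv_mul_cancel₀ (by positivity), one_mul]
    rw [e]
    calc (2 : ℝ) ^ j * |θ - θ'| ≤ 2 ^ j * (2 * Real.pi / 2 ^ n) := by gcongr
      _ = _ := by ring
  have hsq : x ^ (1 - 20 * δ) ≤ 2 * Real.sqrt x := by
    have hα : (1 / 2 : ℝ) ≤ 1 - 20 * δ := by linarith [h.small]
    have hα1 : 1 - 20 * δ ≤ 1 := by linarith [h.pos]
    rcases le_or_gt x 1 with h3 | h3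
    · rcases eq_or_lt_of_le hx0 with h4 | h4
      · rw [← h4, Real.zero_rpow (by linarith)]
        positivity
      · have h5 : x ^ (1 - 20 * δ) ≤ x ^ (1 / 2 : ℝ) :=
          Real.rpow_le_rpow_of_exponent_ge h4 h3 hα
        rw [← Real.sqrt_eq_rpow] at h5
        linarith [Real.sqrt_nonneg x]
    · have h5 : x ^ (1 - 20 * δ) ≤ x ^ (1 : ℝ) :=
        Real.rpow_le_rpow_of_exponent_le h3.le hα1
      rw [Real.rpow_one] at h5
      have h6 : 1 ≤ Real.sqrt x := by rw [Real.one_le_sqrt]; exact h3.le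
      linarith
  have hs : Real.sqrt x ≤ 3 * r ^ (n - j) := by
    have h0 : 0 ≤ r ^ (n - j) := (pow_pos r_pos _).le
    rw [Real.sqrt_le_left (by positivity)]
    refine hxt.trans ?_
    have hpi := Real.pi_lt_four
    rw [mul_pow]
    have : 0 ≤ (r ^ (n - j)) ^ 2 := by positivity
    nlinarith
  rw [← hx] at h1
  rw [u, u]
  linarith

theorem upperB (h : Sys δ L) (n : ℕ) {θ θ' θ'' : ℝ}
    (h1 : |θ - θ''| ≤ 2 * Real.pi / 2 ^ n) (h2 : |θ' - θ''| ≤ 2 * Real.pi / 2 ^ n) (j : ℕ) (hj : j ≤ n) :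
    ‖u L j θ - u L j θ'‖ ≤ D L j θ'' * Real.exp (3500 * r ^ (n - j)) * ‖u L 0 θ - u L 0 θ'‖ := by
  induction j with
  | zero =>
    have : 1 ≤ Real.exp (3500 * r ^ (n - 0)) := by
      rw [Real.one_le_exp_iff]
      have := pow_pos r_pos (n - 0)
      positivity
    have h0 := norm_nonneg (u L 0 θ - u L 0 θ')
    rw [D, Finset.range_zero, Finset.prod_empty, one_mul]
    nlinarith
  | succ j ih =>
    have ih' := ih (by omega)
    have hk := key h j (u_le h j θ) (u_le h j θ') (u_le h j θ'')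
      (u_near h n j (by omega) h1) (u_near h n j (by omega) h2)
    rw [← u_succ h, ← u_succ h] at hk
    obtain ⟨q, hq⟩ : ∃ q, q = r ^ (n - (j + 1)) := ⟨_, rfl⟩
    have hq0 : 0 < q := by rw [hq]; exact pow_pos r_pos _
    have hrq : r ^ (n - j) = r * q := by
      rw [hq, ← _root_.pow_succ']
      congr 1
      omega
    rw [hrq] at ih' hk
    rw [← hq]
    have hd := dH_range h j (u_le h j θ'') (u_ge h j θ'')
    have hr := r_le
    have hr0 := r_pos
    have n0 := norm_nonneg (u L j θ - u L j θ')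
    have m0 := norm_nonneg (u L 0 θ - u L 0 θ')
    have D0 := D_pos h j θ''
    have h3 : ‖u L (j + 1) θ - u L (j + 1) θ'‖ ≤
        ‖deriv (H L j) (u L j θ'')‖ * (1 + 1440 * (r * q)) * ‖u L j θ - u L j θ'‖ := by
      have h4 : ‖u L (j + 1) θ - u L (j + 1) θ'‖ ≤
          ‖u L (j + 1) θ - u L (j + 1) θ' - deriv (H L j) (u L j θ'') * (u L j θ - u L j θ')‖ +
            ‖deriv (H L j) (u L j θ'') * (u L j θ - u L j θ')‖ := by
        have := norm_add_le (u L (j + 1) θ - u L (j + 1) θ' - deriv (H L j) (u L j θ'') * (u L j θ - u L j θ'))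
          (deriv (H L j) (u L j θ'') * (u L j θ - u L j θ'))
        simpa using this
      rw [norm_mul] at h4
      have h5 : 40 * (36 * (r * q)) * ‖u L j θ - u L j θ'‖ ≤
          ‖deriv (H L j) (u L j θ'')‖ * (1440 * (r * q)) * ‖u L j θ - u L j θ'‖ := by
        have h6 : 40 * (36 * (r * q)) ≤ ‖deriv (H L j) (u L j θ'')‖ * (1440 * (r * q)) := by
          have h7 : 0 ≤ 1440 * (r * q) := by positivity
          nlinarith [hd.1]
        exact mul_le_mul_of_nonneg_right h6 n0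
      linarith
    have h8 : (1 + 1440 * (r * q)) * Real.exp (3500 * (r * q)) ≤ Real.exp (3500 * q) := by
      have h9 : 1 + 1440 * (r * q) ≤ Real.exp (1440 * (r * q)) := by
        have := Real.add_one_le_exp (1440 * (r * q))
        linarith
      calc (1 + 1440 * (r * q)) * Real.exp (3500 * (r * q)) ≤
            Real.exp (1440 * (r * q)) * Real.exp (3500 * (r * q)) := by gcongr
        _ = Real.exp (1440 * (r * q) + 3500 * (r * q)) := by rw [Real.exp_add]
        _ ≤ Real.exp (3500 * q) := by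
          rw [Real.exp_le_exp]
          have : r * q ≤ 7072 / 10000 * q := by gcongr
          linarith
    rw [D_succ]
    calc ‖u L (j + 1) θ - u L (j + 1) θ'‖ ≤
          ‖deriv (H L j) (u L j θ'')‖ * (1 + 1440 * (r * q)) * ‖u L j θ - u L j θ'‖ := h3
      _ ≤ ‖deriv (H L j) (u L j θ'')‖ * (1 + 1440 * (r * q)) *
            (D L j θ'' * Real.exp (3500 * (r * q)) * ‖u L 0 θ - u L 0 θ'‖) := by gcongr
      _ = D L j θ'' * ‖deriv (H L j) (u L j θ'')‖ *
            ((1 + 1440 * (r * q)) * Real.exp (3500 * (r * q))) * ‖u L 0 θ - u L 0 θ'‖ := by ring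
      _ ≤ D L j θ'' * ‖deriv (H L j) (u L j θ'')‖ * Real.exp (3500 * q) * ‖u L 0 θ - u L 0 θ'‖ := by gcongr

theorem lowerB (h : Sys δ L) (n : ℕ) {θ θ' θ'' : ℝ}
    (h1 : |θ - θ''| ≤ 2 * Real.pi / 2 ^ n) (h2 : |θ' - θ''| ≤ 2 * Real.pi / 2 ^ n) (j : ℕ) (hj : j ≤ n - 24) :
    D L j θ'' * ‖u L 0 θ - u L 0 θ'‖ ≤ Real.exp (7000 * r ^ (n - j)) * ‖u L j θ - u L j θ'‖ := by
  induction j with
  | zero =>
    have : 1 ≤ Real.exp (7000 * r ^ (n - 0)) := by
      rw [Real.one_le_exp_iff]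
      have := pow_pos r_pos (n - 0)
      positivity
    have h0 := norm_nonneg (u L 0 θ - u L 0 θ')
    rw [D, Finset.range_zero, Finset.prod_empty, one_mul]
    nlinarith
  | succ j ih =>
    have ih' := ih (by omega)
    have hk := key h j (u_le h j θ) (u_le h j θ') (u_le h j θ'')
      (u_near h n j (by omega) h1) (u_near h n j (by omega) h2)
    rw [← u_succ h, ← u_succ h] at hk
    obtain ⟨q, hq⟩ : ∃ q, q = r ^ (n - (j + 1)) := ⟨_, rfl⟩
    have hq0 : 0 < q := by rw [hq]; exact pow_pos r_pos _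
    have hrq : r ^ (n - j) = r * q := by
      rw [hq, ← _root_.pow_succ']
      congr 1
      omega
    have hsmall : 1440 * (r * q) ≤ 1 / 2 := by
      have h3 : r ^ (n - j) ≤ r ^ 24 :=
        pow_le_pow_of_le_one r_pos.le (by linarith [r_le]) (by omega)
      have h4 : r ^ 24 = (1 / 2) ^ 12 := by
        rw [show (24 : ℕ) = 2 * 12 by norm_num, pow_mul, r_sq]
      rw [h4, hrq] at h3
      norm_num at h3
      linarith
    rw [hrq] at ih' hk
    rw [← hq]
    have hd := dH_range h j (u_le h j θ'') (u_ge h j θ'')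
    have hr := r_le
    have hr0 := r_pos
    have n0 := norm_nonneg (u L j θ - u L j θ')
    have D0 := D_pos h j θ''
    obtain ⟨x, hx⟩ : ∃ x, x = 1440 * (r * q) := ⟨_, rfl⟩
    have hx0 : 0 ≤ x := by rw [hx]; positivity
    have h3 : ‖deriv (H L j) (u L j θ'')‖ * (1 - x) * ‖u L j θ - u L j θ'‖ ≤
        ‖u L (j + 1) θ - u L (j + 1) θ'‖ := by
      have h4 : ‖deriv (H L j) (u L j θ'') * (u L j θ - u L j θ')‖ ≤
          ‖u L (j + 1) θ - u L (j + 1) θ'‖ +
          ‖u L (j + 1) θ - u L (j + 1) θ' - deriv (H L j) (u L j θ'') * (u L j θ - u L j θ')‖ := by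
        have := norm_sub_le (u L (j + 1) θ - u L (j + 1) θ')
          (u L (j + 1) θ - u L (j + 1) θ' - deriv (H L j) (u L j θ'') * (u L j θ - u L j θ'))
        simpa using this
      rw [norm_mul] at h4
      have h5 : 40 * (36 * (r * q)) * ‖u L j θ - u L j θ'‖ ≤
          ‖deriv (H L j) (u L j θ'')‖ * x * ‖u L j θ - u L j θ'‖ := by
        have h6 : 40 * (36 * (r * q)) ≤ ‖deriv (H L j) (u L j θ'')‖ * x := by
          rw [hx] at hx0 ⊢
          nlinarith [hd.1]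
        exact mul_le_mul_of_nonneg_right h6 n0
      linarith
    have h8 : 1 ≤ (1 - x) * Real.exp (2 * x) := by
      have h9 := Real.add_one_le_exp (2 * x)
      have h10 : x ≤ 1 / 2 := by rw [hx]; exact hsmall
      have h11 : (1 - x) * (2 * x + 1) ≤ (1 - x) * Real.exp (2 * x) :=
        mul_le_mul_of_nonneg_left h9 (by linarith)
      nlinarith
    have hA0 : 0 ≤ ‖deriv (H L j) (u L j θ'')‖ := norm_nonneg _
    have h12 : ‖deriv (H L j) (u L j θ'')‖ * ‖u L j θ - u L j θ'‖ ≤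
        Real.exp (2 * x) * ‖u L (j + 1) θ - u L (j + 1) θ'‖ := by
      calc ‖deriv (H L j) (u L j θ'')‖ * ‖u L j θ - u L j θ'‖
          ≤ ((1 - x) * Real.exp (2 * x)) * (‖deriv (H L j) (u L j θ'')‖ * ‖u L j θ - u L j θ'‖) :=
            le_mul_of_one_le_left (by positivity) h8
        _ = Real.exp (2 * x) * (‖deriv (H L j) (u L j θ'')‖ * (1 - x) * ‖u L j θ - u L j θ'‖) := by ring
        _ ≤ _ := by gcongr
    rw [D_succ]
    calc D L j θ'' * ‖deriv (H L j) (u L j θ'')‖ * ‖u L 0 θ - u L 0 θ'‖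
        = ‖deriv (H L j) (u L j θ'')‖ * (D L j θ'' * ‖u L 0 θ - u L 0 θ'‖) := by ring
      _ ≤ ‖deriv (H L j) (u L j θ'')‖ * (Real.exp (7000 * (r * q)) * ‖u L j θ - u L j θ'‖) := by gcongr
      _ = Real.exp (7000 * (r * q)) * (‖deriv (H L j) (u L j θ'')‖ * ‖u L j θ - u L j θ'‖) := by ring
      _ ≤ Real.exp (7000 * (r * q)) * (Real.exp (2 * x) * ‖u L (j + 1) θ - u L (j + 1) θ'‖) := by gcongr
      _ = Real.exp (7000 * (r * q) + 2 * x) * ‖u L (j + 1) θ - u L (j + 1) θ'‖ := by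
        rw [Real.exp_add]; ring
      _ ≤ Real.exp (7000 * q) * ‖u L (j + 1) θ - u L (j + 1) θ'‖ := by
        have h13 : 7000 * (r * q) + 2 * x ≤ 7000 * q := by
          rw [hx]
          have : r * q ≤ 7072 / 10000 * q := by gcongr
          linarith
        gcongr

theorem main : S_DIS := by
  refine ⟨3 ^ 24 * Real.exp 7000 * 3, ?_, ?_⟩
  · have h1 : 1 ≤ Real.exp 7000 := by rw [Real.one_le_exp_iff]; norm_num
    have h2 : (1 : ℝ) ≤ 3 ^ 24 := by norm_num
    nlinarith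
  intro δ L h
  refine ⟨D L, fun θ => by simp [D], fun n θ => ?_, ?_⟩
  · have hd := dH_range h n (u_le h n θ) (u_ge h n θ)
    have D0 := D_pos h n θ
    rw [D_succ]
    constructor <;> nlinarith [hd.1, hd.2]
  · intro n θ θ' θ'' h0 h1 h2
    have e0 : ∀ t : ℝ, Phi L 0 (Complex.exp (t * Complex.I)) = u L 0 t := by
      intro t
      rw [u, pow_zero, pow_one]
    have en : ∀ t : ℝ, Phi L n (Complex.exp (t * Complex.I) ^ (2 ^ n)) = u L n t := fun t => rfl
    rw [e0, e0, en, en]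
    have D0 := D_pos h n θ''
    have m0 := norm_nonneg (u L 0 θ - u L 0 θ')
    constructor
    · have h3 := upperB h n h1 h2 n le_rfl
      rw [Nat.sub_self, pow_zero, mul_one] at h3
      refine h3.trans ?_
      have h4 : Real.exp 3500 ≤ 3 ^ 24 * Real.exp 7000 * 3 := by
        have h5 : Real.exp 3500 ≤ Real.exp 7000 := by rw [Real.exp_le_exp]; norm_num
        have h6 := Real.exp_pos 7000
        have h7 : (1 : ℝ) ≤ 3 ^ 24 * 3 := by norm_num
        nlinarith
      calc D L n θ'' * Real.exp 3500 * ‖u L 0 θ - u L 0 θ'‖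
          ≤ D L n θ'' * (3 ^ 24 * Real.exp 7000 * 3) * ‖u L 0 θ - u L 0 θ'‖ := by gcongr
        _ = _ := by ring
    · obtain ⟨N, hN⟩ : ∃ N, N = n - 24 := ⟨_, rfl⟩
      have h3 := lowerB h n h1 h2 N hN.le
      have h4 : Real.exp (7000 * r ^ (n - N)) ≤ Real.exp 7000 := by
        rw [Real.exp_le_exp]
        have : r ^ (n - N) ≤ 1 := pow_le_one₀ r_pos.le (by linarith [r_le])
        linarith
      have h5 : ‖u L N θ - u L N θ'‖ ≤ 3 := by
        refine (norm_sub_le _ _).trans ?_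
        linarith [u_le h N θ, u_le h N θ']
      have h6 : D L n θ'' ≤ 3 ^ 24 * D L N θ'' := by
        obtain ⟨k, hk⟩ : ∃ k, n = N + k := ⟨n - N, by omega⟩
        have hk24 : k ≤ 24 := by omega
        have h7 := D_mono h N k θ''
        rw [← hk] at h7
        have h8 : (3 : ℝ) ^ k ≤ 3 ^ 24 := pow_le_pow_right₀ (by norm_num) hk24
        have h9 := (D_pos h N θ'').le
        exact h7.trans (by gcongr)
      calc ‖u L 0 θ - u L 0 θ'‖ * D L n θ'' ≤ ‖u L 0 θ - u L 0 θ'‖ * (3 ^ 24 * D L N θ'') := by gcongr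
        _ = 3 ^ 24 * (D L N θ'' * ‖u L 0 θ - u L 0 θ'‖) := by ring
        _ ≤ 3 ^ 24 * (Real.exp (7000 * r ^ (n - N)) * ‖u L N θ - u L N θ'‖) := by gcongr
        _ ≤ 3 ^ 24 * (Real.exp 7000 * 3) := by gcongr
        _ = _ := by ring

end Pool.Agent.Helper25.RB.DIS
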