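import Pool.Agent.Helper25.RB.C1
import Pool.Agent.Helper25.RB.DIS
import Pool.Agent.Helper25.RB.Stm6

/-!
# Covering of the boundary by the arcs of generation `N` (module COV)
-/

set_option autoImplicit false

open Filter Topology Metric Set MeasureTheory

namespace Pool.Agent.Helper25.RB.COV

open Pool.Agent.Helper25.JB Pool.Agent.Helper25.RB Pool.Agent.Helper25.RB.DER

variable {δ : ℝ} {L : ℕ → ℂ → ℂ}

theorem S_cont (h : Sys δ L) (N : ℕ) : ContinuousOn (S L N) (closedBall 0 1) := by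
  unfold S
  refine continuousOn_finsetSum _ fun i _ => ?_
  have h1 : ContinuousOn (Phi L i) (closedBall 0 1) := contOn (maps h) (le40 h) i
  have h2 : ContinuousOn (fun z : ℂ => Phi L i (z ^ (2 ^ i))) (closedBall 0 1) := by
    refine h1.comp (continuous_pow _).continuousOn fun z hz => ?_
    rw [mem_closedBall, dist_zero_right] at hz ⊢
    exact pow_le hz i
  refine (C1.ell_cont h i).comp h2 fun z hz => ?_
  rw [mem_closedBall, dist_zero_right] at hz ⊢
  exact Phi_le h i (pow_le hz i)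

theorem Sc_cont (h : Sys δ L) (N : ℕ) :
    Continuous fun θ : ℝ => (S L N (Complex.exp (θ * Complex.I))).re := by
  have h1 : Continuous fun θ : ℝ => Complex.exp (θ * Complex.I) := by fun_prop
  have h2 : ∀ θ : ℝ, Complex.exp (θ * Complex.I) ∈ closedBall (0 : ℂ) 1 := by
    intro θ
    rw [mem_closedBall, dist_zero_right, Complex.norm_exp_ofReal_mul_I]
  have h3 : Continuous fun θ : ℝ => S L N (Complex.exp (θ * Complex.I)) :=
    (S_cont h N).comp_continuous h1 h2
  exact Complex.continuous_re.comp h3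

/-- the angle of a point of the circle -/
theorem angle {z : ℂ} (hz : ‖z‖ = 1) : ∃ θ : ℝ, 0 ≤ θ ∧ θ < 2 * Real.pi ∧
    Complex.exp (θ * Complex.I) = z := by
  have h1 : Complex.exp (z.arg * Complex.I) = z := by
    have := Complex.norm_mul_exp_arg_mul_I z
    rwa [hz, Complex.ofReal_one, one_mul] at this
  by_cases h : 0 ≤ z.arg
  · exact ⟨z.arg, h, by linarith [Complex.arg_le_pi z, Real.pi_pos], h1⟩
  · refine ⟨z.arg + 2 * Real.pi, by linarith [Complex.neg_pi_lt_arg z, Real.pi_pos], by linarith, ?_⟩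
    push_cast
    rw [add_mul, Complex.exp_add, h1, Complex.exp_two_pi_mul_I, mul_one]

/-- the arcs of generation `N` -/
noncomputable def arc (L : ℕ → ℂ → ℂ) (N i : ℕ) : Set ℂ :=
  (fun θ : ℝ => Phi L 0 (Complex.exp (θ * Complex.I))) ''
    Icc (2 * Real.pi / 2 ^ N * i) (2 * Real.pi / 2 ^ N * (i + 1 : ℕ))

theorem sub_arcs (N : ℕ) : Phi L 0 '' sphere 0 1 ⊆ ⋃ i : Fin (2 ^ N), arc L N i := by
  rintro _ ⟨z, hz, rfl⟩
  rw [mem_sphere, dist_zero_right] at hz
  obtain ⟨θ, h0, h1, rfl⟩ := angle hz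
  have hs : 0 < 2 * Real.pi / 2 ^ N := by positivity
  obtain ⟨i, hi⟩ : ∃ i : ℕ, i = ⌊θ / (2 * Real.pi / 2 ^ N)⌋₊ := ⟨_, rfl⟩
  have h2 : (i : ℝ) ≤ θ / (2 * Real.pi / 2 ^ N) := by rw [hi]; exact Nat.floor_le (by positivity)
  have h3 : θ / (2 * Real.pi / 2 ^ N) < i + 1 := by rw [hi]; exact Nat.lt_floor_add_one _
  have h4 : i < 2 ^ N := by
    have h5 : θ / (2 * Real.pi / 2 ^ N) < 2 ^ N := by
      rw [div_lt_iff₀ hs]
      have : (2 : ℝ) ^ N * (2 * Real.pi / 2 ^ N) = 2 * Real.pi := by field_simp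
      rwa [this]
    have h6 : (i : ℝ) < 2 ^ N := lt_of_le_of_lt h2 h5
    exact_mod_cast h6
  refine mem_iUnion.2 ⟨⟨i, h4⟩, θ, ⟨?_, ?_⟩, rfl⟩
  · rw [le_div_iff₀ hs] at h2
    show 2 * Real.pi / 2 ^ N * (i : ℝ) ≤ θ
    linarith
  · rw [div_lt_iff₀ hs] at h3
    show θ ≤ 2 * Real.pi / 2 ^ N * ((i + 1 : ℕ) : ℝ)
    push_cast
    linarith

theorem arc_len {N i : ℕ} {a b : ℝ}
    (ha : a ∈ Icc (2 * Real.pi / 2 ^ N * (i : ℝ)) (2 * Real.pi / 2 ^ N * ((i + 1 : ℕ) : ℝ)))
    (hb : b ∈ Icc (2 * Real.pi / 2 ^ N * (i : ℝ)) (2 * Real.pi / 2 ^ N * ((i + 1 : ℕ) : ℝ))) :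
    |a - b| ≤ 2 * Real.pi / 2 ^ N := by
  have h1 : 2 * Real.pi / 2 ^ N * ((i + 1 : ℕ) : ℝ) =
      2 * Real.pi / 2 ^ N * (i : ℝ) + 2 * Real.pi / 2 ^ N := by push_cast; ring
  rw [h1] at ha hb
  rw [abs_le]
  constructor <;> linarith [ha.1, ha.2, hb.1, hb.2]

theorem arc_small (h : Sys δ L) (N i : ℕ) :
    ediam (arc L N i) ≤ ENNReal.ofReal (6 * (2 * Real.pi / 2 ^ N) ^ (1 - 20 * δ)) := by
  have hδ : 0 ≤ 1 - 20 * δ := by linarith [h.small]
  refine ediam_le ?_
  rintro _ ⟨a, ha, rfl⟩ _ ⟨b, hb, rfl⟩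
  rw [edist_dist]
  refine ENNReal.ofReal_le_ofReal ?_
  rw [dist_eq_norm]
  have h1 := (maps h).holder 0 (Complex.exp (a * Complex.I)) (Complex.exp (b * Complex.I))
    (Complex.norm_exp_ofReal_mul_I a).le (Complex.norm_exp_ofReal_mul_I b).le
  refine h1.trans ?_
  refine mul_le_mul_of_nonneg_left ?_ (by norm_num)
  refine Real.rpow_le_rpow (norm_nonneg _) ?_ hδ
  exact (DIS.circle a b).trans (arc_len ha hb)

theorem small_tendsto (h : Sys δ L) : Tendsto (fun N : ℕ =>
    ENNReal.ofReal (6 * (2 * Real.pi / 2 ^ N) ^ (1 - 20 * δ))) atTop (𝓝 0) := by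
  have hδ : 0 < 1 - 20 * δ := by linarith [h.small]
  have h1 : Tendsto (fun N : ℕ => (2 * Real.pi / 2 ^ N : ℝ)) atTop (𝓝 0) := by
    refine Tendsto.div_atTop tendsto_const_nhds ?_
    exact tendsto_pow_atTop_atTop_of_one_lt (by norm_num)
  have h2 : Tendsto (fun N : ℕ => (2 * Real.pi / 2 ^ N : ℝ) ^ (1 - 20 * δ)) atTop (𝓝 0) := by
    have := h1.rpow_const (p := 1 - 20 * δ) (Or.inr hδ.le)
    rwa [Real.zero_rpow hδ.ne'] at this
  have h3 := ENNReal.tendsto_ofReal (h2.const_mul 6)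
  simpa using h3

theorem main : S_DSN → S_COV := by
  rintro ⟨C, hC, hD⟩ δ L h s A hs1 hs2 hfreq
  have hs0 : 0 < s := by linarith
  have hpi := Real.pi_pos
  have hCpos : 0 < C := by linarith
  have hdim : dimH (Phi L 0 '' sphere 0 1) ≤ (s.toNNReal : ENNReal) := by
    refine dimH_le_of_hausdorffMeasure_ne_top ?_
    rw [Real.coe_toNNReal s hs0.le]
    have hle : μH[s] (Phi L 0 '' sphere 0 1) ≤ ENNReal.ofReal (C ^ s * A / (2 * Real.pi)) := by
      refine (MeasureTheory.Measure.hausdorffMeasure_le_liminf_sum (ι := fun N : ℕ => Fin (2 ^ N)) s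
        (Phi L 0 '' sphere 0 1) (l := atTop)
        (fun N : ℕ => ENNReal.ofReal (6 * (2 * Real.pi / 2 ^ N) ^ (1 - 20 * δ)))
        (small_tendsto h) (fun N i => arc L N i) (Eventually.of_forall fun N i => arc_small h N i)
        (Eventually.of_forall fun N => sub_arcs N)).trans ?_
      refine liminf_le_of_frequently_le' (hfreq.mono fun N hN => ?_)
      -- one generation
      obtain ⟨f, hf⟩ : ∃ f : ℝ → ℝ, f = fun θ : ℝ => (S L N (Complex.exp (θ * Complex.I))).re :=
        ⟨_, rfl⟩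
      have hfc : Continuous f := by rw [hf]; exact Sc_cont h N
      have hgc : Continuous fun θ : ℝ => Real.exp (-(s * f θ)) := by fun_prop
      obtain ⟨ℓ, hℓ⟩ : ∃ ℓ : ℝ, ℓ = 2 * Real.pi / 2 ^ N := ⟨_, rfl⟩
      have hℓpos : 0 < ℓ := by rw [hℓ]; positivity
      obtain ⟨K, hK⟩ : ∃ K : ℝ, K = (C / 2 ^ N) ^ s := ⟨_, rfl⟩
      have hKpos : 0 < K := by rw [hK]; positivity
      have hone : ∀ i : Fin (2 ^ N), ediam (arc L N i) ^ s ≤ ENNReal.ofReal
          (K / ℓ * ∫ θ in (ℓ * ((i : ℕ) : ℝ))..(ℓ * (((i : ℕ) + 1 : ℕ) : ℝ)),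
            Real.exp (-(s * f θ))) := by
        intro i
        have hfin : ediam (arc L N i) ≠ ⊤ :=
          ((arc_small h N i).trans_lt ENNReal.ofReal_lt_top).ne
        obtain ⟨D, hDd⟩ : ∃ D : ℝ, D = (ediam (arc L N i)).toReal := ⟨_, rfl⟩
        have hD0 : 0 ≤ D := by rw [hDd]; exact ENNReal.toReal_nonneg
        have hed : ediam (arc L N i) = ENNReal.ofReal D := by rw [hDd, ENNReal.ofReal_toReal hfin]
        rw [hed, ENNReal.ofReal_rpow_of_nonneg hD0 hs0.le]
        refine ENNReal.ofReal_le_ofReal ?_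
        have hab : ℓ * ((i : ℕ) : ℝ) ≤ ℓ * (((i : ℕ) + 1 : ℕ) : ℝ) := by
          push_cast
          nlinarith
        have hpt : ∀ θ ∈ Icc (ℓ * ((i : ℕ) : ℝ)) (ℓ * (((i : ℕ) + 1 : ℕ) : ℝ)),
            D ^ s ≤ K * Real.exp (-(s * f θ)) := by
          intro θ hθ
          have h1 : D ≤ C / 2 ^ N * Real.exp (-f θ) := by
            have h2 : ediam (arc L N i) ≤ ENNReal.ofReal (C / 2 ^ N * Real.exp (-f θ)) := by
              refine ediam_le ?_
              rintro _ ⟨a, ha, rfl⟩ _ ⟨b, hb, rfl⟩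
              rw [edist_dist]
              refine ENNReal.ofReal_le_ofReal ?_
              rw [dist_eq_norm]
              rw [hℓ] at hθ
              have h3 := (hD δ L h N a b θ (arc_len ha hb) (arc_len ha hθ) (arc_len hb hθ)).2
              have h4 : (2 : ℝ) ^ N * Real.exp ((S L N (Complex.exp (θ * Complex.I))).re) =
                  2 ^ N * Real.exp (f θ) := by rw [hf]
              rw [h4] at h3
              have h5 : 0 < (2 : ℝ) ^ N * Real.exp (f θ) := by positivity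
              rw [← le_div_iff₀ h5] at h3
              refine h3.trans (le_of_eq ?_)
              rw [Real.exp_neg]
              field_simp
            rw [hDd]
            exact ENNReal.toReal_le_of_le_ofReal (by positivity) h2
          calc D ^ s ≤ (C / 2 ^ N * Real.exp (-f θ)) ^ s := Real.rpow_le_rpow hD0 h1 hs0.le
            _ = K * Real.exp (-(s * f θ)) := by
              rw [Real.mul_rpow (by positivity) (Real.exp_pos _).le, ← hK, ← Real.exp_mul]
              congr 2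
              ring
        have hint : D ^ s * ℓ ≤ K * ∫ θ in (ℓ * ((i : ℕ) : ℝ))..(ℓ * (((i : ℕ) + 1 : ℕ) : ℝ)),
            Real.exp (-(s * f θ)) := by
          have h6 : ∫ _θ in (ℓ * ((i : ℕ) : ℝ))..(ℓ * (((i : ℕ) + 1 : ℕ) : ℝ)), D ^ s = D ^ s * ℓ := by
            rw [intervalIntegral.integral_const, smul_eq_mul]
            push_cast
            ring
          rw [← h6, ← intervalIntegral.integral_const_mul]
          exact intervalIntegral.integral_mono_on hab (by simp)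
            ((continuous_const.mul hgc).intervalIntegrable _ _) hpt
        rw [div_mul_eq_mul_div, le_div_iff₀ hℓpos]
        exact hint
      have hsum : ∑ i : Fin (2 ^ N), ediam (arc L N i) ^ s ≤ ENNReal.ofReal
          (∑ i : Fin (2 ^ N), (K / ℓ * ∫ θ in (ℓ * ((i : ℕ) : ℝ))..(ℓ * (((i : ℕ) + 1 : ℕ) : ℝ)),
            Real.exp (-(s * f θ)))) := by
        rw [ENNReal.ofReal_sum_of_nonneg]
        · exact Finset.sum_le_sum fun i _ => hone i
        · intro i _
          refine mul_nonneg (by positivity) ?_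
          refine intervalIntegral.integral_nonneg ?_ fun θ _ => (Real.exp_pos _).le
          push_cast
          nlinarith
      refine hsum.trans (ENNReal.ofReal_le_ofReal ?_)
      rw [← Finset.mul_sum]
      have hadj : ∑ i : Fin (2 ^ N), ∫ θ in (ℓ * ((i : ℕ) : ℝ))..(ℓ * (((i : ℕ) + 1 : ℕ) : ℝ)),
            Real.exp (-(s * f θ)) = ∫ θ in (0 : ℝ)..(2 * Real.pi), Real.exp (-(s * f θ)) := by
        rw [Fin.sum_univ_eq_sum_range (fun i : ℕ => ∫ θ in (ℓ * (i : ℝ))..(ℓ * ((i + 1 : ℕ) : ℝ)),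
            Real.exp (-(s * f θ))) (2 ^ N)]
        rw [intervalIntegral.sum_integral_adjacent_intervals
          (fun k _ => hgc.intervalIntegrable _ _)]
        congr 1
        · simp
        · rw [hℓ]
          push_cast
          field_simp
      rw [hadj]
      have hN' : (2 : ℝ) ^ ((N : ℝ) * (1 - s)) *
          ∫ θ in (0 : ℝ)..(2 * Real.pi), Real.exp (-(s * f θ)) ≤ A := by
        rw [hf]
        exact hN
      have hKl : K / ℓ = C ^ s / (2 * Real.pi) * (2 : ℝ) ^ ((N : ℝ) * (1 - s)) := by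
        rw [hK, hℓ, Real.div_rpow hCpos.le (by positivity)]
        have h7 : ((2 : ℝ) ^ N) ^ s = (2 : ℝ) ^ ((N : ℝ) * s) := by
          rw [← Real.rpow_natCast, ← Real.rpow_mul (by norm_num)]
        have h8 : (2 : ℝ) ^ ((N : ℝ) * (1 - s)) = (2 : ℝ) ^ N / (2 : ℝ) ^ ((N : ℝ) * s) := by
          rw [← Real.rpow_natCast, ← Real.rpow_sub (by norm_num)]
          congr 1
          ring
        rw [h7, h8]
        have h9 : (0 : ℝ) < (2 : ℝ) ^ ((N : ℝ) * s) := by positivity
        field_simp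
      calc K / ℓ * ∫ θ in (0 : ℝ)..(2 * Real.pi), Real.exp (-(s * f θ))
          = C ^ s / (2 * Real.pi) * ((2 : ℝ) ^ ((N : ℝ) * (1 - s)) *
            ∫ θ in (0 : ℝ)..(2 * Real.pi), Real.exp (-(s * f θ))) := by rw [hKl]; ring
        _ ≤ C ^ s / (2 * Real.pi) * A := mul_le_mul_of_nonneg_left hN' (by positivity)
        _ = C ^ s * A / (2 * Real.pi) := by ring
    exact (hle.trans_lt ENNReal.ofReal_lt_top).ne
  exact hdim

end Pool.Agent.Helper25.RB.COV
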