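import Pool.Agent.Helper25.JB.Loc

/-!
# The entire function `f₀` near the integers, third and fourth order terms
-/

set_option autoImplicit false

open Filter Topology Metric Set

namespace Pool.Agent.Helper25.RB

open Pool.Agent.H723R2.LSW Pool.Agent.Y282.WD Pool.Agent.Y888.WD

theorem bds2 : ∃ C : ℝ, 0 ≤ C ∧ ∀ h : ℂ, ‖h‖ ≤ 1 →
    ‖fA h - 2 * Real.pi ^ 2 / 3 * h ^ 3‖ ≤ C * ‖h‖ ^ 5 ∧ ‖fB h - Real.pi ^ 2 / 3 * h ^ 3‖ ≤ C * ‖h‖ ^ 5 ∧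
    ‖fD h - Real.pi ^ 2 / 2 * h ^ 2 + Real.pi ^ 4 / 24 * h ^ 4‖ ≤ C * ‖h‖ ^ 6 := by
  obtain ⟨C, hC0, hC⟩ := bds
  have hpp := Real.pi_pos
  have d2 : ∀ z : ℂ, HasDerivAt (fun z : ℂ => Real.pi * Complex.sin (Real.pi * z) -
      Real.pi ^ 2 * z) (-(Real.pi ^ 2 * fD z)) z := by
    intro z
    have h2 := ((hs z).const_mul (Real.pi : ℂ)).sub
      ((hasDerivAt_id z).const_mul ((Real.pi : ℂ) ^ 2))
    refine h2.congr_deriv ?_
    unfold fD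
    ring
  have hD2 : ∀ z : ℂ, ‖z‖ ≤ 1 → ‖fD z‖ ≤ (Real.pi ^ 2 + Real.pi ^ 3 * C) * ‖z‖ ^ 2 := by
    intro z hz
    have h1 := (hC z hz).2.2.2
    have h2 : ‖fD z‖ ≤ ‖fD z - Real.pi ^ 2 / 2 * z ^ 2‖ + ‖(Real.pi : ℂ) ^ 2 / 2 * z ^ 2‖ := by
      have := norm_add_le (fD z - Real.pi ^ 2 / 2 * z ^ 2) ((Real.pi : ℂ) ^ 2 / 2 * z ^ 2)
      simpa using this
    have h3 : ‖(Real.pi : ℂ) ^ 2 / 2 * z ^ 2‖ = Real.pi ^ 2 / 2 * ‖z‖ ^ 2 := by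
      rw [norm_mul, norm_div, norm_pow, norm_pow, npi, Complex.norm_ofNat]
    have h4 : ‖z‖ ^ 4 ≤ ‖z‖ ^ 2 := pow_le_pow_of_le_one (norm_nonneg _) hz (by norm_num)
    have h5 : 0 ≤ ‖z‖ ^ 2 := by positivity
    have h6 : Real.pi ^ 3 * C * ‖z‖ ^ 4 ≤ Real.pi ^ 3 * C * ‖z‖ ^ 2 := by gcongr
    rw [h3] at h2
    have h7 : 0 ≤ Real.pi ^ 2 * ‖z‖ ^ 2 := by positivity
    nlinarith
  set D : ℝ := Real.pi ^ 2 + Real.pi ^ 3 * C with hD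
  have hD0 : 0 ≤ D := by positivity
  have hS : ∀ z : ℂ, ‖z‖ ≤ 1 → ‖Real.pi * Complex.sin (Real.pi * z) - Real.pi ^ 2 * z‖ ≤
      Real.pi ^ 2 * D * ‖z‖ ^ 3 := by
    refine step (n := 2) d2 (by simp) (by positivity) (fun z hz => ?_)
    have h3 := hD2 z hz
    rw [norm_neg, norm_mul, norm_pow, npi]
    calc Real.pi ^ 2 * ‖fD z‖ ≤ Real.pi ^ 2 * (D * ‖z‖ ^ 2) := by gcongr
      _ = Real.pi ^ 2 * D * ‖z‖ ^ 2 := by ring
  have hS2 : ∀ z : ℂ, ‖z‖ ≤ 1 → ‖Complex.sin (Real.pi * z) - Real.pi * z‖ ≤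
      Real.pi * D * ‖z‖ ^ 3 := by
    intro z hz
    have h1 := hS z hz
    have e : Real.pi * Complex.sin (Real.pi * z) - Real.pi ^ 2 * z =
      Real.pi * (Complex.sin (Real.pi * z) - Real.pi * z) := by ring
    rw [e, norm_mul, npi] at h1
    refine le_of_mul_le_mul_left (h1.trans (le_of_eq ?_)) hpp
    ring
  -- the three expansions
  have hA : ∀ h : ℂ, ‖h‖ ≤ 1 → ‖fA h - 2 * Real.pi ^ 2 / 3 * h ^ 3‖ ≤
      (2 * (Real.pi * D) * (C + Real.pi)) * ‖h‖ ^ 5 := by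
    have d : ∀ z : ℂ, HasDerivAt (fun z : ℂ => fA z - 2 * Real.pi ^ 2 / 3 * z ^ 3)
        (2 * (Complex.sin (Real.pi * z) - Real.pi * z) * (Complex.sin (Real.pi * z) + Real.pi * z)) z := by
      intro z
      have h3 := (dA z).sub ((hasDerivAt_pow 3 z).const_mul (2 * (Real.pi : ℂ) ^ 2 / 3))
      refine h3.congr_deriv ?_
      push_cast
      ring
    refine step (n := 4) d (by simp [fA]) (by positivity) (fun z hz => ?_)
    have h1 := hS2 z hz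
    have h2 := (hC z hz).1
    have h3 : ‖Complex.sin (Real.pi * z) + Real.pi * z‖ ≤ (C + Real.pi) * ‖z‖ := by
      refine (norm_add_le _ _).trans ?_
      rw [norm_mul, npi]
      linarith
    rw [norm_mul, norm_mul, Complex.norm_ofNat]
    calc 2 * ‖Complex.sin (Real.pi * z) - Real.pi * z‖ * ‖Complex.sin (Real.pi * z) + Real.pi * z‖
        ≤ 2 * (Real.pi * D * ‖z‖ ^ 3) * ((C + Real.pi) * ‖z‖) := by gcongr
      _ = _ := by ring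
  have hB : ∀ h : ℂ, ‖h‖ ≤ 1 → ‖fB h - Real.pi ^ 2 / 3 * h ^ 3‖ ≤ (Real.pi ^ 2 * D) * ‖h‖ ^ 5 := by
    have d : ∀ z : ℂ, HasDerivAt (fun z : ℂ => fB z - Real.pi ^ 2 / 3 * z ^ 3)
        (z * (Real.pi * Complex.sin (Real.pi * z) - Real.pi ^ 2 * z)) z := by
      intro z
      have h3 := (dB z).sub ((hasDerivAt_pow 3 z).const_mul ((Real.pi : ℂ) ^ 2 / 3))
      refine h3.congr_deriv ?_
      push_cast
      ring
    refine step (n := 4) d (by simp [fB]) (by positivity) (fun z hz => ?_)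
    rw [norm_mul]
    calc ‖z‖ * ‖Real.pi * Complex.sin (Real.pi * z) - Real.pi ^ 2 * z‖ ≤
          ‖z‖ * (Real.pi ^ 2 * D * ‖z‖ ^ 3) := by
          gcongr
          exact hS z hz
      _ = _ := by ring
  have hE : ∀ h : ℂ, ‖h‖ ≤ 1 → ‖fD h - Real.pi ^ 2 / 2 * h ^ 2 + Real.pi ^ 4 / 24 * h ^ 4‖ ≤
      (Real.pi ^ 2 * (Real.pi ^ 3 * C)) * ‖h‖ ^ 6 := by
    have d1 : ∀ z : ℂ, HasDerivAt (fun z : ℂ => Real.pi * Complex.sin (Real.pi * z) -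
        Real.pi ^ 2 * z + Real.pi ^ 4 / 6 * z ^ 3)
        (-(Real.pi ^ 2 * (fD z - Real.pi ^ 2 / 2 * z ^ 2))) z := by
      intro z
      have h3 := (d2 z).add ((hasDerivAt_pow 3 z).const_mul ((Real.pi : ℂ) ^ 4 / 6))
      refine h3.congr_deriv ?_
      push_cast
      ring
    have h1 : ∀ z : ℂ, ‖z‖ ≤ 1 → ‖Real.pi * Complex.sin (Real.pi * z) - Real.pi ^ 2 * z +
        Real.pi ^ 4 / 6 * z ^ 3‖ ≤ (Real.pi ^ 2 * (Real.pi ^ 3 * C)) * ‖z‖ ^ 5 := by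
      refine step (n := 4) d1 (by simp) (by positivity) (fun z hz => ?_)
      rw [norm_neg, norm_mul, norm_pow, npi, mul_assoc]
      gcongr
      exact (hC z hz).2.2.2
    have d3 : ∀ z : ℂ, HasDerivAt (fun z : ℂ => fD z - Real.pi ^ 2 / 2 * z ^ 2 + Real.pi ^ 4 / 24 * z ^ 4)
        (Real.pi * Complex.sin (Real.pi * z) - Real.pi ^ 2 * z + Real.pi ^ 4 / 6 * z ^ 3) z := by
      intro z
      have h3 := ((dD z).sub ((hasDerivAt_pow 2 z).const_mul ((Real.pi : ℂ) ^ 2 / 2))).add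
        ((hasDerivAt_pow 4 z).const_mul ((Real.pi : ℂ) ^ 4 / 24))
      refine h3.congr_deriv ?_
      push_cast
      ring
    exact step (n := 5) d3 (by simp [fD]) (by positivity) h1
  refine ⟨2 * (Real.pi * D) * (C + Real.pi) + Real.pi ^ 2 * D + Real.pi ^ 2 * (Real.pi ^ 3 * C),
    by positivity, fun h hh => ⟨?_, ?_, ?_⟩⟩
  · refine (hA h hh).trans ?_
    gcongr
    have : 0 ≤ Real.pi ^ 2 * D + Real.pi ^ 2 * (Real.pi ^ 3 * C) := by positivity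
    linarith
  · refine (hB h hh).trans ?_
    gcongr
    have : 0 ≤ 2 * (Real.pi * D) * (C + Real.pi) + Real.pi ^ 2 * (Real.pi ^ 3 * C) := by positivity
    linarith
  · refine (hE h hh).trans ?_
    gcongr
    have : 0 ≤ 2 * (Real.pi * D) * (C + Real.pi) + Real.pi ^ 2 * D := by positivity
    linarith

/-- `f₀ (m + h) = T m + c h² (1 + η h)` with the first two terms of `η` -/
theorem local_form2 : ∃ C : ℝ, 1 ≤ C ∧ ∀ m : ℤ, ∃ (ε : ℝ) (η : ℂ → ℂ), (ε = 1 ∨ ε = -1) ∧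
    |ε * ((m : ℝ) + 1 / 2) * (Real.pi ^ 2 / 4)| = bt m ∧ Differentiable ℂ η ∧ η 0 = 0 ∧
    (∀ h : ℂ, f₀ (m + h) = (T m : ℂ) + (ε * ((m : ℝ) + 1 / 2) * (Real.pi ^ 2 / 4) : ℝ) * h ^ 2 * (1 + η h)) ∧
    (∀ h : ℂ, ‖h‖ ≤ 1 → ‖η h‖ ≤ C * ‖h‖ * (1 + bt m * ‖h‖) / bt m) ∧
    ∀ h : ℂ, ‖h‖ ≤ 1 → ‖η h - (2 * Real.pi ^ 2 / 3 + ε * Real.pi ^ 2 / 6) /
      (ε * ((m : ℝ) + 1 / 2) * (Real.pi ^ 2 / 4) : ℝ) * h + Real.pi ^ 2 / 12 * h ^ 2‖ ≤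
      C * ‖h‖ ^ 3 * (1 + bt m * ‖h‖) / bt m := by
  obtain ⟨C1, hC1, h1⟩ := Pool.Agent.Helper25.JB.local_form
  obtain ⟨C2, hC2, h2⟩ := bds2
  have hpp := Real.pi_pos
  refine ⟨C1 + 2 * C2, by linarith, fun m => ?_⟩
  obtain ⟨c, η, hc, hηd, hη0, hf, hηb⟩ := h1 m
  obtain ⟨ε, hε, hk⟩ := Pool.Agent.Helper25.JB.key' m
  have hbt : 0 < bt m := by linarith [(Pool.Agent.Y151.WD.t_TAIL.1 m).1]
  have hεr : |ε| = 1 := by rcases hε with rfl | rfl <;> simp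
  have hεn : ‖(ε : ℂ)‖ = 1 := by rcases hε with rfl | rfl <;> simp
  set c' : ℝ := ε * ((m : ℝ) + 1 / 2) * (Real.pi ^ 2 / 4) with hc'
  have hb' : ‖(m : ℂ) + 1 / 2‖ = 4 / Real.pi ^ 2 * bt m := by
    have hb : bt m = Real.pi ^ 2 / 4 * ‖(m : ℂ) + 1 / 2‖ := by rw [nm]; rfl
    rw [hb]
    field_simp
  have hcabs : |c'| = bt m := by
    rw [hc', abs_mul, abs_mul, hεr, one_mul, abs_of_pos (by positivity : 0 < Real.pi ^ 2 / 4), mul_comm]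
    rfl
  -- the expansion
  have hexp : ∀ h : ℂ, ‖h‖ ≤ 1 → ‖f₀ (m + h) - (T m : ℂ) - (c' : ℂ) * h ^ 2 -
      (2 * Real.pi ^ 2 / 3 + ε * Real.pi ^ 2 / 6) * h ^ 3 + c' * (Real.pi ^ 2 / 12) * h ^ 4‖ ≤
      2 * C2 * ‖h‖ ^ 5 * (1 + bt m * ‖h‖) := by
    intro h hh
    obtain ⟨bA, bB, bD⟩ := h2 h hh
    have e : f₀ (m + h) - (T m : ℂ) - (c' : ℂ) * h ^ 2 -
        (2 * Real.pi ^ 2 / 3 + ε * Real.pi ^ 2 / 6) * h ^ 3 + c' * (Real.pi ^ 2 / 12) * h ^ 4 =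
        (fA h - 2 * Real.pi ^ 2 / 3 * h ^ 3) + ε / 2 * (fB h - Real.pi ^ 2 / 3 * h ^ 3) +
        ε / 2 * ((m : ℂ) + 1 / 2) * (fD h - Real.pi ^ 2 / 2 * h ^ 2 + Real.pi ^ 4 / 24 * h ^ 4) := by
      rw [hk h, hc']
      push_cast
      ring
    rw [e]
    have e3 : ‖(ε : ℂ) / 2‖ = 1 / 2 := by rw [norm_div, hεn]; norm_num
    have h0 : 0 ≤ ‖h‖ := norm_nonneg h
    have hpi3 : (3 : ℝ) < Real.pi := Real.pi_gt_three
    calc ‖(fA h - 2 * Real.pi ^ 2 / 3 * h ^ 3) + ε / 2 * (fB h - Real.pi ^ 2 / 3 * h ^ 3) +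
        ε / 2 * ((m : ℂ) + 1 / 2) * (fD h - Real.pi ^ 2 / 2 * h ^ 2 + Real.pi ^ 4 / 24 * h ^ 4)‖
        ≤ ‖fA h - 2 * Real.pi ^ 2 / 3 * h ^ 3‖ + ‖ε / 2 * (fB h - Real.pi ^ 2 / 3 * h ^ 3)‖ +
          ‖ε / 2 * ((m : ℂ) + 1 / 2) * (fD h - Real.pi ^ 2 / 2 * h ^ 2 + Real.pi ^ 4 / 24 * h ^ 4)‖ :=
          norm_add₃_le
      _ = ‖fA h - 2 * Real.pi ^ 2 / 3 * h ^ 3‖ + 1 / 2 * ‖fB h - Real.pi ^ 2 / 3 * h ^ 3‖ +
          1 / 2 * (4 / Real.pi ^ 2 * bt m) *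
            ‖fD h - Real.pi ^ 2 / 2 * h ^ 2 + Real.pi ^ 4 / 24 * h ^ 4‖ := by
          rw [norm_mul, norm_mul, norm_mul, e3, hb']
      _ ≤ C2 * ‖h‖ ^ 5 + 1 / 2 * (C2 * ‖h‖ ^ 5) + 1 / 2 * (1 * bt m) * (C2 * ‖h‖ ^ 6) := by
          gcongr
          rw [div_le_one (by positivity)]
          nlinarith
      _ ≤ 2 * C2 * ‖h‖ ^ 5 * (1 + bt m * ‖h‖) := by
          have h3 : 0 ≤ C2 * ‖h‖ ^ 5 := by positivity
          have h4 : 0 ≤ C2 * ‖h‖ ^ 5 * (bt m * ‖h‖) := by positivity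
          nlinarith
  -- the two leading coefficients agree
  have hcc : c = c' := by
    by_contra hne
    have hpos : 0 < |c - c'| := abs_pos.2 (sub_ne_zero.2 hne)
    set K : ℝ := 2 * C2 * (1 + bt m) + (2 * Real.pi ^ 2 / 3 + Real.pi ^ 2 / 6) +
      bt m * (Real.pi ^ 2 / 12) + C1 * (1 + bt m) with hK
    have hK0 : 0 < K := by positivity
    obtain ⟨t, ht0, ht1, ht2⟩ : ∃ t : ℝ, 0 < t ∧ t ≤ 1 ∧ K * t < |c - c'| := by
      refine ⟨min 1 (|c - c'| / (2 * K)), by positivity, min_le_left _ _, ?_⟩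
      calc K * min 1 (|c - c'| / (2 * K)) ≤ K * (|c - c'| / (2 * K)) := by
            gcongr
            exact min_le_right _ _
        _ = |c - c'| / 2 := by field_simp
        _ < |c - c'| := by linarith
    have htn : ‖(t : ℂ)‖ = t := by rw [Complex.norm_real, Real.norm_of_nonneg ht0.le]
    have e1 := hexp (t : ℂ) (by rw [htn]; exact ht1)
    have e2 := hηb (t : ℂ) (by rw [htn]; exact ht1)
    rw [hf (t : ℂ), htn] at e1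
    rw [htn] at e2
    have e3 : ‖((c - c' : ℝ) : ℂ) * (t : ℂ) ^ 2‖ = |c - c'| * t ^ 2 := by
      rw [norm_mul, norm_pow, htn, Complex.norm_real, Real.norm_eq_abs]
    have e4 : ((c - c' : ℝ) : ℂ) * (t : ℂ) ^ 2 =
        ((T m : ℂ) + (c : ℂ) * (t : ℂ) ^ 2 * (1 + η t) - (T m : ℂ) - (c' : ℂ) * (t : ℂ) ^ 2 -
        (2 * Real.pi ^ 2 / 3 + ε * Real.pi ^ 2 / 6) * (t : ℂ) ^ 3 +
          c' * (Real.pi ^ 2 / 12) * (t : ℂ) ^ 4) +
        (2 * Real.pi ^ 2 / 3 + ε * Real.pi ^ 2 / 6) * (t : ℂ) ^ 3 +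
        (-(c' * (Real.pi ^ 2 / 12) * (t : ℂ) ^ 4)) + (-((c : ℂ) * (t : ℂ) ^ 2 * η t)) := by
      push_cast
      ring
    have n1 : ‖(2 * (Real.pi : ℂ) ^ 2 / 3 + ε * Real.pi ^ 2 / 6) * (t : ℂ) ^ 3‖ ≤
        (2 * Real.pi ^ 2 / 3 + Real.pi ^ 2 / 6) * t ^ 3 := by
      rw [norm_mul, norm_pow, htn]
      gcongr
      refine (norm_add_le _ _).trans ?_
      rw [norm_div, norm_mul, norm_div, norm_mul, norm_pow, npi, hεn]
      norm_num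
    have n2 : ‖-((c' : ℂ) * (Real.pi ^ 2 / 12) * (t : ℂ) ^ 4)‖ ≤ bt m * (Real.pi ^ 2 / 12) * t ^ 3 := by
      rw [norm_neg, norm_mul, norm_mul, norm_pow, htn, norm_div, norm_pow, npi, Complex.norm_real,
        Real.norm_eq_abs, hcabs, Complex.norm_ofNat]
      have : t ^ 4 ≤ t ^ 3 := pow_le_pow_of_le_one ht0.le ht1 (by norm_num)
      gcongr
    have n3 : ‖-((c : ℂ) * (t : ℂ) ^ 2 * η t)‖ ≤ C1 * (1 + bt m) * t ^ 3 := by
      rw [norm_neg, norm_mul, norm_mul, norm_pow, htn, Complex.norm_real, Real.norm_eq_abs, hc]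
      calc bt m * t ^ 2 * ‖η t‖ ≤ bt m * t ^ 2 * (C1 * t * (1 + bt m * t) / bt m) := by gcongr
        _ = C1 * (1 + bt m * t) * t ^ 3 := by field_simp
        _ ≤ C1 * (1 + bt m * 1) * t ^ 3 := by gcongr
        _ = _ := by ring
    have n4 : 2 * C2 * t ^ 5 * (1 + bt m * t) ≤ 2 * C2 * (1 + bt m) * t ^ 3 := by
      have : t ^ 5 ≤ t ^ 3 := pow_le_pow_of_le_one ht0.le ht1 (by norm_num)
      calc 2 * C2 * t ^ 5 * (1 + bt m * t) ≤ 2 * C2 * t ^ 3 * (1 + bt m * 1) := by gcongr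
        _ = _ := by ring
    have n5 : |c - c'| * t ^ 2 ≤ K * t * t ^ 2 := by
      rw [← e3, e4]
      refine (norm_add_le _ _).trans ?_
      refine (add_le_add_left (norm_add₃_le) _).trans ?_
      have : K * t * t ^ 2 = 2 * C2 * (1 + bt m) * t ^ 3 + (2 * Real.pi ^ 2 / 3 + Real.pi ^ 2 / 6) * t ^ 3 +
        bt m * (Real.pi ^ 2 / 12) * t ^ 3 + C1 * (1 + bt m) * t ^ 3 := by rw [hK]; ring
      rw [this]
      linarith
    have n6 : |c - c'| ≤ K * t := le_of_mul_le_mul_right n5 (by positivity)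
    linarith
  subst hcc
  refine ⟨ε, η, hε, hcabs, hηd, hη0, hf, fun h hh => ?_, fun h hh => ?_⟩
  · refine (hηb h hh).trans ?_
    have : C1 ≤ C1 + 2 * C2 := by linarith
    gcongr
  · have hc0 : (c' : ℂ) ≠ 0 := by
      intro h
      have : c' = 0 := by exact_mod_cast h
      rw [this, abs_zero] at hc
      linarith
    have hcn : ‖(c' : ℂ)‖ = bt m := by rw [Complex.norm_real, Real.norm_eq_abs, hc]
    by_cases hh0 : h = 0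
    · rw [hh0, hη0]; simp
    · have h3 := hexp h hh
      rw [hf h] at h3
      have h4 : (T m : ℂ) + (c' : ℂ) * h ^ 2 * (1 + η h) - (T m : ℂ) - (c' : ℂ) * h ^ 2 -
          (2 * Real.pi ^ 2 / 3 + ε * Real.pi ^ 2 / 6) * h ^ 3 + c' * (Real.pi ^ 2 / 12) * h ^ 4 =
          c' * h ^ 2 * (η h - (2 * Real.pi ^ 2 / 3 + ε * Real.pi ^ 2 / 6) / c' * h + Real.pi ^ 2 / 12 * h ^ 2) := by
        field_simp
        ring
      rw [h4, norm_mul, norm_mul, hcn, norm_pow] at h3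
      have hpos : 0 < bt m * ‖h‖ ^ 2 := by positivity
      rw [le_div_iff₀ hbt]
      have h5 : bt m * ‖h‖ ^ 2 * (‖η h - (2 * Real.pi ^ 2 / 3 + ε * Real.pi ^ 2 / 6) / c' * h +
          Real.pi ^ 2 / 12 * h ^ 2‖ * bt m) ≤ bt m * ‖h‖ ^ 2 * ((C1 + 2 * C2) * ‖h‖ ^ 3 * (1 + bt m * ‖h‖)) := by
        calc bt m * ‖h‖ ^ 2 * (‖η h - (2 * Real.pi ^ 2 / 3 + ε * Real.pi ^ 2 / 6) / c' * h +
            Real.pi ^ 2 / 12 * h ^ 2‖ * bt m)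
            = bt m * (bt m * ‖h‖ ^ 2 * ‖η h - (2 * Real.pi ^ 2 / 3 + ε * Real.pi ^ 2 / 6) / c' * h +
            Real.pi ^ 2 / 12 * h ^ 2‖) := by ring
          _ ≤ bt m * (2 * C2 * ‖h‖ ^ 5 * (1 + bt m * ‖h‖)) := by gcongr
          _ ≤ bt m * ((C1 + 2 * C2) * ‖h‖ ^ 5 * (1 + bt m * ‖h‖)) := by
              gcongr
              linarith
          _ = _ := by ring
      exact le_of_mul_le_mul_left h5 hpos

end Pool.Agent.Helper25.RB
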