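import Pool.Agent.Helper25.JB.Asm
import Pool.Agent.Helper25.RB.Loc2

/-!
# The Fatou components of `f₀` at integers with large orbits: the nonautonomous system
-/

set_option autoImplicit false

open Filter Topology Metric Set

namespace Pool.Agent.Helper25.RB

open Pool.Agent.H384R2.Fatou Pool.Agent.H723R2.LSW Pool.Agent.Y282.WD Pool.Agent.Helper25.JB

theorem orbit_shift (n : ℤ) (k j : ℕ) : T^[j] (T^[k] n) = T^[k + j] n := by
  rw [add_comm, Function.iterate_add_apply]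

theorem core : ∃ C : ℝ, 1 ≤ C ∧ ∀ n : ℤ, (∀ j : ℕ, C ≤ |((T^[j] n : ℤ) : ℝ)|) →
    ∃ (τ : ℕ → ℝ) (L : ℕ → ℂ → ℂ) (a b : ℕ → ℂ),
      (∀ k, DifferentiableOn ℂ (L k) (ball 0 2)) ∧ (∀ k, L k 0 = 0) ∧
      (∀ k, C / bt (T^[k] n) ^ 2 ≤ 1 / 100000) ∧
      (∀ k, ∀ v ∈ ball (0 : ℂ) 2, ‖L k v‖ ≤ C / bt (T^[k] n) ^ 2) ∧
      (∀ k, ‖a k‖ ≤ C / bt (T^[k] n) ^ 2) ∧ (∀ k, ‖b k‖ ≤ C / bt (T^[k] n) ^ 2) ∧
      (∀ k, ∀ v ∈ ball (0 : ℂ) 2, ‖L k v - (a k * v + b k * v ^ 2)‖ ≤ (C / bt (T^[k] n) ^ 2) ^ 2) ∧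
      (∀ k, 1 / 4 / bt (T^[k + 1] n) ^ 2 ≤ ‖a (k + 1) / 2 + b k‖) ∧
      (∀ k, |τ k| = rho (T^[k] n)) ∧
      ∀ (Ψ : ℕ → ℂ → ℂ), (Ψ = fun k z => ((T^[k] n : ℤ) : ℂ) + τ k * Phi L k z) → ∀ k,
        ContinuousOn (Ψ k) (closedBall 0 1) ∧ InjOn (Ψ k) (closedBall 0 1) ∧
        DifferentiableOn ℂ (Ψ k) (ball 0 1) ∧
        (∀ z : ℂ, ‖z‖ ≤ 1 → f₀ (Ψ k z) = Ψ (k + 1) (z ^ 2)) ∧
        Ψ k '' ball 0 1 = FatouComponent f₀ ((T^[k] n : ℤ) : ℂ) ∧
        Ψ k '' closedBall 0 1 = closure (FatouComponent f₀ ((T^[k] n : ℤ) : ℂ)) ∧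
        Ψ k '' sphere 0 1 = frontier (FatouComponent f₀ ((T^[k] n : ℤ) : ℂ)) := by
  have hT := Pool.Agent.Y151.WD.t_TAIL
  obtain ⟨C1, hC1, hloc⟩ := local_form2
  choose ε η hε hc hηd hη0 hf hηb hη2 using hloc
  obtain ⟨c, hcdef⟩ : ∃ c : ℤ → ℝ, ∀ m : ℤ, c m = ε m * ((m : ℝ) + 1 / 2) * (Real.pi ^ 2 / 4) := ⟨_, fun _ => rfl⟩
  simp only [← hcdef] at hc hf hη2
  -- the constant
  refine ⟨1000000 * C1 ^ 2, by nlinarith, fun n hn => ?_⟩
  set x : ℕ → ℤ := fun k => T^[k] n with hx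
  have hxs : ∀ k, T (x k) = x (k + 1) := fun k => by
    simp only [hx, Function.iterate_succ_apply']
  -- the multipliers
  obtain ⟨τ, hτ0, hτs⟩ : ∃ τ : ℕ → ℝ, τ 0 = rho (x 0) ∧ ∀ k : ℕ, τ (k + 1) = c (x k) * τ k ^ 2 :=
    ⟨fun k => Nat.rec (rho (x 0)) (fun k t => c (x k) * t ^ 2) k, rfl, fun k => rfl⟩
  have hτ : ∀ k, |τ k| = rho (x k) := by
    intro k
    induction k with
    | zero => rw [hτ0, abs_of_pos (hT.2 _).1]
    | succ k ih =>
      rw [hτs, abs_mul, abs_pow, ih, hc, ← hxs, (hT.2 (x k)).2.1]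
  have hρ0 : ∀ k, 0 < rho (x k) := fun k => (hT.2 (x k)).1
  have hτne : ∀ k : ℕ, (τ k : ℂ) ≠ 0 := by
    intro k h
    have h1 : τ k = 0 := by exact_mod_cast h
    have := hτ k
    rw [h1, abs_zero] at this
    linarith [hρ0 k]
  have hτn : ∀ k : ℕ, ‖(τ k : ℂ)‖ = rho (x k) := fun k => by
    rw [Complex.norm_real, Real.norm_eq_abs, hτ]
  -- the size of `η`
  have hK : (1000000 : ℝ) ≤ 1000000 * C1 ^ 2 := by nlinarith
  have hKC : 1000000 * C1 ≤ 1000000 * C1 ^ 2 := by nlinarith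
  have hbt : ∀ k : ℕ, 1000000 * C1 ^ 2 ≤ bt (x k) := fun k => bt_ge (by linarith) (hn k)
  have hbt1 : ∀ k : ℕ, 1000000 * C1 ≤ bt (x k) := fun k => hKC.trans (hbt k)
  have hbt0 : ∀ k : ℕ, 0 < bt (x k) := fun k => by linarith [hbt k]
  have hC1bt : ∀ k : ℕ, C1 / bt (x k) ^ 2 ≤ 1 / 100000000 := by
    intro k
    have h1 := hbt k
    have h2 := hbt1 k
    have h0 := hbt0 k
    rw [div_le_div_iff₀ (by positivity) (by norm_num)]
    nlinarith
  have hτv : ∀ k, ∀ v ∈ ball (0 : ℂ) 2, ‖(τ k : ℂ) * v‖ ≤ 6 / bt (x k) ∧ ‖(τ k : ℂ) * v‖ ≤ 1 := by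
    intro k v hv
    have hb := hbt k
    have hb0 := hbt0 k
    obtain ⟨hr0, -, -, hr2⟩ := hT.2 (x k)
    rw [mem_ball, dist_zero_right] at hv
    have h3 : bt (x k) * ‖(τ k : ℂ) * v‖ ≤ 6 := by
      rw [norm_mul, hτn]
      calc bt (x k) * (rho (x k) * ‖v‖) = bt (x k) * rho (x k) * ‖v‖ := by ring
        _ ≤ 3 * 2 := by gcongr
        _ = 6 := by norm_num
    have h4 : ‖(τ k : ℂ) * v‖ ≤ 6 / bt (x k) := by
      rw [le_div_iff₀ hb0]; linarith
    refine ⟨h4, h4.trans ?_⟩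
    rw [div_le_one hb0]
    linarith
  have hη : ∀ k, ∀ v ∈ ball (0 : ℂ) 2, ‖η (x k) (τ k * v)‖ ≤ 42 * C1 / bt (x k) ^ 2 := by
    intro k v hv
    have hb0 := hbt0 k
    obtain ⟨h4, h5⟩ := hτv k v hv
    calc ‖η (x k) (τ k * v)‖ ≤ C1 * ‖(τ k : ℂ) * v‖ * (1 + bt (x k) * ‖(τ k : ℂ) * v‖) / bt (x k) :=
          hηb _ _ h5
      _ ≤ C1 * (6 / bt (x k)) * (1 + bt (x k) * (6 / bt (x k))) / bt (x k) := by gcongr
      _ = 42 * C1 / bt (x k) ^ 2 := by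
          field_simp
          ring
  have hηs : ∀ k, ∀ v ∈ ball (0 : ℂ) 2, ‖η (x k) (τ k * v)‖ ≤ 1 / 60 := fun k v hv => by
    have h1 := hη k v hv
    have h2 := hC1bt k
    have h3 : 42 * C1 / bt (x k) ^ 2 = 42 * (C1 / bt (x k) ^ 2) := by ring
    linarith
  -- the functions `L k`
  set L : ℕ → ℂ → ℂ := fun k v => Complex.log (1 + η (x k) (τ k * v)) with hL
  have hLd : ∀ k, DifferentiableOn ℂ (L k) (ball 0 2) := by
    intro k v hv
    have h1 : DifferentiableAt ℂ (fun v : ℂ => 1 + η (x k) (τ k * v)) v := by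
      refine DifferentiableAt.const_add _ ?_
      exact (hηd (x k) _).comp v ((differentiableAt_id).const_mul _)
    have h2 : 1 + η (x k) (τ k * v) ∈ Complex.slitPlane := by
      apply Complex.mem_slitPlane_of_norm_lt_one
      have := hηs k v hv
      linarith
    exact (h1.clog h2).differentiableWithinAt
  have hLM : ∀ k, ∀ v ∈ ball (0 : ℂ) 2, ‖L k v‖ ≤ 63 * C1 / bt (x k) ^ 2 := by
    intro k v hv
    have h3 := hη k v hv
    have h4 := Complex.norm_log_one_add_half_le_self (z := η (x k) (τ k * v))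
      (by have := hηs k v hv; linarith)
    refine h4.trans ?_
    calc 3 / 2 * ‖η (x k) (τ k * v)‖ ≤ 3 / 2 * (42 * C1 / bt (x k) ^ 2) := by gcongr
      _ = 63 * C1 / bt (x k) ^ 2 := by ring
  have hL0 : ∀ k, L k 0 = 0 := by
    intro k
    simp only [hL, mul_zero, hη0, add_zero, Complex.log_one]
  have hLexp : ∀ k, ∀ v ∈ ball (0 : ℂ) 2, Complex.exp (L k v) = 1 + η (x k) (τ k * v) := by
    intro k v hv
    apply Complex.exp_log
    intro h
    have h1 := hηs k v hv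
    have h2 : η (x k) (τ k * v) = -1 := by linear_combination h
    rw [h2, norm_neg, norm_one] at h1
    norm_num at h1
  -- second order
  have hcn : ∀ k : ℕ, ‖(c (x k) : ℂ)‖ = bt (x k) := fun k => by
    rw [Complex.norm_real, Real.norm_eq_abs, hc]
  have hpp := Real.pi_pos
  have hp4 : Real.pi < 4 := by linarith [Real.pi_lt_d2]
  have hp3 : 3 < Real.pi := Real.pi_gt_three
  have hL2 : ∀ k, ∀ v ∈ ball (0 : ℂ) 2, ‖L k v -
      ((2 * Real.pi ^ 2 / 3 + ε (x k) * Real.pi ^ 2 / 6) / (c (x k) : ℂ) * τ k * v +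
        -(Real.pi ^ 2 / 12 * (τ k : ℂ) ^ 2) * v ^ 2)‖ ≤ 4000 * C1 ^ 2 / bt (x k) ^ 4 := by
    intro k v hv
    have hb0 := hbt0 k
    obtain ⟨h4, h5⟩ := hτv k v hv
    have h6 := hη2 (x k) (τ k * v) h5
    have h7 : ‖L k v - η (x k) (τ k * v)‖ ≤ 2000 * C1 ^ 2 / bt (x k) ^ 4 := by
      have h8 := hηs k v hv
      have h9 := Complex.norm_log_one_add_sub_self_le (z := η (x k) (τ k * v)) (by linarith)
      have h10 : (1 - ‖η (x k) (τ k * v)‖)⁻¹ ≤ 2 := by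
        rw [inv_le_comm₀ (by linarith) (by norm_num)]
        linarith
      have h11 := hη k v hv
      have h13 : 0 ≤ (1 - ‖η (x k) (τ k * v)‖)⁻¹ := inv_nonneg.2 (by linarith)
      calc ‖L k v - η (x k) (τ k * v)‖ ≤ ‖η (x k) (τ k * v)‖ ^ 2 * (1 - ‖η (x k) (τ k * v)‖)⁻¹ / 2 := h9
        _ ≤ (42 * C1 / bt (x k) ^ 2) ^ 2 * 2 / 2 := by gcongr
        _ = 1764 * C1 ^ 2 / bt (x k) ^ 4 := by ring
        _ ≤ 2000 * C1 ^ 2 / bt (x k) ^ 4 := by gcongr; norm_num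
    have h12 : C1 * ‖(τ k : ℂ) * v‖ ^ 3 * (1 + bt (x k) * ‖(τ k : ℂ) * v‖) / bt (x k) ≤
        2000 * C1 ^ 2 / bt (x k) ^ 4 := by
      calc C1 * ‖(τ k : ℂ) * v‖ ^ 3 * (1 + bt (x k) * ‖(τ k : ℂ) * v‖) / bt (x k)
          ≤ C1 * (6 / bt (x k)) ^ 3 * (1 + bt (x k) * (6 / bt (x k))) / bt (x k) := by gcongr
        _ = 1512 * C1 / bt (x k) ^ 4 := by
            field_simp
            ring
        _ ≤ 2000 * C1 ^ 2 / bt (x k) ^ 4 := by
            apply div_le_div_of_nonneg_right _ (by positivity)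
            nlinarith
    have e : L k v - ((2 * Real.pi ^ 2 / 3 + ε (x k) * Real.pi ^ 2 / 6) / (c (x k) : ℂ) * τ k * v +
        -(Real.pi ^ 2 / 12 * (τ k : ℂ) ^ 2) * v ^ 2) = (L k v - η (x k) (τ k * v)) +
        (η (x k) (τ k * v) - (2 * Real.pi ^ 2 / 3 + ε (x k) * Real.pi ^ 2 / 6) / (c (x k) : ℂ) * (τ k * v) +
          Real.pi ^ 2 / 12 * (τ k * v) ^ 2) := by ring
    rw [e]
    refine (norm_add_le _ _).trans ?_
    calc _ ≤ 2000 * C1 ^ 2 / bt (x k) ^ 4 + 2000 * C1 ^ 2 / bt (x k) ^ 4 := by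
          gcongr
          exact h6.trans h12
      _ = _ := by ring
  have hεn : ∀ k : ℕ, ‖(ε (x k) : ℂ)‖ = 1 := fun k => by rcases hε (x k) with h | h <;> rw [h] <;> simp
  have ha : ∀ k : ℕ, ‖(2 * Real.pi ^ 2 / 3 + ε (x k) * Real.pi ^ 2 / 6) / (c (x k) : ℂ) * τ k‖ ≤
      1000 / bt (x k) ^ 2 := by
    intro k
    have hb0 := hbt0 k
    obtain ⟨hr0, -, -, hr2⟩ := hT.2 (x k)
    have h1 : ‖(2 * (Real.pi : ℂ) ^ 2 / 3 + ε (x k) * Real.pi ^ 2 / 6)‖ ≤ 20 := by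
      refine (norm_add_le _ _).trans ?_
      rw [norm_div, norm_mul, norm_div, norm_mul, norm_pow, Pool.Agent.Y888.WD.npi, hεn]
      norm_num
      nlinarith
    rw [norm_mul, norm_div, hcn, hτn, div_mul_eq_mul_div, div_le_div_iff₀ hb0 (by positivity)]
    calc ‖(2 * (Real.pi : ℂ) ^ 2 / 3 + ε (x k) * Real.pi ^ 2 / 6)‖ * rho (x k) * bt (x k) ^ 2
        ≤ 20 * rho (x k) * bt (x k) ^ 2 := by gcongr
      _ = 20 * (bt (x k) * rho (x k)) * bt (x k) := by ring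
      _ ≤ 20 * 3 * bt (x k) := by gcongr
      _ ≤ 1000 * bt (x k) := by nlinarith
  have hb : ∀ k : ℕ, ‖-((Real.pi : ℂ) ^ 2 / 12 * (τ k : ℂ) ^ 2)‖ ≤ 1000 / bt (x k) ^ 2 := by
    intro k
    have hb0 := hbt0 k
    obtain ⟨hr0, -, -, hr2⟩ := hT.2 (x k)
    rw [norm_neg, norm_mul, norm_div, norm_pow, norm_pow, hτn, Pool.Agent.Y888.WD.npi, Complex.norm_ofNat,
      le_div_iff₀ (by positivity)]
    calc Real.pi ^ 2 / 12 * rho (x k) ^ 2 * bt (x k) ^ 2 = Real.pi ^ 2 / 12 * (bt (x k) * rho (x k)) ^ 2 := by ring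
      _ ≤ Real.pi ^ 2 / 12 * 3 ^ 2 := by gcongr
      _ ≤ 1000 := by nlinarith
  have hmain : ∀ k : ℕ, 1 / 4 / bt (x (k + 1)) ^ 2 ≤
      ‖(2 * Real.pi ^ 2 / 3 + ε (x (k + 1)) * Real.pi ^ 2 / 6) / (c (x (k + 1)) : ℂ) * τ (k + 1) / 2 +
        -((Real.pi : ℂ) ^ 2 / 12 * (τ k : ℂ) ^ 2)‖ := by
    intro k
    have hb0 := hbt0 k
    have hb1 := hbt0 (k + 1)
    obtain ⟨hr0, hr1, -, -⟩ := hT.2 (x k)
    obtain ⟨hs0, -, hs1, hs2⟩ := hT.2 (x (k + 1))
    rw [hxs] at hr1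
    have hbb : bt (x (k + 1)) ≤ 2 * bt (x k) := by rw [← hxs]; exact (hT.1 (x k)).2.1
    have h1 : ‖-((Real.pi : ℂ) ^ 2 / 12 * (τ k : ℂ) ^ 2)‖ ≤
        Real.pi ^ 2 / 6 * (rho (x (k + 1)) / bt (x (k + 1))) := by
      rw [norm_neg, norm_mul, norm_div, norm_pow, norm_pow, hτn, Pool.Agent.Y888.WD.npi, Complex.norm_ofNat]
      have h2 : rho (x k) ^ 2 ≤ 2 * (rho (x (k + 1)) / bt (x (k + 1))) := by
        rw [← mul_div_assoc, le_div_iff₀ hb1, hr1]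
        calc rho (x k) ^ 2 * bt (x (k + 1)) ≤ rho (x k) ^ 2 * (2 * bt (x k)) := by gcongr
          _ = 2 * (bt (x k) * rho (x k) ^ 2) := by ring
      calc Real.pi ^ 2 / 12 * rho (x k) ^ 2 ≤
            Real.pi ^ 2 / 12 * (2 * (rho (x (k + 1)) / bt (x (k + 1)))) := by gcongr
        _ = _ := by ring
    have h3 : Real.pi ^ 2 / 4 * (rho (x (k + 1)) / bt (x (k + 1))) ≤
        ‖(2 * Real.pi ^ 2 / 3 + ε (x (k + 1)) * Real.pi ^ 2 / 6) / (c (x (k + 1)) : ℂ) * τ (k + 1) / 2‖ := by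
      rw [norm_div, norm_mul, norm_div, hcn, hτn, Complex.norm_ofNat]
      have h4 : Real.pi ^ 2 / 2 ≤ ‖(2 * (Real.pi : ℂ) ^ 2 / 3 + ε (x (k + 1)) * Real.pi ^ 2 / 6)‖ := by
        have h5 : (2 * (Real.pi : ℂ) ^ 2 / 3 + ε (x (k + 1)) * Real.pi ^ 2 / 6) =
            ((2 * Real.pi ^ 2 / 3 + ε (x (k + 1)) * Real.pi ^ 2 / 6 : ℝ) : ℂ) := by push_cast; ring
        rw [h5, Complex.norm_real, Real.norm_eq_abs]
        refine le_trans ?_ (le_abs_self _)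
        rcases hε (x (k + 1)) with h | h <;> rw [h] <;> nlinarith
      calc Real.pi ^ 2 / 4 * (rho (x (k + 1)) / bt (x (k + 1))) =
            Real.pi ^ 2 / 2 / bt (x (k + 1)) * rho (x (k + 1)) / 2 := by ring
        _ ≤ _ := by gcongr
    have h6 : Real.pi ^ 2 / 12 * (rho (x (k + 1)) / bt (x (k + 1))) ≥ 1 / 4 / bt (x (k + 1)) ^ 2 := by
      rw [ge_iff_le, div_le_iff₀ (by positivity)]
      calc (1 : ℝ) / 4 ≤ Real.pi ^ 2 / 12 * (1 / 2) := by nlinarith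
        _ ≤ Real.pi ^ 2 / 12 * (bt (x (k + 1)) * rho (x (k + 1))) := by
            gcongr
            linarith
        _ = _ := by field_simp
    have h7 : ‖(2 * Real.pi ^ 2 / 3 + ε (x (k + 1)) * Real.pi ^ 2 / 6) / (c (x (k + 1)) : ℂ) * τ (k + 1) / 2‖ ≤
        ‖(2 * Real.pi ^ 2 / 3 + ε (x (k + 1)) * Real.pi ^ 2 / 6) / (c (x (k + 1)) : ℂ) * τ (k + 1) / 2 +
        -((Real.pi : ℂ) ^ 2 / 12 * (τ k : ℂ) ^ 2)‖ + ‖-((Real.pi : ℂ) ^ 2 / 12 * (τ k : ℂ) ^ 2)‖ := by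
      have := norm_sub_le ((2 * (Real.pi : ℂ) ^ 2 / 3 + ε (x (k + 1)) * Real.pi ^ 2 / 6) /
        (c (x (k + 1)) : ℂ) * τ (k + 1) / 2 +
        -((Real.pi : ℂ) ^ 2 / 12 * (τ k : ℂ) ^ 2)) (-((Real.pi : ℂ) ^ 2 / 12 * (τ k : ℂ) ^ 2))
      rwa [add_sub_cancel_right] at this
    linarith
  have hδ0 : (0 : ℝ) ≤ 1 / 100000 := by norm_num
  have hδ : (1 / 100000 : ℝ) ≤ 1 / 40 := by norm_num
  set δ : ℝ := 1 / 100000 with hδdef
  have hLδ : ∀ k, ∀ v ∈ ball (0 : ℂ) 2, ‖L k v‖ ≤ δ := by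
    intro k v hv
    have h1 := hLM k v hv
    have h2 := hC1bt k
    have h3 : 63 * C1 / bt (x k) ^ 2 = 63 * (C1 / bt (x k) ^ 2) := by ring
    rw [hδdef]
    linarith
  have hM : Maps δ L (Phi L) := maps_Phi hδ0 hδ hLd hLδ hL0
  -- the maps
  set Ψ : ℕ → ℂ → ℂ := fun k z => ((x k : ℤ) : ℂ) + τ k * Phi L k z with hΨ
  have hball : ∀ k, ∀ z : ℂ, ‖z‖ ≤ 1 → Phi L k z ∈ ball (0 : ℂ) 2 := by
    intro k z hz
    rw [mem_ball, dist_zero_right]
    have := upper hM hδ k hz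
    linarith
  have hfun : ∀ k, ∀ z : ℂ, ‖z‖ ≤ 1 → f₀ (Ψ k z) = Ψ (k + 1) (z ^ 2) := by
    intro k z hz
    have h1 := hM.func k z hz
    rw [hLexp k _ (hball k z hz)] at h1
    show f₀ (((x k : ℤ) : ℂ) + τ k * Phi L k z) = ((x (k + 1) : ℤ) : ℂ) + τ (k + 1) * Phi L (k + 1) (z ^ 2)
    rw [hf, ← h1, hxs, hτs]
    push_cast
    ring
  have hiter : ∀ j k, ∀ z : ℂ, ‖z‖ ≤ 1 → f₀^[j] (Ψ k z) = Ψ (k + j) (z ^ (2 ^ j)) := by
    intro j
    induction j with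
    | zero => intro k z _; simp
    | succ j ih =>
      intro k z hz
      rw [Function.iterate_succ_apply', ih k z hz, hfun (k + j) _ (pow_le hz j), pow_succ']
      rfl
  have hdist : ∀ j k, ∀ z : ℂ, ‖z‖ ≤ 1 → ‖f₀^[j] (Ψ k z) - ((T^[j] (x k) : ℤ) : ℂ)‖ =
      rho (x (k + j)) * ‖Phi L (k + j) (z ^ (2 ^ j))‖ := by
    intro j k z hz
    have e1 : T^[j] (x k) = x (k + j) := orbit_shift n k j
    rw [hiter j k z hz, e1]
    show ‖((x (k + j) : ℤ) : ℂ) + τ (k + j) * Phi L (k + j) (z ^ (2 ^ j)) - ((x (k + j) : ℤ) : ℂ)‖ = _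
    rw [add_sub_cancel_left, norm_mul, hτn]
  have hρ1 : ∀ k, rho (x k) ≤ 1 / 2 := by
    intro k
    obtain ⟨hr0, -, -, hr2⟩ := hT.2 (x k)
    have hb := hbt k
    nlinarith
  -- openness
  have hopen : ∀ k, IsOpen (Ψ k '' ball 0 1) := by
    intro k
    have h1 := isOpen_image hM hδ0 hδ k isOpen_ball subset_rfl
    have h2 : Ψ k '' ball 0 1 = (fun w : ℂ => ((x k : ℤ) : ℂ) + τ k * w) '' (Phi L k '' ball 0 1) := by
      rw [image_image]
    rw [h2]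
    exact (((Homeomorph.mulLeft₀ (τ k : ℂ) (hτne k)).trans
      (Homeomorph.addLeft ((x k : ℤ) : ℂ))).isOpenMap) _ h1
  have hcont : ∀ k, ContinuousOn (Ψ k) (closedBall 0 1) := fun k =>
    continuousOn_const.add (continuousOn_const.mul (contOn hM hδ k))
  have hinj : ∀ k, InjOn (Ψ k) (closedBall 0 1) := by
    intro k z hz w hw h
    apply injOn hM hδ0 hδ k hz hw
    have h1 : (τ k : ℂ) * Phi L k z = τ k * Phi L k w := add_left_cancel h
    exact mul_left_cancel₀ (hτne k) h1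
  have hz0 : ∀ k, Ψ k 0 = ((x k : ℤ) : ℂ) := by
    intro k
    show ((x k : ℤ) : ℂ) + τ k * Phi L k 0 = _
    rw [zero hM k, mul_zero, add_zero]
  -- the image is the component
  have himage : ∀ k, Ψ k '' ball 0 1 = FatouComponent f₀ ((x k : ℤ) : ℂ) := by
    intro k
    have hsub : Ψ k '' ball 0 1 ⊆ FatouSet f₀ := by
      apply mem_fatou (m := x k) (hopen k)
      rintro _ ⟨z, hz, rfl⟩
      rw [mem_ball, dist_zero_right] at hz
      refine ⟨fun j => ?_, ?_⟩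
      · rw [hdist j k z hz.le]
        have h1 := upper hM hδ (k + j) (pow_le hz.le j)
        have h2 := pow_le hz.le j
        have h3 := hρ1 (k + j)
        have h4 := hρ0 (k + j)
        calc rho (x (k + j)) * ‖Phi L (k + j) (z ^ (2 ^ j))‖ ≤ 1 / 2 * (21 / 20 * 1) := by
              gcongr
              exact h1.trans (by gcongr)
          _ ≤ 1 := by norm_num
      · have h1 : Tendsto (fun j : ℕ => ‖z‖ ^ (2 ^ j)) atTop (𝓝 0) :=
          (tendsto_pow_atTop_nhds_zero_of_lt_one (norm_nonneg _) hz).comp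
            (tendsto_pow_atTop_atTop_of_one_lt (by norm_num : 1 < 2))
        refine squeeze_zero (fun _ => norm_nonneg _) (fun j => ?_) h1
        rw [hdist j k z hz.le]
        have h1 := upper hM hδ (k + j) (pow_le hz.le j)
        have h3 := hρ1 (k + j)
        have h4 := hρ0 (k + j)
        rw [norm_pow] at h1
        have h5 : 0 ≤ ‖z‖ ^ (2 ^ j) := by positivity
        calc rho (x (k + j)) * ‖Phi L (k + j) (z ^ (2 ^ j))‖ ≤ 1 / 2 * (21 / 20 * ‖z‖ ^ (2 ^ j)) := by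
              gcongr
          _ ≤ ‖z‖ ^ (2 ^ j) := by linarith
    apply Subset.antisymm
    · apply IsPreconnected.subset_connectedComponentIn
      · exact (convex_ball (0 : ℂ) 1).isPreconnected.image _ ((hcont k).mono ball_subset_closedBall)
      · exact ⟨0, by simp, hz0 k⟩
      · exact hsub
    · have hU : IsPreconnected (FatouComponent f₀ ((x k : ℤ) : ℂ)) := isPreconnected_connectedComponentIn
      apply hU.subset_of_closure_inter_subset (hopen k)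
      · exact ⟨((x k : ℤ) : ℂ), mem_connectedComponentIn (int_mem_fatou _), ⟨0, by simp, hz0 k⟩⟩
      · rintro w ⟨hw1, hw2⟩
        have hcl : closure (Ψ k '' ball 0 1) ⊆ Ψ k '' closedBall 0 1 :=
          closure_minimal (image_mono ball_subset_closedBall)
            ((isCompact_closedBall (0 : ℂ) 1).image_of_continuousOn (hcont k)).isClosed
        obtain ⟨z, hz, rfl⟩ := hcl hw1
        rw [mem_closedBall, dist_zero_right] at hz
        rcases lt_or_eq_of_le hz with hz1 | hz1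
        · exact ⟨z, by rwa [mem_ball, dist_zero_right], rfl⟩
        · exfalso
          obtain ⟨j, hj⟩ := approach hw2
          rw [hdist j k z hz, orbit_shift] at hj
          have h1 := lower hM hδ (k + j) (pow_le hz j)
          rw [norm_pow, hz1, one_pow] at h1
          have h4 := hρ0 (k + j)
          have h5 : rho (x (k + j)) * (19 / 20 * 1) ≤ rho (x (k + j)) * ‖Phi L (k + j) (z ^ (2 ^ j))‖ := by
            gcongr
          have h6 : rho (T^[k + j] n) = rho (x (k + j)) := rfl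
          rw [h6] at hj
          linarith
  have hclos : ∀ k, Ψ k '' closedBall 0 1 = closure (FatouComponent f₀ ((x k : ℤ) : ℂ)) := by
    intro k
    rw [← himage k]
    apply Subset.antisymm
    · have h1 : ContinuousOn (Ψ k) (closure (ball 0 1)) := by
        rw [closure_ball (0 : ℂ) one_ne_zero]; exact hcont k
      have h2 := h1.image_closure
      rwa [closure_ball (0 : ℂ) one_ne_zero] at h2
    · exact closure_minimal (image_mono ball_subset_closedBall)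
        ((isCompact_closedBall (0 : ℂ) 1).image_of_continuousOn (hcont k)).isClosed
  have hfront : ∀ k, Ψ k '' sphere 0 1 = frontier (FatouComponent f₀ ((x k : ℤ) : ℂ)) := by
    intro k
    rw [(component_isOpen f₀ _).frontier_eq, ← hclos k, ← himage k]
    ext w
    constructor
    · rintro ⟨z, hz, rfl⟩
      refine ⟨⟨z, sphere_subset_closedBall hz, rfl⟩, ?_⟩
      rintro ⟨z', hz', he⟩
      have := hinj k (ball_subset_closedBall hz') (sphere_subset_closedBall hz) he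
      rw [this, mem_ball] at hz'
      rw [mem_sphere] at hz
      linarith
    · rintro ⟨⟨z, hz, rfl⟩, h2⟩
      refine ⟨z, ?_, rfl⟩
      rw [mem_sphere]
      rw [mem_closedBall] at hz
      rcases lt_or_eq_of_le hz with h3 | h3
      · exact absurd ⟨z, mem_ball.2 h3, rfl⟩ h2
      · exact h3
  refine ⟨τ, L, fun k => (2 * Real.pi ^ 2 / 3 + ε (x k) * Real.pi ^ 2 / 6) / (c (x k) : ℂ) * τ k,
    fun k => -((Real.pi : ℂ) ^ 2 / 12 * (τ k : ℂ) ^ 2), hLd, hL0, fun k => ?_, fun k v hv => ?_, fun k => ?_,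
    fun k => ?_, fun k v hv => ?_, hmain, hτ, ?_⟩
  · show 1000000 * C1 ^ 2 / bt (x k) ^ 2 ≤ 1 / 100000
    have h1 := hbt k
    have h0 := hbt0 k
    rw [div_le_div_iff₀ (by positivity) (by norm_num)]
    nlinarith
  · refine (hLM k v hv).trans ?_
    show 63 * C1 / bt (x k) ^ 2 ≤ 1000000 * C1 ^ 2 / bt (x k) ^ 2
    have h0 := hbt0 k
    apply div_le_div_of_nonneg_right _ (by positivity)
    nlinarith
  · refine (ha k).trans ?_
    show 1000 / bt (x k) ^ 2 ≤ 1000000 * C1 ^ 2 / bt (x k) ^ 2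
    have h0 := hbt0 k
    gcongr
    linarith
  · refine (hb k).trans ?_
    show 1000 / bt (x k) ^ 2 ≤ 1000000 * C1 ^ 2 / bt (x k) ^ 2
    have h0 := hbt0 k
    gcongr
    linarith
  · refine (hL2 k v hv).trans ?_
    show 4000 * C1 ^ 2 / bt (x k) ^ 4 ≤ (1000000 * C1 ^ 2 / bt (x k) ^ 2) ^ 2
    have h0 := hbt0 k
    rw [div_pow, ← pow_mul]
    gcongr
    nlinarith
  · intro Ψ' hΨ' k
    have e : Ψ' = Ψ := hΨ'
    rw [e]
    exact ⟨hcont k, hinj k, ((hM.diff k).const_mul _).const_add _, hfun k, himage k, hclos k, hfront k⟩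

end Pool.Agent.Helper25.RB
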