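import Pool.Agent.Helper25.RB.Stm2

/-!
# The derivative of the Riemann maps from the sums
-/

set_option autoImplicit false

open Filter Topology Metric Set MeasureTheory

namespace Pool.Agent.Helper25.RB.DER

open Pool.Agent.Helper25.JB Pool.Agent.Helper25.RB

variable {δ : ℝ} {L : ℕ → ℂ → ℂ}

theorem deriv_bd {c : ℝ} {f : ℂ → ℂ} (hf : DifferentiableOn ℂ f (ball 0 2))
    (hb : ∀ v ∈ ball (0 : ℂ) 2, ‖f v‖ ≤ c) {x : ℂ} (hx : ‖x‖ ≤ 3 / 2) : ‖deriv f x‖ ≤ 3 * c := by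
  have hsub : closedBall x (1 / 3) ⊆ ball (0 : ℂ) 2 := by
    intro y hy
    rw [mem_closedBall, dist_eq_norm] at hy
    rw [mem_ball, dist_zero_right]
    have : ‖y‖ ≤ ‖y - x‖ + ‖x‖ := by
      have := norm_add_le (y - x) x
      simpa using this
    linarith
  have h2 : ‖deriv f x‖ ≤ c / (1 / 3) := by
    refine Complex.norm_deriv_le_of_forall_mem_sphere_norm_le (by norm_num) ?_ ?_
    · exact (hf.mono hsub).diffContOnCl_ball subset_rfl
    · intro y hy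
      exact hb y (hsub (sphere_subset_closedBall hy))
  linarith

theorem le40 (h : Sys δ L) : δ ≤ 1 / 40 := by linarith [h.small]

theorem spec (h : Sys δ L) (k : ℕ) : DifferentiableOn ℂ (psi L k) (ball 0 1) ∧ psi L k 0 = 0 ∧
    (∀ z : ℂ, ‖z‖ ≤ 1 → ‖psi L k z‖ ≤ δ) ∧
    (∀ z : ℂ, ‖z‖ ≤ 1 → 2 * psi L k z + L k (z * Complex.exp (psi L k z)) = psi L (k + 1) (z ^ 2)) ∧
    (∀ z w : ℂ, ‖z‖ ≤ 1 → ‖w‖ ≤ 1 → ‖psi L k z - psi L k w‖ ≤ ‖z - w‖ ^ (1 - 20 * δ)) :=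
  psi_spec h.pos (le40 h) h.diff h.bd h.zero k

theorem maps (h : Sys δ L) : Maps δ L (Phi L) := maps_Phi h.pos (le40 h) h.diff h.bd h.zero

theorem Phi_le (h : Sys δ L) (k : ℕ) {z : ℂ} (hz : ‖z‖ ≤ 1) : ‖Phi L k z‖ ≤ 21 / 20 := by
  have := upper (maps h) (le40 h) k hz
  linarith

/-- the correction is small -/
theorem u_bd {c : ℝ} {f : ℂ → ℂ} (hf : DifferentiableOn ℂ f (ball 0 2))
    (hb : ∀ v ∈ ball (0 : ℂ) 2, ‖f v‖ ≤ c) {v : ℂ} (hv : ‖v‖ ≤ 21 / 20) : ‖v * deriv f v / 2‖ ≤ 2 * c := by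
  have h1 := deriv_bd hf hb (x := v) (by linarith)
  have hc : 0 ≤ c := (norm_nonneg _).trans (hb 0 (by simp))
  rw [norm_div, norm_mul, Complex.norm_ofNat]
  have : ‖v‖ * ‖deriv f v‖ ≤ 21 / 20 * (3 * c) := by gcongr
  linarith

theorem one_add_ne (h : Sys δ L) (k : ℕ) {v : ℂ} (hv : ‖v‖ ≤ 21 / 20) :
    1 + v * deriv (L k) v / 2 ≠ 0 := by
  intro h0
  have h1 := u_bd (h.diff k) (h.bd k) hv
  have h2 : v * deriv (L k) v / 2 = -1 := by linear_combination h0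
  rw [h2, norm_neg, norm_one] at h1
  linarith [h.small]

theorem exp_ell (h : Sys δ L) (k : ℕ) {v : ℂ} (hv : ‖v‖ ≤ 21 / 20) :
    Complex.exp (ell L k v) = 1 + v * deriv (L k) v / 2 :=
  Complex.exp_log (one_add_ne h k hv)

/-- `1 + z ψ_k'(z)` -/
noncomputable def g (L : ℕ → ℂ → ℂ) (k : ℕ) (z : ℂ) : ℂ := 1 + z * deriv (psi L k) z

theorem psi_hasDeriv (h : Sys δ L) (k : ℕ) {z : ℂ} (hz : ‖z‖ < 1) :
    HasDerivAt (psi L k) (deriv (psi L k) z) z :=
  (((spec h k).1 z (by simpa using hz)).differentiableAt (isOpen_ball.mem_nhds (by simpa using hz))).hasDerivAt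

theorem Phi_hasDeriv (h : Sys δ L) (k : ℕ) {z : ℂ} (hz : ‖z‖ < 1) :
    HasDerivAt (Phi L k) (Complex.exp (psi L k z) * g L k z) z := by
  have h2 := (hasDerivAt_id z).mul (psi_hasDeriv h k hz).cexp
  refine h2.congr_deriv ?_
  simp only [id, g]
  ring

theorem g_step (h : Sys δ L) (k : ℕ) {z : ℂ} (hz : ‖z‖ < 1) :
    g L k z * (1 + Phi L k z * deriv (L k) (Phi L k z) / 2) = g L (k + 1) (z ^ 2) := by
  have hz2 : ‖z ^ 2‖ < 1 := by rw [norm_pow]; exact pow_lt_one₀ (norm_nonneg _) hz (by norm_num)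
  have hv : ‖Phi L k z‖ < 2 := by have := Phi_le h k hz.le; linarith
  have hL : HasDerivAt (L k) (deriv (L k) (Phi L k z)) (Phi L k z) :=
    ((h.diff k _ (by simpa using hv)).differentiableAt (isOpen_ball.mem_nhds (by simpa using hv))).hasDerivAt
  have h1 : HasDerivAt (fun z => 2 * psi L k z + L k (Phi L k z))
      (2 * deriv (psi L k) z + deriv (L k) (Phi L k z) * (Complex.exp (psi L k z) * g L k z)) z :=
    ((psi_hasDeriv h k hz).const_mul 2).add (hL.comp z (Phi_hasDeriv h k hz))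
  have h2 : HasDerivAt (fun z => psi L (k + 1) (z ^ 2)) (deriv (psi L (k + 1)) (z ^ 2) * (2 * z)) z := by
    have h3 := (psi_hasDeriv h (k + 1) hz2).comp z (hasDerivAt_pow 2 z)
    refine h3.congr_deriv ?_
    simp
  have h3 : (fun z => 2 * psi L k z + L k (Phi L k z)) =ᶠ[𝓝 z] fun z => psi L (k + 1) (z ^ 2) := by
    filter_upwards [isOpen_ball.mem_nhds (show z ∈ ball (0 : ℂ) 1 by simpa using hz)] with w hw
    exact (spec h k).2.2.2.1 w (by rw [mem_ball, dist_zero_right] at hw; exact hw.le)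
  have h4 := h1.unique (h2.congr_of_eventuallyEq h3)
  have e : Phi L k z = z * Complex.exp (psi L k z) := rfl
  rw [show g L (k + 1) (z ^ 2) = 1 + z ^ 2 * deriv (psi L (k + 1)) (z ^ 2) from rfl]
  have e1 : z ^ 2 * deriv (psi L (k + 1)) (z ^ 2) = z / 2 *
      (2 * deriv (psi L k) z + deriv (L k) (Phi L k z) * (Complex.exp (psi L k z) * g L k z)) := by
    rw [h4]; ring
  rw [e1]
  have e2 : Phi L k z * deriv (L k) (Phi L k z) / 2 =
    z * Complex.exp (psi L k z) * deriv (L k) (Phi L k z) / 2 := by rw [← e]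
  rw [e2]
  have e3 : g L k z = 1 + z * deriv (psi L k) z := rfl
  linear_combination e3

theorem pow_lt {z : ℂ} (hz : ‖z‖ < 1) (j : ℕ) : ‖z ^ (2 ^ j)‖ < 1 := by
  rw [norm_pow]; exact pow_lt_one₀ (norm_nonneg _) hz (by positivity)

/-- the sum from `k` on -/
noncomputable def T (L : ℕ → ℂ → ℂ) (k m : ℕ) (z : ℂ) : ℂ :=
  ∑ i ∈ Finset.range m, ell L (k + i) (Phi L (k + i) (z ^ (2 ^ i)))

theorem g_iter (h : Sys δ L) (k m : ℕ) {z : ℂ} (hz : ‖z‖ < 1) :
    g L k z * Complex.exp (T L k m z) = g L (k + m) (z ^ (2 ^ m)) := by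
  induction m with
  | zero => simp [T]
  | succ m ih =>
    have h1 := g_step h (k + m) (pow_lt hz m)
    have h2 := exp_ell h (k + m) (Phi_le h (k + m) (pow_lt hz m).le)
    rw [T, Finset.sum_range_succ, Complex.exp_add, ← T, ← mul_assoc, ih, h2, h1, ← pow_succ']
    rfl

theorem g_half (h : Sys δ L) (k : ℕ) {w : ℂ} (hw : ‖w‖ ≤ 1 / 2) : ‖g L k w - 1‖ ≤ 4 * δ * ‖w‖ := by
  have hsub : closedBall w (1 / 4) ⊆ ball (0 : ℂ) 1 := by
    intro y hy
    rw [mem_closedBall, dist_eq_norm] at hy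
    rw [mem_ball, dist_zero_right]
    have : ‖y‖ ≤ ‖y - w‖ + ‖w‖ := by
      have := norm_add_le (y - w) w
      simpa using this
    linarith
  have h2 : ‖deriv (psi L k) w‖ ≤ δ / (1 / 4) := by
    refine Complex.norm_deriv_le_of_forall_mem_sphere_norm_le (by norm_num) ?_ ?_
    · exact ((spec h k).1.mono hsub).diffContOnCl_ball subset_rfl
    · intro y hy
      have h3 := hsub (sphere_subset_closedBall hy)
      rw [mem_ball, dist_zero_right] at h3
      exact (spec h k).2.2.1 y h3.le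
  rw [show g L k w - 1 = w * deriv (psi L k) w by rw [g]; ring, norm_mul]
  calc ‖w‖ * ‖deriv (psi L k) w‖ ≤ ‖w‖ * (δ / (1 / 4)) := by gcongr
    _ = 4 * δ * ‖w‖ := by ring

theorem main : S_DER := by
  intro δ L h m z hz hm
  have h1 := g_iter h 0 m hz
  have e1 : T L 0 m z = S L m z := by
    simp only [T, S, zero_add]
  rw [e1, zero_add] at h1
  have h2 := g_half h m hm
  have hd := h.small
  have hd0 := h.pos
  have h3 : 9 / 10 ≤ ‖g L m (z ^ (2 ^ m))‖ := by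
    have h4 : ‖(1 : ℂ)‖ ≤ ‖g L m (z ^ (2 ^ m))‖ + ‖g L m (z ^ (2 ^ m)) - 1‖ := by
      have := norm_sub_le (g L m (z ^ (2 ^ m))) (g L m (z ^ (2 ^ m)) - 1)
      simpa using this
    rw [norm_one] at h4
    have h5 : 4 * δ * ‖z ^ (2 ^ m)‖ ≤ 4 * (1 / 100000) * (1 / 2) := by gcongr
    linarith
  have e2 : ‖Complex.exp (-S L m z / 2)‖ ^ 2 = ‖Complex.exp (-S L m z)‖ := by
    rw [← norm_pow, ← Complex.exp_nat_mul]
    congr 2
    push_cast
    ring
  have e3 : g L 0 z = g L m (z ^ (2 ^ m)) * Complex.exp (-S L m z) := by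
    rw [← h1, mul_assoc, ← Complex.exp_add]
    simp
  have h6 : (Phi_hasDeriv h 0 hz).deriv = (Phi_hasDeriv h 0 hz).deriv := rfl
  rw [e2, (Phi_hasDeriv h 0 hz).deriv, e3, norm_mul, norm_mul]
  have h7 : 9 / 10 ≤ ‖Complex.exp (psi L 0 z)‖ := by
    have hp := (spec h 0).2.2.1 z hz.le
    have h8 := Complex.norm_exp_sub_one_le (x := psi L 0 z) (by linarith)
    have h4 : ‖(1 : ℂ)‖ ≤ ‖Complex.exp (psi L 0 z)‖ + ‖Complex.exp (psi L 0 z) - 1‖ := by
      have := norm_sub_le (Complex.exp (psi L 0 z)) (Complex.exp (psi L 0 z) - 1)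
      simpa using this
    rw [norm_one] at h4
    linarith
  have hE := norm_nonneg (Complex.exp (-S L m z))
  calc ‖Complex.exp (-S L m z)‖ ≤ 3 * (9 / 10 * (9 / 10 * ‖Complex.exp (-S L m z)‖)) := by linarith
    _ ≤ 3 * (‖Complex.exp (psi L 0 z)‖ * (‖g L m (z ^ (2 ^ m))‖ * ‖Complex.exp (-S L m z)‖)) := by gcongr

end Pool.Agent.Helper25.RB.DER
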