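import Pool.Agent.Helper25.RB.DIS
import Pool.Agent.Helper25.RB.Stm6

/-!
# Bounded distortion along the boundary, in terms of the sums (helper17 for helper25)
-/

set_option autoImplicit false

open Filter Topology Metric Set MeasureTheory

namespace Pool.Agent.Helper25.RB.DSN

open Pool.Agent.Helper25.JB Pool.Agent.Helper25.RB Pool.Agent.Helper25.RB.DER Pool.Agent.Helper25.RB.DIS

variable {δ : ℝ} {L : ℕ → ℂ → ℂ}

/-- the product of the derivatives and the sums -/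
theorem D_eq (h : Sys δ L) (n : ℕ) (θ : ℝ) :
    D L n θ * ‖u L 0 θ‖ = 2 ^ n * ‖u L n θ‖ * Real.exp ((S L n (Complex.exp (θ * Complex.I))).re) := by
  induction n with
  | zero => simp [D, S]
  | succ n ih =>
    have hv := u_le h n θ
    have hv' := u_ge h n θ
    have hv2 : ‖u L n θ‖ < 2 := by linarith
    have hne : 1 + u L n θ * deriv (L n) (u L n θ) / 2 ≠ 0 := one_add_ne h n hv
    have e1 : deriv (H L n) (u L n θ) * u L n θ =
        2 * u L (n + 1) θ * Complex.exp (ell L n (u L n θ)) := by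
      rw [dH_eq h n hv2, u_succ h, H, ell, Complex.exp_log hne]
      ring
    have e2 : ‖deriv (H L n) (u L n θ)‖ * ‖u L n θ‖ =
        2 * ‖u L (n + 1) θ‖ * Real.exp ((ell L n (u L n θ)).re) := by
      rw [← norm_mul, e1, norm_mul, norm_mul, Complex.norm_exp, Complex.norm_ofNat]
    have e3 : S L (n + 1) (Complex.exp (θ * Complex.I)) =
        S L n (Complex.exp (θ * Complex.I)) + ell L n (u L n θ) := by
      rw [S, Finset.sum_range_succ, ← S, u]
    rw [D_succ, e3, Complex.add_re, Real.exp_add, pow_succ]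
    have hpos : (0 : ℝ) < ‖u L n θ‖ := by linarith
    have e4 : D L n θ * ‖deriv (H L n) (u L n θ)‖ * ‖u L 0 θ‖ * ‖u L n θ‖ =
        2 ^ n * 2 * ‖u L (n + 1) θ‖ *
          (Real.exp ((S L n (Complex.exp (θ * Complex.I))).re) * Real.exp ((ell L n (u L n θ)).re)) *
          ‖u L n θ‖ := by
      calc D L n θ * ‖deriv (H L n) (u L n θ)‖ * ‖u L 0 θ‖ * ‖u L n θ‖ =
            (D L n θ * ‖u L 0 θ‖) * (‖deriv (H L n) (u L n θ)‖ * ‖u L n θ‖) := by ring
        _ = _ := by rw [ih, e2]; ring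
    exact mul_right_cancel₀ hpos.ne' e4

theorem D_two (h : Sys δ L) (n : ℕ) (θ : ℝ) :
    D L n θ ≤ 2 * (2 ^ n * Real.exp ((S L n (Complex.exp (θ * Complex.I))).re)) ∧
    2 ^ n * Real.exp ((S L n (Complex.exp (θ * Complex.I))).re) ≤ 2 * D L n θ := by
  have e := D_eq h n θ
  have h1 := u_le h n θ
  have h2 := u_ge h n θ
  have h3 := u_le h 0 θ
  have h4 := u_ge h 0 θ
  have D0 := (D_pos h n θ).le
  obtain ⟨E, hE⟩ : ∃ E, E = 2 ^ n * Real.exp ((S L n (Complex.exp (θ * Complex.I))).re) := ⟨_, rfl⟩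
  have hE0 : 0 ≤ E := by rw [hE]; positivity
  have e' : D L n θ * ‖u L 0 θ‖ = E * ‖u L n θ‖ := by
    rw [e, hE]
    ring
  rw [← hE]
  constructor
  · nlinarith
  · nlinarith

theorem main : S_DSN := by
  refine ⟨2 * (3 ^ 24 * Real.exp 7000 * 3), ?_, ?_⟩
  · have h1 : 1 ≤ Real.exp 7000 := by rw [Real.one_le_exp_iff]; norm_num
    have h2 : (1 : ℝ) ≤ 3 ^ 24 := by norm_num
    nlinarith
  intro δ L h n θ θ' θ'' h0 h1 h2
  have e0 : ∀ t : ℝ, Phi L 0 (Complex.exp (t * Complex.I)) = u L 0 t := by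
    intro t
    rw [u, pow_zero, pow_one]
  have en : ∀ t : ℝ, Phi L n (Complex.exp (t * Complex.I) ^ (2 ^ n)) = u L n t := fun t => rfl
  rw [e0, e0, en, en]
  have D0 := D_pos h n θ''
  have m0 := norm_nonneg (u L 0 θ - u L 0 θ')
  obtain ⟨hD1, hD2⟩ := D_two h n θ''
  constructor
  · have h3 := upperB h n h1 h2 n le_rfl
    rw [Nat.sub_self, pow_zero, mul_one] at h3
    refine h3.trans ?_
    have h4 : Real.exp 3500 ≤ 3 ^ 24 * Real.exp 7000 * 3 := by
      have h5 : Real.exp 3500 ≤ Real.exp 7000 := by rw [Real.exp_le_exp]; norm_num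
      have h6 := Real.exp_pos 7000
      have h7 : (1 : ℝ) ≤ 3 ^ 24 * 3 := by norm_num
      nlinarith
    calc D L n θ'' * Real.exp 3500 * ‖u L 0 θ - u L 0 θ'‖
        ≤ (2 * (2 ^ n * Real.exp ((S L n (Complex.exp (θ'' * Complex.I))).re))) *
            (3 ^ 24 * Real.exp 7000 * 3) * ‖u L 0 θ - u L 0 θ'‖ := by gcongr
      _ = _ := by ring
  · obtain ⟨N, hN⟩ : ∃ N, N = n - 24 := ⟨_, rfl⟩
    have h3 := lowerB h n h1 h2 N hN.le
    have h4 : Real.exp (7000 * r ^ (n - N)) ≤ Real.exp 7000 := by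
      rw [Real.exp_le_exp]
      have : r ^ (n - N) ≤ 1 := pow_le_one₀ r_pos.le (by linarith [r_le])
      linarith
    have h5 : ‖u L N θ - u L N θ'‖ ≤ 3 := by
      refine (norm_sub_le _ _).trans ?_
      linarith [u_le h N θ, u_le h N θ']
    have h6 : D L n θ'' ≤ 3 ^ 24 * D L N θ'' := by
      obtain ⟨k, hk⟩ : ∃ k, n = N + k := ⟨n - N, by omega⟩
      have hk24 : k ≤ 24 := by omega
      have h7 := D_mono h N k θ''
      rw [← hk] at h7
      have h8 : (3 : ℝ) ^ k ≤ 3 ^ 24 := pow_le_pow_right₀ (by norm_num) hk24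
      have h9 := (D_pos h N θ'').le
      exact h7.trans (by gcongr)
    calc ‖u L 0 θ - u L 0 θ'‖ * (2 ^ n * Real.exp ((S L n (Complex.exp (θ'' * Complex.I))).re))
        ≤ ‖u L 0 θ - u L 0 θ'‖ * (2 * (3 ^ 24 * D L N θ'')) := by
          refine mul_le_mul_of_nonneg_left ?_ m0
          exact hD2.trans (by linarith)
      _ = 2 * (3 ^ 24 * (D L N θ'' * ‖u L 0 θ - u L 0 θ'‖)) := by ring
      _ ≤ 2 * (3 ^ 24 * (Real.exp (7000 * r ^ (n - N)) * ‖u L N θ - u L N θ'‖)) := by gcongr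
      _ ≤ 2 * (3 ^ 24 * (Real.exp 7000 * 3)) := by gcongr
      _ = _ := by ring

end Pool.Agent.Helper25.RB.DSN
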