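import Pool.Agent.Helper25.RB.Stm6

/-!
# EXP: exponential moments along the doubling map
-/

set_option autoImplicit false

open Filter Topology Metric Set MeasureTheory

namespace Pool.Agent.Helper25.RB.EXP

/-- the transfer operator of the doubling map -/
noncomputable def Lr (f : ℝ → ℝ) (t : ℝ) : ℝ := (f (t / 2) + f (t / 2 + Real.pi)) / 2

/-- the densities -/
noncomputable def Qr (e : ℕ → ℝ → ℝ) : ℕ → ℝ → ℝ
  | 0 => fun _ => 1
  | k + 1 => Lr (fun t => e k t * Qr e k t)

/-- duality -/
lemma dualr (f v : ℝ → ℝ) (hf : Continuous f) (hv : Continuous v)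
    (hp : Function.Periodic v (2 * Real.pi)) :
    ∫ t in (0 : ℝ)..(2 * Real.pi), Lr f t * v t =
      ∫ t in (0 : ℝ)..(2 * Real.pi), f t * v (2 * t) := by
  have hg : Continuous fun s => f s * v (2 * s) := hf.mul (hv.comp (continuous_const.mul continuous_id))
  have hg2 : Continuous fun s => f (s + Real.pi) * v (2 * s) :=
    (hf.comp (continuous_id.add continuous_const)).mul (hv.comp (continuous_const.mul continuous_id))
  have h1 : ∫ t in (0 : ℝ)..(2 * Real.pi), Lr f t * v t =
      ∫ t in (0 : ℝ)..(2 * Real.pi), ((fun s => f s * v (2 * s)) (t / 2) * (1 / 2) +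
        (fun s => f (s + Real.pi) * v (2 * s)) (t / 2) * (1 / 2)) := by
    refine intervalIntegral.integral_congr fun t _ => ?_
    have e : 2 * (t / 2) = t := by ring
    simp only [Lr, e]
    ring
  have hd : Continuous fun t : ℝ => t / 2 := by fun_prop
  have hi1 : IntervalIntegrable (fun t => (fun s => f s * v (2 * s)) (t / 2) * (1 / 2)) volume 0
      (2 * Real.pi) := ((hg.comp hd).mul continuous_const).intervalIntegrable _ _
  have hi2 : IntervalIntegrable (fun t => (fun s => f (s + Real.pi) * v (2 * s)) (t / 2) * (1 / 2))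
      volume 0 (2 * Real.pi) := ((hg2.comp hd).mul continuous_const).intervalIntegrable _ _
  rw [h1, intervalIntegral.integral_add hi1 hi2,
    intervalIntegral.integral_mul_const, intervalIntegral.integral_mul_const,
    intervalIntegral.integral_comp_div (fun s => f s * v (2 * s)) two_ne_zero,
    intervalIntegral.integral_comp_div (fun s => f (s + Real.pi) * v (2 * s)) two_ne_zero]
  have h2 : ∫ s in (0 / 2 : ℝ)..(2 * Real.pi / 2), f (s + Real.pi) * v (2 * s) =
      ∫ s in Real.pi..(2 * Real.pi), f s * v (2 * s) := by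
    have h3 : ∫ s in (0 / 2 : ℝ)..(2 * Real.pi / 2), f (s + Real.pi) * v (2 * s) =
        ∫ s in (0 / 2 : ℝ)..(2 * Real.pi / 2), (fun s => f s * v (2 * s)) (s + Real.pi) := by
      refine intervalIntegral.integral_congr fun s _ => ?_
      have e : 2 * (s + Real.pi) = 2 * s + 2 * Real.pi := by ring
      simp only [e, hp (2 * s)]
    rw [h3, intervalIntegral.integral_comp_add_right (fun s => f s * v (2 * s))]
    congr 1 <;> ring
  rw [h2]
  have e1 : (0 / 2 : ℝ) = 0 := by norm_num
  have e2 : (2 * Real.pi / 2 : ℝ) = Real.pi := by ring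
  rw [e1, e2]
  have h4 := intervalIntegral.integral_add_adjacent_intervals
    (hg.intervalIntegrable (μ := volume) 0 Real.pi) (hg.intervalIntegrable Real.pi (2 * Real.pi))
  rw [← h4]
  simp only [smul_eq_mul]
  ring

lemma Qr_cont {e : ℕ → ℝ → ℝ} (he : ∀ k, Continuous (e k)) (k : ℕ) : Continuous (Qr e k) := by
  induction k with
  | zero => exact continuous_const
  | succ k ih =>
    have h1 : Continuous fun t => e k t * Qr e k t := (he k).mul ih
    show Continuous (Lr fun t => e k t * Qr e k t)
    unfold Lr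
    have h2 : Continuous fun t : ℝ => t / 2 := by fun_prop
    have h3 : Continuous fun t : ℝ => t / 2 + Real.pi := by fun_prop
    exact ((h1.comp h2).add (h1.comp h3)).div_const 2

/-- the product as an integral against `Qr` -/
lemma prod_eq {e : ℕ → ℝ → ℝ} (he : ∀ k, Continuous (e k))
    (hp : ∀ k, Function.Periodic (e k) (2 * Real.pi))
    (j : ℕ) : ∀ v : ℝ → ℝ, Continuous v → Function.Periodic v (2 * Real.pi) →
    ∫ θ in (0 : ℝ)..(2 * Real.pi), (∏ i ∈ Finset.range j, e i (2 ^ i * θ)) * v (2 ^ j * θ) =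
      ∫ θ in (0 : ℝ)..(2 * Real.pi), Qr e j θ * v θ := by
  induction j with
  | zero =>
    intro v _ _
    refine intervalIntegral.integral_congr fun θ _ => ?_
    simp [Qr]
  | succ j ih =>
    intro v hv hvp
    have hc : Continuous fun t => e j t * v (2 * t) :=
      (he j).mul (hv.comp (continuous_const.mul continuous_id))
    have hpp : Function.Periodic (fun t => e j t * v (2 * t)) (2 * Real.pi) := by
      intro t
      have e1 : 2 * (t + 2 * Real.pi) = 2 * t + 2 * Real.pi + 2 * Real.pi := by ring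
      simp only [hp j t, e1, hvp (2 * t + 2 * Real.pi), hvp (2 * t)]
    have h1 := ih _ hc hpp
    have h2 : ∫ θ in (0 : ℝ)..(2 * Real.pi), (∏ i ∈ Finset.range (j + 1), e i (2 ^ i * θ)) *
        v (2 ^ (j + 1) * θ) = ∫ θ in (0 : ℝ)..(2 * Real.pi),
          (∏ i ∈ Finset.range j, e i (2 ^ i * θ)) * (fun t => e j t * v (2 * t)) (2 ^ j * θ) := by
      refine intervalIntegral.integral_congr fun θ _ => ?_
      have e1 : (2 : ℝ) ^ (j + 1) * θ = 2 * (2 ^ j * θ) := by ring
      simp only [Finset.prod_range_succ, e1]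
      ring
    rw [h2, h1]
    have h3 := dualr (fun t => e j t * Qr e j t) v ((he j).mul (Qr_cont he j)) hv hvp
    show _ = ∫ θ in (0 : ℝ)..(2 * Real.pi), Lr (fun t => e j t * Qr e j t) θ * v θ
    rw [h3]
    refine intervalIntegral.integral_congr fun θ _ => ?_
    ring

lemma hcont {w : ℝ} {h : ℝ → ℝ} (hh : ∀ t t', |h t - h t'| ≤ w * Real.sqrt |t - t'|) :
    Continuous h := by
  rw [continuous_iff_continuousAt]
  intro x
  rw [ContinuousAt, tendsto_iff_norm_sub_tendsto_zero]
  have h1 : Tendsto (fun y : ℝ => w * Real.sqrt |y - x|) (𝓝 x) (𝓝 0) := by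
    have hc : Continuous fun y : ℝ => w * Real.sqrt |y - x| := by fun_prop
    have := hc.tendsto x
    simpa using this
  exact squeeze_zero (fun y => norm_nonneg _) (fun y => by simpa using hh y x) h1

/-- one step: the mean -/
lemma mean_step {w s q : ℝ} {h Q : ℝ → ℝ} (hw0 : 0 ≤ w) (hw1 : w ≤ 1 / 1000) (hs0 : 0 ≤ s)
    (hs2 : s ≤ 2) (hq0 : 0 ≤ q) (hq1 : q ≤ 1 / 100) (hb : ∀ t, |h t| ≤ w)
    (hh : Continuous h) (hm : ∫ θ in (0 : ℝ)..(2 * Real.pi), h θ = 0)
    (hQ : Continuous Q) (hQ0 : ∀ t, 0 < Q t)
    (hQq : ∀ t t', Q t ≤ Real.exp (q * Real.sqrt |t - t'|) * Q t') :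
    ∫ θ in (0 : ℝ)..(2 * Real.pi), Real.exp (-(s * h θ)) * Q θ ≤
      (∫ θ in (0 : ℝ)..(2 * Real.pi), Q θ) * Real.exp (6 * q ^ 2 + 10 * w ^ 2) := by
  have hpi := Real.pi_pos
  have hpi2 : (0 : ℝ) ≤ 2 * Real.pi := by positivity
  set m := ∫ θ in (0 : ℝ)..(2 * Real.pi), Q θ with hmdef
  have hm0 : 0 ≤ m := intervalIntegral.integral_nonneg hpi2 fun t _ => (hQ0 t).le
  -- pointwise
  have h1 : ∀ t, Real.exp (-(s * h t)) * Q t ≤ Q t - s * (h t * Q t) + s ^ 2 * w ^ 2 * Q t := by
    intro t
    have hx : |-(s * h t)| ≤ 1 := by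
      rw [abs_neg, abs_mul, abs_of_nonneg hs0]
      have := hb t
      have := abs_nonneg (h t)
      nlinarith
    have h2 := Real.abs_exp_sub_one_sub_id_le hx
    have h3 := (le_abs_self _).trans h2
    have h4 : (h t) ^ 2 ≤ w ^ 2 := by
      rw [← sq_abs]
      have := hb t
      have := abs_nonneg (h t)
      nlinarith
    have h5 : Real.exp (-(s * h t)) ≤ 1 - s * h t + s ^ 2 * w ^ 2 := by
      have : (-(s * h t)) ^ 2 ≤ s ^ 2 * w ^ 2 := by
        have : (-(s * h t)) ^ 2 = s ^ 2 * (h t) ^ 2 := by ring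
        rw [this]
        exact mul_le_mul_of_nonneg_left h4 (by positivity)
      linarith
    calc Real.exp (-(s * h t)) * Q t ≤ (1 - s * h t + s ^ 2 * w ^ 2) * Q t :=
          mul_le_mul_of_nonneg_right h5 (hQ0 t).le
      _ = _ := by ring
  have hi1 : IntervalIntegrable (fun t => Real.exp (-(s * h t)) * Q t) volume 0 (2 * Real.pi) := by
    apply Continuous.intervalIntegrable
    fun_prop
  have hi2 : IntervalIntegrable (fun t => Q t - s * (h t * Q t) + s ^ 2 * w ^ 2 * Q t) volume 0
      (2 * Real.pi) := by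
    apply Continuous.intervalIntegrable
    fun_prop
  have h2 : ∫ θ in (0 : ℝ)..(2 * Real.pi), Real.exp (-(s * h θ)) * Q θ ≤
      m - s * (∫ θ in (0 : ℝ)..(2 * Real.pi), h θ * Q θ) + s ^ 2 * w ^ 2 * m := by
    refine (intervalIntegral.integral_mono_on hpi2 hi1 hi2 fun t _ => h1 t).trans (le_of_eq ?_)
    have ha : IntervalIntegrable Q volume 0 (2 * Real.pi) := hQ.intervalIntegrable _ _
    have hb' : IntervalIntegrable (fun t => s * (h t * Q t)) volume 0 (2 * Real.pi) := by
      apply Continuous.intervalIntegrable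
      fun_prop
    have hc : IntervalIntegrable (fun t => s ^ 2 * w ^ 2 * Q t) volume 0 (2 * Real.pi) := by
      apply Continuous.intervalIntegrable
      fun_prop
    rw [intervalIntegral.integral_add (ha.sub hb') hc, intervalIntegral.integral_sub ha hb',
      intervalIntegral.integral_const_mul, intervalIntegral.integral_const_mul]
  -- the correlation
  have hsqrt : ∀ t ∈ Set.Icc (0 : ℝ) (2 * Real.pi), Real.sqrt |t - 0| ≤ 3 := by
    intro t ht
    rw [sub_zero, abs_of_nonneg ht.1]
    rw [Real.sqrt_le_left (by norm_num)]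
    have := ht.2
    have := Real.pi_lt_d2
    linarith
  have h3q : Real.exp (3 * q) - 1 ≤ 6 * q := by
    have : |3 * q| ≤ 1 := by
      rw [abs_of_nonneg (by positivity)]
      linarith
    have h4 := (le_abs_self _).trans (Real.abs_exp_sub_one_le this)
    rw [abs_of_nonneg (by positivity : 0 ≤ 3 * q)] at h4
    linarith
  have hosc : ∀ t ∈ Set.Icc (0 : ℝ) (2 * Real.pi), |Q t - Q 0| ≤ 6 * q * Q t := by
    intro t ht
    have e1 := hQq t 0
    have e2 := hQq 0 t
    have e3 : Real.exp (q * Real.sqrt |t - 0|) ≤ Real.exp (3 * q) := by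
      apply Real.exp_le_exp.mpr
      have := hsqrt t ht
      nlinarith
    have e4 : |0 - t| = |t - 0| := abs_sub_comm 0 t
    rw [e4] at e2
    have e5 : Q 0 ≤ Real.exp (3 * q) * Q t := e2.trans (mul_le_mul_of_nonneg_right e3 (hQ0 t).le)
    have e6 : Q t ≤ Real.exp (3 * q) * Q 0 := e1.trans (mul_le_mul_of_nonneg_right e3 (hQ0 0).le)
    have e7 := hQ0 t
    have e8 := hQ0 0
    have e9 : 1 ≤ Real.exp (3 * q) := Real.one_le_exp (by positivity)
    rw [abs_le]
    constructor
    · nlinarith
    · rcases le_or_gt (Q t) (Q 0) with hle | hlt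
      · have : 0 ≤ 6 * q * Q t := by positivity
        linarith
      · nlinarith
  have hcorr : |∫ θ in (0 : ℝ)..(2 * Real.pi), h θ * Q θ| ≤ 6 * q * w * m := by
    have e1 : ∫ θ in (0 : ℝ)..(2 * Real.pi), h θ * Q θ =
        ∫ θ in (0 : ℝ)..(2 * Real.pi), h θ * (Q θ - Q 0) := by
      have : ∫ θ in (0 : ℝ)..(2 * Real.pi), h θ * (Q θ - Q 0) =
          (∫ θ in (0 : ℝ)..(2 * Real.pi), h θ * Q θ) -
            ∫ θ in (0 : ℝ)..(2 * Real.pi), h θ * Q 0 := by
        rw [← intervalIntegral.integral_sub]
        · refine intervalIntegral.integral_congr fun t _ => ?_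
          ring
        · apply Continuous.intervalIntegrable
          fun_prop
        · apply Continuous.intervalIntegrable
          fun_prop
      rw [this, intervalIntegral.integral_mul_const, hm]
      ring
    rw [e1]
    have e2 : ‖∫ θ in (0 : ℝ)..(2 * Real.pi), h θ * (Q θ - Q 0)‖ ≤
        ∫ θ in (0 : ℝ)..(2 * Real.pi), w * (6 * q * Q θ) := by
      apply intervalIntegral.norm_integral_le_of_norm_le hpi2
      · refine Eventually.of_forall fun t ht => ?_
        have ht' : t ∈ Set.Icc (0 : ℝ) (2 * Real.pi) := ⟨ht.1.le, ht.2⟩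
        rw [norm_mul, Real.norm_eq_abs, Real.norm_eq_abs]
        exact mul_le_mul (hb t) (hosc t ht') (abs_nonneg _) hw0
      · apply Continuous.intervalIntegrable
        fun_prop
    rw [Real.norm_eq_abs] at e2
    refine e2.trans (le_of_eq ?_)
    rw [intervalIntegral.integral_const_mul, intervalIntegral.integral_const_mul]
    ring
  have hc2 := abs_le.mp hcorr
  have h6 : m - s * (∫ θ in (0 : ℝ)..(2 * Real.pi), h θ * Q θ) + s ^ 2 * w ^ 2 * m ≤
      m * (1 + (6 * q ^ 2 + 10 * w ^ 2)) := by
    have e1 : -(s * ∫ θ in (0 : ℝ)..(2 * Real.pi), h θ * Q θ) ≤ 2 * (6 * q * w * m) := by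
      have : s * (-∫ θ in (0 : ℝ)..(2 * Real.pi), h θ * Q θ) ≤ 2 * (6 * q * w * m) := by
        calc s * (-∫ θ in (0 : ℝ)..(2 * Real.pi), h θ * Q θ) ≤ s * (6 * q * w * m) := by
              apply mul_le_mul_of_nonneg_left _ hs0
              linarith [hc2.1]
          _ ≤ 2 * (6 * q * w * m) := by
              apply mul_le_mul_of_nonneg_right hs2
              positivity
      linarith
    have e2 : s ^ 2 * w ^ 2 * m ≤ 4 * w ^ 2 * m := by
      have : s ^ 2 ≤ 4 := by nlinarith
      have h7 : 0 ≤ w ^ 2 * m := by positivity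
      nlinarith
    have e3 : 2 * (6 * q * w * m) ≤ (6 * q ^ 2 + 6 * w ^ 2) * m := by
      have : 0 ≤ 6 * (q - w) ^ 2 * m := by positivity
      nlinarith
    nlinarith
  refine (h2.trans h6).trans ?_
  apply mul_le_mul_of_nonneg_left _ hm0
  have := Real.add_one_le_exp (6 * q ^ 2 + 10 * w ^ 2)
  linarith

theorem main : S_EXP := by
  refine ⟨200, by norm_num, ?_⟩
  intro w h hw0 hw1 hper hb hh hm s N hs0 hs2
  have hpi := Real.pi_pos
  have hhc : ∀ k, Continuous (h k) := fun k => hcont (hh k)
  set e : ℕ → ℝ → ℝ := fun k t => Real.exp (-(s * h k t)) with he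
  have hec : ∀ k, Continuous (e k) := fun k => by
    have := hhc k
    simp only [he]
    fun_prop
  have hep : ∀ k, Function.Periodic (e k) (2 * Real.pi) := fun k t => by
    simp only [he, hper k t]
  have key : ∀ N : ℕ, ∃ q : ℝ, 0 ≤ q ∧ q ≤ 1 / 100 ∧ (∀ t, 0 < Qr e N t) ∧
      (∀ t t', Qr e N t ≤ Real.exp (q * Real.sqrt |t - t'|) * Qr e N t') ∧
      (∫ θ in (0 : ℝ)..(2 * Real.pi), Qr e N θ) * Real.exp (24 * q ^ 2) ≤
        2 * Real.pi * Real.exp (200 * ∑ k ∈ Finset.range N, w k ^ 2) := by
    intro N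
    induction N with
    | zero =>
      refine ⟨0, le_rfl, by norm_num, fun t => by simp [Qr], fun t t' => by simp [Qr], ?_⟩
      simp [Qr]
    | succ N ih =>
      obtain ⟨q, hq0, hq1, hpos, hq, hint⟩ := ih
      have hwN0 := hw0 N
      have hwN1 := hw1 N
      have hs2' : 0 < Real.sqrt 2 := by positivity
      have hsq2 : Real.sqrt 2 ^ 2 = 2 := Real.sq_sqrt (by norm_num)
      have h14 : (14 : ℝ) / 10 ≤ Real.sqrt 2 := by
        apply Real.le_sqrt_of_sq_le
        norm_num
      refine ⟨(q + s * w N) / Real.sqrt 2, by positivity, ?_, ?_, ?_, ?_⟩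
      · rw [div_le_iff₀ hs2']
        nlinarith
      · intro t
        show 0 < Lr (fun t => e N t * Qr e N t) t
        unfold Lr
        have h1 := hpos (t / 2)
        have h2 := hpos (t / 2 + Real.pi)
        have h3 : 0 < e N (t / 2) := Real.exp_pos _
        have h4 : 0 < e N (t / 2 + Real.pi) := Real.exp_pos _
        positivity
      · intro t t'
        -- the product
        have hprod : ∀ a b : ℝ, e N a * Qr e N a ≤
            Real.exp ((q + s * w N) * Real.sqrt |a - b|) * (e N b * Qr e N b) := by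
          intro a b
          have h1 : e N a ≤ Real.exp (s * w N * Real.sqrt |a - b|) * e N b := by
            simp only [he]
            rw [← Real.exp_add]
            apply Real.exp_le_exp.mpr
            have h2 := hh N a b
            have h3 := (abs_le.mp h2).1
            nlinarith
          have h2 := hq a b
          calc e N a * Qr e N a ≤ (Real.exp (s * w N * Real.sqrt |a - b|) * e N b) *
                (Real.exp (q * Real.sqrt |a - b|) * Qr e N b) := by
                apply mul_le_mul h1 h2 (hpos a).le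
                have : 0 < e N b := Real.exp_pos _
                positivity
            _ = _ := by
                rw [show (q + s * w N) * Real.sqrt |a - b| =
                  s * w N * Real.sqrt |a - b| + q * Real.sqrt |a - b| by ring, Real.exp_add]
                ring
        have hroot : ∀ c : ℝ, Real.sqrt |t / 2 + c - (t' / 2 + c)| =
            Real.sqrt |t - t'| / Real.sqrt 2 := by
          intro c
          have : t / 2 + c - (t' / 2 + c) = (t - t') / 2 := by ring
          rw [this, abs_div, abs_of_pos (by norm_num : (0 : ℝ) < 2), Real.sqrt_div (abs_nonneg _)]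
        have h1 := hprod (t / 2 + 0) (t' / 2 + 0)
        have h2 := hprod (t / 2 + Real.pi) (t' / 2 + Real.pi)
        rw [hroot] at h1 h2
        rw [add_zero, add_zero] at h1
        have hE : (q + s * w N) * (Real.sqrt |t - t'| / Real.sqrt 2) =
            (q + s * w N) / Real.sqrt 2 * Real.sqrt |t - t'| := by ring
        rw [hE] at h1 h2
        show Lr (fun t => e N t * Qr e N t) t ≤ _ * Lr (fun t => e N t * Qr e N t) t'
        unfold Lr
        simp only
        linarith
      · have hstep : ∫ θ in (0 : ℝ)..(2 * Real.pi), Qr e (N + 1) θ =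
            ∫ θ in (0 : ℝ)..(2 * Real.pi), Real.exp (-(s * h N θ)) * Qr e N θ := by
          have h1 := dualr (fun t => e N t * Qr e N t) (fun _ => 1) ((hec N).mul (Qr_cont hec N))
            continuous_const (fun _ => rfl)
          simp only [mul_one] at h1
          exact h1
        have h1 := mean_step hwN0 hwN1 hs0 hs2 hq0 hq1 (hb N) (hhc N) (hm N) (Qr_cont hec N) hpos hq
        rw [hstep]
        have hq' : ((q + s * w N) / Real.sqrt 2) ^ 2 ≤ 3 / 4 * q ^ 2 + 6 * w N ^ 2 := by
          rw [div_pow, hsq2]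
          have h2 : 0 ≤ (q - 2 * (s * w N)) ^ 2 := sq_nonneg _
          have h3 : (s * w N) ^ 2 ≤ 4 * w N ^ 2 := by
            have : s ^ 2 ≤ 4 := by nlinarith
            rw [mul_pow]
            exact mul_le_mul_of_nonneg_right this (sq_nonneg _)
          nlinarith
        calc (∫ θ in (0 : ℝ)..(2 * Real.pi), Real.exp (-(s * h N θ)) * Qr e N θ) *
              Real.exp (24 * ((q + s * w N) / Real.sqrt 2) ^ 2)
            ≤ ((∫ θ in (0 : ℝ)..(2 * Real.pi), Qr e N θ) * Real.exp (6 * q ^ 2 + 10 * w N ^ 2)) *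
              Real.exp (24 * (3 / 4 * q ^ 2 + 6 * w N ^ 2)) := by
              apply mul_le_mul h1 _ (Real.exp_pos _).le
              · have : 0 ≤ ∫ θ in (0 : ℝ)..(2 * Real.pi), Qr e N θ :=
                  intervalIntegral.integral_nonneg (by positivity) fun t _ => (hpos t).le
                positivity
              · apply Real.exp_le_exp.mpr
                linarith
          _ = ((∫ θ in (0 : ℝ)..(2 * Real.pi), Qr e N θ) * Real.exp (24 * q ^ 2)) *
              Real.exp (154 * w N ^ 2) := by
              rw [mul_assoc, mul_assoc, ← Real.exp_add, ← Real.exp_add]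
              congr 2
              ring
          _ ≤ (2 * Real.pi * Real.exp (200 * ∑ k ∈ Finset.range N, w k ^ 2)) *
              Real.exp (200 * w N ^ 2) := by
              apply mul_le_mul hint _ (Real.exp_pos _).le (by positivity)
              apply Real.exp_le_exp.mpr
              have := sq_nonneg (w N)
              linarith
          _ = 2 * Real.pi * Real.exp (200 * ∑ k ∈ Finset.range (N + 1), w k ^ 2) := by
              rw [Finset.sum_range_succ, mul_assoc, ← Real.exp_add]
              congr 2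
              ring
  obtain ⟨q, hq0, hq1, hpos, hq, hint⟩ := key N
  have h1 : ∫ θ in (0 : ℝ)..(2 * Real.pi),
      Real.exp (-(s * ∑ k ∈ Finset.range N, h k (2 ^ k * θ))) =
      ∫ θ in (0 : ℝ)..(2 * Real.pi), Qr e N θ := by
    have h2 := prod_eq hec hep N (fun _ => 1) continuous_const (fun _ => rfl)
    simp only [mul_one] at h2
    rw [← h2]
    refine intervalIntegral.integral_congr fun θ _ => ?_
    simp only [he]
    rw [← Real.exp_sum]
    congr 1
    rw [Finset.mul_sum, ← Finset.sum_neg_distrib]
  rw [h1]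
  refine le_trans ?_ hint
  have h3 : 0 ≤ ∫ θ in (0 : ℝ)..(2 * Real.pi), Qr e N θ :=
    intervalIntegral.integral_nonneg (by positivity) fun t _ => (hpos t).le
  exact le_mul_of_one_le_right h3 (Real.one_le_exp (by positivity))

end Pool.Agent.Helper25.RB.EXP
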