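import Pool.Agent.Helper25.RB.Stm3
import Mathlib.Analysis.Real.OfDigits

/-!
# Quasi self-similar sets of dimension at most one have finite length
-/

set_option autoImplicit false
set_option linter.unusedVariables false

open Filter Topology Metric Set MeasureTheory
open scoped ENNReal NNReal

namespace Pool.Agent.Helper25.RB.FAL

/-- the composition `g (ω 0) ∘ ⋯ ∘ g (ω (k - 1))` -/
def W {m : ℕ} (g : Fin m → ℂ → ℂ) (ω : ℕ → Fin m) : ℕ → ℂ → ℂ
  | 0 => id
  | k + 1 => W g ω k ∘ g (ω k)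

theorem W_maps {m : ℕ} {g : Fin m → ℂ → ℂ} {J : Set ℂ} (hg : ∀ i, MapsTo (g i) J J)
    (ω : ℕ → Fin m) : ∀ k, MapsTo (W g ω k) J J
  | 0 => fun x hx => hx
  | k + 1 => (W_maps hg ω k).comp (hg (ω k))

theorem W_congr {m : ℕ} {g : Fin m → ℂ → ℂ} {ω ω' : ℕ → Fin m} :
    ∀ k, (∀ i < k, ω i = ω' i) → W g ω k = W g ω' k
  | 0, _ => rfl
  | k + 1, h => by
    show W g ω k ∘ g (ω k) = W g ω' k ∘ g (ω' k)
    rw [W_congr k (fun i hi => h i (by omega)), h k (by omega)]

theorem W_low {m : ℕ} {g : Fin m → ℂ → ℂ} {J : Set ℂ} (hg : ∀ i, MapsTo (g i) J J) {ρ : ℝ}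
    (hρ : 0 ≤ ρ) (hl : ∀ i, ∀ u ∈ J, ∀ v ∈ J, ρ * ‖u - v‖ ≤ ‖g i u - g i v‖) (ω : ℕ → Fin m) :
    ∀ k, ∀ u ∈ J, ∀ v ∈ J, ρ ^ k * ‖u - v‖ ≤ ‖W g ω k u - W g ω k v‖
  | 0, u, _, v, _ => by simp [W]
  | k + 1, u, hu, v, hv => by
    have h1 := W_low hg hρ hl ω k (g (ω k) u) (hg _ hu) (g (ω k) v) (hg _ hv)
    have h2 := hl (ω k) u hu v hv
    calc ρ ^ (k + 1) * ‖u - v‖ = ρ ^ k * (ρ * ‖u - v‖) := by rw [pow_succ, mul_assoc]
      _ ≤ ρ ^ k * ‖g (ω k) u - g (ω k) v‖ := by gcongr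
      _ ≤ _ := h1

/-- the points with given codes -/
theorem codes {m : ℕ} {g : Fin m → ℂ → ℂ} {J : Set ℂ} (hJ : IsCompact J) (hne : J.Nonempty)
    (hg : ∀ i, MapsTo (g i) J J) {ρ d : ℝ} (hρ : 0 < ρ)
    (hl : ∀ i, ∀ u ∈ J, ∀ v ∈ J, ρ * ‖u - v‖ ≤ ‖g i u - g i v‖)
    (hd : ∀ i j, i ≠ j → ∀ u ∈ J, ∀ v ∈ J, d ≤ ‖g i u - g j v‖) :
    ∃ X : (ℕ → Fin m) → ℂ, (∀ ω, X ω ∈ J) ∧
      ∀ (ω ω' : ℕ → Fin m) (k : ℕ), (∀ i < k, ω i = ω' i) → ω k ≠ ω' k →
        ρ ^ k * d ≤ ‖X ω - X ω'‖ := by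
  have hex : ∀ ω : ℕ → Fin m, (⋂ k, closure (W g ω k '' J)).Nonempty := by
    intro ω
    have hsub : ∀ k, closure (W g ω k '' J) ⊆ J := fun k =>
      closure_minimal (image_subset_iff.2 (W_maps hg ω k)) hJ.isClosed
    refine IsCompact.nonempty_iInter_of_sequence_nonempty_isCompact_isClosed _ ?_ ?_ ?_ ?_
    · intro k
      refine closure_mono ?_
      rintro _ ⟨u, hu, rfl⟩
      exact ⟨g (ω k) u, hg _ hu, rfl⟩
    · intro k
      exact (hne.image _).closure
    · exact hJ.of_isClosed_subset isClosed_closure (hsub 0)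
    · intro k
      exact isClosed_closure
  choose X hX using hex
  have hXk : ∀ ω k, X ω ∈ closure (W g ω k '' J) := fun ω k => mem_iInter.1 (hX ω) k
  refine ⟨X, fun ω => ?_, ?_⟩
  · have h := hXk ω 0
    exact (closure_minimal (image_subset_iff.2 (W_maps hg ω 0)) hJ.isClosed) h
  · intro ω ω' k hk hne'
    have hcl : IsClosed {p : ℂ × ℂ | ρ ^ k * d ≤ ‖p.1 - p.2‖} :=
      isClosed_le continuous_const (continuous_fst.sub continuous_snd).norm
    have hsub : (W g ω (k + 1) '' J) ×ˢ (W g ω' (k + 1) '' J) ⊆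
        {p : ℂ × ℂ | ρ ^ k * d ≤ ‖p.1 - p.2‖} := by
      rintro ⟨p, q⟩ ⟨⟨u, hu, hp⟩, ⟨v, hv, hq⟩⟩
      show ρ ^ k * d ≤ ‖p - q‖
      have hp' : p = W g ω k (g (ω k) u) := hp.symm
      have hq' : q = W g ω k (g (ω' k) v) := by
        rw [W_congr k hk]
        exact hq.symm
      rw [hp', hq']
      refine le_trans ?_ (W_low hg hρ.le hl ω k _ (hg _ hu) _ (hg _ hv))
      gcongr
      exact hd _ _ hne' u hu v hv
    have h2 := closure_minimal hsub hcl
    rw [closure_prod_eq] at h2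
    exact h2 (mk_mem_prod (hXk ω (k + 1)) (hXk ω' (k + 1)))

/-- too many separated copies: the dimension is larger than one -/
theorem dim_gt {m : ℕ} {g : Fin m → ℂ → ℂ} {J : Set ℂ} (hJ : IsCompact J) (hne : J.Nonempty)
    (hg : ∀ i, MapsTo (g i) J J) {ρ d : ℝ} (hρ : 0 < ρ) (hρ1 : ρ < 1) (hd0 : 0 < d)
    (hl : ∀ i, ∀ u ∈ J, ∀ v ∈ J, ρ * ‖u - v‖ ≤ ‖g i u - g i v‖)
    (hd : ∀ i j, i ≠ j → ∀ u ∈ J, ∀ v ∈ J, d ≤ ‖g i u - g j v‖) (hm : 1 < m * ρ) :
    1 < dimH J := by
  obtain ⟨X, hXJ, hX⟩ := codes hJ hne hg hρ hl hd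
  have hm0 : (0 : ℝ) < m := by
    by_contra hcon
    push Not at hcon
    nlinarith
  have hm1 : (1 : ℝ) < m := by nlinarith
  have hm1' : 1 < m := by exact_mod_cast hm1
  -- first differences
  have hfirst : ∀ ω ω' : ℕ → Fin m, ω ≠ ω' → ∃ k, (∀ i < k, ω i = ω' i) ∧ ω k ≠ ω' k := by
    intro ω ω' h
    have h1 : ∃ k, ω k ≠ ω' k := Function.ne_iff.1 h
    classical
    refine ⟨Nat.find h1, fun i hi => ?_, Nat.find_spec h1⟩
    have := Nat.find_min h1 hi
    push Not at this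
    exact this
  have hinj : Function.Injective X := by
    intro ω ω' h
    by_contra hne'
    obtain ⟨k, hk1, hk2⟩ := hfirst ω ω' hne'
    have h1 := hX ω ω' k hk1 hk2
    rw [h, sub_self, norm_zero] at h1
    have : 0 < ρ ^ k * d := by positivity
    linarith
  -- the exponent
  set t : ℝ := Real.logb ρ ((m : ℝ)⁻¹) with ht
  have hρt : ρ ^ t = (m : ℝ)⁻¹ := Real.rpow_logb hρ hρ1.ne (by positivity)
  have ht1 : 1 < t := by
    rw [ht, Real.lt_logb_iff_rpow_lt_of_base_lt_one hρ hρ1 (by positivity), Real.rpow_one]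
    rw [inv_lt_iff_one_lt_mul₀ hm0]
    linarith
  have ht0 : 0 < t := by linarith
  -- the map
  classical
  let f : ℂ → ℝ := fun z => if h : ∃ ω, X ω = z then Real.ofDigits h.choose else 0
  have hf : ∀ ω, f (X ω) = Real.ofDigits ω := by
    intro ω
    have h : ∃ ω', X ω' = X ω := ⟨ω, rfl⟩
    show (if h : ∃ ω', X ω' = X ω then Real.ofDigits h.choose else 0) = _
    rw [dif_pos h, hinj h.choose_spec]
  have hhol : HolderOnWith (Real.toNNReal ((1 / d) ^ t)) (Real.toNNReal t) f (range X) := by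
    rintro _ ⟨ω, rfl⟩ _ ⟨ω', rfl⟩
    rw [hf, hf, Real.coe_toNNReal t ht0.le]
    by_cases h : ω = ω'
    · rw [h, edist_self]
      exact zero_le
    obtain ⟨k, hk1, hk2⟩ := hfirst ω ω' h
    have h1 := hX ω ω' k hk1 hk2
    have h2 := Real.abs_ofDigits_sub_ofDigits_le hk1
    rw [edist_dist, edist_dist, Real.dist_eq, dist_eq_norm, ENNReal.ofReal_rpow_of_nonneg
      (norm_nonneg _) ht0.le]
    have e : ((Real.toNNReal ((1 / d) ^ t) : ℝ≥0) : ℝ≥0∞) = ENNReal.ofReal ((1 / d) ^ t) := rfl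
    rw [e, ← ENNReal.ofReal_mul (by positivity)]
    refine ENNReal.ofReal_le_ofReal (h2.trans ?_)
    have h3 : ((m : ℝ) ^ k)⁻¹ = (ρ ^ k) ^ t := by
      rw [← inv_pow, ← hρt, ← Real.rpow_natCast, ← Real.rpow_natCast, ← Real.rpow_mul hρ.le,
        ← Real.rpow_mul hρ.le, mul_comm]
    rw [h3, ← Real.mul_rpow (by positivity) (norm_nonneg _)]
    refine Real.rpow_le_rpow (by positivity) ?_ ht0.le
    rw [one_div, ← div_eq_inv_mul, le_div_iff₀ hd0]
    exact h1
  have h1 := hhol.dimH_image_le (Real.toNNReal_pos.2 ht0)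
  have h2 : Icc (0 : ℝ) 1 ⊆ f '' range X := by
    intro y hy
    obtain ⟨ω, -, hω⟩ := Real.ofDigits_SurjOn hm1' hy
    exact ⟨X ω, ⟨ω, rfl⟩, by rw [hf, hω]⟩
  have h3 : (1 : ℝ≥0∞) ≤ dimH (f '' range X) := by
    refine le_trans ?_ (dimH_mono h2)
    have h4 : (interior (Icc (0 : ℝ) 1)).Nonempty := by
      rw [interior_Icc]
      exact ⟨1 / 2, by norm_num, by norm_num⟩
    rw [Real.dimH_of_nonempty_interior h4]
    simp
  by_contra hcon
  push Not at hcon
  have h5 : dimH (range X) ≤ 1 := (dimH_mono (range_subset_iff.2 hXJ)).trans hcon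
  have h6 : (1 : ℝ≥0∞) ≤ 1 / (Real.toNNReal t : ℝ≥0∞) :=
    h3.trans (h1.trans (ENNReal.div_le_div_right h5 _))
  have h7 : (1 : ℝ≥0∞) < (Real.toNNReal t : ℝ≥0∞) := by
    rw [ENNReal.one_lt_coe_iff, Real.lt_toNNReal_iff_coe_lt]
    exact_mod_cast ht1
  rw [one_div, ENNReal.one_le_inv] at h6
  exact absurd h6 (not_le.2 h7)

theorem main : S_FAL := by
  intro J a r₀ hJ ha hr₀ hg hdim
  rcases J.eq_empty_or_nonempty with rfl | hne
  · simp
  -- the number of separated points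
  have hbd : ∀ r : ℝ, 0 < r → r ≤ r₀ → a * r < 1 → ∀ (m : ℕ) (x : Fin m → ℂ), (∀ i, x i ∈ J) →
      (∀ i j, i ≠ j → 3 * r ≤ ‖x i - x j‖) → (m : ℝ) * (a * r) ≤ 1 := by
    intro r hr0 hr har m x hx hsep
    by_contra hcon
    push Not at hcon
    choose g hg1 hg2 using fun i => hg (x i) (hx i) r hr0 hr
    have h := dim_gt (g := g) hJ hne (fun i => (hg1 i).mono_right inter_subset_left)
      (ρ := a * r) (d := r) (by positivity) har hr0 hg2 ?_ hcon
    · exact absurd hdim (not_le.2 h)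
    · intro i j hij u hu v hv
      have h1 := (hg1 i hu).2
      have h2 := (hg1 j hv).2
      rw [mem_closedBall, dist_eq_norm] at h1 h2
      have h3 := hsep i j hij
      have h4 : ‖x i - x j‖ ≤ ‖g i u - x i‖ + ‖g i u - g j v‖ + ‖g j v - x j‖ := by
        have e : x i - x j = -(g i u - x i) + (g i u - g j v) + (g j v - x j) := by ring
        rw [e]
        refine (norm_add₃_le).trans ?_
        rw [norm_neg]
      linarith
  -- coverings
  have hcov : ∀ r : ℝ, 0 < r → r ≤ r₀ → a * r < 1 → ∃ (m : ℕ) (x : Fin m → ℂ),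
      (m : ℝ) * (a * r) ≤ 1 ∧ J ⊆ ⋃ i, closedBall (x i) (3 * r) := by
    intro r hr0 hr har
    let P : ℕ → Prop := fun m => ∃ x : Fin m → ℂ, (∀ i, x i ∈ J) ∧
      ∀ i j, i ≠ j → 3 * r ≤ ‖x i - x j‖
    have hP0 : P 0 := ⟨fun i => i.elim0, fun i => i.elim0, fun i => i.elim0⟩
    have hPb : ∀ m, P m → m ≤ ⌊1 / (a * r)⌋₊ := by
      rintro m ⟨x, hx1, hx2⟩
      apply Nat.le_floor
      rw [le_div_iff₀ (by positivity)]
      exact hbd r hr0 hr har m x hx1 hx2
    classical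
    set M := Nat.findGreatest P ⌊1 / (a * r)⌋₊ with hM
    have hPM : P M := Nat.findGreatest_spec (P := P) (Nat.zero_le _) hP0
    have hPM1 : ¬ P (M + 1) := by
      intro h
      have h1 := Nat.le_findGreatest (P := P) (hPb _ h) h
      omega
    obtain ⟨x, hx1, hx2⟩ := hPM
    refine ⟨M, x, hbd r hr0 hr har M x hx1 hx2, ?_⟩
    intro z hz
    by_contra hcon
    apply hPM1
    rw [mem_iUnion] at hcon
    push Not at hcon
    have hz' : ∀ i, 3 * r ≤ ‖z - x i‖ := by
      intro i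
      have h := hcon i
      rw [mem_closedBall, dist_eq_norm] at h
      linarith
    refine ⟨Fin.cons z x, ?_, ?_⟩
    · intro i
      refine Fin.cases ?_ (fun i => ?_) i
      · simpa using hz
      · simpa using hx1 i
    · intro i j hij
      induction i using Fin.cases with
      | zero =>
        induction j using Fin.cases with
        | zero => exact absurd rfl hij
        | succ j => simpa using hz' j
      | succ i =>
        induction j using Fin.cases with
        | zero =>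
          have := hz' i
          rw [norm_sub_rev] at this
          simpa using this
        | succ j =>
          have := hx2 i j (fun h => hij (by rw [h]))
          simpa using this
  -- a sequence of radii
  set r₁ : ℝ := min r₀ (1 / (2 * a)) with hr₁
  have hr₁0 : 0 < r₁ := by positivity
  let R : ℕ → ℝ := fun n => r₁ / (n + 1)
  have hR0 : ∀ n, 0 < R n := fun n => by positivity
  have hR1 : ∀ n, R n ≤ r₁ := fun n => div_le_self hr₁0.le (by
    have : (0 : ℝ) ≤ n := Nat.cast_nonneg n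
    linarith)
  have hR2 : ∀ n, a * R n < 1 := by
    intro n
    have h1 : R n ≤ 1 / (2 * a) := (hR1 n).trans (min_le_right _ _)
    calc a * R n ≤ a * (1 / (2 * a)) := by gcongr
      _ = 1 / 2 := by field_simp
      _ < 1 := by norm_num
  choose m x hm hx using fun n => hcov (R n) (hR0 n) ((hR1 n).trans (min_le_left _ _)) (hR2 n)
  have hRt : Tendsto R atTop (𝓝 0) := by
    have := tendsto_one_div_add_atTop_nhds_zero_nat (𝕜 := ℝ)
    have h2 := this.const_mul r₁
    rw [mul_zero] at h2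
    refine h2.congr fun n => ?_
    show r₁ * (1 / ((n : ℝ) + 1)) = r₁ / (n + 1)
    ring
  have hdiam : ∀ n i, ediam (closedBall (x n i) (3 * R n)) ≤ ENNReal.ofReal (6 * R n) := by
    intro n i
    rw [← Metric.closedEBall_ofReal (by have := hR0 n; positivity)]
    refine (Metric.ediam_closedEBall_le).trans ?_
    rw [show (6 : ℝ) * R n = 2 * (3 * R n) by ring, ENNReal.ofReal_mul (by norm_num)]
    simp
  have key := Measure.hausdorffMeasure_le_liminf_sum (ι := fun n => Fin (m n)) 1 J (l := atTop)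
    (fun n => ENNReal.ofReal (6 * R n)) ?_
    (fun n i => closedBall (x n i) (3 * R n)) (Eventually.of_forall fun n i => hdiam n i)
    (Eventually.of_forall hx)
  · refine lt_of_le_of_lt (key.trans ?_) (ENNReal.ofReal_lt_top (r := 6 / a))
    refine liminf_le_of_frequently_le' (Frequently.of_forall fun n => ?_)
    calc ∑ i, ediam (closedBall (x n i) (3 * R n)) ^ (1 : ℝ)
        ≤ ∑ i : Fin (m n), ENNReal.ofReal (6 * R n) := by
          refine Finset.sum_le_sum fun i _ => ?_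
          rw [ENNReal.rpow_one]
          exact hdiam n i
      _ = ENNReal.ofReal (m n * (6 * R n)) := by
          rw [Finset.sum_const, Finset.card_univ, Fintype.card_fin, nsmul_eq_mul,
            ENNReal.ofReal_mul (Nat.cast_nonneg _), ENNReal.ofReal_natCast]
      _ ≤ ENNReal.ofReal (6 / a) := by
          refine ENNReal.ofReal_le_ofReal ?_
          rw [le_div_iff₀ ha]
          have := hm n
          nlinarith
  · have h2 := hRt.const_mul 6
    rw [mul_zero] at h2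
    have h3 := (ENNReal.continuous_ofReal.tendsto 0).comp h2
    rw [ENNReal.ofReal_zero] at h3
    exact h3

end Pool.Agent.Helper25.RB.FAL
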