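import Pool.Agent.Helper25.RB.Stm6
import Pool.Agent.Helper25.RB.FAL

/-!
# Quasi self-similar sets: the counting estimate for a general exponent
-/

set_option autoImplicit false
set_option linter.unusedVariables false

open Filter Topology Metric Set MeasureTheory
open scoped ENNReal NNReal

namespace Pool.Agent.Helper25.RB.FALC

open Pool.Agent.Helper25.RB.FAL (codes)

/-- too many separated copies: the dimension is larger than `s` -/
theorem dim_gt {m : ℕ} {g : Fin m → ℂ → ℂ} {J : Set ℂ} (hJ : IsCompact J) (hne : J.Nonempty)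
    (hg : ∀ i, MapsTo (g i) J J) {ρ d s : ℝ} (hρ : 0 < ρ) (hρ1 : ρ < 1) (hd0 : 0 < d) (hs : 0 < s)
    (hl : ∀ i, ∀ u ∈ J, ∀ v ∈ J, ρ * ‖u - v‖ ≤ ‖g i u - g i v‖)
    (hd : ∀ i j, i ≠ j → ∀ u ∈ J, ∀ v ∈ J, d ≤ ‖g i u - g j v‖) (hm : 1 < m * ρ ^ s) :
    ENNReal.ofReal s < dimH J := by
  obtain ⟨X, hXJ, hX⟩ := codes hJ hne hg hρ hl hd
  have hρs0 : 0 < ρ ^ s := Real.rpow_pos_of_pos hρ s
  have hρs1 : ρ ^ s < 1 := Real.rpow_lt_one hρ.le hρ1 hs
  have hm0 : (0 : ℝ) < m := by
    by_contra hcon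
    push Not at hcon
    nlinarith
  have hm1 : (1 : ℝ) < m := by nlinarith
  have hm1' : 1 < m := by exact_mod_cast hm1
  -- first differences
  have hfirst : ∀ ω ω' : ℕ → Fin m, ω ≠ ω' → ∃ k, (∀ i < k, ω i = ω' i) ∧ ω k ≠ ω' k := by
    intro ω ω' h
    have h1 : ∃ k, ω k ≠ ω' k := Function.ne_iff.1 h
    classical
    refine ⟨Nat.find h1, fun i hi => ?_, Nat.find_spec h1⟩
    have := Nat.find_min h1 hi
    push Not at this
    exact this
  have hinj : Function.Injective X := by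
    intro ω ω' h
    by_contra hne'
    obtain ⟨k, hk1, hk2⟩ := hfirst ω ω' hne'
    have h1 := hX ω ω' k hk1 hk2
    rw [h, sub_self, norm_zero] at h1
    have : 0 < ρ ^ k * d := by positivity
    linarith
  -- the exponent
  set t : ℝ := Real.logb ρ ((m : ℝ)⁻¹) with ht
  have hρt : ρ ^ t = (m : ℝ)⁻¹ := Real.rpow_logb hρ hρ1.ne (by positivity)
  have hts : s < t := by
    rw [ht, Real.lt_logb_iff_rpow_lt_of_base_lt_one hρ hρ1 (by positivity)]
    rw [inv_lt_iff_one_lt_mul₀ hm0]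
    linarith
  have ht0 : 0 < t := by linarith
  -- the map
  classical
  let f : ℂ → ℝ := fun z => if h : ∃ ω, X ω = z then Real.ofDigits h.choose else 0
  have hf : ∀ ω, f (X ω) = Real.ofDigits ω := by
    intro ω
    have h : ∃ ω', X ω' = X ω := ⟨ω, rfl⟩
    show (if h : ∃ ω', X ω' = X ω then Real.ofDigits h.choose else 0) = _
    rw [dif_pos h, hinj h.choose_spec]
  have hhol : HolderOnWith (Real.toNNReal ((1 / d) ^ t)) (Real.toNNReal t) f (range X) := by
    rintro _ ⟨ω, rfl⟩ _ ⟨ω', rfl⟩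
    rw [hf, hf, Real.coe_toNNReal t ht0.le]
    by_cases h : ω = ω'
    · rw [h, edist_self]
      exact zero_le
    obtain ⟨k, hk1, hk2⟩ := hfirst ω ω' h
    have h1 := hX ω ω' k hk1 hk2
    have h2 := Real.abs_ofDigits_sub_ofDigits_le hk1
    rw [edist_dist, edist_dist, Real.dist_eq, dist_eq_norm, ENNReal.ofReal_rpow_of_nonneg
      (norm_nonneg _) ht0.le]
    have e : ((Real.toNNReal ((1 / d) ^ t) : ℝ≥0) : ℝ≥0∞) = ENNReal.ofReal ((1 / d) ^ t) := rfl
    rw [e, ← ENNReal.ofReal_mul (by positivity)]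
    refine ENNReal.ofReal_le_ofReal (h2.trans ?_)
    have h3 : ((m : ℝ) ^ k)⁻¹ = (ρ ^ k) ^ t := by
      rw [← inv_pow, ← hρt, ← Real.rpow_natCast, ← Real.rpow_natCast, ← Real.rpow_mul hρ.le,
        ← Real.rpow_mul hρ.le, mul_comm]
    rw [h3, ← Real.mul_rpow (by positivity) (norm_nonneg _)]
    refine Real.rpow_le_rpow (by positivity) ?_ ht0.le
    rw [one_div, ← div_eq_inv_mul, le_div_iff₀ hd0]
    exact h1
  have htN : 0 < Real.toNNReal t := Real.toNNReal_pos.2 ht0
  have h1 := hhol.dimH_image_le htN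
  have h2 : Icc (0 : ℝ) 1 ⊆ f '' range X := by
    intro y hy
    obtain ⟨ω, -, hω⟩ := Real.ofDigits_SurjOn hm1' hy
    exact ⟨X ω, ⟨ω, rfl⟩, by rw [hf, hω]⟩
  have h3 : (1 : ℝ≥0∞) ≤ dimH (f '' range X) := by
    refine le_trans ?_ (dimH_mono h2)
    have h4 : (interior (Icc (0 : ℝ) 1)).Nonempty := by
      rw [interior_Icc]
      exact ⟨1 / 2, by norm_num, by norm_num⟩
    rw [Real.dimH_of_nonempty_interior h4]
    simp
  have h6 : (1 : ℝ≥0∞) ≤ dimH (range X) / (Real.toNNReal t : ℝ≥0∞) := h3.trans h1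
  rw [ENNReal.le_div_iff_mul_le (Or.inl (by exact_mod_cast htN.ne')) (Or.inl (by simp)),
    one_mul] at h6
  have h7 : ENNReal.ofReal s < (Real.toNNReal t : ℝ≥0∞) := by
    show ENNReal.ofReal s < ENNReal.ofReal t
    exact (ENNReal.ofReal_lt_ofReal_iff ht0).2 hts
  exact lt_of_lt_of_le h7 (h6.trans (dimH_mono (range_subset_iff.2 hXJ)))

theorem main : S_FALC := by
  intro J a r₀ s hJ ha hr₀ hs hg hdim
  rcases J.eq_empty_or_nonempty with rfl | hne
  · refine ⟨0, fun r hr hr1 m x hx _ => ?_⟩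
    rcases Nat.eq_zero_or_pos m with rfl | hm
    · simp
    · exact absurd (hx ⟨0, hm⟩) (notMem_empty _)
  -- the number of separated points
  have hbd : ∀ r : ℝ, 0 < r → r ≤ r₀ → a * r < 1 → ∀ (m : ℕ) (x : Fin m → ℂ), (∀ i, x i ∈ J) →
      (∀ i j, i ≠ j → 3 * r ≤ ‖x i - x j‖) → (m : ℝ) * (a * r) ^ s ≤ 1 := by
    intro r hr0 hr har m x hx hsep
    by_contra hcon
    push Not at hcon
    choose g hg1 hg2 using fun i => hg (x i) (hx i) r hr0 hr
    have h := dim_gt (g := g) hJ hne (fun i => (hg1 i).mono_right inter_subset_left)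
      (ρ := a * r) (d := r) (by positivity) har hr0 hs hg2 ?_ hcon
    · exact absurd hdim (not_le.2 h)
    · intro i j hij u hu v hv
      have h1 := (hg1 i hu).2
      have h2 := (hg1 j hv).2
      rw [mem_closedBall, dist_eq_norm] at h1 h2
      have h3 := hsep i j hij
      have h4 : ‖x i - x j‖ ≤ ‖g i u - x i‖ + ‖g i u - g j v‖ + ‖g j v - x j‖ := by
        have e : x i - x j = -(g i u - x i) + (g i u - g j v) + (g j v - x j) := by ring
        rw [e]
        refine (norm_add₃_le).trans ?_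
        rw [norm_neg]
      linarith
  refine ⟨(1 / a) ^ s + (2 * r₀) ^ s, fun r hr0 hr m x hx hsep => ?_⟩
  have hA : 0 < (1 / a) ^ s := Real.rpow_pos_of_pos (by positivity) s
  have hB : 0 < (2 * r₀) ^ s := Real.rpow_pos_of_pos (by positivity) s
  rcases lt_or_ge (a * r) 1 with h | h
  · have h1 := hbd r hr0 hr h m x hx hsep
    have h2 : (m : ℝ) * r ^ s = (m * (a * r) ^ s) * (1 / a) ^ s := by
      rw [mul_assoc, ← Real.mul_rpow (by positivity) (by positivity)]
      congr 2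
      field_simp
    rw [h2]
    have h3 := mul_le_mul_of_nonneg_right h1 hA.le
    linarith
  · -- a smaller radius
    set r' : ℝ := 1 / (2 * a) with hr'
    have hr'0 : 0 < r' := by positivity
    have har' : a * r' = 1 / 2 := by rw [hr']; field_simp
    have hr'r : r' ≤ r := by
      have : a * r' ≤ a * r := by rw [har']; linarith
      exact le_of_mul_le_mul_left this ha
    have h1 := hbd r' hr'0 (hr'r.trans hr) (by rw [har']; norm_num) m x hx
      (fun i j hij => (by linarith : 3 * r' ≤ 3 * r).trans (hsep i j hij))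
    rw [har'] at h1
    have h2 : (m : ℝ) * r ^ s ≤ m * r₀ ^ s :=
      mul_le_mul_of_nonneg_left (Real.rpow_le_rpow hr0.le hr hs.le) (Nat.cast_nonneg _)
    have h3 : (m : ℝ) * r₀ ^ s = (m * (1 / 2) ^ s) * (2 * r₀) ^ s := by
      rw [mul_assoc, ← Real.mul_rpow (by positivity) (by positivity)]
      congr 2
      ring
    have h4 := mul_le_mul_of_nonneg_right h1 hB.le
    linarith

end Pool.Agent.Helper25.RB.FALC
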