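import Pool.Agent.Helper25.RB.Stm2

/-!
# Statements for the regularity of the boundaries of the wandering components
-/

set_option autoImplicit false

open Filter Topology Metric Set MeasureTheory

namespace Pool.Agent.Helper25.RB

open Pool.Agent.Helper25.JB

/-- systems with summable perturbations -/
structure WSys (w : ℕ → ℝ) (L : ℕ → ℂ → ℂ) : Prop where
  sys : Sys (1 / 100000) L
  nonneg : ∀ k, 0 ≤ w k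
  summable : Summable w
  small : ∑' k, w k ≤ 1 / 1000
  bd : ∀ k, ∀ v ∈ ball (0 : ℂ) 2, ‖L k v‖ ≤ w k

/-- the boundary values of the derivative of `Phi L 0` -/
noncomputable def GG (L : ℕ → ℂ → ℂ) (z : ℂ) : ℂ :=
  Complex.exp (psi L 0 z - ∑' i, ell L i (Phi L i (z ^ (2 ^ i))))

/-- LIP -/
def S_LIP : Prop := ∀ (w : ℕ → ℝ) (L : ℕ → ℂ → ℂ), WSys w L → ∀ (k : ℕ) (z z' : ℂ), ‖z‖ ≤ 1 → ‖z'‖ ≤ 1 →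
  ‖psi L k z - psi L k z'‖ ≤ 4 * (∑' l, w (k + l)) * ‖z - z'‖

/-- HOL: growth implies Hölder regularity -/
def S_HOL : Prop := ∀ (w : ℕ → ℝ) (L : ℕ → ℂ → ℂ), WSys w L → ∀ α K : ℝ, 0 < α → α < 1 →
  (∀ j : ℕ, w j ≤ K * (2 : ℝ) ^ (-(α * j))) →
  ∃ K' : ℝ, ∀ z z' : ℂ, ‖z‖ ≤ 1 → ‖z'‖ ≤ 1 → ‖GG L z - GG L z'‖ ≤ K' * ‖z - z'‖ ^ α

/-- GR1: Hölder regularity on the circle bounds the resonant coefficients -/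
def S_GR1 : Prop := ∀ (w : ℕ → ℝ) (L : ℕ → ℂ → ℂ) (a b : ℕ → ℂ), WSys w L →
  (∀ k, ‖a k‖ ≤ w k) → (∀ k, ‖b k‖ ≤ w k) →
  (∀ k, ∀ v ∈ ball (0 : ℂ) 2, ‖L k v - (a k * v + b k * v ^ 2)‖ ≤ w k ^ 2) → ∀ α K : ℝ, 0 < α → α < 1 →
  (∀ z z' : ℂ, ‖z‖ = 1 → ‖z'‖ = 1 → ‖GG L z - GG L z'‖ ≤ K * ‖z - z'‖ ^ α) →
  ∃ K' : ℝ, 0 ≤ K' ∧ ∀ j : ℕ, ‖a (j + 1) / 2 + b j‖ ≤ K' * (2 : ℝ) ^ (-(α * j)) +
    K' * ∑ i ∈ Finset.range (j + 2), (1 / 2 : ℝ) ^ i * (w (j + 1 - i) * ∑' l, w (j + 1 - i + l))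

/-- SEQ: a discrete Gronwall inequality -/
def S_SEQ : Prop := ∀ (w : ℕ → ℝ) (α K κ : ℝ), (∀ j, 0 ≤ w j) → Summable w → 0 < α → α < 1 → 0 < κ → 0 ≤ K →
  (∀ j : ℕ, κ * w (j + 1) ≤ K * (2 : ℝ) ^ (-(α * j)) +
    K * ∑ i ∈ Finset.range (j + 2), (1 / 2 : ℝ) ^ i * (w (j + 1 - i) * ∑' l, w (j + 1 - i + l))) →
  ∃ K' : ℝ, ∀ j : ℕ, w j ≤ K' * (2 : ℝ) ^ (-(α * j))

/-- SUM: inverse squares of distinct large integers -/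
def S_SUM : Prop := ∀ (x : ℕ → ℤ) (M : ℝ), Function.Injective x → 1 ≤ M → (∀ j, M ≤ |(x j : ℝ)|) →
  Summable (fun j => 1 / (x j : ℝ) ^ 2) ∧ ∑' j, 1 / (x j : ℝ) ^ 2 ≤ 8 / M

end Pool.Agent.Helper25.RB
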