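import Pool.Agent.Helper25.RB.C1
import Pool.Agent.Helper25.RB.Stm4

/-!
# Summable perturbations: the formula for the derivative of the Riemann map on the closed disc
-/

set_option autoImplicit false

open Filter Topology Metric Set MeasureTheory

namespace Pool.Agent.Helper25.RB.FOR

open Pool.Agent.Helper25.JB Pool.Agent.Helper25.RB Pool.Agent.Helper25.RB.DER Pool.Agent.Helper25.RB.C1

variable {δ : ℝ} {L : ℕ → ℂ → ℂ}

/-- the derivative of the Riemann map, with its boundary values -/
theorem main (h : Sys δ L) {w : ℕ → ℝ} (hsum : Summable w)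
    (hw : ∀ k, ∀ v ∈ ball (0 : ℂ) 2, ‖L k v‖ ≤ w k) : ContinuousOn (GG L) (closedBall 0 1) ∧
    (∀ z ∈ closedBall (0 : ℂ) 1, ‖∑' i, ell L i (Phi L i (z ^ (2 ^ i)))‖ ≤ 3 * ∑' i, w i) ∧
    ∀ z ∈ ball (0 : ℂ) 1, HasDerivAt (Phi L 0) (GG L z) z := by
  obtain ⟨k, hk⟩ : ∃ k : ℕ, k = 0 := ⟨0, rfl⟩
  have hw0 : ∀ k, 0 ≤ w k := fun k => (norm_nonneg _).trans (hw k 0 (by simp))
  -- the terms of the series
  obtain ⟨t, ht⟩ : ∃ t : ℕ → ℂ → ℂ, t = fun i z => ell L (k + i) (Phi L (k + i) (z ^ (2 ^ i))) := ⟨_, rfl⟩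
  have hpow : ∀ (i : ℕ) (z : ℂ), z ∈ closedBall (0 : ℂ) 1 → z ^ (2 ^ i) ∈ closedBall (0 : ℂ) 1 := by
    intro i z hz
    rw [mem_closedBall, dist_zero_right] at hz ⊢
    exact pow_le hz i
  have htb : ∀ (i : ℕ) (z : ℂ), z ∈ closedBall (0 : ℂ) 1 → ‖t i z‖ ≤ 3 * w (k + i) := by
    intro i z hz
    have h1 := hpow i z hz
    rw [mem_closedBall, dist_zero_right] at h1
    rw [ht]
    exact ell_bd h hw (k + i) (Phi_le h (k + i) h1)
  have htc : ∀ i, ContinuousOn (t i) (closedBall 0 1) := by
    intro i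
    rw [ht]
    have h1 : ContinuousOn (Phi L (k + i)) (closedBall 0 1) := contOn (maps h) (le40 h) (k + i)
    have h2 : ContinuousOn (fun z : ℂ => Phi L (k + i) (z ^ (2 ^ i))) (closedBall 0 1) :=
      h1.comp (continuous_pow (2 ^ i)).continuousOn (hpow i)
    refine (ell_cont h (k + i)).comp h2 ?_
    intro z hz
    have h3 := hpow i z hz
    rw [mem_closedBall, dist_zero_right] at h3 ⊢
    exact Phi_le h (k + i) h3
  have hs : Summable fun i => 3 * w (k + i) := by
    refine Summable.mul_left 3 ?_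
    have := (summable_nat_add_iff k).2 hsum
    simpa only [add_comm k] using this
  have hF : ContinuousOn (fun z => ∑' i, t i z) (closedBall 0 1) :=
    continuousOn_tsum htc hs htb
  -- continuity of psi
  have hpsi : ContinuousOn (psi L k) (closedBall 0 1) := by
    intro z hz
    rw [ContinuousWithinAt, tendsto_iff_norm_sub_tendsto_zero]
    have h1 : Tendsto (fun w : ℂ => ‖w - z‖ ^ (1 - 20 * δ)) (𝓝[closedBall 0 1] z) (𝓝 0) := by
      have h2 : Continuous fun w : ℂ => ‖w - z‖ ^ (1 - 20 * δ) :=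
        (continuous_id.sub continuous_const).norm.rpow_const fun x => Or.inr (by linarith [h.small])
      have h3 := h2.tendsto z
      rw [sub_self, norm_zero, Real.zero_rpow (by linarith [h.small])] at h3
      exact h3.mono_left nhdsWithin_le_nhds
    refine squeeze_zero' (Eventually.of_forall fun _ => norm_nonneg _) ?_ h1
    filter_upwards [self_mem_nhdsWithin] with w hw
    exact (spec h k).2.2.2.2 w z (by simpa using hw) (by simpa using hz)
  have hGG : GG L = fun z => Complex.exp (psi L k z - ∑' i, t i z) := by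
    funext z
    rw [ht, hk]
    simp only [GG, zero_add]
  rw [hGG]
  refine ⟨(hpsi.sub hF).cexp, fun z hz => ?_, ?_⟩
  · have h1 : (fun i => ell L i (Phi L i (z ^ (2 ^ i)))) = fun i => t i z := by
      funext i
      rw [ht, hk]
      simp only [zero_add]
    rw [h1]
    have hs' : Summable fun i => 3 * w i := hsum.mul_left 3
    have h2 : ∀ i, ‖t i z‖ ≤ 3 * w i := fun i => by
      have := htb i z hz
      rwa [hk, zero_add] at this
    refine (tsum_of_norm_bounded hs'.hasSum h2).trans (le_of_eq ?_)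
    rw [tsum_mul_left]
  intro z hz
  rw [mem_ball, dist_zero_right] at hz
  rw [← hk]
  refine (Phi_hasDeriv h k hz).congr_deriv ?_
  show Complex.exp (psi L k z) * g L k z = Complex.exp (psi L k z - ∑' i, t i z)
  rw [Complex.exp_sub, div_eq_mul_inv]
  congr 1
  refine eq_inv_of_mul_eq_one_left ?_
  -- the limit of `g_iter`
  have hts : Summable fun i => t i z :=
    Summable.of_norm_bounded hs fun i => htb i z (by rw [mem_closedBall, dist_zero_right]; exact hz.le)
  have h1 : Tendsto (fun m => g L k z * Complex.exp (T L k m z)) atTop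
      (𝓝 (g L k z * Complex.exp (∑' i, t i z))) := by
    have h2 := hts.hasSum.tendsto_sum_nat
    have h3 : (fun m => ∑ i ∈ Finset.range m, t i z) = fun m => T L k m z := by
      funext m
      rw [T, ht]
    rw [h3] at h2
    exact h2.cexp.const_mul _
  have h2 : Tendsto (fun m => g L (k + m) (z ^ (2 ^ m))) atTop (𝓝 1) := by
    rw [tendsto_iff_norm_sub_tendsto_zero]
    have h3 : Tendsto (fun m : ℕ => 4 * δ * ‖z‖ ^ (2 ^ m)) atTop (𝓝 0) := by
      have h4 : Tendsto (fun n : ℕ => ‖z‖ ^ n) atTop (𝓝 0) :=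
        tendsto_pow_atTop_nhds_zero_of_lt_one (norm_nonneg _) hz
      have h5 : Tendsto (fun m : ℕ => 2 ^ m) atTop atTop :=
        tendsto_pow_atTop_atTop_of_one_lt (by norm_num)
      have h6 := (h4.comp h5).const_mul (4 * δ)
      simpa using h6
    refine squeeze_zero' (Eventually.of_forall fun _ => norm_nonneg _) ?_ h3
    filter_upwards [small_pow hz] with m hm
    have := g_half h (k + m) hm
    rwa [norm_pow] at this
  simp only [g_iter h k _ hz] at h1
  exact tendsto_nhds_unique h1 h2

end Pool.Agent.Helper25.RB.FOR
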