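import Pool.Agent.Helper25.RB.Core
import Pool.Agent.Helper25.RB.C1

/-!
# The boundaries of the wandering components are smooth curves
-/

set_option autoImplicit false

open Filter Topology Metric Set MeasureTheory

namespace Pool.Agent.Helper25.RB

open Pool.Agent.H384R2.Fatou Pool.Agent.H723R2.LSW Pool.Agent.Y282.WD Pool.Agent.Helper25.JB

/-- regular `C¹` Jordan curves -/
def SmoothCurve (J : Set ℂ) : Prop :=
  ∃ γ : ℝ → ℂ, ContDiff ℝ 1 γ ∧ Function.Periodic γ (2 * Real.pi) ∧ (∀ θ, deriv γ θ ≠ 0) ∧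
    InjOn γ (Ico 0 (2 * Real.pi)) ∧ range γ = J

/-- differentiation along the circle -/
theorem circle_deriv {Ψ G : ℂ → ℂ} (hΨ : ContinuousOn Ψ (closedBall 0 1))
    (hG : ContinuousOn G (closedBall 0 1)) (hd : ∀ z ∈ ball (0 : ℂ) 1, HasDerivAt Ψ (G z) z) (θ : ℝ) :
    HasDerivAt (fun t : ℝ => Ψ (Complex.exp (t * Complex.I)))
      (G (Complex.exp (θ * Complex.I)) * (Complex.exp (θ * Complex.I) * Complex.I)) θ := by
  set r : ℕ → ℝ := fun n => 1 - 1 / ((n : ℝ) + 1) with hr
  have hr0 : ∀ n, 0 ≤ r n := by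
    intro n
    have h1 : 1 / ((n : ℝ) + 1) ≤ 1 := by
      rw [div_le_one (by positivity)]
      linarith [Nat.cast_nonneg (α := ℝ) n]
    simp only [hr]; linarith
  have hr1 : ∀ n, r n < 1 := by
    intro n
    have h1 : 0 < 1 / ((n : ℝ) + 1) := by positivity
    simp only [hr]; linarith
  have hrt : Tendsto r atTop (𝓝 1) := by
    have h := (tendsto_one_div_add_atTop_nhds_zero_nat (𝕜 := ℝ)).const_sub 1
    rw [sub_zero] at h
    exact h
  have hn : ∀ (n : ℕ) (t : ℝ), ‖(r n : ℂ) * Complex.exp (t * Complex.I)‖ = r n := by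
    intro n t
    rw [norm_mul, Complex.norm_exp_ofReal_mul_I, mul_one, Complex.norm_real, Real.norm_of_nonneg (hr0 n)]
  have hmb : ∀ (n : ℕ) (t : ℝ), (r n : ℂ) * Complex.exp (t * Complex.I) ∈ ball (0 : ℂ) 1 := by
    intro n t
    rw [mem_ball, dist_zero_right, hn]; exact hr1 n
  have hmc : ∀ t : ℝ, Complex.exp (t * Complex.I) ∈ closedBall (0 : ℂ) 1 := by
    intro t
    rw [mem_closedBall, dist_zero_right, Complex.norm_exp_ofReal_mul_I]
  have hdist : ∀ (n : ℕ) (t : ℝ), dist ((r n : ℂ) * Complex.exp (t * Complex.I)) (Complex.exp (t * Complex.I)) =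
      1 - r n := by
    intro n t
    have e : (r n : ℂ) * Complex.exp (t * Complex.I) - Complex.exp (t * Complex.I) =
        ((r n - 1 : ℝ) : ℂ) * Complex.exp (t * Complex.I) := by push_cast; ring
    rw [dist_eq_norm, e, norm_mul, Complex.norm_exp_ofReal_mul_I, mul_one, Complex.norm_real,
      Real.norm_eq_abs, abs_of_neg (by linarith [hr1 n])]
    ring
  obtain ⟨B, hB⟩ := (isCompact_closedBall (0 : ℂ) 1).exists_bound_of_continuousOn hG
  have hB0 : 0 ≤ B := (norm_nonneg _).trans (hB 0 (by simp))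
  refine hasDerivAt_of_tendstoUniformly (l := atTop) (f := fun (n : ℕ) (t : ℝ) => Ψ (r n * Complex.exp (t * Complex.I)))
    (f' := fun (n : ℕ) (t : ℝ) => G (r n * Complex.exp (t * Complex.I)) * (r n * (Complex.exp (t * Complex.I) * Complex.I)))
    (g' := fun t : ℝ => G (Complex.exp (t * Complex.I)) * (Complex.exp (t * Complex.I) * Complex.I))
    ?_ (Eventually.of_forall fun n t => ?_) (fun t => ?_) θ
  · rw [Metric.tendstoUniformly_iff]
    intro ε hε
    have huc := (isCompact_closedBall (0 : ℂ) 1).uniformContinuousOn_of_continuous hG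
    rw [Metric.uniformContinuousOn_iff] at huc
    obtain ⟨η, hη, hηG⟩ := huc (ε / 2) (by linarith)
    have h1 : ∀ᶠ n in atTop, 1 - r n < min η (ε / (2 * (B + 1))) := by
      have h2 := hrt.const_sub 1
      rw [sub_self] at h2
      exact h2.eventually (gt_mem_nhds (by positivity))
    filter_upwards [h1] with n hn1 t
    rw [lt_min_iff] at hn1
    have h2 := hηG _ (ball_subset_closedBall (hmb n t)) _ (hmc t) (by rw [hdist]; exact hn1.1)
    rw [dist_eq_norm] at h2
    have h3 := hB _ (ball_subset_closedBall (hmb n t))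
    have e : G (Complex.exp (t * Complex.I)) * (Complex.exp (t * Complex.I) * Complex.I) -
        G (r n * Complex.exp (t * Complex.I)) * (r n * (Complex.exp (t * Complex.I) * Complex.I)) =
        (-(G (r n * Complex.exp (t * Complex.I)) - G (Complex.exp (t * Complex.I))) +
          ((1 - r n : ℝ) : ℂ) * G (r n * Complex.exp (t * Complex.I))) *
          (Complex.exp (t * Complex.I) * Complex.I) := by push_cast; ring
    rw [dist_eq_norm, e, norm_mul, norm_mul, Complex.norm_exp_ofReal_mul_I, Complex.norm_I, mul_one, mul_one]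
    refine (norm_add_le _ _).trans_lt ?_
    rw [norm_neg, norm_mul, Complex.norm_real, Real.norm_of_nonneg (by linarith [hr1 n])]
    have h4 : (1 - r n) * ‖G (r n * Complex.exp (t * Complex.I))‖ ≤ ε / 2 := by
      calc (1 - r n) * ‖G (r n * Complex.exp (t * Complex.I))‖ ≤ (ε / (2 * (B + 1))) * (B + 1) := by
            have := hr1 n
            gcongr
            · exact hn1.2.le
            · linarith
        _ = ε / 2 := by field_simp
    linarith
  · have h1 : HasDerivAt (fun t : ℝ => (r n : ℂ) * Complex.exp (t * Complex.I))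
        (r n * (Complex.exp (t * Complex.I) * Complex.I)) t := by
      have h2 : HasDerivAt (fun t : ℝ => (t : ℂ) * Complex.I) Complex.I t := by
        have := (Complex.ofRealCLM.hasDerivAt (x := t)).mul_const Complex.I
        simpa using this
      exact h2.cexp.const_mul _
    exact (hd _ (hmb n t)).comp t h1
  · have h1 : Tendsto (fun n : ℕ => (r n : ℂ) * Complex.exp (t * Complex.I)) atTop
        (𝓝[closedBall 0 1] (Complex.exp (t * Complex.I))) := by
      rw [tendsto_nhdsWithin_iff]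
      refine ⟨?_, Eventually.of_forall fun n => ball_subset_closedBall (hmb n t)⟩
      have h2 : Tendsto (fun n : ℕ => (r n : ℂ)) atTop (𝓝 ((1 : ℝ) : ℂ)) :=
        (Complex.continuous_ofReal.tendsto 1).comp hrt
      have h3 := h2.mul_const (Complex.exp (t * Complex.I))
      simpa using h3
    exact (hΨ _ (hmc t)).tendsto.comp h1

theorem smooth_curve {Ψ G : ℂ → ℂ} (hΨ : ContinuousOn Ψ (closedBall 0 1)) (hi : InjOn Ψ (closedBall 0 1))
    (hG : ContinuousOn G (closedBall 0 1)) (hG0 : ∀ z ∈ closedBall (0 : ℂ) 1, G z ≠ 0)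
    (hd : ∀ z ∈ ball (0 : ℂ) 1, HasDerivAt Ψ (G z) z) : SmoothCurve (Ψ '' sphere 0 1) := by
  have hmc : ∀ t : ℝ, Complex.exp (t * Complex.I) ∈ closedBall (0 : ℂ) 1 := by
    intro t
    rw [mem_closedBall, dist_zero_right, Complex.norm_exp_ofReal_mul_I]
  have h1 := circle_deriv hΨ hG hd
  have hec : Continuous fun t : ℝ => Complex.exp (t * Complex.I) := by fun_prop
  refine ⟨fun t : ℝ => Ψ (Complex.exp (t * Complex.I)), ?_, ?_, ?_, ?_, ?_⟩
  · rw [contDiff_one_iff_deriv]
    refine ⟨fun t => (h1 t).differentiableAt, ?_⟩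
    have h2 : deriv (fun t : ℝ => Ψ (Complex.exp (t * Complex.I))) = fun θ : ℝ =>
        G (Complex.exp (θ * Complex.I)) * (Complex.exp (θ * Complex.I) * Complex.I) := by
      funext t; exact (h1 t).deriv
    rw [h2]
    exact (hG.comp_continuous hec hmc).mul (hec.mul continuous_const)
  · intro t
    show Ψ (Complex.exp (((t + 2 * Real.pi : ℝ) : ℂ) * Complex.I)) = Ψ (Complex.exp (t * Complex.I))
    congr 1
    push_cast
    rw [add_mul, Complex.exp_add, Complex.exp_two_pi_mul_I, mul_one]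
  · intro θ
    rw [(h1 θ).deriv]
    exact mul_ne_zero (hG0 _ (hmc θ)) (mul_ne_zero (Complex.exp_ne_zero _) Complex.I_ne_zero)
  · intro s hs t ht h
    have h2 := hi (hmc s) (hmc t) h
    rw [Complex.exp_eq_exp_iff_exists_int] at h2
    obtain ⟨m, hm⟩ := h2
    have h3 : (s : ℂ) = t + m * (2 * Real.pi) := by
      have h4 : ((s : ℂ) - (t + m * (2 * Real.pi))) * Complex.I = 0 := by linear_combination hm
      rcases mul_eq_zero.1 h4 with h5 | h5
      · linear_combination h5
      · exact absurd h5 Complex.I_ne_zero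
    have h4 : s = t + m * (2 * Real.pi) := by exact_mod_cast h3
    have hpp := Real.pi_pos
    have h5 : m = 0 := by
      have h6 : (m : ℝ) < 1 := by
        by_contra hcon
        push Not at hcon
        have h7 := hs.2
        have h8 := ht.1
        nlinarith
      have h7 : (-1 : ℝ) < m := by
        by_contra hcon
        push Not at hcon
        have h7 := hs.1
        have h8 := ht.2
        nlinarith
      have h8 : m < 1 := by exact_mod_cast h6
      have h9 : -1 < m := by exact_mod_cast h7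
      omega
    rw [h4, h5]; simp
  · rw [← Complex.range_exp_mul_I, ← range_comp]
    rfl

theorem SmoothCurve.length {J : Set ℂ} (h : SmoothCurve J) : μH[1] J < ⊤ := by
  obtain ⟨γ, hγ, hper, -, -, rfl⟩ := h
  have h1 : range γ = γ '' Icc 0 (0 + 2 * Real.pi) := (hper.image_Icc (by positivity) 0).symm
  rw [h1]
  obtain ⟨B, hB⟩ := (isCompact_Icc (a := (0 : ℝ)) (b := 0 + 2 * Real.pi)).exists_bound_of_continuousOn
    (hγ.continuous_deriv le_rfl).continuousOn
  have h2 : LipschitzOnWith B.toNNReal γ (Icc 0 (0 + 2 * Real.pi)) := by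
    apply (convex_Icc _ _).lipschitzOnWith_of_nnnorm_deriv_le
    · intro t _; exact (hγ.differentiable one_ne_zero) t
    · intro t ht
      rw [← NNReal.coe_le_coe, coe_nnnorm]
      exact (hB t ht).trans (Real.le_coe_toNNReal B)
  have h3 := h2.hausdorffMeasure_image_le (d := 1) zero_le_one
  refine lt_of_le_of_lt h3 ?_
  rw [hausdorffMeasure_real]
  have h4 : volume (Icc (0 : ℝ) (0 + 2 * Real.pi)) < ⊤ := measure_Icc_lt_top
  exact ENNReal.mul_lt_top (by simp) h4

/-- the wandering case -/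
theorem smooth : ∃ C : ℝ, 1 ≤ C ∧ ∀ n : ℤ, (∀ j : ℕ, C ≤ |((T^[j] n : ℤ) : ℝ)|) → Wild n →
    ∃ Ψ G : ℂ → ℂ, ContinuousOn Ψ (closedBall 0 1) ∧ InjOn Ψ (closedBall 0 1) ∧
      Ψ '' ball 0 1 = FatouComponent f₀ (n : ℂ) ∧ Ψ '' closedBall 0 1 = closure (FatouComponent f₀ (n : ℂ)) ∧
      Ψ '' sphere 0 1 = frontier (FatouComponent f₀ (n : ℂ)) ∧ Ψ 0 = n ∧
      ContinuousOn G (closedBall 0 1) ∧ (∀ z ∈ closedBall (0 : ℂ) 1, G z ≠ 0) ∧
      ∀ z ∈ ball (0 : ℂ) 1, HasDerivAt Ψ (G z) z := by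
  obtain ⟨C0, hC0, hcore⟩ := core
  refine ⟨C0, hC0, fun n hn hw => ?_⟩
  obtain ⟨τ, L, a, b, hLd, hL0, hsm, hLb, ha, hb, hL2, hmain, hτ, hΨ⟩ := hcore n hn
  have hS : Sys (1 / 100000) L :=
    ⟨by norm_num, le_rfl, hLd, fun k v hv => (hLb k v hv).trans (hsm k), hL0⟩
  have hbt : ∀ k : ℕ, |((T^[k] n : ℤ) : ℝ)| ≤ bt (T^[k] n) := fun k =>
    bt_ge (hC0.trans (hn k)) le_rfl
  have hsum : Summable fun k : ℕ => C0 / bt (T^[k] n) ^ 2 := by
    have h1 : Summable fun m : ℤ => 1 / (m : ℝ) ^ 2 := Real.summable_one_div_int_pow.2 (by norm_num)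
    have hinj : Function.Injective fun k : ℕ => T^[k] n := fun i j h => hw i j h
    have h2 := (h1.comp_injective hinj).mul_left C0
    refine Summable.of_nonneg_of_le (fun k => by positivity) (fun k => ?_) h2
    have h3 : 0 < |((T^[k] n : ℤ) : ℝ)| := by linarith [hn k]
    simp only [Function.comp_apply]
    rw [← mul_one_div, ← sq_abs ((T^[k] n : ℤ) : ℝ)]
    have h4 := hbt k
    gcongr
  obtain ⟨G, hGc, hG0, hGd⟩ := C1.main _ L _ hS hsum hLb 0
  obtain ⟨hc0, hi0, -, -, h3, h4, h5⟩ := hΨ _ rfl 0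
  have hρ : 0 < |τ 0| := by
    rw [hτ]
    exact (Pool.Agent.Y151.WD.t_TAIL.2 _).1
  have hτ0 : (τ 0 : ℂ) ≠ 0 := by
    intro h
    have : τ 0 = 0 := by exact_mod_cast h
    rw [this, abs_zero] at hρ
    exact lt_irrefl _ hρ
  refine ⟨fun z => ((T^[0] n : ℤ) : ℂ) + τ 0 * Phi L 0 z, fun z => τ 0 * G z, hc0, hi0, h3, h4, h5, ?_,
    continuousOn_const.mul hGc, fun z hz => mul_ne_zero hτ0 (hG0 z hz),
    fun z hz => ((hGd z hz).const_mul _).const_add _⟩
  show ((T^[0] n : ℤ) : ℂ) + τ 0 * Phi L 0 0 = n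
  simp [Phi]

end Pool.Agent.Helper25.RB
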