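import Pool.Agent.Helper25.RB.Stm

/-!
# MAX: from the chord sums on the circle to the integral means of the derivative
-/

set_option autoImplicit false

open Filter Topology Metric Set MeasureTheory

namespace Pool.Agent.Helper25.RB.MAX

/-- the chord sums at interior points, by the maximum principle -/
lemma chords {Ψ : ℂ → ℂ} {A : ℝ} (hc : ContinuousOn Ψ (closedBall 0 1))
    (hd : DifferentiableOn ℂ Ψ (ball 0 1)) (N : ℕ) (u v : ℕ → ℂ) (hu : ∀ j, ‖u j‖ = 1)
    (hv : ∀ j, ‖v j‖ = 1)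
    (h : ∀ ζ : ℂ, ‖ζ‖ = 1 → ∑ j ∈ Finset.range N, ‖Ψ (ζ * u j) - Ψ (ζ * v j)‖ ≤ A)
    (z : ℂ) (hz : ‖z‖ < 1) :
    ∑ j ∈ Finset.range N, ‖Ψ (z * u j) - Ψ (z * v j)‖ ≤ A := by
  have hD : ∀ w : ℂ, ‖w‖ = 1 → DiffContOnCl ℂ (fun z => Ψ (z * w)) (ball 0 1) := by
    intro w hw
    have hm : ∀ z, ‖z * w‖ = ‖z‖ := fun z => by rw [norm_mul, hw, mul_one]
    refine ⟨?_, ?_⟩
    · refine hd.comp (by fun_prop) fun z hz => ?_
      rw [mem_ball_zero_iff] at hz ⊢
      rw [hm]
      exact hz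
    · rw [closure_ball (0 : ℂ) one_ne_zero]
      refine hc.comp (by fun_prop) fun z hz => ?_
      rw [mem_closedBall_zero_iff] at hz ⊢
      rw [hm]
      exact hz
  have hex : ∀ a : ℂ, ∃ c : ℂ, ‖c‖ ≤ 1 ∧ c * a = ‖a‖ := by
    intro a
    by_cases ha : a = 0
    · exact ⟨0, by simp, by simp [ha]⟩
    · refine ⟨(‖a‖ : ℂ) / a, ?_, by rw [div_mul_cancel₀ _ ha]⟩
      rw [norm_div, Complex.norm_real, norm_norm, div_self (norm_ne_zero_iff.2 ha)]
  choose c hc1 hc2 using fun j => hex (Ψ (z * u j) - Ψ (z * v j))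
  have hG : DiffContOnCl ℂ
      (fun z => ∑ j ∈ Finset.range N, c j • (Ψ (z * u j) - Ψ (z * v j))) (ball 0 1) := by
    refine ⟨?_, ?_⟩
    · refine DifferentiableOn.fun_sum fun j _ => ?_
      exact (((hD _ (hu j)).sub (hD _ (hv j))).const_smul (c j)).differentiableOn
    · refine continuousOn_finsetSum _ fun j _ => ?_
      exact (((hD _ (hu j)).sub (hD _ (hv j))).const_smul (c j)).continuousOn
  have h1 := Complex.norm_le_of_forall_mem_frontier_norm_le (C := A) isBounded_ball hG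
    (fun ζ hζ => by
      rw [frontier_ball (0 : ℂ) one_ne_zero, mem_sphere_zero_iff_norm] at hζ
      refine (norm_sum_le _ _).trans (le_trans ?_ (h ζ hζ))
      refine Finset.sum_le_sum fun j _ => ?_
      rw [norm_smul]
      exact mul_le_of_le_one_left (norm_nonneg _) (hc1 j))
    (subset_closure (mem_ball_zero_iff.2 hz))
  have h2 : ∑ j ∈ Finset.range N, c j • (Ψ (z * u j) - Ψ (z * v j)) =
      ((∑ j ∈ Finset.range N, ‖Ψ (z * u j) - Ψ (z * v j)‖ : ℝ) : ℂ) := by
    rw [Complex.ofReal_sum]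
    exact Finset.sum_congr rfl fun j _ => hc2 j
  have h3 : ‖∑ j ∈ Finset.range N, c j • (Ψ (z * u j) - Ψ (z * v j))‖ ≤ A := h1
  rw [h2, Complex.norm_real, Real.norm_of_nonneg (Finset.sum_nonneg fun _ _ => norm_nonneg _)] at h3
  exact h3

/-- the length of a closed `C^1` curve is at most a bound for the inscribed polygons -/
lemma length {γ γ' : ℝ → ℂ} {A : ℝ} (hγ : ∀ θ, HasDerivAt γ (γ' θ) θ) (hc : Continuous γ')
    (h : ∀ N : ℕ, 0 < N → ∑ j ∈ Finset.range N,
      ‖γ (2 * Real.pi * ((j : ℝ) + 1) / N) - γ (2 * Real.pi * (j : ℝ) / N)‖ ≤ A) :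
    ∫ θ in (0 : ℝ)..(2 * Real.pi), ‖γ' θ‖ ≤ A := by
  refine le_of_forall_pos_le_add fun ε hε => ?_
  have hpi := Real.pi_pos
  set η : ℝ := ε / (4 * Real.pi) with hη
  have hη0 : 0 < η := by positivity
  have hU : UniformContinuousOn γ' (Icc 0 (2 * Real.pi)) :=
    isCompact_Icc.uniformContinuousOn_of_continuous hc.continuousOn
  obtain ⟨δ, hδ, hU⟩ := Metric.uniformContinuousOn_iff.1 hU η hη0
  obtain ⟨N, hN⟩ := exists_nat_gt (2 * Real.pi / δ)
  have hN0 : (0 : ℝ) < N := lt_trans (by positivity) hN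
  have hN0' : 0 < N := by exact_mod_cast hN0
  have hstep : 2 * Real.pi / N < δ := by
    rw [div_lt_iff₀ hN0]
    rw [div_lt_iff₀ hδ] at hN
    linarith
  let t : ℕ → ℝ := fun j => 2 * Real.pi * (j : ℝ) / N
  have ht1 : ∀ j, t (j + 1) - t j = 2 * Real.pi / N := fun j => by
    simp only [t]
    push_cast
    ring
  have htm : ∀ j, t j ≤ t (j + 1) := fun j => by
    have := ht1 j
    have h2 : 0 < 2 * Real.pi / N := by positivity
    linarith
  have ht0 : t 0 = 0 := by simp [t]
  have htN : t N = 2 * Real.pi := by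
    simp only [t]
    field_simp
  have hint : ∀ a b : ℝ, IntervalIntegrable (fun θ => ‖γ' θ‖) volume a b := fun a b =>
    hc.norm.intervalIntegrable _ _
  have hsum := intervalIntegral.sum_integral_adjacent_intervals (f := fun θ => ‖γ' θ‖) (a := t)
    (n := N) (μ := volume) fun k _ => hint _ _
  rw [ht0, htN] at hsum
  rw [← hsum]
  have key : ∀ j ∈ Finset.range N, ∫ θ in (t j)..(t (j + 1)), ‖γ' θ‖ ≤
      ‖γ (2 * Real.pi * ((j : ℝ) + 1) / N) - γ (2 * Real.pi * (j : ℝ) / N)‖ +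
        2 * (2 * Real.pi / N) * η := by
    intro j hj
    rw [Finset.mem_range] at hj
    have hj0 : 0 ≤ t j := by positivity
    have hj1 : t (j + 1) ≤ 2 * Real.pi := by
      rw [← htN]
      simp only [t]
      have : ((j + 1 : ℕ) : ℝ) ≤ N := by exact_mod_cast hj
      gcongr
    have hnear : ∀ θ ∈ Icc (t j) (t (j + 1)), ‖γ' θ - γ' (t j)‖ ≤ η := by
      intro θ hθ
      have h1 := hU θ ⟨hj0.trans hθ.1, hθ.2.trans hj1⟩ (t j) ⟨hj0, (htm j).trans hj1⟩ (by
        rw [Real.dist_eq, abs_of_nonneg (by linarith [hθ.1])]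
        have := ht1 j
        linarith [hθ.2])
      rw [dist_eq_norm] at h1
      exact h1.le
    have h1 : ∫ θ in (t j)..(t (j + 1)), ‖γ' θ‖ ≤
        ∫ _ in (t j)..(t (j + 1)), (‖γ' (t j)‖ + η) := by
      refine intervalIntegral.integral_mono_on (htm j) (hint _ _)
        intervalIntegrable_const fun θ hθ => ?_
      have h2 := norm_add_le (γ' θ - γ' (t j)) (γ' (t j))
      rw [sub_add_cancel] at h2
      linarith [hnear θ hθ]
    rw [intervalIntegral.integral_const, ht1, smul_eq_mul] at h1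
    have h3 : ∫ θ in (t j)..(t (j + 1)), γ' θ = γ (t (j + 1)) - γ (t j) :=
      intervalIntegral.integral_eq_sub_of_hasDerivAt (fun θ _ => hγ θ)
        (hc.intervalIntegrable _ _)
    have h4 : ∫ θ in (t j)..(t (j + 1)), (γ' θ - γ' (t j)) =
        (γ (t (j + 1)) - γ (t j)) - ((2 * Real.pi / N : ℝ) : ℂ) * γ' (t j) := by
      rw [intervalIntegral.integral_sub (hc.intervalIntegrable _ _) intervalIntegrable_const, h3,
        intervalIntegral.integral_const, ht1, Complex.real_smul]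
    have h5 : ‖∫ θ in (t j)..(t (j + 1)), (γ' θ - γ' (t j))‖ ≤ η * |t (j + 1) - t j| := by
      refine intervalIntegral.norm_integral_le_of_norm_le_const fun θ hθ => ?_
      rw [uIoc_of_le (htm j)] at hθ
      exact hnear θ ⟨hθ.1.le, hθ.2⟩
    have h2 : (0 : ℝ) < 2 * Real.pi / N := by positivity
    rw [h4, ht1, abs_of_pos h2] at h5
    have h6 : ‖((2 * Real.pi / N : ℝ) : ℂ) * γ' (t j)‖ ≤
        ‖γ (t (j + 1)) - γ (t j)‖ + η * (2 * Real.pi / N) := by
      have h7 := norm_sub_le (γ (t (j + 1)) - γ (t j))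
        ((γ (t (j + 1)) - γ (t j)) - ((2 * Real.pi / N : ℝ) : ℂ) * γ' (t j))
      rw [sub_sub_cancel] at h7
      linarith
    rw [norm_mul, Complex.norm_real, Real.norm_of_nonneg h2.le] at h6
    have h8 : t (j + 1) = 2 * Real.pi * ((j : ℝ) + 1) / N := by
      simp only [t]
      push_cast
      ring
    rw [h8] at h6 h1 ⊢
    have h9 : t j = 2 * Real.pi * (j : ℝ) / N := rfl
    rw [h9] at h6 h1 ⊢
    nlinarith [h6, h1]
  refine (Finset.sum_le_sum key).trans ?_
  rw [Finset.sum_add_distrib, Finset.sum_const, Finset.card_range, nsmul_eq_mul]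
  have e1 : (N : ℝ) * (2 * (2 * Real.pi / N) * η) = ε := by
    rw [hη]
    field_simp
    ring
  rw [e1]
  linarith [h N hN0']

theorem main : S_MAX := by
  intro Ψ A hc hd h r hr0 hr1
  have hball : ∀ θ : ℝ, (r : ℂ) * Complex.exp (θ * Complex.I) ∈ ball (0 : ℂ) 1 := by
    intro θ
    rw [mem_ball_zero_iff, norm_mul, Complex.norm_exp_ofReal_mul_I, mul_one, Complex.norm_real,
      Real.norm_of_nonneg hr0.le]
    exact hr1
  have hγ : ∀ θ : ℝ, HasDerivAt (fun θ : ℝ => Ψ (r * Complex.exp (θ * Complex.I)))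
      (deriv Ψ (r * Complex.exp (θ * Complex.I)) *
        (r * (Complex.exp (θ * Complex.I) * Complex.I))) θ := by
    intro θ
    have h1 : HasDerivAt Ψ (deriv Ψ (r * Complex.exp (θ * Complex.I)))
        (r * Complex.exp (θ * Complex.I)) :=
      (hd.differentiableAt (isOpen_ball.mem_nhds (hball θ))).hasDerivAt
    have h2 : HasDerivAt (fun θ : ℝ => (r : ℂ) * Complex.exp (θ * Complex.I))
        (r * (Complex.exp (θ * Complex.I) * Complex.I)) θ := by
      have h3 : HasDerivAt (fun θ : ℝ => (θ : ℂ) * Complex.I) (1 * Complex.I) θ :=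
        (Complex.ofRealCLM.hasDerivAt (x := θ)).mul_const Complex.I
      rw [one_mul] at h3
      exact h3.cexp.const_mul (r : ℂ)
    exact h1.comp θ h2
  have hcont : Continuous fun θ : ℝ => deriv Ψ (r * Complex.exp (θ * Complex.I)) *
      (r * (Complex.exp (θ * Complex.I) * Complex.I)) := by
    have h1 : ContinuousOn (deriv Ψ) (ball 0 1) := (hd.deriv isOpen_ball).continuousOn
    have h2 : Continuous fun θ : ℝ => (r : ℂ) * Complex.exp (θ * Complex.I) := by fun_prop
    exact (h1.comp_continuous h2 hball).mul (by fun_prop)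
  have hlen := length (A := A) hγ hcont fun N hN => by
    have h1 := chords hc hd N
      (fun j => Complex.exp (2 * Real.pi * ((j : ℝ) + 1) / N * Complex.I))
      (fun j => Complex.exp (2 * Real.pi * (j : ℝ) / N * Complex.I))
      (fun j => by
        have : (2 * (Real.pi : ℂ) * (((j : ℝ) : ℂ) + 1) / (N : ℂ)) =
          ((2 * Real.pi * ((j : ℝ) + 1) / N : ℝ) : ℂ) := by push_cast; ring
        rw [this, Complex.norm_exp_ofReal_mul_I])
      (fun j => by
        have : (2 * (Real.pi : ℂ) * ((j : ℝ) : ℂ) / (N : ℂ)) =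
          ((2 * Real.pi * (j : ℝ) / N : ℝ) : ℂ) := by push_cast; ring
        rw [this, Complex.norm_exp_ofReal_mul_I])
      (fun ζ hζ => h N ζ hN hζ) r (by
        rw [Complex.norm_real, Real.norm_of_nonneg hr0.le]
        exact hr1)
    refine le_trans (le_of_eq ?_) h1
    refine Finset.sum_congr rfl fun j _ => ?_
    push_cast
    rfl
  refine le_trans (le_of_eq ?_) hlen
  refine intervalIntegral.integral_congr fun θ _ => ?_
  show ‖deriv Ψ (r * Complex.exp (θ * Complex.I))‖ * r = ‖deriv Ψ (r * Complex.exp (θ * Complex.I)) *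
      (r * (Complex.exp (θ * Complex.I) * Complex.I))‖
  rw [norm_mul, norm_mul, norm_mul, Complex.norm_exp_ofReal_mul_I, Complex.norm_I, mul_one, mul_one,
    Complex.norm_real, Real.norm_of_nonneg hr0.le]

end Pool.Agent.Helper25.RB.MAX
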