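import Pool.Agent.Helper25.RB.Stm2

/-!
# Hölder estimates of first and second order of the factors
-/

set_option autoImplicit false
set_option linter.unusedVariables false

open Filter Topology Metric Set MeasureTheory

namespace Pool.Agent.Helper25.RB.V

open Pool.Agent.Helper25.JB

/-- Cauchy estimates -/
theorem lipG {f : ℂ → ℂ} {R ρ s M : ℝ} (hf : DifferentiableOn ℂ f (ball 0 R))
    (hM : ∀ v ∈ ball (0 : ℂ) R, ‖f v‖ ≤ M) (hs : 0 < s) (hR : ρ + s < R) :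
    (∀ x : ℂ, ‖x‖ ≤ ρ → ‖deriv f x‖ ≤ M / s) ∧
    ∀ v w : ℂ, ‖v‖ ≤ ρ → ‖w‖ ≤ ρ → ‖f v - f w‖ ≤ M / s * ‖v - w‖ := by
  have h1 : ∀ x : ℂ, ‖x‖ ≤ ρ → ‖deriv f x‖ ≤ M / s := by
    intro x hx
    have hsub : closedBall x s ⊆ ball (0 : ℂ) R := by
      intro y hy
      rw [mem_closedBall, dist_eq_norm] at hy
      rw [mem_ball, dist_zero_right]
      have : ‖y‖ ≤ ‖y - x‖ + ‖x‖ := by
        have := norm_add_le (y - x) x
        simpa using this
      linarith
    refine Complex.norm_deriv_le_of_forall_mem_sphere_norm_le hs ?_ ?_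
    · exact (hf.mono hsub).diffContOnCl_ball subset_rfl
    · intro y hy
      exact hM y (hsub (sphere_subset_closedBall hy))
  refine ⟨h1, fun v w hv hw => ?_⟩
  refine (convex_closedBall (0 : ℂ) ρ).norm_image_sub_le_of_norm_deriv_le
    (f := f) (C := M / s) (x := w) (y := v) (fun x hx => ?_) (fun x hx => ?_)
    (by simpa using hw) (by simpa using hv)
  · rw [mem_closedBall, dist_zero_right] at hx
    refine (hf x ?_).differentiableAt (isOpen_ball.mem_nhds ?_) <;>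
    · rw [mem_ball, dist_zero_right]; linarith
  · rw [mem_closedBall, dist_zero_right] at hx
    exact h1 x hx

/-- `v f'(v) / 2` -/
theorem half {f : ℂ → ℂ} {M : ℝ} (hf : DifferentiableOn ℂ f (ball 0 2))
    (hM : ∀ v ∈ ball (0 : ℂ) 2, ‖f v‖ ≤ M) (h0 : 0 ≤ M) :
    (∀ v : ℂ, ‖v‖ ≤ 5 / 4 → ‖v * deriv f v / 2‖ ≤ 9 / 4 * M) ∧
    ∀ v w : ℂ, ‖v‖ ≤ 5 / 4 → ‖w‖ ≤ 5 / 4 →
      ‖v * deriv f v / 2 - w * deriv f w / 2‖ ≤ 12 * M * ‖v - w‖ := by
  have h1 := (lipG hf hM (ρ := 3 / 2) (s := 1 / 3) (by norm_num) (by norm_num)).1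
  have h2 : ∀ v ∈ ball (0 : ℂ) (3 / 2), ‖v * deriv f v / 2‖ ≤ 9 / 4 * M := by
    intro v hv
    rw [mem_ball, dist_zero_right] at hv
    rw [norm_div, norm_mul, Complex.norm_ofNat]
    have h3 := h1 v hv.le
    have h4 : ‖v‖ * ‖deriv f v‖ ≤ 3 / 2 * (M / (1 / 3)) := by gcongr
    linarith
  have hd : DifferentiableOn ℂ (fun v => v * deriv f v / 2) (ball 0 (3 / 2)) := by
    have h3 : DifferentiableOn ℂ (deriv f) (ball 0 2) := hf.deriv isOpen_ball
    exact ((differentiableOn_id.mul h3).div_const 2).mono (ball_subset_ball (by norm_num))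
  have h5 := lipG hd h2 (ρ := 5 / 4) (s := 1 / 5) (by norm_num) (by norm_num)
  constructor
  · intro v hv
    exact h2 v (by rw [mem_ball, dist_zero_right]; linarith)
  · intro v w hv hw
    refine (h5.2 v w hv hw).trans ?_
    have : 0 ≤ ‖v - w‖ := norm_nonneg _
    have h6 : 9 / 4 * M / (1 / 5) ≤ 12 * M := by linarith
    gcongr

/-- `log (1 + h) - h` -/
theorem logL {σ : ℝ} (h0 : 0 ≤ σ) (h1 : σ ≤ 1 / 4) {x y : ℂ} (hx : ‖x‖ ≤ σ) (hy : ‖y‖ ≤ σ) :
    ‖(Complex.log (1 + x) - x) - (Complex.log (1 + y) - y)‖ ≤ 2 * σ * ‖x - y‖ := by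
  have hder : ∀ z ∈ closedBall (0 : ℂ) σ,
      HasDerivAt (fun z => Complex.log (1 + z) - z) (1 / (1 + z) - 1) z := by
    intro z hz
    rw [mem_closedBall, dist_zero_right] at hz
    have hsl : 1 + z ∈ Complex.slitPlane := by
      left
      have := Complex.abs_re_le_norm z
      have h3 := abs_le.1 this
      simp only [Complex.add_re, Complex.one_re]
      linarith
    have h2 : HasDerivAt (fun z : ℂ => 1 + z) 1 z := (hasDerivAt_id z).const_add 1
    exact (h2.clog hsl).sub (hasDerivAt_id z)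
  refine (convex_closedBall (0 : ℂ) σ).norm_image_sub_le_of_norm_hasDerivWithin_le
    (f := fun z => Complex.log (1 + z) - z) (C := 2 * σ) (x := y) (y := x)
    (fun z hz => (hder z hz).hasDerivWithinAt) (fun z hz => ?_)
    (by simpa using hy) (by simpa using hx)
  rw [mem_closedBall, dist_zero_right] at hz
  have h5 : 3 / 4 ≤ ‖1 + z‖ := by
    have := norm_sub_norm_le (1 : ℂ) (-z)
    rw [norm_one, norm_neg, sub_neg_eq_add] at this
    linarith
  have h6 : (1 : ℂ) + z ≠ 0 := by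
    intro h
    rw [h, norm_zero] at h5
    linarith
  have h7 : 1 / (1 + z) - 1 = -z / (1 + z) := by
    field_simp
    ring
  rw [h7, norm_div, norm_neg, div_le_iff₀ (by linarith)]
  calc ‖z‖ ≤ σ := hz
    _ ≤ 2 * σ * (3 / 4) := by linarith
    _ ≤ 2 * σ * ‖1 + z‖ := by gcongr

/-- `exp s - s` -/
theorem expL {σ : ℝ} (h0 : 0 ≤ σ) (h1 : σ ≤ 1) {x y : ℂ} (hx : ‖x‖ ≤ σ) (hy : ‖y‖ ≤ σ) :
    ‖(Complex.exp x - x) - (Complex.exp y - y)‖ ≤ 2 * σ * ‖x - y‖ := by
  refine (convex_closedBall (0 : ℂ) σ).norm_image_sub_le_of_norm_hasDerivWithin_le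
    (f := fun z => Complex.exp z - z) (f' := fun z => Complex.exp z - 1) (C := 2 * σ) (x := y)
    (y := x) (fun z hz => ?_) (fun z hz => ?_) (by simpa using hy) (by simpa using hx)
  · exact ((Complex.hasDerivAt_exp z).sub (hasDerivAt_id z)).hasDerivWithinAt
  · rw [mem_closedBall, dist_zero_right] at hz
    have := Complex.norm_exp_sub_one_le (x := z) (by linarith)
    linarith

section

variable {δ : ℝ} {L : ℕ → ℂ → ℂ} (hS : Sys δ L)
include hS

theorem small40 : δ ≤ 1 / 40 := by have := hS.small; linarith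

theorem Phi_le (k : ℕ) {z : ℂ} (hz : ‖z‖ ≤ 1) : ‖Phi L k z‖ ≤ 21 / 20 := by
  have h := upper (maps_Phi hS.pos (small40 hS) hS.diff hS.bd hS.zero) (small40 hS) k hz
  linarith

theorem Phi_hol (k : ℕ) {z w : ℂ} (hz : ‖z‖ ≤ 1) (hw : ‖w‖ ≤ 1) :
    ‖Phi L k z - Phi L k w‖ ≤ 9 * Real.sqrt ‖z - w‖ := by
  have hM := maps_Phi hS.pos (small40 hS) hS.diff hS.bd hS.zero
  refine (hM.holder k z w hz hw).trans ?_
  have h0 : 0 ≤ ‖z - w‖ := norm_nonneg _
  have h2 : ‖z - w‖ ≤ 2 := (norm_sub_le _ _).trans (by linarith)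
  rcases eq_or_lt_of_le h0 with h | h
  · rw [← h, Real.zero_rpow (by have := hS.small; linarith)]
    simp
  · have e : ‖z - w‖ ^ (1 - 20 * δ) = ‖z - w‖ ^ (1 / 2 - 20 * δ) * Real.sqrt ‖z - w‖ := by
      rw [Real.sqrt_eq_rpow, ← Real.rpow_add h]
      congr 1
      ring
    rw [e]
    have hs := hS.small
    have hp := hS.pos
    have h5 : ‖z - w‖ ^ (1 / 2 - 20 * δ) ≤ 3 / 2 := by
      calc ‖z - w‖ ^ (1 / 2 - 20 * δ) ≤ 2 ^ (1 / 2 - 20 * δ) :=
            Real.rpow_le_rpow h0 h2 (by linarith)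
        _ ≤ 2 ^ (1 / 2 : ℝ) := Real.rpow_le_rpow_of_exponent_le (by norm_num) (by linarith)
        _ = Real.sqrt 2 := by rw [Real.sqrt_eq_rpow]
        _ ≤ 3 / 2 := by
          rw [Real.sqrt_le_left (by norm_num)]
          norm_num
    have h6 : 0 ≤ Real.sqrt ‖z - w‖ := Real.sqrt_nonneg _
    calc 6 * (‖z - w‖ ^ (1 / 2 - 20 * δ) * Real.sqrt ‖z - w‖)
        ≤ 6 * (3 / 2 * Real.sqrt ‖z - w‖) := by gcongr
      _ = 9 * Real.sqrt ‖z - w‖ := by ring

theorem psi_half_aux (n : ℕ) : ∀ (k : ℕ) (z w : ℂ), ‖z‖ ≤ 1 → ‖w‖ ≤ 1 →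
    ‖psi L k z - psi L k w‖ ≤ 50 * δ * Real.sqrt ‖z - w‖ + 2 * δ * (1 / 2) ^ n := by
  have hp := hS.pos
  induction n with
  | zero =>
    intro k z w hz hw
    have hψ := psi_spec hS.pos (small40 hS) hS.diff hS.bd hS.zero k
    have h1 := hψ.2.2.1 z hz
    have h2 := hψ.2.2.1 w hw
    have h3 := norm_sub_le (psi L k z) (psi L k w)
    have h4 : 0 ≤ 50 * δ * Real.sqrt ‖z - w‖ := by positivity
    simp only [pow_zero, mul_one]
    linarith
  | succ n ih =>
    intro k z w hz hw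
    have hψ := psi_spec hS.pos (small40 hS) hS.diff hS.bd hS.zero k
    have e1 := hψ.2.2.2.1 z hz
    have e2 := hψ.2.2.2.1 w hw
    have hz2 : ‖z ^ 2‖ ≤ 1 := by rw [norm_pow]; exact pow_le_one₀ (norm_nonneg _) hz
    have hw2 : ‖w ^ 2‖ ≤ 1 := by rw [norm_pow]; exact pow_le_one₀ (norm_nonneg _) hw
    have h1 := ih (k + 1) (z ^ 2) (w ^ 2) hz2 hw2
    have hzw : ‖z ^ 2 - w ^ 2‖ ≤ 2 * ‖z - w‖ := by
      have : z ^ 2 - w ^ 2 = (z + w) * (z - w) := by ring
      rw [this, norm_mul]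
      have : ‖z + w‖ ≤ 2 := (norm_add_le _ _).trans (by linarith)
      gcongr
    have hsq : Real.sqrt ‖z ^ 2 - w ^ 2‖ ≤ 71 / 50 * Real.sqrt ‖z - w‖ := by
      calc Real.sqrt ‖z ^ 2 - w ^ 2‖ ≤ Real.sqrt (2 * ‖z - w‖) := Real.sqrt_le_sqrt hzw
        _ = Real.sqrt 2 * Real.sqrt ‖z - w‖ := Real.sqrt_mul (by norm_num) _
        _ ≤ 71 / 50 * Real.sqrt ‖z - w‖ := by
          gcongr
          rw [Real.sqrt_le_left (by norm_num)]
          norm_num
    have hL := lip (hS.diff k) (hS.bd k) (v := Phi L k z) (w := Phi L k w)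
      ((Phi_le hS k hz).trans (by norm_num)) ((Phi_le hS k hw).trans (by norm_num))
    have hH := Phi_hol hS k hz hw
    have e3 : psi L k z - psi L k w = ((psi L (k + 1) (z ^ 2) - psi L (k + 1) (w ^ 2)) -
        (L k (Phi L k z) - L k (Phi L k w))) / 2 := by
      unfold Phi
      linear_combination e1 / 2 - e2 / 2
    rw [e3, norm_div, Complex.norm_ofNat]
    have h2 := norm_sub_le (psi L (k + 1) (z ^ 2) - psi L (k + 1) (w ^ 2))
      (L k (Phi L k z) - L k (Phi L k w))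
    have h6 : 0 ≤ Real.sqrt ‖z - w‖ := Real.sqrt_nonneg _
    have h7 : ‖L k (Phi L k z) - L k (Phi L k w)‖ ≤ 3 * δ * (9 * Real.sqrt ‖z - w‖) :=
      hL.trans (by gcongr)
    have h8 : 50 * δ * Real.sqrt ‖z ^ 2 - w ^ 2‖ ≤ 50 * δ * (71 / 50 * Real.sqrt ‖z - w‖) := by
      gcongr
    have h9 : 0 ≤ δ * Real.sqrt ‖z - w‖ := by positivity
    have h11 : (1 / 2 : ℝ) ^ (n + 1) = (1 / 2) ^ n * (1 / 2) := pow_succ _ _
    rw [h11]
    have h10 : 0 ≤ δ * (1 / 2) ^ n := by positivity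
    linarith

theorem psi_half (k : ℕ) {z w : ℂ} (hz : ‖z‖ ≤ 1) (hw : ‖w‖ ≤ 1) :
    ‖psi L k z - psi L k w‖ ≤ 50 * δ * Real.sqrt ‖z - w‖ := by
  have h1 : Tendsto (fun n : ℕ => 50 * δ * Real.sqrt ‖z - w‖ + 2 * δ * (1 / 2) ^ n) atTop
      (𝓝 (50 * δ * Real.sqrt ‖z - w‖ + 2 * δ * 0)) := by
    refine Tendsto.const_add _ (Tendsto.const_mul _ ?_)
    exact tendsto_pow_atTop_nhds_zero_of_lt_one (by norm_num) (by norm_num)
  have h2 := ge_of_tendsto h1 (Eventually.of_forall fun n => psi_half_aux hS n k z w hz hw)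
  linarith

theorem Phi_sub (k : ℕ) {z w : ℂ} (hz : ‖z‖ ≤ 1) (hw : ‖w‖ ≤ 1) :
    ‖(Phi L k z - z) - (Phi L k w - w)‖ ≤ 160 * δ * Real.sqrt ‖z - w‖ := by
  have hp := hS.pos
  have hs := hS.small
  have hψ := psi_spec hS.pos (small40 hS) hS.diff hS.bd hS.zero k
  have b1 := hψ.2.2.1 z hz
  have b2 := hψ.2.2.1 w hw
  have h1 := Complex.norm_exp_sub_one_le (x := psi L k z) (by linarith)
  have h2 := exp_sub (a := psi L k z) (b := psi L k w) (by linarith) (by linarith)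
  have h3 := psi_half hS k hz hw
  have h0 : 0 ≤ ‖z - w‖ := norm_nonneg _
  have h4 : ‖z - w‖ ≤ 2 := (norm_sub_le _ _).trans (by linarith)
  have h6 : 0 ≤ Real.sqrt ‖z - w‖ := Real.sqrt_nonneg _
  have h5 : ‖z - w‖ ≤ 2 * Real.sqrt ‖z - w‖ := by
    have h7 := Real.sq_sqrt h0
    have h8 : Real.sqrt ‖z - w‖ ≤ 2 := by
      rw [Real.sqrt_le_left (by norm_num)]
      linarith
    nlinarith
  have e : (Phi L k z - z) - (Phi L k w - w) = (z - w) * (Complex.exp (psi L k z) - 1) +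
      w * (Complex.exp (psi L k z) - Complex.exp (psi L k w)) := by
    unfold Phi
    ring
  rw [e]
  refine (norm_add_le _ _).trans ?_
  rw [norm_mul, norm_mul]
  calc ‖z - w‖ * ‖Complex.exp (psi L k z) - 1‖ +
        ‖w‖ * ‖Complex.exp (psi L k z) - Complex.exp (psi L k w)‖
      ≤ (2 * Real.sqrt ‖z - w‖) * (2 * δ) + 1 * (3 * (50 * δ * Real.sqrt ‖z - w‖)) := by
        have h9 : ‖Complex.exp (psi L k z) - 1‖ ≤ 2 * δ := by linarith
        have h10 : ‖Complex.exp (psi L k z) - Complex.exp (psi L k w)‖ ≤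
          3 * (50 * δ * Real.sqrt ‖z - w‖) := h2.trans (by gcongr)
        gcongr
    _ ≤ 160 * δ * Real.sqrt ‖z - w‖ := by
        have : 0 ≤ δ * Real.sqrt ‖z - w‖ := by positivity
        linarith

theorem ell_bd (k : ℕ) {v : ℂ} (hv : ‖v‖ ≤ 5 / 4) : ‖ell L k v‖ ≤ 5 * δ := by
  have hp := hS.pos
  have hs := hS.small
  have h1 := (half (hS.diff k) (hS.bd k) hp).1 v hv
  have h2 := logL (σ := 9 / 4 * δ) (by positivity) (by linarith) h1
    (y := 0) (by rw [norm_zero]; positivity)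
  simp only [add_zero, Complex.log_one, sub_zero] at h2
  have h3 : ell L k v = (Complex.log (1 + v * deriv (L k) v / 2) - v * deriv (L k) v / 2) +
      v * deriv (L k) v / 2 := by
    unfold ell
    ring
  rw [h3]
  refine (norm_add_le _ _).trans ?_
  have h4 : 2 * (9 / 4 * δ) * ‖v * deriv (L k) v / 2‖ ≤ 2 * (9 / 4 * δ) * (9 / 4 * δ) := by gcongr
  nlinarith

theorem ell_lip (k : ℕ) {v w : ℂ} (hv : ‖v‖ ≤ 5 / 4) (hw : ‖w‖ ≤ 5 / 4) :
    ‖ell L k v - ell L k w‖ ≤ 13 * δ * ‖v - w‖ := by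
  have hp := hS.pos
  have hs := hS.small
  have hH := half (hS.diff k) (hS.bd k) hp
  have h1 := hH.1 v hv
  have h1' := hH.1 w hw
  have h2 := logL (σ := 9 / 4 * δ) (by positivity) (by linarith) h1 h1'
  have h5 := hH.2 v w hv hw
  have h3 : ell L k v - ell L k w =
      ((Complex.log (1 + v * deriv (L k) v / 2) - v * deriv (L k) v / 2) -
      (Complex.log (1 + w * deriv (L k) w / 2) - w * deriv (L k) w / 2)) +
      (v * deriv (L k) v / 2 - w * deriv (L k) w / 2) := by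
    unfold ell
    ring
  rw [h3]
  refine (norm_add_le _ _).trans ?_
  have h0 : 0 ≤ ‖v - w‖ := norm_nonneg _
  have h6 : 2 * (9 / 4 * δ) * ‖v * deriv (L k) v / 2 - w * deriv (L k) w / 2‖ ≤
      2 * (9 / 4 * δ) * (12 * δ * ‖v - w‖) := by gcongr
  have h7 : 0 ≤ δ * ‖v - w‖ := by positivity
  have h8 : 2 * (9 / 4 * δ) * (12 * δ * ‖v - w‖) ≤ δ * ‖v - w‖ := by
    have : 2 * (9 / 4 * δ) * (12 * δ * ‖v - w‖) = (54 * δ) * (δ * ‖v - w‖) := by ring
    rw [this]
    nlinarith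
  linarith

theorem ell_lip2 (k : ℕ) {a b : ℂ}
    (hL : ∀ v ∈ ball (0 : ℂ) 2, ‖L k v - (a * v + b * v ^ 2)‖ ≤ δ ^ 2)
    {v w : ℂ} (hv : ‖v‖ ≤ 5 / 4) (hw : ‖w‖ ≤ 5 / 4) :
    ‖(ell L k v - (a / 2 * v + b * v ^ 2)) - (ell L k w - (a / 2 * w + b * w ^ 2))‖ ≤
      72 * δ ^ 2 * ‖v - w‖ := by
  have hp := hS.pos
  have hs := hS.small
  have hH := half (hS.diff k) (hS.bd k) hp
  have h1 := hH.1 v hv
  have h1' := hH.1 w hw
  have h2 := logL (σ := 9 / 4 * δ) (by positivity) (by linarith) h1 h1'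
  have h5 := hH.2 v w hv hw
  have hq : Differentiable ℂ (fun v : ℂ => a * v + b * v ^ 2) := by fun_prop
  have hE := half (f := fun v => L k v - (a * v + b * v ^ 2)) ((hS.diff k).sub hq.differentiableOn)
    hL (by positivity)
  have hder : ∀ v : ℂ, ‖v‖ ≤ 5 / 4 → deriv (fun v => L k v - (a * v + b * v ^ 2)) v =
      deriv (L k) v - (a + 2 * b * v) := by
    intro v hv
    have g1 : DifferentiableAt ℂ (L k) v := by
      refine (hS.diff k v ?_).differentiableAt (isOpen_ball.mem_nhds ?_) <;>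
      · rw [mem_ball, dist_zero_right]; linarith
    have g2 : HasDerivAt (fun v : ℂ => a * v + b * v ^ 2) (a * 1 + b * (2 * v ^ (2 - 1) * 1)) v :=
      ((hasDerivAt_id v).const_mul a).add (((hasDerivAt_id v).pow 2).const_mul b)
    have g3 := (g1.hasDerivAt.sub g2).deriv
    refine g3.trans ?_
    ring
  have h6 := hE.2 v w hv hw
  rw [hder v hv, hder w hw] at h6
  have h3 : (ell L k v - (a / 2 * v + b * v ^ 2)) - (ell L k w - (a / 2 * w + b * w ^ 2)) =
      ((Complex.log (1 + v * deriv (L k) v / 2) - v * deriv (L k) v / 2) -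
      (Complex.log (1 + w * deriv (L k) w / 2) - w * deriv (L k) w / 2)) +
      (v * (deriv (L k) v - (a + 2 * b * v)) / 2 - w * (deriv (L k) w - (a + 2 * b * w)) / 2) := by
    unfold ell
    ring
  rw [h3]
  refine (norm_add_le _ _).trans ?_
  have h7 : 2 * (9 / 4 * δ) * ‖v * deriv (L k) v / 2 - w * deriv (L k) w / 2‖ ≤
      2 * (9 / 4 * δ) * (12 * δ * ‖v - w‖) := by gcongr
  have h8 : 2 * (9 / 4 * δ) * (12 * δ * ‖v - w‖) = 54 * δ ^ 2 * ‖v - w‖ := by ring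
  have h9 : 0 ≤ δ ^ 2 * ‖v - w‖ := by positivity
  linarith

end

theorem circ (r : ℝ) (h0 : 0 ≤ r) (h1 : r ≤ 1) (θ : ℝ) :
    ‖(r : ℂ) * Complex.exp (θ * Complex.I)‖ ≤ 1 := by
  rw [norm_mul, Complex.norm_exp_ofReal_mul_I, mul_one, Complex.norm_real, Real.norm_eq_abs,
    abs_of_nonneg h0]
  exact h1

theorem circ_sub (r : ℝ) (h0 : 0 ≤ r) (h1 : r ≤ 1) (θ θ' : ℝ) :
    ‖(r : ℂ) * Complex.exp (θ * Complex.I) - (r : ℂ) * Complex.exp (θ' * Complex.I)‖ ≤ |θ - θ'| := by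
  have e : (r : ℂ) * Complex.exp (θ * Complex.I) - (r : ℂ) * Complex.exp (θ' * Complex.I) =
      r * (Complex.exp (θ' * Complex.I) * (Complex.exp (Complex.I * ((θ - θ' : ℝ) : ℂ)) - 1)) := by
    rw [mul_sub, mul_sub, ← Complex.exp_add, mul_one]
    have : (θ' : ℂ) * Complex.I + Complex.I * ((θ - θ' : ℝ) : ℂ) = θ * Complex.I := by
      push_cast
      ring
    rw [this]
  rw [e, norm_mul, norm_mul, Complex.norm_exp_ofReal_mul_I, one_mul, Complex.norm_real,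
    Real.norm_eq_abs, abs_of_nonneg h0]
  have h2 := Real.norm_exp_I_mul_ofReal_sub_one_le (x := θ - θ')
  calc r * ‖Complex.exp (Complex.I * ((θ - θ' : ℝ) : ℂ)) - 1‖ ≤ 1 * ‖θ - θ'‖ := by gcongr
    _ = |θ - θ'| := by rw [one_mul, Real.norm_eq_abs]

theorem main : S_V := by
  refine ⟨1000, by norm_num, fun δ L a b hS ha hb hL k r h0 h1 => ?_⟩
  have hp := hS.pos
  have hs := hS.small
  set u : ℝ → ℂ := fun θ => (r : ℂ) * Complex.exp (θ * Complex.I) with hu
  have hun : ∀ θ, ‖u θ‖ ≤ 1 := circ r h0 h1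
  have hPn : ∀ θ, ‖Phi L k (u θ)‖ ≤ 5 / 4 := fun θ => (Phi_le hS k (hun θ)).trans (by norm_num)
  have hell : ∀ θ, ‖-ell L k (Phi L k (u θ)) / 2‖ ≤ 3 * δ := by
    intro θ
    rw [norm_div, norm_neg, Complex.norm_ofNat]
    have := ell_bd hS k (hPn θ)
    linarith
  have hsub : ∀ θ θ', Real.sqrt ‖u θ - u θ'‖ ≤ Real.sqrt |θ - θ'| := fun θ θ' =>
    Real.sqrt_le_sqrt (circ_sub r h0 h1 θ θ')
  have hPs : ∀ θ θ', ‖Phi L k (u θ) - Phi L k (u θ')‖ ≤ 9 * Real.sqrt |θ - θ'| := fun θ θ' =>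
    (Phi_hol hS k (hun θ) (hun θ')).trans (by have := hsub θ θ'; linarith)
  have hs12 : ∀ θ θ', ‖-ell L k (Phi L k (u θ)) / 2 - -ell L k (Phi L k (u θ')) / 2‖ ≤
      60 * δ * Real.sqrt |θ - θ'| := by
    intro θ θ'
    have e : -ell L k (Phi L k (u θ)) / 2 - -ell L k (Phi L k (u θ')) / 2 =
        -(ell L k (Phi L k (u θ)) - ell L k (Phi L k (u θ'))) / 2 := by ring
    rw [e, norm_div, norm_neg, Complex.norm_ofNat]
    have h3 := ell_lip hS k (hPn θ) (hPn θ')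
    have h4 := hPs θ θ'
    have h5 : 13 * δ * ‖Phi L k (u θ) - Phi L k (u θ')‖ ≤ 13 * δ * (9 * Real.sqrt |θ - θ'|) := by
      gcongr
    have h6 : 0 ≤ δ * Real.sqrt |θ - θ'| := by positivity
    linarith
  have hex : ∀ θ θ', ‖(ee L k r θ - -ell L k (Phi L k (u θ)) / 2) -
      (ee L k r θ' - -ell L k (Phi L k (u θ')) / 2)‖ ≤ 360 * δ ^ 2 * Real.sqrt |θ - θ'| := by
    intro θ θ'
    have h3 := expL (σ := 3 * δ) (by positivity) (by linarith) (hell θ) (hell θ')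
    have h4 := hs12 θ θ'
    refine h3.trans ?_
    calc 2 * (3 * δ) * ‖-ell L k (Phi L k (u θ)) / 2 - -ell L k (Phi L k (u θ')) / 2‖
        ≤ 2 * (3 * δ) * (60 * δ * Real.sqrt |θ - θ'|) := by gcongr
      _ = 360 * δ ^ 2 * Real.sqrt |θ - θ'| := by ring
  refine ⟨?_, ?_, ?_⟩
  · intro θ
    have h3 := Complex.norm_exp_sub_one_le (x := -ell L k (Phi L k (u θ)) / 2)
      (by have := hell θ; linarith)
    have h4 := hell θ
    show ‖Complex.exp (-ell L k (Phi L k (u θ)) / 2) - 1‖ ≤ _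
    linarith
  · intro θ θ'
    have h3 := hex θ θ'
    have h4 := hs12 θ θ'
    have e : ee L k r θ - ee L k r θ' = ((ee L k r θ - -ell L k (Phi L k (u θ)) / 2) -
      (ee L k r θ' - -ell L k (Phi L k (u θ')) / 2)) +
      (-ell L k (Phi L k (u θ)) / 2 - -ell L k (Phi L k (u θ')) / 2) := by ring
    rw [e]
    refine (norm_add_le _ _).trans ?_
    have h6 : 0 ≤ δ * Real.sqrt |θ - θ'| := by positivity
    have h7 : δ ^ 2 * Real.sqrt |θ - θ'| ≤ 1 * (δ * Real.sqrt |θ - θ'|) := by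
      rw [sq, mul_assoc]
      gcongr
      linarith
    nlinarith
  · intro θ θ'
    have h3 := hex θ θ'
    have h4 := ell_lip2 hS k (hL k) (hPn θ) (hPn θ')
    have h5 := hPs θ θ'
    have h6 : ‖(Phi L k (u θ) - u θ) - (Phi L k (u θ') - u θ')‖ ≤ 160 * δ * Real.sqrt |θ - θ'| :=
      (Phi_sub hS k (hun θ) (hun θ')).trans (by have := hsub θ θ'; gcongr)
    have hM := maps_Phi hS.pos (small40 hS) hS.diff hS.bd hS.zero
    have h7 : ‖Phi L k (u θ') - u θ'‖ ≤ 2 * δ := by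
      have h8 := hM.near k (u θ') (hun θ')
      have h9 := hun θ'
      calc ‖Phi L k (u θ') - u θ'‖ ≤ 2 * δ * ‖u θ'‖ := h8
        _ ≤ 2 * δ * 1 := by gcongr
        _ = 2 * δ := mul_one _
    set s := Real.sqrt |θ - θ'| with hsdef
    have hs0 : 0 ≤ s := Real.sqrt_nonneg _
    -- the quadratic part
    have h8 : ‖((a k / 2 * Phi L k (u θ) + b k * Phi L k (u θ) ^ 2) -
        (a k / 2 * u θ + b k * u θ ^ 2)) -
        ((a k / 2 * Phi L k (u θ') + b k * Phi L k (u θ') ^ 2) -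
        (a k / 2 * u θ' + b k * u θ' ^ 2))‖ ≤ 480 * δ ^ 2 * s := by
      have e : ((a k / 2 * Phi L k (u θ) + b k * Phi L k (u θ) ^ 2) -
          (a k / 2 * u θ + b k * u θ ^ 2)) -
          ((a k / 2 * Phi L k (u θ') + b k * Phi L k (u θ') ^ 2) -
          (a k / 2 * u θ' + b k * u θ' ^ 2)) =
          ((Phi L k (u θ) - u θ) - (Phi L k (u θ') - u θ')) *
            (a k / 2 + b k * (Phi L k (u θ) + u θ)) +
          (Phi L k (u θ') - u θ') * (b k * (((Phi L k (u θ) - u θ) - (Phi L k (u θ') - u θ')) +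
            2 * (u θ - u θ'))) := by ring
      rw [e]
      have h9 : ‖a k / 2 + b k * (Phi L k (u θ) + u θ)‖ ≤ 11 / 4 * δ := by
        refine (norm_add_le _ _).trans ?_
        rw [norm_div, norm_mul, Complex.norm_ofNat]
        have g1 := ha k
        have g2 := hb k
        have g3 : ‖Phi L k (u θ) + u θ‖ ≤ 9 / 4 :=
          (norm_add_le _ _).trans (by have := hPn θ; have := hun θ; linarith)
        have g4 : ‖b k‖ * ‖Phi L k (u θ) + u θ‖ ≤ δ * (9 / 4) := by gcongr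
        linarith
      have h10 : ‖((Phi L k (u θ) - u θ) - (Phi L k (u θ') - u θ')) + 2 * (u θ - u θ')‖ ≤
          5 * s := by
        refine (norm_add_le _ _).trans ?_
        rw [norm_mul, Complex.norm_ofNat]
        have g1 : ‖u θ - u θ'‖ ≤ 2 * s := by
          have g2 : ‖u θ - u θ'‖ ≤ 2 := (norm_sub_le _ _).trans
            (by have := hun θ; have := hun θ'; linarith)
          have g3 := Real.sq_sqrt (norm_nonneg (u θ - u θ'))
          have g4 := hsub θ θ'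
          have g5 : 0 ≤ Real.sqrt ‖u θ - u θ'‖ := Real.sqrt_nonneg _
          have g6 : Real.sqrt ‖u θ - u θ'‖ ≤ 2 := by
            rw [Real.sqrt_le_left (by norm_num)]
            linarith
          calc ‖u θ - u θ'‖ = Real.sqrt ‖u θ - u θ'‖ * Real.sqrt ‖u θ - u θ'‖ := by
                rw [← sq, g3]
            _ ≤ 2 * s := by gcongr
        have g2 : 160 * δ * s ≤ 1 * s := by
          gcongr
          linarith
        linarith
      refine (norm_add_le _ _).trans ?_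
      rw [norm_mul, norm_mul, norm_mul]
      calc ‖(Phi L k (u θ) - u θ) - (Phi L k (u θ') - u θ')‖ *
            ‖a k / 2 + b k * (Phi L k (u θ) + u θ)‖ +
            ‖Phi L k (u θ') - u θ'‖ * (‖b k‖ *
              ‖((Phi L k (u θ) - u θ) - (Phi L k (u θ') - u θ')) + 2 * (u θ - u θ')‖)
          ≤ (160 * δ * s) * (11 / 4 * δ) + (2 * δ) * (δ * (5 * s)) := by
            have := hb k
            gcongr
        _ = 450 * δ ^ 2 * s := by ring
        _ ≤ 480 * δ ^ 2 * s := by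
            gcongr
            norm_num
    have h11 : 72 * δ ^ 2 * ‖Phi L k (u θ) - Phi L k (u θ')‖ ≤ 72 * δ ^ 2 * (9 * s) := by gcongr
    have e : (ee L k r θ - 1 + (a k / 2 * u θ + b k * u θ ^ 2) / 2) -
        (ee L k r θ' - 1 + (a k / 2 * u θ' + b k * u θ' ^ 2) / 2) =
        ((ee L k r θ - -ell L k (Phi L k (u θ)) / 2) -
          (ee L k r θ' - -ell L k (Phi L k (u θ')) / 2)) -
        (((ell L k (Phi L k (u θ)) - (a k / 2 * Phi L k (u θ) + b k * Phi L k (u θ) ^ 2)) -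
          (ell L k (Phi L k (u θ')) - (a k / 2 * Phi L k (u θ') + b k * Phi L k (u θ') ^ 2))) +
        (((a k / 2 * Phi L k (u θ) + b k * Phi L k (u θ) ^ 2) -
          (a k / 2 * u θ + b k * u θ ^ 2)) -
          ((a k / 2 * Phi L k (u θ') + b k * Phi L k (u θ') ^ 2) -
          (a k / 2 * u θ' + b k * u θ' ^ 2)))) / 2 := by ring
    show ‖(ee L k r θ - 1 + (a k / 2 * u θ + b k * u θ ^ 2) / 2) -
        (ee L k r θ' - 1 + (a k / 2 * u θ' + b k * u θ' ^ 2) / 2)‖ ≤ _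
    rw [e]
    refine (norm_sub_le _ _).trans ?_
    rw [norm_div, Complex.norm_ofNat]
    have h12 := norm_add_le
      ((ell L k (Phi L k (u θ)) - (a k / 2 * Phi L k (u θ) + b k * Phi L k (u θ) ^ 2)) -
          (ell L k (Phi L k (u θ')) - (a k / 2 * Phi L k (u θ') + b k * Phi L k (u θ') ^ 2)))
      (((a k / 2 * Phi L k (u θ) + b k * Phi L k (u θ) ^ 2) -
          (a k / 2 * u θ + b k * u θ ^ 2)) -
          ((a k / 2 * Phi L k (u θ') + b k * Phi L k (u θ') ^ 2) -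
          (a k / 2 * u θ' + b k * u θ' ^ 2)))
    have h13 : 0 ≤ δ ^ 2 * s := by positivity
    linarith

end Pool.Agent.Helper25.RB.V
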