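import Pool.Agent.Helper25.RB.Core
import Pool.Agent.Helper25.RB.DER
import Pool.Agent.Helper25.RB.CIR
import Pool.Agent.Helper25.RB.COE
import Pool.Agent.Helper25.RB.V
import Pool.Agent.Helper25.RB.Q
import Pool.Agent.Helper25.RB.BES
import Pool.Agent.Helper25.RB.CHO
import Pool.Agent.Helper25.RB.MAX

/-!
# The boundaries of the components of large cycles have infinite length
-/

set_option autoImplicit false

open Filter Topology Metric Set MeasureTheory

namespace Pool.Agent.Helper25.RB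

open Pool.Agent.H384R2.Fatou Pool.Agent.H723R2.LSW Pool.Agent.Y282.WD Pool.Agent.Helper25.JB

theorem coe : S_COE := COE.main V.main Q.main CIR.main

/-- bounded integral means of the derivative contradict large resonant coefficients -/
theorem absurd_of_means {δ γ A B : ℝ} {L : ℕ → ℂ → ℂ} {a b : ℕ → ℂ} (hS : Sys δ L) (hγ : 0 < γ)
    (hco : ∀ (j : ℕ) (r : ℝ), 0 < r → r < 1 →
      ‖(∫ θ in (0 : ℝ)..(2 * Real.pi), Complex.exp (-S L (j + 2) (r * Complex.exp (θ * Complex.I)) / 2) *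
        Complex.exp (-(2 ^ (j + 1) * θ) * Complex.I)) +
        Real.pi * r ^ (2 ^ (j + 1)) * (a (j + 1) / 2 + b j)‖ ≤ B)
    {J : ℕ → ℕ} (hJ : StrictMono J) (hbig : ∀ i, γ + B ≤ Real.pi / 2 * ‖a (J i + 1) / 2 + b (J i)‖)
    (hA : ∀ r : ℝ, 0 < r → r < 1 →
      ∫ θ in (0 : ℝ)..(2 * Real.pi), ‖deriv (Phi L 0) (r * Complex.exp (θ * Complex.I))‖ * r ≤ A) : False := by
  have hpp := Real.pi_pos
  have key : ∀ N : ℕ, (N : ℝ) * γ ^ 2 ≤ 2 * Real.pi * (3 * (2 * A)) := by
    intro N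
    set m : ℕ := J N + 2 with hm
    obtain ⟨r, hr0, hrm⟩ : ∃ r : ℝ, 0 ≤ r ∧ r ^ (2 ^ m) = 1 / 2 :=
      ⟨(1 / 2 : ℝ) ^ (((2 ^ m : ℕ) : ℝ)⁻¹), by positivity,
        Real.rpow_inv_natCast_pow (by norm_num) (by positivity)⟩
    have hr1 : r < 1 := by
      by_contra hcon
      push Not at hcon
      have := one_le_pow₀ hcon (n := 2 ^ m)
      rw [hrm] at this
      norm_num at this
    have hrp : 0 < r := by
      rcases eq_or_lt_of_le hr0 with h | h
      · rw [← h, zero_pow (by positivity)] at hrm; norm_num at hrm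
      · exact h
    have hrh : 1 / 2 ≤ r := by
      rw [← hrm]
      exact pow_le_of_le_one hr0 hr1.le (by positivity)
    have hzn : ∀ θ : ℝ, ‖(r : ℂ) * Complex.exp (θ * Complex.I)‖ = r := by
      intro θ
      rw [norm_mul, Complex.norm_exp_ofReal_mul_I, mul_one, Complex.norm_real, Real.norm_of_nonneg hr0]
    set f : ℝ → ℂ := fun θ => Complex.exp (-S L m (r * Complex.exp (θ * Complex.I)) / 2) with hf
    have hcirc : Continuous fun θ : ℝ => (r : ℂ) * Complex.exp (θ * Complex.I) := by fun_prop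
    have hmem : ∀ θ : ℝ, (r : ℂ) * Complex.exp (θ * Complex.I) ∈ ball (0 : ℂ) 1 := by
      intro θ; rw [mem_ball, dist_zero_right, hzn]; exact hr1
    have hfc : Continuous f := by
      have h1 := (CIR.exp_diff (CIR.S_diff hS m)).continuousOn
      exact h1.comp_continuous hcirc hmem
    have hdc : Continuous fun θ : ℝ => ‖deriv (Phi L 0) (r * Complex.exp (θ * Complex.I))‖ := by
      have h1 : DifferentiableOn ℂ (deriv (Phi L 0)) (ball 0 1) :=
        (DER.maps hS).diff 0 |>.deriv isOpen_ball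
      exact (h1.continuousOn.comp_continuous hcirc hmem).norm
    have hint : ∫ θ in (0 : ℝ)..(2 * Real.pi), ‖f θ‖ ^ 2 ≤ 3 * (2 * A) := by
      have h1 : ∫ θ in (0 : ℝ)..(2 * Real.pi), ‖f θ‖ ^ 2 ≤
          ∫ θ in (0 : ℝ)..(2 * Real.pi), 3 * ‖deriv (Phi L 0) (r * Complex.exp (θ * Complex.I))‖ := by
        apply intervalIntegral.integral_mono_on (by positivity)
        · exact (hfc.norm.pow 2).intervalIntegrable _ _
        · exact (continuous_const.mul hdc).intervalIntegrable _ _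
        · intro θ _
          apply DER.main δ L hS m
          · rw [hzn]; exact hr1
          · rw [norm_pow, hzn, hrm]
      refine h1.trans ?_
      rw [intervalIntegral.integral_const_mul]
      have h2 := hA r hrp hr1
      rw [intervalIntegral.integral_mul_const] at h2
      have h3 : 0 ≤ ∫ θ in (0 : ℝ)..(2 * Real.pi), ‖deriv (Phi L 0) (r * Complex.exp (θ * Complex.I))‖ :=
        intervalIntegral.integral_nonneg (by positivity) fun _ _ => norm_nonneg _
      nlinarith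
    have hbes := BES.main f m hfc
    have hlow : ∀ i ∈ Finset.range N, γ ^ 2 ≤
        ‖∫ θ in (0 : ℝ)..(2 * Real.pi), f θ * Complex.exp (-(2 ^ (J i + 1) * θ) * Complex.I)‖ ^ 2 := by
      intro i hi
      rw [Finset.mem_range] at hi
      have hJi : J i < J N := hJ hi
      have h1 := ((CIR.main δ L hS r hrp hr1).2 (J i + 1) m (by omega))
      simp only [hf]
      rw [h1]
      have h2 := hco (J i) r hrp hr1
      have h3 := hbig i
      have h4 : ‖(Real.pi : ℂ) * r ^ (2 ^ (J i + 1)) * (a (J i + 1) / 2 + b (J i))‖ =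
          Real.pi * r ^ (2 ^ (J i + 1)) * ‖a (J i + 1) / 2 + b (J i)‖ := by
        rw [norm_mul, norm_mul, norm_pow, Complex.norm_real, Complex.norm_real,
          Real.norm_of_nonneg hr0, Real.norm_of_nonneg hpp.le]
      have h5 : 1 / 2 ≤ r ^ (2 ^ (J i + 1)) := by
        rw [← hrm]
        apply pow_le_pow_of_le_one hr0 hr1.le
        exact Nat.pow_le_pow_right (by norm_num) (by omega)
      have h6 : Real.pi / 2 * ‖a (J i + 1) / 2 + b (J i)‖ ≤
          Real.pi * r ^ (2 ^ (J i + 1)) * ‖a (J i + 1) / 2 + b (J i)‖ := by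
        gcongr
        nlinarith
      have h7 : ‖(Real.pi : ℂ) * r ^ (2 ^ (J i + 1)) * (a (J i + 1) / 2 + b (J i))‖ ≤
          ‖(∫ θ in (0 : ℝ)..(2 * Real.pi), Complex.exp (-S L (J i + 2) (r * Complex.exp (θ * Complex.I)) / 2) *
        Complex.exp (-(2 ^ (J i + 1) * θ) * Complex.I)) +
        Real.pi * r ^ (2 ^ (J i + 1)) * (a (J i + 1) / 2 + b (J i))‖ +
        ‖∫ θ in (0 : ℝ)..(2 * Real.pi), Complex.exp (-S L (J i + 2) (r * Complex.exp (θ * Complex.I)) / 2) *
        Complex.exp (-(2 ^ (J i + 1) * θ) * Complex.I)‖ := by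
        have := norm_sub_le ((∫ θ in (0 : ℝ)..(2 * Real.pi),
          Complex.exp (-S L (J i + 2) (r * Complex.exp (θ * Complex.I)) / 2) *
          Complex.exp (-(2 ^ (J i + 1) * θ) * Complex.I)) +
          Real.pi * r ^ (2 ^ (J i + 1)) * (a (J i + 1) / 2 + b (J i)))
          (∫ θ in (0 : ℝ)..(2 * Real.pi), Complex.exp (-S L (J i + 2) (r * Complex.exp (θ * Complex.I)) / 2) *
          Complex.exp (-(2 ^ (J i + 1) * θ) * Complex.I))
        rwa [add_sub_cancel_left] at this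
      have h8 : γ ≤ ‖∫ θ in (0 : ℝ)..(2 * Real.pi),
          Complex.exp (-S L (J i + 1 + 1) (r * Complex.exp (θ * Complex.I)) / 2) *
          Complex.exp (-(2 ^ (J i + 1) * θ) * Complex.I)‖ := by
        have e : J i + 1 + 1 = J i + 2 := by omega
        rw [e]
        rw [h4] at h7
        linarith
      gcongr
    have hsum : ∑ i ∈ Finset.range N, γ ^ 2 ≤ ∑ j ∈ Finset.range m,
        ‖∫ θ in (0 : ℝ)..(2 * Real.pi), f θ * Complex.exp (-(2 ^ j * θ) * Complex.I)‖ ^ 2 := by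
      calc ∑ i ∈ Finset.range N, γ ^ 2 ≤ ∑ i ∈ Finset.range N,
            ‖∫ θ in (0 : ℝ)..(2 * Real.pi), f θ * Complex.exp (-(2 ^ (J i + 1) * θ) * Complex.I)‖ ^ 2 :=
            Finset.sum_le_sum hlow
        _ = ∑ j ∈ (Finset.range N).image fun i => J i + 1,
            ‖∫ θ in (0 : ℝ)..(2 * Real.pi), f θ * Complex.exp (-(2 ^ j * θ) * Complex.I)‖ ^ 2 := by
            rw [Finset.sum_image]
            intro i _ i' _ h
            exact hJ.injective (by simpa using h)
        _ ≤ _ := by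
            apply Finset.sum_le_sum_of_subset_of_nonneg
            · intro j hj
              rw [Finset.mem_image] at hj
              obtain ⟨i, hi, rfl⟩ := hj
              rw [Finset.mem_range] at hi ⊢
              have := hJ hi
              omega
            · intro _ _ _; positivity
    rw [Finset.sum_const, Finset.card_range, nsmul_eq_mul] at hsum
    refine hsum.trans (hbes.trans ?_)
    gcongr
  obtain ⟨N, hN⟩ := exists_nat_gt (2 * Real.pi * (3 * (2 * A)) / γ ^ 2)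
  have h1 := key N
  rw [div_lt_iff₀ (by positivity)] at hN
  linarith

/-- the boundaries of the components of large cycles have infinite length -/
theorem periodic : ∃ C : ℝ, 1 ≤ C ∧ ∀ (q : ℤ) (p : ℕ), 0 < p → T^[p] q = q →
    (∀ j : ℕ, C ≤ |((T^[j] q : ℤ) : ℝ)|) → ¬ μH[1] (frontier (FatouComponent f₀ (q : ℂ))) < ⊤ := by
  obtain ⟨C0, hC0, hcore⟩ := core
  obtain ⟨K, hK, hcoe⟩ := coe
  have hCC : C0 ≤ 8 * K * C0 ^ 2 := by nlinarith [mul_nonneg (by linarith : (0 : ℝ) ≤ K - 1) (sq_nonneg C0)]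
  refine ⟨8 * K * C0 ^ 2, by linarith, fun q p hp hq hn hfin => ?_⟩
  obtain ⟨τ, L, a, b, hLd, hL0, hsm, hLb, ha, hb, hL2, hmain, hτ, hΨ⟩ := hcore q fun j => hCC.trans (hn j)
  obtain ⟨j0, hj0, hmin⟩ := Finset.exists_min_image (Finset.range p) (fun j => bt (T^[j] q))
    ⟨0, Finset.mem_range.2 hp⟩
  have hper : ∀ k : ℕ, T^[k % p] q = T^[k] q := fun k =>
    Function.IsPeriodicPt.iterate_mod_apply (f := T) (n := p) (x := q) hq k
  set β := bt (T^[j0] q) with hβ
  have hβle : ∀ k : ℕ, β ≤ bt (T^[k] q) := by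
    intro k
    rw [← hper k]
    exact hmin _ (Finset.mem_range.2 (Nat.mod_lt _ hp))
  have hβC : 8 * K * C0 ^ 2 ≤ β := bt_ge (by linarith) (hn j0)
  have hC8 : 8 ≤ 8 * K * C0 ^ 2 := by nlinarith [mul_nonneg (by linarith : (0 : ℝ) ≤ K - 1) (sq_nonneg C0)]
  have hβ0 : 0 < β := by linarith
  set δ := C0 / β ^ 2 with hδ
  have hw : ∀ k : ℕ, C0 / bt (T^[k] q) ^ 2 ≤ δ := by
    intro k
    have := hβle k
    rw [hδ]
    gcongr
  have hδ0 : 0 ≤ δ := by positivity
  have hδs : δ ≤ 1 / 100000 := hsm j0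
  have hS : Sys δ L := ⟨hδ0, hδs, hLd, fun k v hv => (hLb k v hv).trans (hw k), hL0⟩
  have hKδ : K * δ ≤ 1 := by
    rw [hδ, ← mul_div_assoc, div_le_one (by positivity)]
    nlinarith
  have hKδ2 : K * δ ^ 2 ≤ 1 / 8 / β ^ 2 := by
    rw [hδ, div_pow, ← mul_div_assoc, div_le_div_iff₀ (by positivity) (by positivity)]
    have h1 : 8 * K * C0 ^ 2 ≤ β ^ 2 := by nlinarith
    have h2 : 0 ≤ β ^ 2 := by positivity
    nlinarith
  have hco := hcoe δ L a b hS hKδ (fun k => (ha k).trans (hw k)) (fun k => (hb k).trans (hw k))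
    (fun k v hv => (hL2 k v hv).trans (by
      have h1 := hw k
      have h2 : 0 ≤ C0 / bt (T^[k] q) ^ 2 := by positivity
      gcongr))
  obtain ⟨p', rfl⟩ : ∃ p', p = p' + 1 := ⟨p - 1, by omega⟩
  -- the length
  obtain ⟨hc0, hi0, hd0, -, -, -, hf0⟩ := hΨ _ rfl 0
  set Ψ : ℂ → ℂ := fun z => ((T^[0] q : ℤ) : ℂ) + τ 0 * Phi L 0 z with hΨdef
  have hf0' : Ψ '' sphere 0 1 = frontier (FatouComponent f₀ (q : ℂ)) := hf0
  have hfin' : μH[1] (Ψ '' sphere 0 1) < ⊤ := by rw [hf0']; exact hfin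
  have hcho := CHO.main Ψ (hc0.mono sphere_subset_closedBall) (hi0.mono sphere_subset_closedBall) hfin'
  have hmax := MAX.main Ψ _ hc0 hd0 hcho
  set A0 := (μH[1] (Ψ '' sphere 0 1)).toReal with hA0
  have hρ : 0 < |τ 0| := by
    rw [hτ]
    exact (Pool.Agent.Y151.WD.t_TAIL.2 _).1
  have hder : ∀ z ∈ ball (0 : ℂ) 1, ‖deriv Ψ z‖ = |τ 0| * ‖deriv (Phi L 0) z‖ := by
    intro z hz
    have h1 : HasDerivAt (Phi L 0) (deriv (Phi L 0) z) z :=
      (((DER.maps hS).diff 0 z hz).differentiableAt (isOpen_ball.mem_nhds hz)).hasDerivAt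
    have h2 : HasDerivAt Ψ ((τ 0 : ℂ) * deriv (Phi L 0) z) z := (h1.const_mul _).const_add _
    rw [h2.deriv, norm_mul, Complex.norm_real, Real.norm_eq_abs]
  have hA : ∀ r : ℝ, 0 < r → r < 1 →
      ∫ θ in (0 : ℝ)..(2 * Real.pi), ‖deriv (Phi L 0) (r * Complex.exp (θ * Complex.I))‖ * r ≤ A0 / |τ 0| := by
    intro r hr0 hr1
    rw [le_div_iff₀ hρ, ← intervalIntegral.integral_mul_const]
    refine le_trans (le_of_eq ?_) (hmax r hr0 hr1)
    apply intervalIntegral.integral_congr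
    intro θ _
    have h1 : (r : ℂ) * Complex.exp (θ * Complex.I) ∈ ball (0 : ℂ) 1 := by
      rw [mem_ball, dist_zero_right, norm_mul, Complex.norm_exp_ofReal_mul_I, mul_one, Complex.norm_real,
        Real.norm_of_nonneg hr0.le]
      exact hr1
    show ‖deriv (Phi L 0) (r * Complex.exp (θ * Complex.I))‖ * r * |τ 0| =
      ‖deriv Ψ (r * Complex.exp (θ * Complex.I))‖ * r
    rw [hder _ h1]
    ring
  refine absurd_of_means (γ := 1 / 4 / β ^ 2) (B := K * δ ^ 2) (J := fun i => j0 + i * (p' + 1) + p') hS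
    (by positivity) hco ?_ ?_ hA
  · intro i i' h
    show j0 + i * (p' + 1) + p' < j0 + i' * (p' + 1) + p'
    have : i * (p' + 1) < i' * (p' + 1) := Nat.mul_lt_mul_of_pos_right h (by omega)
    omega
  · intro i
    have h1 := hmain (j0 + i * (p' + 1) + p')
    have h2 : T^[j0 + i * (p' + 1) + p' + 1] q = T^[j0] q := by
      have e : j0 + i * (p' + 1) + p' + 1 = j0 + (i + 1) * (p' + 1) := by ring
      rw [e, ← hper (j0 + (i + 1) * (p' + 1)), Nat.add_mul_mod_self_right, hper]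
    rw [h2] at h1
    have hpi := Real.pi_gt_three
    have h3 : 0 < 1 / β ^ 2 := by positivity
    calc 1 / 4 / β ^ 2 + K * δ ^ 2 ≤ 1 / 4 / β ^ 2 + 1 / 8 / β ^ 2 := by gcongr
      _ = 3 / 2 * (1 / 4 / β ^ 2) := by ring
      _ ≤ Real.pi / 2 * (1 / 4 / β ^ 2) := by gcongr
      _ ≤ _ := by gcongr

/-! ### transfer along the orbit -/

theorem lip_f₀ {V : Set ℂ} (hV : Bornology.IsBounded V) : ∃ K : NNReal, LipschitzOnWith K f₀ V := by
  obtain ⟨R, hR⟩ := hV.subset_closedBall 0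
  have hc : Continuous (deriv f₀) :=
    (f₀_differentiable.contDiff (n := 1)).continuous_deriv le_rfl
  obtain ⟨B, hB⟩ := (isCompact_closedBall (0 : ℂ) R).exists_bound_of_continuousOn hc.continuousOn
  refine ⟨B.toNNReal, LipschitzOnWith.mono ?_ hR⟩
  apply (convex_closedBall (0 : ℂ) R).lipschitzOnWith_of_nnnorm_deriv_le
  · intro z _; exact f₀_differentiable z
  · intro z hz
    rw [← NNReal.coe_le_coe, coe_nnnorm]
    exact (hB z hz).trans (Real.le_coe_toNNReal B)

end Pool.Agent.Helper25.RB
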