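import Pool.Agent.Helper25.RB.FinA
import Pool.Agent.Helper25.RB.FinB
import Pool.Agent.Helper25.RB.FAL
import Pool.Agent.Helper25.RB.DIS

/-!
# The dimension of the boundaries, and the dichotomy
-/

set_option autoImplicit false

open Filter Topology Metric Set MeasureTheory

namespace Pool.Agent.Helper25.RB

open Pool.Agent.H384R2.Fatou Pool.Agent.H723R2.LSW Pool.Agent.Y282.WD Pool.Agent.Helper25.JB

/-- the boundaries of the components of large cycles are quasi self-similar -/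
theorem falconer : ∃ C : ℝ, 1 ≤ C ∧ ∀ (q : ℤ) (p : ℕ), 0 < p → T^[p] q = q →
    (∀ j : ℕ, C ≤ |((T^[j] q : ℤ) : ℝ)|) → IsCompact (frontier (FatouComponent f₀ (q : ℂ))) ∧
    ∃ a : ℝ, 0 < a ∧ ∃ r₀ : ℝ, 0 < r₀ ∧ ∀ x ∈ frontier (FatouComponent f₀ (q : ℂ)), ∀ r : ℝ, 0 < r → r ≤ r₀ →
      ∃ g : ℂ → ℂ, MapsTo g (frontier (FatouComponent f₀ (q : ℂ)))
        (frontier (FatouComponent f₀ (q : ℂ)) ∩ closedBall x r) ∧
      ∀ u ∈ frontier (FatouComponent f₀ (q : ℂ)), ∀ v ∈ frontier (FatouComponent f₀ (q : ℂ)),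
        a * r * ‖u - v‖ ≤ ‖g u - g v‖ := by
  obtain ⟨C0, hC0, hcore⟩ := core
  obtain ⟨K, hK, hdis⟩ := DIS.main
  refine ⟨C0, hC0, fun q p hp hq hn => ?_⟩
  obtain ⟨τ, L, a, b, hLd, hL0, hsm, hLb, -, -, -, -, hτ, hΨ⟩ := hcore q hn
  have hS : Sys (1 / 100000) L :=
    ⟨by norm_num, le_rfl, hLd, fun k v hv => (hLb k v hv).trans (hsm k), hL0⟩
  obtain ⟨D, hD0, hD1, hD⟩ := hdis _ L hS
  set Ψ : ℕ → ℂ → ℂ := fun k z => ((T^[k] q : ℤ) : ℂ) + τ k * Phi L k z with hΨdef
  have hΨ' := hΨ Ψ rfl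
  have hqi : ∀ i : ℕ, T^[i * p] q = q := by
    intro i
    rw [mul_comm, Function.iterate_mul]
    exact Function.iterate_fixed hq i
  have hfr : ∀ i : ℕ, Ψ (i * p) '' sphere 0 1 = frontier (FatouComponent f₀ (q : ℂ)) := by
    intro i
    have h1 := (hΨ' (i * p)).2.2.2.2.2.2
    rwa [hqi] at h1
  have hfr0 : Ψ 0 '' sphere 0 1 = frontier (FatouComponent f₀ (q : ℂ)) := by
    have := hfr 0
    rwa [zero_mul] at this
  set ρ := rho q with hρ
  have hρ0 : 0 < ρ := (Pool.Agent.Y151.WD.t_TAIL.2 _).1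
  have hτi : ∀ i : ℕ, |τ (i * p)| = ρ := fun i => by rw [hτ, hqi]
  have hτ0 : |τ 0| = ρ := by have := hτi 0; rwa [zero_mul] at this
  have hdiff : ∀ (i : ℕ) (z w : ℂ), ‖Ψ (i * p) z - Ψ (i * p) w‖ = ρ * ‖Phi L (i * p) z - Phi L (i * p) w‖ := by
    intro i z w
    have e : Ψ (i * p) z - Ψ (i * p) w = (τ (i * p) : ℂ) * (Phi L (i * p) z - Phi L (i * p) w) := by
      simp only [hΨdef]; ring
    rw [e, norm_mul, Complex.norm_real, Real.norm_eq_abs, hτi]
  have hdiff0 : ∀ (z w : ℂ), ‖Ψ 0 z - Ψ 0 w‖ = ρ * ‖Phi L 0 z - Phi L 0 w‖ := by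
    intro z w
    have e : Ψ 0 z - Ψ 0 w = (τ 0 : ℂ) * (Phi L 0 z - Phi L 0 w) := by
      simp only [hΨdef]; ring
    rw [e, norm_mul, Complex.norm_real, Real.norm_eq_abs, hτ0]
  have hcompact : IsCompact (frontier (FatouComponent f₀ (q : ℂ))) := by
    rw [← hfr0]
    exact (isCompact_sphere (0 : ℂ) 1).image_of_continuousOn ((hΨ' 0).1.mono sphere_subset_closedBall)
  -- growth of `D`
  have hDpos : ∀ n θ, 0 < D n θ := by
    intro n θ
    induction n with
    | zero => rw [hD0]; norm_num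
    | succ n ih => have := (hD1 n θ).1; linarith
  have hDlow : ∀ n θ, (3 / 2 : ℝ) ^ n ≤ D n θ := by
    intro n θ
    induction n with
    | zero => rw [hD0]; norm_num
    | succ n ih => have := (hD1 n θ).1; rw [pow_succ]; linarith
  have hDup : ∀ n m θ, D (n + m) θ ≤ 3 ^ m * D n θ := by
    intro n m θ
    induction m with
    | zero => simp
    | succ m ih =>
      have := (hD1 (n + m) θ).2
      rw [pow_succ, ← add_assoc]
      linarith
  have hpp := Real.pi_pos
  refine ⟨hcompact, 1 / (K ^ 2 * 3 ^ p * ρ), by positivity, ρ * K / 2, by positivity, fun x hx r hr hr0 => ?_⟩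
  -- the point
  rw [← hfr0] at hx
  obtain ⟨zx, hzx, hx⟩ := hx
  obtain ⟨θx, rfl⟩ : ∃ θ : ℝ, Complex.exp (θ * Complex.I) = zx := by
    rw [← Complex.range_exp_mul_I] at hzx
    exact hzx
  -- the scale
  have hex : ∃ i : ℕ, ρ * K / D (i * p) θx ≤ r := by
    obtain ⟨i, hi⟩ := pow_unbounded_of_one_lt (ρ * K / r) (by norm_num : (1 : ℝ) < 3 / 2)
    refine ⟨i, ?_⟩
    have h1 := hDpos (i * p) θx
    have h2 : (3 / 2 : ℝ) ^ i ≤ D (i * p) θx := by
      refine le_trans ?_ (hDlow (i * p) θx)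
      apply pow_le_pow_right₀ (by norm_num)
      exact Nat.le_mul_of_pos_right i hp
    rw [div_lt_iff₀ hr] at hi
    rw [div_le_iff₀ h1]
    nlinarith
  classical
  set i := Nat.find hex with hi
  have hspec : ρ * K / D (i * p) θx ≤ r := Nat.find_spec hex
  have hi0 : i ≠ 0 := by
    intro h
    rw [h, zero_mul, hD0, div_one] at hspec
    have : 0 < ρ * K := by positivity
    linarith
  obtain ⟨i', hi'⟩ : ∃ i', i = i' + 1 := ⟨i - 1, by omega⟩
  have hprev : r < ρ * K / D (i' * p) θx := by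
    have := Nat.find_min hex (m := i') (by omega)
    push Not at this
    exact this
  have hDn : D (i * p) θx * r ≤ 3 ^ p * (ρ * K) := by
    have h1 := hDup (i' * p) p θx
    have e : i' * p + p = i * p := by rw [hi']; ring
    rw [e] at h1
    have h2 := hDpos (i' * p) θx
    rw [lt_div_iff₀ h2] at hprev
    calc D (i * p) θx * r ≤ 3 ^ p * D (i' * p) θx * r := by gcongr
      _ = 3 ^ p * (r * D (i' * p) θx) := by ring
      _ ≤ 3 ^ p * (ρ * K) := by gcongr
  set n := i * p with hn'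
  -- the angles
  set N : ℝ := 2 ^ n with hN
  have hN0 : 0 < N := by positivity
  set k0 : ℤ := ⌊θx * N / (2 * Real.pi)⌋ with hk0
  have hk1 : 2 * Real.pi * k0 ≤ θx * N := by
    have := Int.floor_le (θx * N / (2 * Real.pi))
    rw [le_div_iff₀ (by positivity)] at this
    linarith
  have hk2 : θx * N < 2 * Real.pi * k0 + 2 * Real.pi := by
    have := Int.lt_floor_add_one (θx * N / (2 * Real.pi))
    rw [div_lt_iff₀ (by positivity)] at this
    linarith
  have hang : ∀ u : ℂ, ∃ φ : ℝ, 0 ≤ φ ∧ φ ≤ 2 * Real.pi ∧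
      (u ∈ frontier (FatouComponent f₀ (q : ℂ)) → Ψ n (Complex.exp (φ * Complex.I)) = u) := by
    intro u
    by_cases hu : u ∈ frontier (FatouComponent f₀ (q : ℂ))
    · have hu' := hu
      rw [← hfr i] at hu'
      obtain ⟨z, hz, hzu⟩ := hu'
      have hper : Function.Periodic (fun θ : ℝ => Complex.exp (θ * Complex.I)) (2 * Real.pi) := by
        intro t
        show Complex.exp (((t + 2 * Real.pi : ℝ) : ℂ) * Complex.I) = Complex.exp (t * Complex.I)
        push_cast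
        rw [add_mul, Complex.exp_add, Complex.exp_two_pi_mul_I, mul_one]
      have h1 : z ∈ (fun θ : ℝ => Complex.exp (θ * Complex.I)) '' Icc 0 (0 + 2 * Real.pi) := by
        rw [hper.image_Icc (by positivity) 0]
        rw [← Complex.range_exp_mul_I] at hz
        exact hz
      obtain ⟨φ, hφ, hφz⟩ := h1
      refine ⟨φ, hφ.1, by have := hφ.2; linarith, fun _ => ?_⟩
      have : Complex.exp (φ * Complex.I) = z := hφz
      rw [this]
      exact hzu
    · exact ⟨0, le_rfl, by positivity, fun h => absurd h hu⟩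
  choose φ hφ0 hφ1 hφ using hang
  set Θ : ℂ → ℝ := fun u => (2 * Real.pi * k0 + φ u) / N with hΘ
  have hΘx : ∀ u, |Θ u - θx| ≤ 2 * Real.pi / 2 ^ n := by
    intro u
    rw [abs_le]
    have e : Θ u - θx = (2 * Real.pi * k0 + φ u - θx * N) / N := by
      simp only [hΘ]; field_simp
    rw [e]
    have h1 := hφ0 u
    have h2 := hφ1 u
    constructor
    · rw [le_div_iff₀ hN0, ← hN]
      have : -(2 * Real.pi / N) * N = -(2 * Real.pi) := by field_simp
      rw [this]; linarith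
    · rw [← hN]
      gcongr
      linarith
  have hΘΘ : ∀ u v, |Θ u - Θ v| ≤ 2 * Real.pi / 2 ^ n := by
    intro u v
    have e : Θ u - Θ v = (φ u - φ v) / N := by
      simp only [hΘ]; field_simp; ring
    rw [e, abs_div, abs_of_pos hN0, ← hN]
    gcongr
    rw [abs_le]
    constructor <;> linarith [hφ0 u, hφ1 u, hφ0 v, hφ1 v]
  have hexp : ∀ u, Complex.exp (Θ u * Complex.I) ^ (2 ^ n) = Complex.exp (φ u * Complex.I) := by
    intro u
    rw [← Complex.exp_nat_mul]
    have e : ((2 ^ n : ℕ) : ℂ) * ((Θ u : ℂ) * Complex.I) = φ u * Complex.I + k0 * (2 * Real.pi * Complex.I) := by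
      simp only [hΘ, hN]
      push_cast
      field_simp
      ring
    rw [e, Complex.exp_add]
    rw [Complex.exp_int_mul_two_pi_mul_I, mul_one]
  refine ⟨fun u => Ψ 0 (Complex.exp (Θ u * Complex.I)), fun u hu => ⟨?_, ?_⟩, fun u hu v hv => ?_⟩
  · rw [← hfr0]
    refine ⟨_, ?_, rfl⟩
    rw [mem_sphere, dist_zero_right, Complex.norm_exp_ofReal_mul_I]
  · rw [mem_closedBall, dist_eq_norm, ← hx, hdiff0]
    have h1 := (hD n (Θ u) θx θx (hΘx u) (hΘx u) (by rw [sub_self, abs_zero]; positivity)).2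
    have h2 := hDpos n θx
    calc ρ * ‖Phi L 0 (Complex.exp (Θ u * Complex.I)) - Phi L 0 (Complex.exp (θx * Complex.I))‖
        ≤ ρ * (K / D n θx) := by
          gcongr
          rw [le_div_iff₀ h2]
          exact h1
      _ = ρ * K / D n θx := by ring
      _ ≤ r := hspec
  · have h1 := (hD n (Θ u) (Θ v) θx (hΘΘ u v) (hΘx u) (hΘx v)).1
    rw [hexp, hexp] at h1
    have h2 : ‖u - v‖ = ρ * ‖Phi L n (Complex.exp (φ u * Complex.I)) - Phi L n (Complex.exp (φ v * Complex.I))‖ := by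
      rw [← hdiff i, ← hn', hφ u hu, hφ v hv]
    have h3 := hdiff0 (Complex.exp (Θ u * Complex.I)) (Complex.exp (Θ v * Complex.I))
    rw [h3, h2]
    set X := ‖Phi L n (Complex.exp (φ u * Complex.I)) - Phi L n (Complex.exp (φ v * Complex.I))‖ with hX
    set Y := ‖Phi L 0 (Complex.exp (Θ u * Complex.I)) - Phi L 0 (Complex.exp (Θ v * Complex.I))‖ with hY
    have hY0 : 0 ≤ Y := norm_nonneg _
    rw [div_mul_eq_mul_div, one_mul, div_mul_eq_mul_div, div_le_iff₀ (by positivity)]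
    calc r * (ρ * X) ≤ r * (ρ * (K * D n θx * Y)) := by gcongr
      _ = (D n θx * r) * (ρ * K * Y) := by ring
      _ ≤ (3 ^ p * (ρ * K)) * (ρ * K * Y) := by gcongr
      _ = ρ * Y * (K ^ 2 * 3 ^ p * ρ) := by ring

/-- **The dichotomy.** -/
theorem dichotomy : ∃ C : ℝ, 1 ≤ C ∧ ∀ n : ℤ, (∀ j : ℕ, C ≤ |((T^[j] n : ℤ) : ℝ)|) → ¬ Wild n →
    ¬ dimH (frontier (FatouComponent f₀ (n : ℂ))) ≤ 1 := by
  obtain ⟨C1, hC1, h1⟩ := periodic
  obtain ⟨C2, hC2, h2⟩ := falconer
  obtain ⟨C3, hC3, hcore⟩ := core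
  refine ⟨max C1 (max C2 C3), le_max_of_le_left hC1, fun n hn hw hdim => ?_⟩
  obtain ⟨k, p, q, hp, hq, hk⟩ := tame_hits hw
  have hq' : ∀ j : ℕ, max C1 (max C2 C3) ≤ |((T^[j] q : ℤ) : ℝ)| := by
    intro j
    rw [← hk, ← Function.iterate_add_apply]
    exact hn _
  -- transfer of the dimension
  obtain ⟨τ, L, a, b, -, -, -, -, -, -, -, -, -, hΨ⟩ :=
    hcore n fun j => ((le_max_right _ _).trans (le_max_right _ _)).trans (hn j)
  have hΨ' := hΨ _ rfl
  have htrans : ∀ j : ℕ, dimH (frontier (FatouComponent f₀ ((T^[j] n : ℤ) : ℂ))) ≤ 1 := by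
    intro j
    induction j with
    | zero => exact hdim
    | succ j ih =>
      have hsub : frontier (FatouComponent f₀ ((T^[j + 1] n : ℤ) : ℂ)) ⊆
          f₀ '' frontier (FatouComponent f₀ ((T^[j] n : ℤ) : ℂ)) := by
        rw [← (hΨ' j).2.2.2.2.2.2, ← (hΨ' (j + 1)).2.2.2.2.2.2]
        rintro _ ⟨z, hz, rfl⟩
        obtain ⟨w, hw⟩ : ∃ w : ℂ, w ^ 2 = z := IsAlgClosed.exists_pow_nat_eq z (by norm_num)
        have hw1 : ‖w‖ = 1 := by
          rw [mem_sphere, dist_zero_right, ← hw, norm_pow] at hz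
          have := norm_nonneg w
          nlinarith
        refine ⟨_, ⟨w, by rw [mem_sphere, dist_zero_right, hw1], rfl⟩, ?_⟩
        rw [(hΨ' j).2.2.2.1 w hw1.le, hw]
      have hbdd : Bornology.IsBounded (frontier (FatouComponent f₀ ((T^[j] n : ℤ) : ℂ))) := by
        rw [← (hΨ' j).2.2.2.2.2.2]
        exact ((isCompact_sphere (0 : ℂ) 1).image_of_continuousOn
          ((hΨ' j).1.mono sphere_subset_closedBall)).isBounded
      obtain ⟨K, hK⟩ := lip_f₀ hbdd
      exact (dimH_mono hsub).trans ((hK.dimH_image_le).trans ih)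
  have hdq : dimH (frontier (FatouComponent f₀ (q : ℂ))) ≤ 1 := by
    have := htrans k
    rwa [hk] at this
  obtain ⟨hcomp, a', ha', r₀, hr₀, hfal⟩ := h2 q p hp hq
    fun j => ((le_max_left _ _).trans (le_max_right _ _)).trans (hq' j)
  exact h1 q p hp hq (fun j => (le_max_left _ _).trans (hq' j))
    (FAL.main _ a' r₀ hcomp ha' hr₀ hfal hdq)

end Pool.Agent.Helper25.RB
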