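import Mathlib

/-!
# Statements on Hausdorff dimension
-/

set_option autoImplicit false

open Filter Topology Metric Set MeasureTheory

namespace Pool.Agent.Helper25.RB

/-- PRE: preimages under entire functions do not have larger dimension -/
def S_PRE : Prop := ∀ (g : ℂ → ℂ) (E : Set ℂ), Differentiable ℂ g → (∃ z, deriv g z ≠ 0) →
  dimH (g ⁻¹' E) ≤ dimH E

/-- LOW: the frontier of an open set with nonempty exterior has dimension at least one -/
def S_LOW : Prop := ∀ V : Set ℂ, IsOpen V → V.Nonempty → (interior Vᶜ).Nonempty → 1 ≤ dimH (frontier V)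

end Pool.Agent.Helper25.RB
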