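import Pool.Agent.Helper25.RB.FinC
import Pool.Agent.Helper25.RB.FOR
import Pool.Agent.Helper25.RB.Stm5

/-!
# The regularity of the boundaries of the wandering components
-/

set_option autoImplicit false

open Filter Topology Metric Set MeasureTheory

namespace Pool.Agent.Helper25.RB

open Pool.Agent.H384R2.Fatou Pool.Agent.H723R2.LSW Pool.Agent.Y282.WD Pool.Agent.Helper25.JB

theorem GG_zero (L : ℕ → ℂ → ℂ) (h0 : psi L 0 0 = 0) : GG L 0 = 1 := by
  have h1 : ∀ i : ℕ, ell L i (Phi L i ((0 : ℂ) ^ (2 ^ i))) = 0 := by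
    intro i
    rw [zero_pow (by positivity)]
    simp [Phi, ell]
  simp only [GG, h1, h0, tsum_zero, sub_zero, Complex.exp_zero]

theorem bt_le {m : ℤ} (h : 1 ≤ |(m : ℝ)|) : bt m ≤ 4 * |(m : ℝ)| := by
  unfold bt
  have h1 : |(m : ℝ) + 1 / 2| ≤ |(m : ℝ)| + 1 / 2 := by
    refine (abs_add_le _ _).trans ?_
    rw [abs_of_pos (by norm_num : (0 : ℝ) < 1 / 2)]
  have h2 : Real.pi ^ 2 / 4 ≤ 5 / 2 := by
    have := Real.pi_lt_d2
    have := Real.pi_pos
    nlinarith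
  calc Real.pi ^ 2 / 4 * |(m : ℝ) + 1 / 2| ≤ 5 / 2 * (|(m : ℝ)| + 1 / 2) := by gcongr
    _ ≤ 4 * |(m : ℝ)| := by linarith

theorem wandering (hLIP : S_LIP) (hHOL : S_HOL) (hGR1 : S_GR1) (hSEQ : S_SEQ) (hSUM : S_SUM) :
    ∃ C : ℝ, 1 ≤ C ∧ ∀ n : ℤ, (∀ j : ℕ, C ≤ |((T^[j] n : ℤ) : ℝ)|) → Wild n →
    ∃ Ψ Ψ' : ℂ → ℂ, ContinuousOn Ψ (closedBall 0 1) ∧ InjOn Ψ (closedBall 0 1) ∧
      Ψ '' ball 0 1 = FatouComponent f₀ (n : ℂ) ∧ Ψ '' closedBall 0 1 = closure (FatouComponent f₀ (n : ℂ)) ∧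
      Ψ '' sphere 0 1 = frontier (FatouComponent f₀ (n : ℂ)) ∧ Ψ 0 = n ∧ ‖Ψ' 0‖ = rho n ∧
      ContinuousOn Ψ' (closedBall 0 1) ∧ (∀ z ∈ closedBall (0 : ℂ) 1, Ψ' z ≠ 0) ∧
      (∀ z ∈ ball (0 : ℂ) 1, HasDerivAt Ψ (Ψ' z) z) ∧
      (∀ M : ℝ, C ≤ M → (∀ j : ℕ, M ≤ |((T^[j] n : ℤ) : ℝ)|) →
        ∀ z ∈ closedBall (0 : ℂ) 1, ‖Ψ' z - Ψ' 0‖ ≤ C / M * ‖Ψ' 0‖) ∧
      ∀ α : ℝ, 0 < α → α < 1 →
        ((∃ K : ℝ, ∀ z ∈ closedBall (0 : ℂ) 1, ∀ z' ∈ closedBall (0 : ℂ) 1,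
          ‖Ψ' z - Ψ' z'‖ ≤ K * ‖z - z'‖ ^ α) ↔
        ∃ c : ℝ, 0 < c ∧ ∀ j : ℕ, c * (2 : ℝ) ^ (α * j / 2) ≤ |((T^[j] n : ℤ) : ℝ)|) := by
  obtain ⟨C0, hC0, hcore⟩ := core
  refine ⟨1000000 * C0, by linarith, fun n hn hw => ?_⟩
  obtain ⟨τ, L, a, b, hLd, hL0, hsm, hLb, ha, hb, hL2, hmain, hτ, hΨ⟩ := hcore n fun j => by linarith [hn j]
  have hS : Sys (1 / 100000) L :=
    ⟨by norm_num, le_rfl, hLd, fun k v hv => (hLb k v hv).trans (hsm k), hL0⟩
  have hx1 : ∀ k : ℕ, 1 ≤ |((T^[k] n : ℤ) : ℝ)| := fun k => by linarith [hn k]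
  have hbt : ∀ k : ℕ, |((T^[k] n : ℤ) : ℝ)| ≤ bt (T^[k] n) := fun k => bt_ge (hx1 k) le_rfl
  have hbt0 : ∀ k : ℕ, 0 < bt (T^[k] n) := fun k => by linarith [hbt k, hx1 k]
  set w : ℕ → ℝ := fun k => C0 / bt (T^[k] n) ^ 2 with hwdef
  have hw0 : ∀ k, 0 < w k := fun k => by
    have := hbt0 k
    simp only [hwdef]; positivity
  have hinj : Function.Injective fun k : ℕ => T^[k] n := fun i j h => hw i j h
  have hwle : ∀ k, w k ≤ C0 * (1 / ((T^[k] n : ℤ) : ℝ) ^ 2) := by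
    intro k
    have h3 : 0 < |((T^[k] n : ℤ) : ℝ)| := by linarith [hx1 k]
    simp only [hwdef]
    rw [mul_one_div, ← sq_abs ((T^[k] n : ℤ) : ℝ)]
    have h4 := hbt k
    gcongr
  have hsumM : ∀ M : ℝ, 1 ≤ M → (∀ j : ℕ, M ≤ |((T^[j] n : ℤ) : ℝ)|) → Summable w ∧ ∑' k, w k ≤ 8 * C0 / M := by
    intro M hM hj
    obtain ⟨h1, h2⟩ := hSUM (fun k => T^[k] n) M hinj hM hj
    have h3 : Summable w := Summable.of_nonneg_of_le (fun k => (hw0 k).le) hwle (h1.mul_left C0)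
    refine ⟨h3, (h3.tsum_le_tsum hwle (h1.mul_left C0)).trans ?_⟩
    rw [tsum_mul_left]
    calc C0 * ∑' j, 1 / ((T^[j] n : ℤ) : ℝ) ^ 2 ≤ C0 * (8 / M) := by gcongr
      _ = 8 * C0 / M := by ring
  obtain ⟨hsum, hsmall⟩ := hsumM (1000000 * C0) (by linarith) hn
  have hW : WSys w L := ⟨hS, fun k => (hw0 k).le, hsum, by
    refine hsmall.trans ?_
    rw [div_le_div_iff₀ (by positivity) (by norm_num)]
    linarith, hLb⟩
  obtain ⟨hGc, hGs, hGd⟩ := FOR.main hS hsum hLb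
  obtain ⟨hc0, hi0, -, -, h3, h4, h5⟩ := hΨ _ rfl 0
  have hρ : 0 < |τ 0| := by
    rw [hτ]
    exact (Pool.Agent.Y151.WD.t_TAIL.2 _).1
  have hτ0 : (τ 0 : ℂ) ≠ 0 := by
    intro h
    have : τ 0 = 0 := by exact_mod_cast h
    rw [this, abs_zero] at hρ
    exact lt_irrefl _ hρ
  have hτn : ‖(τ 0 : ℂ)‖ = |τ 0| := by rw [Complex.norm_real, Real.norm_eq_abs]
  have hpsi0 : psi L 0 0 = 0 := (DER.spec hS 0).2.1
  have hG1 : GG L 0 = 1 := GG_zero L hpsi0
  refine ⟨fun z => ((T^[0] n : ℤ) : ℂ) + τ 0 * Phi L 0 z, fun z => τ 0 * GG L z, hc0, hi0, h3, h4, h5, ?_, ?_,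
    continuousOn_const.mul hGc, fun z hz => mul_ne_zero hτ0 (Complex.exp_ne_zero _),
    fun z hz => ((hGd z hz).const_mul _).const_add _, ?_, ?_⟩
  · show ((T^[0] n : ℤ) : ℂ) + τ 0 * Phi L 0 0 = n
    simp [Phi]
  · show ‖(τ 0 : ℂ) * GG L 0‖ = rho n
    rw [hG1, mul_one, hτn, hτ]
    rfl
  · intro M hCM hj z hz
    have hM0 : 0 < M := by linarith
    obtain ⟨-, hM⟩ := hsumM M (by linarith) hj
    have hz' : ‖z‖ ≤ 1 := by simpa using hz
    have e : (τ 0 : ℂ) * GG L z - τ 0 * GG L 0 = τ 0 * (GG L z - 1) := by rw [hG1]; ring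
    show ‖(τ 0 : ℂ) * GG L z - τ 0 * GG L 0‖ ≤ 1000000 * C0 / M * ‖(τ 0 : ℂ) * GG L 0‖
    rw [e, hG1, mul_one, norm_mul]
    have h6 : ‖psi L 0 z‖ ≤ 4 * ∑' k, w k := by
      have h7 := hLIP w L hW 0 z 0 hz' (by simp)
      rw [hpsi0, sub_zero, sub_zero] at h7
      simp only [zero_add] at h7
      refine h7.trans ?_
      have h8 : 0 ≤ ∑' k, w k := tsum_nonneg fun k => (hw0 k).le
      calc 4 * (∑' k, w k) * ‖z‖ ≤ 4 * (∑' k, w k) * 1 := by gcongr
        _ = _ := by ring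
    have h7 := hGs z hz
    have h8 : ‖psi L 0 z - ∑' i, ell L i (Phi L i (z ^ (2 ^ i)))‖ ≤ 56 * C0 / M := by
      refine (norm_sub_le _ _).trans ?_
      calc _ ≤ 4 * (∑' k, w k) + 3 * ∑' k, w k := add_le_add h6 h7
        _ = 7 * ∑' k, w k := by ring
        _ ≤ 7 * (8 * C0 / M) := by gcongr
        _ = _ := by ring
    have h9 : 56 * C0 / M ≤ 1 := by
      rw [div_le_one hM0]; linarith
    have h10 := Complex.norm_exp_sub_one_le (x := psi L 0 z - ∑' i, ell L i (Phi L i (z ^ (2 ^ i))))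
      (h8.trans h9)
    have h11 : ‖GG L z - 1‖ ≤ 1000000 * C0 / M := by
      refine h10.trans ?_
      calc 2 * ‖psi L 0 z - ∑' i, ell L i (Phi L i (z ^ (2 ^ i)))‖ ≤ 2 * (56 * C0 / M) := by gcongr
        _ = 112 * C0 / M := by ring
        _ ≤ 1000000 * C0 / M := by gcongr; norm_num
    rw [mul_comm]
    gcongr
  · intro α hα0 hα1
    constructor
    · rintro ⟨K, hK⟩
      have hK' : ∀ z z' : ℂ, ‖z‖ = 1 → ‖z'‖ = 1 → ‖GG L z - GG L z'‖ ≤ K / |τ 0| * ‖z - z'‖ ^ α := by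
        intro z z' hz hz'
        have h1 := hK z (by simpa using hz.le) z' (by simpa using hz'.le)
        have e : (τ 0 : ℂ) * GG L z - τ 0 * GG L z' = τ 0 * (GG L z - GG L z') := by ring
        rw [e, norm_mul, hτn] at h1
        rw [div_mul_eq_mul_div, le_div_iff₀ hρ]
        linarith
      obtain ⟨K1, hK10, hK1⟩ := hGR1 w L a b hW ha hb hL2 α (K / |τ 0|) hα0 hα1 hK'
      have hκ : ∀ j : ℕ, 1 / (4 * C0) * w (j + 1) ≤ ‖a (j + 1) / 2 + b j‖ := by
        intro j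
        refine le_trans (le_of_eq ?_) (hmain j)
        simp only [hwdef]
        field_simp
      obtain ⟨K2, hK2⟩ := hSEQ w α K1 (1 / (4 * C0)) (fun j => (hw0 j).le) hsum hα0 hα1 (by positivity) hK10
        (fun j => (hκ j).trans (hK1 j))
      have hK20 : 0 < K2 := by
        have h6 := hK2 0
        have h7 := hw0 0
        simp only [Nat.cast_zero, mul_zero, neg_zero, Real.rpow_zero, mul_one] at h6
        linarith
      refine ⟨Real.sqrt (C0 / K2) / 4, by positivity, fun j => ?_⟩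
      have h6 := hK2 j
      have h7 := hbt0 j
      have h8 := bt_le (hx1 j)
      simp only [hwdef] at h6
      have hpow : (0 : ℝ) < 2 ^ (α * j) := by positivity
      rw [Real.rpow_neg (by norm_num), ← div_eq_mul_inv, div_le_div_iff₀ (by positivity) hpow] at h6
      have h9 : (Real.sqrt (C0 / K2) * (2 : ℝ) ^ (α * j / 2)) ^ 2 ≤ bt (T^[j] n) ^ 2 := by
        rw [mul_pow, Real.sq_sqrt (by positivity), ← Real.rpow_natCast, ← Real.rpow_mul (by norm_num)]
        have e : α * (j : ℝ) / 2 * ((2 : ℕ) : ℝ) = α * j := by push_cast; ring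
        rw [e, div_mul_eq_mul_div, div_le_iff₀ hK20]
        linarith
      have h10 := abs_le_of_sq_le_sq' h9 h7.le
      have h11 := h10.2
      linarith
    · rintro ⟨c, hc, hcj⟩
      have h6 : ∀ j : ℕ, w j ≤ C0 / c ^ 2 * (2 : ℝ) ^ (-(α * j)) := by
        intro j
        have h7 := hcj j
        have h8 : (c * (2 : ℝ) ^ (α * j / 2)) ^ 2 ≤ |((T^[j] n : ℤ) : ℝ)| ^ 2 := by gcongr
        have e : (c * (2 : ℝ) ^ (α * j / 2)) ^ 2 = c ^ 2 * (2 : ℝ) ^ (α * j) := by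
          rw [mul_pow, ← Real.rpow_natCast ((2 : ℝ) ^ (α * j / 2)), ← Real.rpow_mul (by norm_num)]
          congr 2
          push_cast; ring
        rw [e, sq_abs] at h8
        refine (hwle j).trans ?_
        have hpow : (0 : ℝ) < 2 ^ (α * j) := by positivity
        rw [Real.rpow_neg (by norm_num), mul_one_div, ← div_eq_mul_inv, div_div]
        gcongr
      obtain ⟨K', hK'⟩ := hHOL w L hW α _ hα0 hα1 h6
      refine ⟨|τ 0| * K', fun z hz z' hz' => ?_⟩
      have e : (τ 0 : ℂ) * GG L z - τ 0 * GG L z' = τ 0 * (GG L z - GG L z') := by ring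
      rw [e, norm_mul, hτn, mul_assoc]
      gcongr
      exact hK' z z' (by simpa using hz) (by simpa using hz')

/-- the boundary of every wandering component which contains an integer has dimension one -/
theorem dim_wander (hPRE : S_PRE) (hLOW : S_LOW) (n : ℤ) (hw : Wild n) :
    dimH (frontier (FatouComponent f₀ (n : ℂ))) = 1 := by
  obtain ⟨C, hC, hs⟩ := smooth
  -- a late time
  obtain ⟨k, hk⟩ := ((wild_tendsto hw).eventually (eventually_ge_atTop C)).exists_forall_of_atTop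
  have hw' : Wild (T^[k] n) := by
    intro i j h
    rw [← Function.iterate_add_apply, ← Function.iterate_add_apply] at h
    have := hw _ _ h
    omega
  obtain ⟨Ψ, G, hΨc, hΨi, h1, h2, h3, h0, hG, hG0, hGd⟩ := hs (T^[k] n) (fun j => by
    rw [← Function.iterate_add_apply]
    exact hk _ (by omega)) hw'
  have hdk : dimH (frontier (FatouComponent f₀ ((T^[k] n : ℤ) : ℂ))) ≤ 1 := by
    have h4 := (smooth_curve hΨc hΨi hG hG0 hGd).length
    rw [h3] at h4
    have h5 := dimH_le_of_hausdorffMeasure_ne_top (d := 1) (by exact_mod_cast h4.ne)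
    simpa using h5
  apply le_antisymm
  · -- the preimage
    have hsub : frontier (FatouComponent f₀ (n : ℂ)) ⊆
        (f₀^[k]) ⁻¹' frontier (FatouComponent f₀ ((T^[k] n : ℤ) : ℂ)) := by
      intro z hz
      have hUo := component_isOpen f₀ (n : ℂ)
      have hcont : Continuous (f₀^[k]) := (f₀_differentiable.iterate k).continuous
      rw [hUo.frontier_eq] at hz
      rw [mem_preimage, (component_isOpen f₀ _).frontier_eq]
      have himg : f₀^[k] '' FatouComponent f₀ (n : ℂ) ⊆ FatouComponent f₀ ((T^[k] n : ℤ) : ℂ) := by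
        rintro _ ⟨x, hx, rfl⟩
        exact f₀_iter_mem n k hx
      refine ⟨?_, fun hmem => ?_⟩
      · exact closure_mono himg (image_closure_subset_closure_image hcont ⟨z, hz.1, rfl⟩)
      · -- then `z` is in the Fatou set
        have hzF : z ∈ FatouSet f₀ := back_iter k (connectedComponentIn_subset _ _ hmem)
        apply hz.2
        -- the component of `z` is open and meets the component of `n`
        obtain ⟨y, hy1, hy2⟩ := mem_closure_iff.1 hz.1 _ (component_isOpen f₀ z) (mem_connectedComponentIn hzF)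
        have e1 : FatouComponent f₀ z = FatouComponent f₀ y := connectedComponentIn_eq hy1
        have e2 : FatouComponent f₀ (n : ℂ) = FatouComponent f₀ y := connectedComponentIn_eq hy2
        rw [e2, ← e1]
        exact mem_connectedComponentIn hzF
    refine (dimH_mono hsub).trans ((hPRE (f₀^[k]) _ (f₀_differentiable.iterate k) ?_).trans hdk)
    by_contra hcon
    push Not at hcon
    have h5 := is_const_of_deriv_eq_zero (f₀_differentiable.iterate k) hcon (n : ℂ) ((T^[1] n : ℤ) : ℂ)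
    rw [f₀_iter, f₀_iter] at h5
    have h6 : T^[k] n = T^[k] (T^[1] n) := by exact_mod_cast h5
    rw [← Function.iterate_add_apply] at h6
    have := hw _ _ h6
    omega
  · apply hLOW _ (component_isOpen f₀ _) ⟨_, mem_connectedComponentIn (int_mem_fatou _)⟩
    refine ⟨((T^[1] n : ℤ) : ℂ), mem_interior.2 ⟨FatouComponent f₀ ((T^[1] n : ℤ) : ℂ), ?_,
      component_isOpen f₀ _, mem_connectedComponentIn (int_mem_fatou _)⟩⟩
    intro y hy1 hy2
    have e1 : FatouComponent f₀ ((T^[1] n : ℤ) : ℂ) = FatouComponent f₀ y := connectedComponentIn_eq hy1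
    have e2 : FatouComponent f₀ (n : ℂ) = FatouComponent f₀ y := connectedComponentIn_eq hy2
    refine no_return hw (p := 1) one_pos ?_
    rw [e2, ← e1]
    exact mem_connectedComponentIn (int_mem_fatou _)

end Pool.Agent.Helper25.RB
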