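import Pool.Agent.Helper25.RB.FinD
import Pool.Agent.Helper25.JB.Fin

/-!
# Everything for the Riemann maps, in one statement
-/

set_option autoImplicit false

open Filter Topology Metric Set MeasureTheory

namespace Pool.Agent.Helper25.RB

open Pool.Agent.H384R2.Fatou Pool.Agent.H723R2.LSW Pool.Agent.Y282.WD Pool.Agent.Helper25.JB

theorem maps_all (hLIP : S_LIP) (hHOL : S_HOL) (hGR1 : S_GR1) (hSEQ : S_SEQ) (hSUM : S_SUM) :
    ∃ C : ℝ, 1 ≤ C ∧ ∀ n : ℤ, (∀ j : ℕ, C ≤ |((T^[j] n : ℤ) : ℝ)|) →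
    ∃ (τ : ℕ → ℝ) (Ψ : ℕ → ℂ → ℂ), (∀ k : ℕ,
      |τ k| = rho (T^[k] n) ∧ HasDerivAt (Ψ k) (τ k : ℂ) 0 ∧ Ψ k 0 = ((T^[k] n : ℤ) : ℂ) ∧
      ContinuousOn (Ψ k) (closedBall 0 1) ∧ InjOn (Ψ k) (closedBall 0 1) ∧
      DifferentiableOn ℂ (Ψ k) (ball 0 1) ∧
      (∀ z : ℂ, ‖z‖ ≤ 1 → f₀ (Ψ k z) = Ψ (k + 1) (z ^ 2)) ∧
      Ψ k '' ball 0 1 = FatouComponent f₀ ((T^[k] n : ℤ) : ℂ) ∧
      Ψ k '' closedBall 0 1 = closure (FatouComponent f₀ ((T^[k] n : ℤ) : ℂ)) ∧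
      Ψ k '' sphere 0 1 = frontier (FatouComponent f₀ ((T^[k] n : ℤ) : ℂ)) ∧
      ∀ M : ℝ, C ≤ M → (∀ j : ℕ, M ≤ |((T^[k + j] n : ℤ) : ℝ)|) →
        ∀ z : ℂ, ‖z‖ ≤ 1 →
          ‖Ψ k z - (((T^[k] n : ℤ) : ℂ) + τ k * z)‖ ≤ C / M ^ 2 * rho (T^[k] n) * ‖z‖) ∧
    (Wild n → ∃ Ψ' : ℂ → ℂ,
      ContinuousOn Ψ' (closedBall 0 1) ∧ (∀ z ∈ closedBall (0 : ℂ) 1, Ψ' z ≠ 0) ∧
      (∀ z ∈ ball (0 : ℂ) 1, HasDerivAt (Ψ 0) (Ψ' z) z) ∧
      (∀ M : ℝ, C ≤ M → (∀ j : ℕ, M ≤ |((T^[j] n : ℤ) : ℝ)|) →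
        ∀ z ∈ closedBall (0 : ℂ) 1, ‖Ψ' z - Ψ' 0‖ ≤ C / M * ‖Ψ' 0‖) ∧
      ∀ α : ℝ, 0 < α → α < 1 →
        ((∃ K : ℝ, ∀ z ∈ closedBall (0 : ℂ) 1, ∀ z' ∈ closedBall (0 : ℂ) 1,
          ‖Ψ' z - Ψ' z'‖ ≤ K * ‖z - z'‖ ^ α) ↔
        ∃ c : ℝ, 0 < c ∧ ∀ j : ℕ, c * (2 : ℝ) ^ (α * j / 2) ≤ |((T^[j] n : ℤ) : ℝ)|)) := by
  obtain ⟨C0, hC0, hcore⟩ := core
  refine ⟨1000000 * C0, by linarith, fun n hn => ?_⟩
  obtain ⟨τ, L, a, b, hLd, hL0, hsm, hLb, ha, hb, hL2, hmain, hτ, hΨ⟩ := hcore n fun j => by linarith [hn j]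
  have hS : Sys (1 / 100000) L :=
    ⟨by norm_num, le_rfl, hLd, fun k v hv => (hLb k v hv).trans (hsm k), hL0⟩
  have hx1 : ∀ k : ℕ, 1 ≤ |((T^[k] n : ℤ) : ℝ)| := fun k => by linarith [hn k]
  have hbt : ∀ k : ℕ, |((T^[k] n : ℤ) : ℝ)| ≤ bt (T^[k] n) := fun k => bt_ge (hx1 k) le_rfl
  have hbt0 : ∀ k : ℕ, 0 < bt (T^[k] n) := fun k => by linarith [hbt k, hx1 k]
  have hMaps : Maps (1 / 100000) L (Phi L) := maps_Phi (by norm_num) (by norm_num) hLd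
    (fun k v hv => (hLb k v hv).trans (hsm k)) hL0
  refine ⟨τ, fun k z => ((T^[k] n : ℤ) : ℂ) + τ k * Phi L k z, fun k => ?_, fun hw => ?_⟩
  · obtain ⟨hc, hi, hd, hf, h3, h4, h5⟩ := hΨ _ rfl k
    refine ⟨hτ k, ?_, ?_, hc, hi, hd, hf, h3, h4, h5, fun M hCM hj z hz => ?_⟩
    · have h1 := ((hMaps.der k).const_mul (τ k : ℂ)).const_add ((T^[k] n : ℤ) : ℂ)
      rw [mul_one] at h1
      exact h1
    · show ((T^[k] n : ℤ) : ℂ) + τ k * Phi L k 0 = _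
      rw [zero hMaps k, mul_zero, add_zero]
    · have hM0 : 0 < M := by linarith
      have hM1 : 1 ≤ M := by linarith
      have h0 : 0 ≤ C0 / M ^ 2 := by positivity
      have h1 : C0 / M ^ 2 ≤ 1 / 40 := by
        rw [div_le_div_iff₀ (by positivity) (by norm_num)]
        nlinarith
      have hM' : Maps (C0 / M ^ 2) (fun i => L (i + k)) (Phi fun i => L (i + k)) := by
        refine maps_Phi h0 h1 (fun i => hLd (i + k)) (fun i v hv => ?_) (fun i => hL0 (i + k))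
        refine (hLb (i + k) v hv).trans ?_
        have h2 : M ≤ bt (T^[i + k] n) := by
          have h3 := hj i
          rw [add_comm] at h3
          exact h3.trans (hbt (i + k))
        gcongr
      have hPhi : Phi (fun i => L (i + k)) 0 = Phi L k := by rw [Phi_shift, zero_add]
      have h2 := hM'.near 0 z hz
      rw [hPhi] at h2
      have e : ((T^[k] n : ℤ) : ℂ) + τ k * Phi L k z - (((T^[k] n : ℤ) : ℂ) + τ k * z) =
          τ k * (Phi L k z - z) := by ring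
      show ‖((T^[k] n : ℤ) : ℂ) + τ k * Phi L k z - (((T^[k] n : ℤ) : ℂ) + τ k * z)‖ ≤ _
      rw [e, norm_mul, Complex.norm_real, Real.norm_eq_abs, hτ]
      have h3 : 0 < rho (T^[k] n) := (Pool.Agent.Y151.WD.t_TAIL.2 _).1
      calc rho (T^[k] n) * ‖Phi L k z - z‖ ≤ rho (T^[k] n) * (2 * (C0 / M ^ 2) * ‖z‖) := by gcongr
        _ = 2 * C0 / M ^ 2 * rho (T^[k] n) * ‖z‖ := by ring
        _ ≤ 1000000 * C0 / M ^ 2 * rho (T^[k] n) * ‖z‖ := by
            gcongr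
            norm_num
  set w : ℕ → ℝ := fun k => C0 / bt (T^[k] n) ^ 2 with hwdef
  have hw0 : ∀ k, 0 < w k := fun k => by
    have := hbt0 k
    simp only [hwdef]; positivity
  have hinj : Function.Injective fun k : ℕ => T^[k] n := fun i j h => hw i j h
  have hwle : ∀ k, w k ≤ C0 * (1 / ((T^[k] n : ℤ) : ℝ) ^ 2) := by
    intro k
    have h3 : 0 < |((T^[k] n : ℤ) : ℝ)| := by linarith [hx1 k]
    simp only [hwdef]
    rw [mul_one_div, ← sq_abs ((T^[k] n : ℤ) : ℝ)]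
    have h4 := hbt k
    gcongr
  have hsumM : ∀ M : ℝ, 1 ≤ M → (∀ j : ℕ, M ≤ |((T^[j] n : ℤ) : ℝ)|) → Summable w ∧ ∑' k, w k ≤ 8 * C0 / M := by
    intro M hM hj
    obtain ⟨h1, h2⟩ := hSUM (fun k => T^[k] n) M hinj hM hj
    have h3 : Summable w := Summable.of_nonneg_of_le (fun k => (hw0 k).le) hwle (h1.mul_left C0)
    refine ⟨h3, (h3.tsum_le_tsum hwle (h1.mul_left C0)).trans ?_⟩
    rw [tsum_mul_left]
    calc C0 * ∑' j, 1 / ((T^[j] n : ℤ) : ℝ) ^ 2 ≤ C0 * (8 / M) := by gcongr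
      _ = 8 * C0 / M := by ring
  obtain ⟨hsum, hsmall⟩ := hsumM (1000000 * C0) (by linarith) hn
  have hW : WSys w L := ⟨hS, fun k => (hw0 k).le, hsum, by
    refine hsmall.trans ?_
    rw [div_le_div_iff₀ (by positivity) (by norm_num)]
    linarith, hLb⟩
  obtain ⟨hGc, hGs, hGd⟩ := FOR.main hS hsum hLb
  have hρ : 0 < |τ 0| := by
    rw [hτ]
    exact (Pool.Agent.Y151.WD.t_TAIL.2 _).1
  have hτ0 : (τ 0 : ℂ) ≠ 0 := by
    intro h
    have : τ 0 = 0 := by exact_mod_cast h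
    rw [this, abs_zero] at hρ
    exact lt_irrefl _ hρ
  have hτn : ‖(τ 0 : ℂ)‖ = |τ 0| := by rw [Complex.norm_real, Real.norm_eq_abs]
  have hpsi0 : psi L 0 0 = 0 := (DER.spec hS 0).2.1
  have hG1 : GG L 0 = 1 := GG_zero L hpsi0
  refine ⟨fun z => τ 0 * GG L z,
    continuousOn_const.mul hGc, fun z hz => mul_ne_zero hτ0 (Complex.exp_ne_zero _),
    fun z hz => ((hGd z hz).const_mul _).const_add _, ?_, ?_⟩
  · intro M hCM hj z hz
    have hM0 : 0 < M := by linarith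
    obtain ⟨-, hM⟩ := hsumM M (by linarith) hj
    have hz' : ‖z‖ ≤ 1 := by simpa using hz
    have e : (τ 0 : ℂ) * GG L z - τ 0 * GG L 0 = τ 0 * (GG L z - 1) := by rw [hG1]; ring
    show ‖(τ 0 : ℂ) * GG L z - τ 0 * GG L 0‖ ≤ 1000000 * C0 / M * ‖(τ 0 : ℂ) * GG L 0‖
    rw [e, hG1, mul_one, norm_mul]
    have h6 : ‖psi L 0 z‖ ≤ 4 * ∑' k, w k := by
      have h7 := hLIP w L hW 0 z 0 hz' (by simp)
      rw [hpsi0, sub_zero, sub_zero] at h7
      simp only [zero_add] at h7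
      refine h7.trans ?_
      have h8 : 0 ≤ ∑' k, w k := tsum_nonneg fun k => (hw0 k).le
      calc 4 * (∑' k, w k) * ‖z‖ ≤ 4 * (∑' k, w k) * 1 := by gcongr
        _ = _ := by ring
    have h7 := hGs z hz
    have h8 : ‖psi L 0 z - ∑' i, ell L i (Phi L i (z ^ (2 ^ i)))‖ ≤ 56 * C0 / M := by
      refine (norm_sub_le _ _).trans ?_
      calc _ ≤ 4 * (∑' k, w k) + 3 * ∑' k, w k := add_le_add h6 h7
        _ = 7 * ∑' k, w k := by ring
        _ ≤ 7 * (8 * C0 / M) := by gcongr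
        _ = _ := by ring
    have h9 : 56 * C0 / M ≤ 1 := by
      rw [div_le_one hM0]; linarith
    have h10 := Complex.norm_exp_sub_one_le (x := psi L 0 z - ∑' i, ell L i (Phi L i (z ^ (2 ^ i))))
      (h8.trans h9)
    have h11 : ‖GG L z - 1‖ ≤ 1000000 * C0 / M := by
      refine h10.trans ?_
      calc 2 * ‖psi L 0 z - ∑' i, ell L i (Phi L i (z ^ (2 ^ i)))‖ ≤ 2 * (56 * C0 / M) := by gcongr
        _ = 112 * C0 / M := by ring
        _ ≤ 1000000 * C0 / M := by gcongr; norm_num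
    rw [mul_comm]
    gcongr
  · intro α hα0 hα1
    constructor
    · rintro ⟨K, hK⟩
      have hK' : ∀ z z' : ℂ, ‖z‖ = 1 → ‖z'‖ = 1 → ‖GG L z - GG L z'‖ ≤ K / |τ 0| * ‖z - z'‖ ^ α := by
        intro z z' hz hz'
        have h1 := hK z (by simpa using hz.le) z' (by simpa using hz'.le)
        have e : (τ 0 : ℂ) * GG L z - τ 0 * GG L z' = τ 0 * (GG L z - GG L z') := by ring
        rw [e, norm_mul, hτn] at h1
        rw [div_mul_eq_mul_div, le_div_iff₀ hρ]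
        linarith
      obtain ⟨K1, hK10, hK1⟩ := hGR1 w L a b hW ha hb hL2 α (K / |τ 0|) hα0 hα1 hK'
      have hκ : ∀ j : ℕ, 1 / (4 * C0) * w (j + 1) ≤ ‖a (j + 1) / 2 + b j‖ := by
        intro j
        refine le_trans (le_of_eq ?_) (hmain j)
        simp only [hwdef]
        field_simp
      obtain ⟨K2, hK2⟩ := hSEQ w α K1 (1 / (4 * C0)) (fun j => (hw0 j).le) hsum hα0 hα1 (by positivity) hK10
        (fun j => (hκ j).trans (hK1 j))
      have hK20 : 0 < K2 := by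
        have h6 := hK2 0
        have h7 := hw0 0
        simp only [Nat.cast_zero, mul_zero, neg_zero, Real.rpow_zero, mul_one] at h6
        linarith
      refine ⟨Real.sqrt (C0 / K2) / 4, by positivity, fun j => ?_⟩
      have h6 := hK2 j
      have h7 := hbt0 j
      have h8 := bt_le (hx1 j)
      simp only [hwdef] at h6
      have hpow : (0 : ℝ) < 2 ^ (α * j) := by positivity
      rw [Real.rpow_neg (by norm_num), ← div_eq_mul_inv, div_le_div_iff₀ (by positivity) hpow] at h6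
      have h9 : (Real.sqrt (C0 / K2) * (2 : ℝ) ^ (α * j / 2)) ^ 2 ≤ bt (T^[j] n) ^ 2 := by
        rw [mul_pow, Real.sq_sqrt (by positivity), ← Real.rpow_natCast, ← Real.rpow_mul (by norm_num)]
        have e : α * (j : ℝ) / 2 * ((2 : ℕ) : ℝ) = α * j := by push_cast; ring
        rw [e, div_mul_eq_mul_div, div_le_iff₀ hK20]
        linarith
      have h10 := abs_le_of_sq_le_sq' h9 h7.le
      have h11 := h10.2
      linarith
    · rintro ⟨c, hc, hcj⟩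
      have h6 : ∀ j : ℕ, w j ≤ C0 / c ^ 2 * (2 : ℝ) ^ (-(α * j)) := by
        intro j
        have h7 := hcj j
        have h8 : (c * (2 : ℝ) ^ (α * j / 2)) ^ 2 ≤ |((T^[j] n : ℤ) : ℝ)| ^ 2 := by gcongr
        have e : (c * (2 : ℝ) ^ (α * j / 2)) ^ 2 = c ^ 2 * (2 : ℝ) ^ (α * j) := by
          rw [mul_pow, ← Real.rpow_natCast ((2 : ℝ) ^ (α * j / 2)), ← Real.rpow_mul (by norm_num)]
          congr 2
          push_cast; ring
        rw [e, sq_abs] at h8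
        refine (hwle j).trans ?_
        have hpow : (0 : ℝ) < 2 ^ (α * j) := by positivity
        rw [Real.rpow_neg (by norm_num), mul_one_div, ← div_eq_mul_inv, div_div]
        gcongr
      obtain ⟨K', hK'⟩ := hHOL w L hW α _ hα0 hα1 h6
      refine ⟨|τ 0| * K', fun z hz z' hz' => ?_⟩
      have e : (τ 0 : ℂ) * GG L z - τ 0 * GG L z' = τ 0 * (GG L z - GG L z') := by ring
      rw [e, norm_mul, hτn, mul_assoc]
      gcongr
      exact hK' z z' (by simpa using hz) (by simpa using hz')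

end Pool.Agent.Helper25.RB
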