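import Pool.Agent.Helper25.RB.FinP

/-!
# The dimension formula
-/

set_option autoImplicit false

open Filter Topology Metric Set MeasureTheory

namespace Pool.Agent.Helper25.RB

open Pool.Agent.H384R2.Fatou Pool.Agent.H723R2.LSW Pool.Agent.Y282.WD Pool.Agent.Helper25.JB

/-- the dimension does not increase along the orbit -/
theorem dim_mono : ∃ C : ℝ, 1 ≤ C ∧ ∀ n : ℤ, (∀ j : ℕ, C ≤ |((T^[j] n : ℤ) : ℝ)|) → ∀ j : ℕ,
    dimH (frontier (FatouComponent f₀ ((T^[j] n : ℤ) : ℂ))) ≤ dimH (frontier (FatouComponent f₀ (n : ℂ))) := by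
  obtain ⟨C3, hC3, hcore⟩ := core
  refine ⟨C3, hC3, fun n hn => ?_⟩
  obtain ⟨τ, L, a, b, -, -, -, -, -, -, -, -, -, hΨ⟩ := hcore n hn
  have hΨ' := hΨ _ rfl
  intro j
  induction j with
  | zero => exact le_rfl
  | succ j ih =>
    have hsub : frontier (FatouComponent f₀ ((T^[j + 1] n : ℤ) : ℂ)) ⊆
        f₀ '' frontier (FatouComponent f₀ ((T^[j] n : ℤ) : ℂ)) := by
      rw [← (hΨ' j).2.2.2.2.2.2, ← (hΨ' (j + 1)).2.2.2.2.2.2]
      rintro _ ⟨z, hz, rfl⟩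
      obtain ⟨w, hw⟩ : ∃ w : ℂ, w ^ 2 = z := IsAlgClosed.exists_pow_nat_eq z (by norm_num)
      have hw1 : ‖w‖ = 1 := by
        rw [mem_sphere, dist_zero_right, ← hw, norm_pow] at hz
        have := norm_nonneg w
        nlinarith
      refine ⟨_, ⟨w, by rw [mem_sphere, dist_zero_right, hw1], rfl⟩, ?_⟩
      rw [(hΨ' j).2.2.2.1 w hw1.le, hw]
    have hbdd : Bornology.IsBounded (frontier (FatouComponent f₀ ((T^[j] n : ℤ) : ℂ))) := by
      rw [← (hΨ' j).2.2.2.2.2.2]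
      exact ((isCompact_sphere (0 : ℂ) 1).image_of_continuousOn
        ((hΨ' j).1.mono sphere_subset_closedBall)).isBounded
    obtain ⟨K, hK⟩ := lip_f₀ hbdd
    exact (dimH_mono hsub).trans ((hK.dimH_image_le).trans ih)

/-- **upper bound** -/
theorem upper_all : ∃ C A : ℝ, 1 ≤ C ∧ 1 ≤ A ∧ ∀ n : ℤ, (∀ j : ℕ, C ≤ |((T^[j] n : ℤ) : ℝ)|) → ∀ V : ℝ,
    Tendsto (fun N : ℕ => (∑ k ∈ Finset.range N, 1 / |((T^[k] n : ℤ) : ℝ)| ^ 4) / (N : ℝ)) atTop (𝓝 V) →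
    dimH (frontier (FatouComponent f₀ (n : ℂ))) ≤ ENNReal.ofReal (1 + A * V) := by
  obtain ⟨C0, hC0, hcore⟩ := core
  obtain ⟨A, hA, hup⟩ := upper_dim EXP.main t_COV HK.main
  obtain ⟨R, hR⟩ : ∃ R : ℝ, R = 1000000 * A * C0 ^ 2 := ⟨_, rfl⟩
  have hAC : 1 ≤ A * C0 ^ 2 := one_le_mul_of_one_le_of_one_le hA (one_le_pow₀ hC0)
  have hC02 : C0 ≤ C0 ^ 2 := by nlinarith
  have hR1 : 1000000 * (A * C0 ^ 2) ≤ R := by rw [hR]; linarith
  have hR0 : 1 ≤ R := by linarith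
  have hRC : 1000000 * C0 ≤ R := by
    rw [hR]
    nlinarith
  refine ⟨R, A * C0 ^ 2, hR0, hAC, fun n hn V hV => ?_⟩
  obtain ⟨τ, L, a, b, hLd, hL0, hsm, hLb, ha, hb, hL2, hmain, hτ, hΨ⟩ := hcore n fun j => by linarith [hn j]
  have hx1 : ∀ k : ℕ, 1 ≤ |((T^[k] n : ℤ) : ℝ)| := fun k => by linarith [hn k]
  have hbt : ∀ k : ℕ, |((T^[k] n : ℤ) : ℝ)| ≤ bt (T^[k] n) := fun k => bt_ge (hx1 k) le_rfl
  have hbt0 : ∀ k : ℕ, 0 < bt (T^[k] n) := fun k => by linarith [hbt k, hx1 k]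
  set w : ℕ → ℝ := fun k => C0 / bt (T^[k] n) ^ 2 with hwdef
  obtain ⟨δ, hδ⟩ : ∃ δ, δ = C0 / R ^ 2 := ⟨_, rfl⟩
  have hδ0 : 0 ≤ δ := by rw [hδ]; positivity
  have hδs : δ ≤ 1 / 100000 := by
    rw [hδ, div_le_div_iff₀ (by positivity) (by norm_num)]
    nlinarith
  have hAδ : A * δ ≤ 1 := by
    rw [hδ, mul_div_assoc', div_le_one (by positivity)]
    have : A * C0 ≤ A * C0 ^ 2 := by gcongr
    nlinarith
  have hwδ : ∀ k, w k ≤ δ := by
    intro k
    rw [hδ]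
    simp only [hwdef]
    have h1 := (hn k).trans (hbt k)
    gcongr
  have hS : Sys δ L := ⟨hδ0, hδs, hLd, fun k v hv => (hLb k v hv).trans (hwδ k), hL0⟩
  have hwx : ∀ k, w k ^ 2 ≤ C0 ^ 2 * (1 / |((T^[k] n : ℤ) : ℝ)| ^ 4) := by
    intro k
    have h1 := hbt k
    have h3 : 0 < |((T^[k] n : ℤ) : ℝ)| := by linarith [hx1 k]
    simp only [hwdef]
    rw [div_pow, ← pow_mul, mul_one_div]
    show C0 ^ 2 / bt (T^[k] n) ^ 4 ≤ _
    gcongr
  have hV0 : 0 ≤ V := ge_of_tendsto' hV fun N => by positivity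
  have hV1 : V ≤ 1 / R := by
    refine le_of_tendsto hV (Eventually.of_forall fun N => ?_)
    rcases Nat.eq_zero_or_pos N with h | h
    · rw [h]; simp only [Nat.cast_zero, div_zero]; positivity
    rw [div_le_iff₀ (by exact_mod_cast h)]
    calc ∑ k ∈ Finset.range N, 1 / |((T^[k] n : ℤ) : ℝ)| ^ 4 ≤ ∑ k ∈ Finset.range N, (1 / R : ℝ) := by
          refine Finset.sum_le_sum fun k _ => ?_
          have h4 : R ≤ |((T^[k] n : ℤ) : ℝ)| ^ 4 := by
            calc R ≤ R ^ 4 := le_self_pow₀ hR0 (by norm_num)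
              _ ≤ _ := by have := hn k; gcongr
          gcongr
      _ = 1 / R * N := by simp [mul_comm]
  have hAV : A * C0 ^ 2 * V ≤ 1 / 2 := by
    calc A * C0 ^ 2 * V ≤ A * C0 ^ 2 * (1 / R) := by gcongr
      _ ≤ 1 / 2 := by
        rw [mul_one_div, div_le_div_iff₀ (by positivity) (by norm_num)]
        linarith
  -- the frontier
  have hfr : (fun z => ((T^[0] n : ℤ) : ℂ) + τ 0 * Phi L 0 z) '' sphere 0 1 =
      frontier (FatouComponent f₀ (n : ℂ)) := (hΨ _ rfl 0).2.2.2.2.2.2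
  have hfr' : (fun z : ℂ => ((T^[0] n : ℤ) : ℂ) + τ 0 * z) '' (Phi L 0 '' sphere 0 1) =
      frontier (FatouComponent f₀ (n : ℂ)) := by
    rw [image_image]; exact hfr
  have hlip : LipschitzWith ‖(τ 0 : ℂ)‖₊ (fun z : ℂ => ((T^[0] n : ℤ) : ℂ) + τ 0 * z) := by
    refine LipschitzWith.of_dist_le_mul fun z z' => ?_
    rw [dist_eq_norm, dist_eq_norm]
    have e : ((T^[0] n : ℤ) : ℂ) + τ 0 * z - (((T^[0] n : ℤ) : ℂ) + τ 0 * z') = τ 0 * (z - z') := by ring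
    rw [e, norm_mul]
    rfl
  have hdim : dimH (frontier (FatouComponent f₀ (n : ℂ))) ≤ dimH (Phi L 0 '' sphere 0 1) := by
    rw [← hfr']
    exact hlip.dimH_image_le _
  -- all larger values
  have hall : ∀ V' : ℝ, V < V' → A * C0 ^ 2 * V' ≤ 1 →
      dimH (frontier (FatouComponent f₀ (n : ℂ))) ≤ ENNReal.ofReal (1 + A * C0 ^ 2 * V') := by
    intro V' hVV' hAV'
    have hV'0 : 0 ≤ V' := hV0.trans hVV'.le
    have h1 := hup δ L w hS hAδ hwδ hLb (C0 ^ 2 * V') (by positivity) (by linarith) (by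
      have h2 : ∀ᶠ N : ℕ in atTop, (∑ k ∈ Finset.range N, 1 / |((T^[k] n : ℤ) : ℝ)| ^ 4) / (N : ℝ) < V' :=
        hV.eventually (gt_mem_nhds hVV')
      filter_upwards [h2, eventually_gt_atTop 0] with N h3 hN
      have hN' : (0 : ℝ) < N := by exact_mod_cast hN
      rw [div_lt_iff₀ hN'] at h3
      calc ∑ k ∈ Finset.range N, w k ^ 2 ≤
            ∑ k ∈ Finset.range N, C0 ^ 2 * (1 / |((T^[k] n : ℤ) : ℝ)| ^ 4) :=
            Finset.sum_le_sum fun k _ => hwx k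
        _ = C0 ^ 2 * ∑ k ∈ Finset.range N, 1 / |((T^[k] n : ℤ) : ℝ)| ^ 4 := by rw [Finset.mul_sum]
        _ ≤ C0 ^ 2 * (V' * N) := by gcongr
        _ = _ := by ring)
    refine (hdim.trans h1).trans (le_of_eq ?_)
    congr 1
    ring
  have hlim : Tendsto (fun m : ℕ => ENNReal.ofReal (1 + A * C0 ^ 2 * (V + 1 / ((m : ℝ) + 1)))) atTop
      (𝓝 (ENNReal.ofReal (1 + A * C0 ^ 2 * (V + 0)))) := by
    refine (ENNReal.continuous_ofReal.tendsto _).comp ?_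
    exact ((tendsto_one_div_add_atTop_nhds_zero_nat (𝕜 := ℝ)).const_add V).const_mul _ |>.const_add 1
  rw [add_zero] at hlim
  refine ge_of_tendsto hlim ?_
  have h5 : ∀ᶠ m : ℕ in atTop, 2 * (A * C0 ^ 2) ≤ (m : ℝ) := tendsto_natCast_atTop_atTop.eventually_ge_atTop _
  filter_upwards [h5] with m hm
  refine hall _ (by have : 0 < 1 / ((m : ℝ) + 1) := by positivity
                    linarith) ?_
  have h6 : A * C0 ^ 2 * (1 / ((m : ℝ) + 1)) ≤ 1 / 2 := by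
    rw [mul_one_div, div_le_div_iff₀ (by positivity) (by norm_num)]
    linarith
  rw [mul_add]
  linarith

/-- **the dimension formula** -/
theorem formula : ∃ C : ℝ, 1 ≤ C ∧ ∀ n : ℤ, (∀ j : ℕ, C ≤ |((T^[j] n : ℤ) : ℝ)|) → ∃ V : ℝ,
    Tendsto (fun N : ℕ => (∑ k ∈ Finset.range N, 1 / |((T^[k] n : ℤ) : ℝ)| ^ 4) / (N : ℝ)) atTop (𝓝 V) ∧
    0 ≤ V ∧ (Wild n ↔ V = 0) ∧
    ENNReal.ofReal (1 + V / C) ≤ dimH (frontier (FatouComponent f₀ (n : ℂ))) ∧
    dimH (frontier (FatouComponent f₀ (n : ℂ))) ≤ ENNReal.ofReal (1 + C * V) := by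
  obtain ⟨C1, hC1, hmono⟩ := dim_mono
  obtain ⟨C2, A, hC2, hA, hup⟩ := upper_all
  obtain ⟨C3, c, hC3, hc, hlow⟩ := lower_periodic
  obtain ⟨C4, hC4, hJB⟩ := Pool.Agent.Helper25.JB.main
  obtain ⟨C, hC⟩ : ∃ C : ℝ, C = max (max C1 C2) (max (max C3 C4) (max A (1 / c))) := ⟨_, rfl⟩
  have h1 : C1 ≤ C := by rw [hC]; exact (le_max_left _ _).trans (le_max_left _ _)
  have h2 : C2 ≤ C := by rw [hC]; exact (le_max_right _ _).trans (le_max_left _ _)
  have h3 : C3 ≤ C := by rw [hC]; exact ((le_max_left _ _).trans (le_max_left _ _)).trans (le_max_right _ _)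
  have h4 : C4 ≤ C := by rw [hC]; exact ((le_max_right _ _).trans (le_max_left _ _)).trans (le_max_right _ _)
  have h5 : A ≤ C := by rw [hC]; exact ((le_max_left _ _).trans (le_max_right _ _)).trans (le_max_right _ _)
  have h6 : 1 / c ≤ C := by rw [hC]; exact ((le_max_right _ _).trans (le_max_right _ _)).trans (le_max_right _ _)
  have hC0 : 1 ≤ C := hC1.trans h1
  refine ⟨C, hC0, fun n hn => ?_⟩
  have hx0 : ∀ k : ℕ, 0 < |((T^[k] n : ℤ) : ℝ)| := fun k => by linarith [hn k]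
  have hone : 1 ≤ dimH (frontier (FatouComponent f₀ (n : ℂ))) := by
    obtain ⟨_, _, h⟩ := hJB n fun j => h4.trans (hn j)
    exact (h 0).2.2.2.2.2.2.2.2.2.2.1
  have hfin : ∀ V : ℝ, 0 ≤ V → dimH (frontier (FatouComponent f₀ (n : ℂ))) ≤ ENNReal.ofReal (1 + A * V) →
      dimH (frontier (FatouComponent f₀ (n : ℂ))) ≤ ENNReal.ofReal (1 + C * V) := by
    intro V hV h
    refine h.trans (ENNReal.ofReal_le_ofReal ?_)
    gcongr
  by_cases hw : Wild n
  · have hV : Tendsto (fun N : ℕ => (∑ k ∈ Finset.range N, 1 / |((T^[k] n : ℤ) : ℝ)| ^ 4) / (N : ℝ)) atTop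
        (𝓝 0) := by
      have h7 : Tendsto (fun k : ℕ => 1 / |((T^[k] n : ℤ) : ℝ)| ^ 4) atTop (𝓝 0) := by
        refine Tendsto.div_atTop tendsto_const_nhds ?_
        exact (tendsto_pow_atTop (by norm_num)).comp (wild_tendsto hw)
      have h8 := h7.cesaro
      refine h8.congr fun N => ?_
      rw [div_eq_inv_mul]
    refine ⟨0, hV, le_rfl, ⟨fun _ => rfl, fun _ => hw⟩, ?_, hfin 0 le_rfl (hup n (fun j => h2.trans (hn j)) 0 hV)⟩
    rw [zero_div, add_zero, ENNReal.ofReal_one]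
    exact hone
  · obtain ⟨k, p, q, hp, hq, hk⟩ := tame_hits hw
    have hper : ∀ j : ℕ, T^[p + j] q = T^[j] q := by
      intro j
      rw [add_comm, Function.iterate_add_apply, hq]
    have hkj : ∀ j : ℕ, T^[k + j] n = T^[j] q := by
      intro j
      rw [add_comm, Function.iterate_add_apply, hk]
    have hVn := PER.main (fun i => 1 / |((T^[i] n : ℤ) : ℝ)| ^ 4) k p hp (fun i hi => by
      obtain ⟨j, rfl⟩ := Nat.exists_eq_add_of_le hi
      have e : k + j + p = k + (p + j) := by ring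
      show 1 / |((T^[k + j + p] n : ℤ) : ℝ)| ^ 4 = 1 / |((T^[k + j] n : ℤ) : ℝ)| ^ 4
      rw [e, hkj, hkj, hper])
    have hVq := PER.main (fun i => 1 / |((T^[i] q : ℤ) : ℝ)| ^ 4) 0 p hp (fun i _ => by
      show 1 / |((T^[i + p] q : ℤ) : ℝ)| ^ 4 = _
      rw [add_comm i p, hper])
    simp only [hkj] at hVn
    simp only [zero_add] at hVq
    obtain ⟨V, hVdef⟩ : ∃ V : ℝ, V = (∑ j ∈ Finset.range p, 1 / |((T^[j] q : ℤ) : ℝ)| ^ 4) / (p : ℝ) := ⟨_, rfl⟩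
    rw [← hVdef] at hVn hVq
    have hq' : ∀ j : ℕ, C ≤ |((T^[j] q : ℤ) : ℝ)| := by
      intro j
      rw [← hkj]
      exact hn _
    have hVpos : 0 < V := by
      rw [hVdef]
      refine div_pos (Finset.sum_pos (fun j _ => ?_) ⟨0, by simpa using hp⟩) (by exact_mod_cast hp)
      have := hq' j
      have : 0 < |((T^[j] q : ℤ) : ℝ)| := by linarith
      positivity
    refine ⟨V, hVn, hVpos.le, ⟨fun h => absurd h hw, fun h => absurd h hVpos.ne'⟩, ?_,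
      hfin V hVpos.le (hup n (fun j => h2.trans (hn j)) V hVn)⟩
    have h9 := hlow q p hp hq (fun j => h3.trans (hq' j)) V hVq
    have h10 := hmono n (fun j => h1.trans (hn j)) k
    rw [hk] at h10
    refine le_trans ?_ (h9.trans h10)
    apply ENNReal.ofReal_le_ofReal
    have h11 : 1 / C ≤ c := by
      rw [div_le_iff₀ (by linarith)]
      rw [div_le_iff₀ hc] at h6
      linarith
    have h12 : V / C = 1 / C * V := by ring
    rw [h12]
    gcongr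

end Pool.Agent.Helper25.RB
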