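import Pool.Agent.Helper25.RB.FinU

/-!
# Exponential growth of the moments
-/

set_option autoImplicit false

open Filter Topology Metric Set MeasureTheory

namespace Pool.Agent.Helper25.RB

open Pool.Agent.Helper25.JB

theorem Sys.shift {δ : ℝ} {L : ℕ → ℂ → ℂ} (hS : Sys δ L) (N : ℕ) : Sys δ fun i => L (i + N) :=
  ⟨hS.pos, hS.small, fun k => hS.diff (k + N), fun k => hS.bd (k + N), fun k => hS.zero (k + N)⟩

theorem hh_shift (L : ℕ → ℂ → ℂ) (N k : ℕ) (θ : ℝ) : hh (fun i => L (i + N)) k θ = hh L (k + N) θ := by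
  unfold hh ell
  rw [Phi_shift]

theorem norm_sq_exp (z : ℂ) : ‖Complex.exp (-z / 2)‖ ^ 2 = Real.exp (-z.re) := by
  rw [Complex.norm_exp, ← Real.exp_nat_mul]
  congr 1
  have : (-z / 2).re = -z.re / 2 := by simp
  rw [this]
  push_cast
  ring

theorem lower_growth (hHK : S_HK) (hMUL : S_MUL) (hBLK : S_BLK) (hLOWE : S_LOWE) (κ : ℝ) (hκ0 : 0 < κ)
    (hκ1 : κ ≤ 1) : ∃ η δ₀ : ℝ, 0 < η ∧ 0 < δ₀ ∧ ∀ (δ : ℝ) (L : ℕ → ℂ → ℂ) (w : ℕ → ℝ) (a b : ℕ → ℂ), Sys δ L →
    δ ≤ δ₀ → (∀ k, w k ≤ δ) → (∀ k, ∀ v ∈ ball (0 : ℂ) 2, ‖L k v‖ ≤ w k) →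
    (∀ k, ‖a k‖ ≤ w k) → (∀ k, ‖b k‖ ≤ w k) →
    (∀ k, ∀ v ∈ ball (0 : ℂ) 2, ‖L k v - (a k * v + b k * v ^ 2)‖ ≤ w k ^ 2) →
    (∀ k, κ * w (k + 1) ≤ ‖a (k + 1) / 2 + b k‖) → ∀ N : ℕ,
    Real.pi * Real.exp (η * ((∑ j ∈ Finset.range N, w j ^ 2) / 4 - 2)) ≤
      ∫ θ in (0 : ℝ)..(2 * Real.pi), Real.exp (-(S L N (Complex.exp (θ * Complex.I))).re) := by
  obtain ⟨C, hC, hfacts⟩ := hh_facts hHK
  obtain ⟨CM, hCM, hmul⟩ := hMUL
  obtain ⟨CL, hCL, hlow⟩ := hLOWE
  have hpp := Real.pi_pos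
  obtain ⟨η, hη⟩ : ∃ η, η = Real.log (1 + κ ^ 2 / (2 * CL)) / 2 := ⟨_, rfl⟩
  have hη0 : 0 < η := by
    rw [hη]
    have : 0 < Real.log (1 + κ ^ 2 / (2 * CL)) := Real.log_pos (by
      have : 0 < κ ^ 2 / (2 * CL) := by positivity
      linarith)
    linarith
  have hη2 : Real.exp (2 * η) = 1 + κ ^ 2 / (2 * CL) := by
    rw [hη, mul_div_cancel₀ _ (by norm_num : (2 : ℝ) ≠ 0), Real.exp_log (by positivity)]
  refine ⟨η, min (κ / (2 * CL)) (min (η / (CM * C)) (1 / C)), hη0, by positivity,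
    fun δ L w a b hS hδ hwδ hLw ha hb hL2 hκ => ?_⟩
  have hδ1 : δ ≤ κ / (2 * CL) := hδ.trans (min_le_left _ _)
  have hδ2 : δ ≤ η / (CM * C) := hδ.trans ((min_le_right _ _).trans (min_le_left _ _))
  have hδ3 : δ ≤ 1 / C := hδ.trans ((min_le_right _ _).trans (min_le_right _ _))
  have hδ0 := hS.pos
  rw [le_div_iff₀ (by positivity)] at hδ1 hδ2 hδ3
  have hw0 : ∀ k, 0 ≤ w k := fun k => (norm_nonneg _).trans (hLw k 0 (by simp))
  have hCδ : CL * δ ^ 2 ≤ κ ^ 2 / (4 * CL) := by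
    rw [le_div_iff₀ (by positivity)]
    calc CL * δ ^ 2 * (4 * CL) = (δ * (2 * CL)) ^ 2 := by ring
      _ ≤ κ ^ 2 := by gcongr
  have hκC : κ ^ 2 / (4 * CL) ≤ 1 / 4 := by
    rw [div_le_div_iff₀ (by positivity) (by norm_num)]
    nlinarith
  have hcont : ∀ k, Continuous (hh L k) := hh_continuous hHK hS
  -- the moments
  obtain ⟨A, hA⟩ : ∃ A : ℕ → ℕ → ℝ, ∀ N M, A N M = (∫ θ in (0 : ℝ)..(2 * Real.pi),
    Real.exp (-∑ k ∈ Finset.range M, hh L (k + N) (2 ^ k * θ))) / (2 * Real.pi) := ⟨_, fun _ _ => rfl⟩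
  have hA0 : ∀ N, A N 0 = 1 := by
    intro N
    rw [hA]
    simp only [Finset.range_zero, Finset.sum_empty, neg_zero, Real.exp_zero, intervalIntegral.integral_const,
      sub_zero, smul_eq_mul, mul_one]
    field_simp
  have hAlow : ∀ N M : ℕ, 1 + κ ^ 2 / CL * (∑ j ∈ Finset.range M, w (N + 1 + j) ^ 2) - CL * δ ^ 2 ≤
      A N (M + 1) := by
    intro N M
    have h1 := hlow δ κ (fun i => L (i + N)) (fun i => w (i + N)) (fun i => a (i + N)) (fun i => b (i + N))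
      (hS.shift N) hκ0 hκ1 (by nlinarith) (fun k => hwδ _) (fun k => hLw _) (fun k => ha _) (fun k => hb _)
      (fun k => hL2 _) (fun k => by
        have := hκ (k + N)
        have e : k + 1 + N = k + N + 1 := by ring
        show κ * w (k + 1 + N) ≤ ‖a (k + 1 + N) / 2 + b (k + N)‖
        rw [e]
        exact this) M
    simp only [norm_sq_exp, reS, hh_shift] at h1
    rw [hA, le_div_iff₀ (by positivity), mul_comm]
    refine le_trans (le_of_eq ?_) h1
    congr 4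
    refine Finset.sum_congr rfl fun j _ => ?_
    congr 2
    ring
  have hblk := hBLK A (fun k => w k ^ 2) η hη0 (fun k => sq_nonneg _) (fun k => ?_) (fun N M => ?_)
    (fun N M₁ M₂ => ?_) (fun N M h1 => ?_)
  · intro N
    have h1 := hblk N
    rw [hA, le_div_iff₀ (by positivity)] at h1
    simp only [add_zero] at h1
    simp only [reS]
    linarith
  · have h1 := hwδ k
    have h2 := hw0 k
    have h3 := hS.small
    show w k ^ 2 ≤ 1
    nlinarith
  · rcases M with _ | M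
    · rw [hA0]; norm_num
    · have h1 := hAlow N M
      have h2 : 0 ≤ κ ^ 2 / CL * (∑ j ∈ Finset.range M, w (N + 1 + j) ^ 2) := by positivity
      linarith
  · -- supermultiplicativity
    have hC0 : 0 ≤ C * δ := by positivity
    have h1 := hmul (C * δ) (fun k => hh L (k + N))
      (fun θ => Real.exp (-∑ k ∈ Finset.range M₂, hh L (k + (N + M₁)) (2 ^ k * θ))) hC0 (by linarith)
      (fun k => hh_periodic L _) (fun k => (hfacts δ L (fun _ => δ) hS (fun _ => le_rfl) hS.bd (k + N)).2.1)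
      ?_ (fun θ => (Real.exp_pos _).le) ?_ M₁
    · have e : ∀ θ : ℝ, Real.exp (-∑ k ∈ Finset.range M₁, hh L (k + N) (2 ^ k * θ)) *
          Real.exp (-∑ k ∈ Finset.range M₂, hh L (k + (N + M₁)) (2 ^ k * (2 ^ M₁ * θ))) =
          Real.exp (-∑ k ∈ Finset.range (M₁ + M₂), hh L (k + N) (2 ^ k * θ)) := by
        intro θ
        rw [← Real.exp_add, Finset.sum_range_add, neg_add]
        congr 2
        congr 1
        refine Finset.sum_congr rfl fun k _ => ?_
        have e1 : k + (N + M₁) = M₁ + k + N := by ring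
        have e2 : (2 : ℝ) ^ k * (2 ^ M₁ * θ) = 2 ^ (M₁ + k) * θ := by rw [pow_add]; ring
        rw [e1, e2]
      simp only [e] at h1
      rw [hA, hA, hA]
      have h2 : Real.exp (-η) ≤ Real.exp (-(CM * (C * δ))) := by
        apply Real.exp_le_exp.2
        nlinarith
      have hI1 : 0 ≤ ∫ θ in (0 : ℝ)..(2 * Real.pi),
          Real.exp (-∑ k ∈ Finset.range M₁, hh L (k + N) (2 ^ k * θ)) :=
        intervalIntegral.integral_nonneg (by positivity) fun θ _ => (Real.exp_pos _).le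
      have hI2 : 0 ≤ ∫ θ in (0 : ℝ)..(2 * Real.pi),
          Real.exp (-∑ k ∈ Finset.range M₂, hh L (k + (N + M₁)) (2 ^ k * θ)) :=
        intervalIntegral.integral_nonneg (by positivity) fun θ _ => (Real.exp_pos _).le
      set X := ∫ θ in (0 : ℝ)..(2 * Real.pi), Real.exp (-∑ k ∈ Finset.range M₁, hh L (k + N) (2 ^ k * θ))
      set Y := ∫ θ in (0 : ℝ)..(2 * Real.pi),
          Real.exp (-∑ k ∈ Finset.range M₂, hh L (k + (N + M₁)) (2 ^ k * θ))
      set Z := ∫ θ in (0 : ℝ)..(2 * Real.pi),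
        Real.exp (-∑ k ∈ Finset.range (M₁ + M₂), hh L (k + N) (2 ^ k * θ))
      have e3 : Real.exp (-η) * (X / (2 * Real.pi)) * (Y / (2 * Real.pi)) =
          (Real.exp (-η) * X * Y) / (2 * Real.pi) / (2 * Real.pi) := by ring
      rw [e3, div_le_div_iff_of_pos_right (by positivity), div_le_iff₀ (by positivity)]
      calc Real.exp (-η) * X * Y ≤ Real.exp (-(CM * (C * δ))) * X * Y := by gcongr
        _ ≤ 2 * Real.pi * Z := h1
        _ = Z * (2 * Real.pi) := by ring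
    · refine Real.continuous_exp.comp (continuous_finsetSum _ fun k _ => ?_).neg
      exact (hcont _).comp (continuous_const.mul continuous_id)
    · intro θ
      show Real.exp _ = Real.exp _
      congr 2
      refine Finset.sum_congr rfl fun k _ => ?_
      have e : (2 : ℝ) ^ k * (θ + 2 * Real.pi) = 2 ^ k * θ + ((2 ^ k : ℕ) : ℕ) * (2 * Real.pi) := by
        push_cast; ring
      rw [e]
      exact (hh_periodic L _).nat_mul (2 ^ k) _
  · have h2 := hAlow N M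
    rw [hη2]
    refine le_trans ?_ h2
    have h3 : κ ^ 2 / CL * 1 ≤ κ ^ 2 / CL * (∑ j ∈ Finset.range M, w (N + 1 + j) ^ 2) := by gcongr
    have h4 : κ ^ 2 / CL = κ ^ 2 / (2 * CL) + κ ^ 2 / (4 * CL) + κ ^ 2 / (4 * CL) := by
      field_simp; ring
    have h5 : 0 ≤ κ ^ 2 / (4 * CL) := by positivity
    linarith

end Pool.Agent.Helper25.RB
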