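import Pool.Agent.Helper25.RB.Stm6
import Pool.Agent.Helper25.RB.V
import Pool.Agent.Helper25.RB.CIR

/-!
# HK: the terms of the sums, with local bounds
-/

set_option autoImplicit false
set_option linter.unusedVariables false

open Filter Topology Metric Set MeasureTheory

namespace Pool.Agent.Helper25.RB.HK

open Pool.Agent.Helper25.JB
open Pool.Agent.Helper25.RB.V (half logL Phi_le Phi_hol small40 ell_lip circ circ_sub)
open Pool.Agent.Helper25.RB.CIR (F F_zero F_diff)

/-- the mean value property on the unit circle -/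
theorem mean1 {f : ℂ → ℂ} (hf : DiffContOnCl ℂ f (ball 0 1)) :
    ∫ θ in (0 : ℝ)..(2 * Real.pi), f (Complex.exp (θ * Complex.I)) = 2 * Real.pi * f 0 := by
  have h3 := hf.circleIntegral_sub_inv_smul (w := 0) (by simp)
  rw [circleIntegral] at h3
  have h4 : ∀ θ : ℝ, deriv (circleMap 0 1) θ • ((circleMap 0 1 θ - 0)⁻¹ • f (circleMap 0 1 θ)) =
      Complex.I * f (Complex.exp (θ * Complex.I)) := by
    intro θ
    have hr : circleMap 0 1 θ ≠ 0 := circleMap_ne_center one_ne_zero
    rw [deriv_circleMap, sub_zero, smul_eq_mul, smul_eq_mul]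
    have e : circleMap 0 1 θ = Complex.exp (θ * Complex.I) := by simp [circleMap]
    rw [← e]
    field_simp
  simp only [h4] at h3
  rw [intervalIntegral.integral_const_mul] at h3
  have hI : Complex.I ≠ 0 := Complex.I_ne_zero
  rw [smul_eq_mul] at h3
  have h5 : Complex.I * (∫ θ in (0 : ℝ)..(2 * Real.pi), f (Complex.exp (θ * Complex.I))) =
      Complex.I * (2 * Real.pi * f 0) := by
    rw [h3]; ring
  exact mul_left_cancel₀ hI h5

section

variable {δ : ℝ} {L : ℕ → ℂ → ℂ} (hS : Sys δ L)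
include hS

theorem ell_bdw (k : ℕ) {w : ℝ} (hwδ : w ≤ δ) (hw : ∀ v ∈ ball (0 : ℂ) 2, ‖L k v‖ ≤ w) {v : ℂ}
    (hv : ‖v‖ ≤ 5 / 4) : ‖ell L k v‖ ≤ 5 * w := by
  have hs := hS.small
  have hp : 0 ≤ w := (norm_nonneg _).trans (hw 0 (mem_ball_self (by norm_num)))
  have h1 := (half (hS.diff k) hw hp).1 v hv
  have h2 := logL (σ := 9 / 4 * w) (by positivity) (by linarith) h1
    (y := 0) (by rw [norm_zero]; positivity)
  simp only [add_zero, Complex.log_one, sub_zero] at h2
  have h3 : ell L k v = (Complex.log (1 + v * deriv (L k) v / 2) - v * deriv (L k) v / 2) +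
      v * deriv (L k) v / 2 := by
    unfold ell
    ring
  rw [h3]
  refine (norm_add_le _ _).trans ?_
  have h4 : 2 * (9 / 4 * w) * ‖v * deriv (L k) v / 2‖ ≤ 2 * (9 / 4 * w) * (9 / 4 * w) := by gcongr
  nlinarith

theorem ell_lipw (k : ℕ) {w : ℝ} (hwδ : w ≤ δ) (hw : ∀ v ∈ ball (0 : ℂ) 2, ‖L k v‖ ≤ w) {v u : ℂ}
    (hv : ‖v‖ ≤ 5 / 4) (hu : ‖u‖ ≤ 5 / 4) :
    ‖ell L k v - ell L k u‖ ≤ 13 * w * ‖v - u‖ := by
  have hs := hS.small
  have hp : 0 ≤ w := (norm_nonneg _).trans (hw 0 (mem_ball_self (by norm_num)))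
  have hH := half (hS.diff k) hw hp
  have h1 := hH.1 v hv
  have h1' := hH.1 u hu
  have h2 := logL (σ := 9 / 4 * w) (by positivity) (by linarith) h1 h1'
  have h5 := hH.2 v u hv hu
  have h3 : ell L k v - ell L k u =
      ((Complex.log (1 + v * deriv (L k) v / 2) - v * deriv (L k) v / 2) -
      (Complex.log (1 + u * deriv (L k) u / 2) - u * deriv (L k) u / 2)) +
      (v * deriv (L k) v / 2 - u * deriv (L k) u / 2) := by
    unfold ell
    ring
  rw [h3]
  refine (norm_add_le _ _).trans ?_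
  have h0 : 0 ≤ ‖v - u‖ := norm_nonneg _
  have h6 : 2 * (9 / 4 * w) * ‖v * deriv (L k) v / 2 - u * deriv (L k) u / 2‖ ≤
      2 * (9 / 4 * w) * (12 * w * ‖v - u‖) := by gcongr
  have h7 : 0 ≤ w * ‖v - u‖ := by positivity
  have h8 : 2 * (9 / 4 * w) * (12 * w * ‖v - u‖) ≤ w * ‖v - u‖ := by
    have : 2 * (9 / 4 * w) * (12 * w * ‖v - u‖) = (54 * w) * (w * ‖v - u‖) := by ring
    rw [this]
    nlinarith
  linarith

theorem F_cont (k : ℕ) : DiffContOnCl ℂ (F L k) (ball 0 1) := by
  have hp := hS.pos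
  refine ⟨F_diff hS k, ?_⟩
  rw [closure_ball (0 : ℂ) one_ne_zero]
  intro z hz
  rw [mem_closedBall, dist_zero_right] at hz
  have hz1 : ‖Phi L k z‖ ≤ 5 / 4 := (Phi_le hS k hz).trans (by norm_num)
  show Tendsto (F L k) (𝓝[closedBall 0 1] z) (𝓝 (F L k z))
  rw [tendsto_iff_norm_sub_tendsto_zero]
  have h1 : Tendsto (fun u : ℂ => 13 * δ * (9 * Real.sqrt ‖u - z‖)) (𝓝[closedBall 0 1] z)
      (𝓝 (13 * δ * (9 * Real.sqrt ‖z - z‖))) := by
    refine Tendsto.mono_left ?_ nhdsWithin_le_nhds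
    refine Continuous.tendsto ?_ z
    fun_prop
  rw [sub_self, norm_zero, Real.sqrt_zero, mul_zero, mul_zero] at h1
  refine squeeze_zero' (Eventually.of_forall fun _ => norm_nonneg _) ?_ h1
  filter_upwards [self_mem_nhdsWithin] with u hu
  rw [mem_closedBall, dist_zero_right] at hu
  have hu1 : ‖Phi L k u‖ ≤ 5 / 4 := (Phi_le hS k hu).trans (by norm_num)
  have h2 := ell_lip hS k hu1 hz1
  have h3 := Phi_hol hS k hu hz
  refine h2.trans ?_
  gcongr

end

theorem main : S_HK := by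
  refine ⟨117, by norm_num, fun δ L w hS hwδ hw k => ⟨fun θ => ?_, fun θ θ' => ?_, ?_⟩⟩
  · have hc := circ 1 zero_le_one le_rfl θ
    rw [Complex.ofReal_one, one_mul] at hc
    have h1 := ell_bdw hS k (hwδ k) (hw k) (v := Phi L k (Complex.exp (θ * Complex.I)))
      ((Phi_le hS k hc).trans (by norm_num))
    have hp : 0 ≤ w k := (norm_nonneg _).trans (hw k 0 (mem_ball_self (by norm_num)))
    linarith
  · have hc := circ 1 zero_le_one le_rfl θ
    have hc' := circ 1 zero_le_one le_rfl θ'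
    have hs := circ_sub 1 zero_le_one le_rfl θ θ'
    rw [Complex.ofReal_one, one_mul] at hc hc'
    rw [Complex.ofReal_one, one_mul, one_mul] at hs
    have hp : 0 ≤ w k := (norm_nonneg _).trans (hw k 0 (mem_ball_self (by norm_num)))
    have h1 := ell_lipw hS k (hwδ k) (hw k) (v := Phi L k (Complex.exp (θ * Complex.I)))
      (u := Phi L k (Complex.exp (θ' * Complex.I)))
      ((Phi_le hS k hc).trans (by norm_num)) ((Phi_le hS k hc').trans (by norm_num))
    have h2 := Phi_hol hS k hc hc'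
    have h3 := Real.sqrt_le_sqrt hs
    refine h1.trans ?_
    calc 13 * w k * ‖Phi L k (Complex.exp (θ * Complex.I)) - Phi L k (Complex.exp (θ' * Complex.I))‖
        ≤ 13 * w k * (9 * Real.sqrt |θ - θ'|) := by
          gcongr
          exact h2.trans (by linarith)
      _ = 117 * w k * Real.sqrt |θ - θ'| := by ring
  · have h1 := mean1 (F_cont hS k)
    rw [F_zero, mul_zero] at h1
    exact h1

end Pool.Agent.Helper25.RB.HK
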