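import Pool.Agent.Helper25.RB.C1
import Pool.Agent.Helper25.RB.Stm6

/-!
# LOWE: growth of the second moments over one block
-/

set_option autoImplicit false

open Filter Topology Metric Set MeasureTheory

namespace Pool.Agent.Helper25.RB.LOWE

open Pool.Agent.Helper25.JB Pool.Agent.Helper25.RB Pool.Agent.Helper25.RB.DER Pool.Agent.Helper25.RB.C1

variable {δ : ℝ} {L : ℕ → ℂ → ℂ}

lemma S_cont (h : Sys δ L) (m : ℕ) :
    Continuous fun θ : ℝ => S L m (Complex.exp (θ * Complex.I)) := by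
  have hpow : ∀ (i : ℕ) (z : ℂ), z ∈ closedBall (0 : ℂ) 1 → z ^ (2 ^ i) ∈ closedBall (0 : ℂ) 1 := by
    intro i z hz
    rw [mem_closedBall, dist_zero_right] at hz ⊢
    exact pow_le hz i
  have hS : ContinuousOn (S L m) (closedBall 0 1) := by
    unfold S
    refine continuousOn_finsetSum _ fun i _ => ?_
    have h1 : ContinuousOn (Phi L i) (closedBall 0 1) := contOn (maps h) (le40 h) i
    have h2 : ContinuousOn (fun z : ℂ => Phi L i (z ^ (2 ^ i))) (closedBall 0 1) :=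
      h1.comp (continuous_pow (2 ^ i)).continuousOn (hpow i)
    refine (ell_cont h i).comp h2 ?_
    intro z hz
    have h3 := hpow i z hz
    rw [mem_closedBall, dist_zero_right] at h3 ⊢
    exact Phi_le h i h3
  refine hS.comp_continuous (by fun_prop) fun θ => ?_
  rw [mem_closedBall, dist_zero_right, Complex.norm_exp_ofReal_mul_I]

/-- the weighted sums -/
noncomputable def Y (w : ℕ → ℝ) (n : ℕ) : ℝ := ∑ i ∈ Finset.range (n + 1), (3 / 4 : ℝ) ^ i * w (n - i)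

lemma Y_zero (w : ℕ → ℝ) : Y w 0 = w 0 := by simp [Y]

lemma Y_succ (w : ℕ → ℝ) (n : ℕ) : Y w (n + 1) = w (n + 1) + 3 / 4 * Y w n := by
  unfold Y
  rw [Finset.sum_range_succ', Finset.mul_sum]
  simp only [pow_zero, one_mul, Nat.sub_zero]
  rw [add_comm]
  congr 1
  refine Finset.sum_congr rfl fun i _ => ?_
  have : n + 1 - (i + 1) = n - i := by omega
  rw [this, pow_succ]
  ring

lemma Y_sum (w : ℕ → ℝ) (M : ℕ) :
    (∑ j ∈ Finset.range M, Y w (j + 1) ^ 2) + 3 * Y w M ^ 2 ≤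
      3 * w 0 ^ 2 + 16 * ∑ j ∈ Finset.range M, w (j + 1) ^ 2 := by
  induction M with
  | zero => simp [Y_zero]
  | succ M ih =>
    rw [Finset.sum_range_succ, Finset.sum_range_succ]
    have h1 : Y w (M + 1) ^ 2 ≤ 4 * w (M + 1) ^ 2 + 3 / 4 * Y w M ^ 2 := by
      rw [Y_succ]
      have := sq_nonneg (w (M + 1) - 1 / 4 * Y w M)
      nlinarith
    nlinarith

theorem main : S_CI1 → S_COEL → S_BES0 → S_LOWE := by
  intro hci hcoe hbes
  obtain ⟨C₀, hC₀, hcoe⟩ := hcoe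
  refine ⟨4 * C₀ + 11, by linarith, ?_⟩
  intro δ κ L w a b hS hκ0 hκ1 hCδ hwδ hLw ha hb hL2 hκ M
  have hδ0 := hS.pos
  have hpi := Real.pi_pos
  have hpi3 := Real.pi_gt_three
  have hw0 : ∀ k, 0 ≤ w k := fun k => (norm_nonneg _).trans (ha k)
  have hC0δ : C₀ * δ ≤ 1 := by nlinarith
  have hC4 : 4 * (C₀ * δ) ≤ κ := by nlinarith
  have hcoe' := hcoe δ L w a b hS hC0δ hwδ hLw ha hb hL2
  obtain ⟨hc1, hc2⟩ := hci δ L hS
  set f : ℝ → ℂ := fun θ => Complex.exp (-S L (M + 1) (Complex.exp (θ * Complex.I)) / 2) with hf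
  have hfc : Continuous f := by
    have := S_cont hS (M + 1)
    simp only [hf]
    fun_prop
  have hB := hbes f (M + 1) hfc
  set I : ℝ := ∫ θ in (0 : ℝ)..(2 * Real.pi), ‖f θ‖ ^ 2 with hI
  have h0 : ‖∫ θ in (0 : ℝ)..(2 * Real.pi), f θ‖ ^ 2 = (2 * Real.pi) ^ 2 := by
    have : ∫ θ in (0 : ℝ)..(2 * Real.pi), f θ = 2 * Real.pi := hc1 (M + 1)
    rw [this]
    have h2 : ‖(2 * Real.pi : ℂ)‖ = 2 * Real.pi := by
      rw [norm_mul, Complex.norm_ofNat, Complex.norm_real, Real.norm_eq_abs, abs_of_pos hpi]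
    rw [h2]
  -- the coefficients
  have hcj : ∀ j ∈ Finset.range M, 1 / 2 * (Real.pi * (κ * w (j + 1))) ^ 2 - (C₀ * δ * Y w (j + 1)) ^ 2 ≤
      ‖∫ θ in (0 : ℝ)..(2 * Real.pi), f θ * Complex.exp (-(2 ^ (j + 1) * θ) * Complex.I)‖ ^ 2 := by
    intro j hj
    have hj' : j + 1 < M + 1 := by
      have := Finset.mem_range.mp hj
      omega
    have h1 := hc2 (j + 1) (M + 1) hj'
    have h2 := hcoe' j
    have h3 : ∫ θ in (0 : ℝ)..(2 * Real.pi), f θ * Complex.exp (-(2 ^ (j + 1) * θ) * Complex.I) =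
        ∫ θ in (0 : ℝ)..(2 * Real.pi), Complex.exp (-S L (j + 2) (Complex.exp (θ * Complex.I)) / 2) *
          Complex.exp (-(2 ^ (j + 1) * θ) * Complex.I) := h1
    rw [h3]
    set c : ℂ := ∫ θ in (0 : ℝ)..(2 * Real.pi),
      Complex.exp (-S L (j + 2) (Complex.exp (θ * Complex.I)) / 2) *
          Complex.exp (-(2 ^ (j + 1) * θ) * Complex.I) with hc
    have h4 : ‖c + Real.pi * (a (j + 1) / 2 + b j)‖ ≤ C₀ * δ * Y w (j + 1) := by
      unfold Y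
      exact h2
    have h5 : Real.pi * (κ * w (j + 1)) ≤ ‖(Real.pi : ℂ) * (a (j + 1) / 2 + b j)‖ := by
      rw [norm_mul, Complex.norm_real, Real.norm_eq_abs, abs_of_pos hpi]
      exact mul_le_mul_of_nonneg_left (hκ j) hpi.le
    have h6 : ‖(Real.pi : ℂ) * (a (j + 1) / 2 + b j)‖ ≤ ‖c‖ + C₀ * δ * Y w (j + 1) := by
      have : (Real.pi : ℂ) * (a (j + 1) / 2 + b j) =
        (c + Real.pi * (a (j + 1) / 2 + b j)) - c := by ring
      rw [this]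
      refine (norm_sub_le _ _).trans ?_
      linarith
    have h7 : Real.pi * (κ * w (j + 1)) ≤ ‖c‖ + C₀ * δ * Y w (j + 1) := h5.trans h6
    have h8 : 0 ≤ Real.pi * (κ * w (j + 1)) := by
      have := hw0 (j + 1)
      positivity
    have h9 : (Real.pi * (κ * w (j + 1))) ^ 2 ≤ (‖c‖ + C₀ * δ * Y w (j + 1)) ^ 2 := by
      apply pow_le_pow_left₀ h8 h7
    have h10 := sq_nonneg (‖c‖ - C₀ * δ * Y w (j + 1))
    nlinarith
  set W : ℝ := ∑ j ∈ Finset.range M, w (j + 1) ^ 2 with hW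
  have hW0 : 0 ≤ W := Finset.sum_nonneg fun j _ => sq_nonneg _
  have hsum : ∑ j ∈ Finset.range (M + 1),
      ‖∫ θ in (0 : ℝ)..(2 * Real.pi), f θ * Complex.exp (-(2 ^ j * θ) * Complex.I)‖ ^ 2 ≥
      1 / 2 * Real.pi ^ 2 * κ ^ 2 * W - (C₀ * δ) ^ 2 * (3 * w 0 ^ 2 + 16 * W) := by
    rw [Finset.sum_range_succ']
    have h1 : ∑ j ∈ Finset.range M, (1 / 2 * (Real.pi * (κ * w (j + 1))) ^ 2 -
        (C₀ * δ * Y w (j + 1)) ^ 2) ≤ ∑ j ∈ Finset.range M,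
      ‖∫ θ in (0 : ℝ)..(2 * Real.pi), f θ * Complex.exp (-(2 ^ (j + 1) * θ) * Complex.I)‖ ^ 2 :=
      Finset.sum_le_sum hcj
    have h2 : ∑ j ∈ Finset.range M, (1 / 2 * (Real.pi * (κ * w (j + 1))) ^ 2 -
        (C₀ * δ * Y w (j + 1)) ^ 2) = 1 / 2 * Real.pi ^ 2 * κ ^ 2 * W -
          (C₀ * δ) ^ 2 * ∑ j ∈ Finset.range M, Y w (j + 1) ^ 2 := by
      rw [Finset.sum_sub_distrib, hW, Finset.mul_sum, Finset.mul_sum]
      congr 1
      · exact Finset.sum_congr rfl fun j _ => by ring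
      · exact Finset.sum_congr rfl fun j _ => by ring
    have h3 := Y_sum w M
    have h4 : ∑ j ∈ Finset.range M, Y w (j + 1) ^ 2 ≤ 3 * w 0 ^ 2 + 16 * W := by
      have := sq_nonneg (Y w M)
      linarith
    have h5 : (C₀ * δ) ^ 2 * ∑ j ∈ Finset.range M, Y w (j + 1) ^ 2 ≤
        (C₀ * δ) ^ 2 * (3 * w 0 ^ 2 + 16 * W) :=
      mul_le_mul_of_nonneg_left h4 (sq_nonneg _)
    refine ge_iff_le.mpr (le_trans ?_ (le_add_of_nonneg_right (sq_nonneg _)))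
    refine le_trans ?_ h1
    rw [h2]
    linarith
  have hmain : (2 * Real.pi) ^ 2 + (1 / 2 * Real.pi ^ 2 * κ ^ 2 * W -
      (C₀ * δ) ^ 2 * (3 * w 0 ^ 2 + 16 * W)) ≤ 2 * Real.pi * I := by
    rw [h0] at hB
    linarith
  -- numbers
  have hq : (C₀ * δ) ^ 2 * 16 ≤ κ ^ 2 := by
    have h1 : 0 ≤ C₀ * δ := by positivity
    nlinarith
  have hq1 : (C₀ * δ) ^ 2 * (16 * W) ≤ κ ^ 2 * W := by nlinarith
  have hq2 : (C₀ * δ) ^ 2 * (3 * w 0 ^ 2) ≤ 3 * δ ^ 2 := by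
    have h1 : (C₀ * δ) ^ 2 ≤ 1 := by
      have : 0 ≤ C₀ * δ := by positivity
      nlinarith
    have h2 : w 0 ^ 2 ≤ δ ^ 2 := pow_le_pow_left₀ (hw0 0) (hwδ 0) 2
    have h3 := sq_nonneg (w 0)
    nlinarith
  have hpi9 : 9 ≤ Real.pi ^ 2 := by nlinarith
  have hkey : (2 * Real.pi) ^ 2 * (1 + κ ^ 2 / (4 * C₀ + 11) * W - (4 * C₀ + 11) * δ ^ 2) ≤
      2 * Real.pi * I := by
    refine le_trans ?_ hmain
    have hκW : 0 ≤ κ ^ 2 * W := by positivity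
    have e1 : κ ^ 2 / (4 * C₀ + 11) * W ≤ κ ^ 2 * W / 15 := by
      rw [div_mul_eq_mul_div]
      apply div_le_div_of_nonneg_left hκW (by norm_num)
      linarith
    have e2 : 15 * δ ^ 2 ≤ (4 * C₀ + 11) * δ ^ 2 := by
      have := sq_nonneg δ
      nlinarith
    have e3 : 0 ≤ δ ^ 2 := sq_nonneg δ
    calc (2 * Real.pi) ^ 2 * (1 + κ ^ 2 / (4 * C₀ + 11) * W - (4 * C₀ + 11) * δ ^ 2)
        ≤ (2 * Real.pi) ^ 2 * (1 + κ ^ 2 * W / 15 - 15 * δ ^ 2) := by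
          apply mul_le_mul_of_nonneg_left _ (by positivity)
          linarith
      _ = (2 * Real.pi) ^ 2 + (4 / 15 * Real.pi ^ 2 * (κ ^ 2 * W) - 60 * Real.pi ^ 2 * δ ^ 2) := by
          ring
      _ ≤ _ := by
          nlinarith
  have h2pi : 0 < 2 * Real.pi := by positivity
  have hkey' : 2 * Real.pi * (2 * Real.pi * (1 + κ ^ 2 / (4 * C₀ + 11) * W -
      (4 * C₀ + 11) * δ ^ 2)) ≤ 2 * Real.pi * I := by
    have : 2 * Real.pi * (2 * Real.pi * (1 + κ ^ 2 / (4 * C₀ + 11) * W -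
      (4 * C₀ + 11) * δ ^ 2)) = (2 * Real.pi) ^ 2 * (1 + κ ^ 2 / (4 * C₀ + 11) * W -
      (4 * C₀ + 11) * δ ^ 2) := by ring
    rw [this]
    exact hkey
  exact le_of_mul_le_mul_left hkey' h2pi

end Pool.Agent.Helper25.RB.LOWE
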