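import Pool.Agent.Helper25.RB.Stm6

/-!
# MUL: supermultiplicativity by bounded distortion
-/

set_option autoImplicit false

open Filter Topology Metric Set MeasureTheory

namespace Pool.Agent.Helper25.RB.MUL

theorem sum_sqrt (x : ℝ) (N : ℕ) :
    ∑ k ∈ Finset.range N, Real.sqrt (2 ^ k * x) ≤ 5 / 2 * Real.sqrt (2 ^ N * x) := by
  induction N with
  | zero => simp
  | succ N ih =>
    rw [Finset.sum_range_succ]
    have h1 : Real.sqrt (2 ^ (N + 1) * x) = Real.sqrt 2 * Real.sqrt (2 ^ N * x) := by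
      rw [← Real.sqrt_mul (by norm_num)]
      congr 1
      ring
    rw [h1]
    have h2 : (7 / 5 : ℝ) ≤ Real.sqrt 2 := by
      apply Real.le_sqrt_of_sq_le
      norm_num
    have h3 : 0 ≤ Real.sqrt (2 ^ N * x) := Real.sqrt_nonneg _
    nlinarith

variable {δ : ℝ} {h : ℕ → ℝ → ℝ}

theorem cont (hδ : 0 ≤ δ) (hh : ∀ k θ θ', |h k θ - h k θ'| ≤ δ * Real.sqrt |θ - θ'|) (k : ℕ) :
    Continuous (h k) := by
  rw [continuous_iff_continuousAt]
  intro x
  rw [ContinuousAt, tendsto_iff_norm_sub_tendsto_zero]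
  have h0 : Tendsto (fun y : ℝ => δ * Real.sqrt |y - x|) (𝓝 x) (𝓝 (δ * Real.sqrt |x - x|)) :=
    ((Continuous.tendsto (by fun_prop) x))
  rw [sub_self, abs_zero, Real.sqrt_zero, mul_zero] at h0
  exact squeeze_zero (fun _ => norm_nonneg _) (fun y => by
    rw [Real.norm_eq_abs]; exact hh k y x) h0

theorem dist_le (hδ : 0 ≤ δ) (hh : ∀ k θ θ', |h k θ - h k θ'| ≤ δ * Real.sqrt |θ - θ'|) (N : ℕ)
    (θ t : ℝ) (hθ : |θ - t| ≤ 2 * Real.pi / 2 ^ N) :
    |(∑ k ∈ Finset.range N, h k (2 ^ k * θ)) - ∑ k ∈ Finset.range N, h k (2 ^ k * t)| ≤ 9 * δ := by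
  rw [← Finset.sum_sub_distrib]
  refine (Finset.abs_sum_le_sum_abs _ _).trans ?_
  have h1 : ∑ k ∈ Finset.range N, |h k (2 ^ k * θ) - h k (2 ^ k * t)| ≤
      ∑ k ∈ Finset.range N, δ * Real.sqrt (2 ^ k * |θ - t|) := by
    refine Finset.sum_le_sum fun k _ => (hh k _ _).trans (le_of_eq ?_)
    rw [← mul_sub, abs_mul, abs_of_pos (by positivity : (0 : ℝ) < 2 ^ k)]
  refine h1.trans ?_
  rw [← Finset.mul_sum]
  have h2 := sum_sqrt |θ - t| N
  have h3 : Real.sqrt (2 ^ N * |θ - t|) ≤ 2.6 := by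
    apply Real.sqrt_le_iff.2
    refine ⟨by norm_num, ?_⟩
    have h4 : 2 ^ N * |θ - t| ≤ 2 * Real.pi := by
      calc 2 ^ N * |θ - t| ≤ 2 ^ N * (2 * Real.pi / 2 ^ N) :=
            mul_le_mul_of_nonneg_left hθ (by positivity)
        _ = 2 * Real.pi := by field_simp
    have := Real.pi_lt_d2
    nlinarith
  calc δ * ∑ i ∈ Finset.range N, Real.sqrt (2 ^ i * |θ - t|) ≤ δ * 9 :=
        mul_le_mul_of_nonneg_left (by linarith) hδ
    _ = 9 * δ := by ring

theorem main : S_MUL := by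
  refine ⟨9, by norm_num, ?_⟩
  intro δ h F hδ _ hper hh hF hF0 hFper N
  have hcont := cont hδ hh
  set E : ℝ → ℝ := fun θ => Real.exp (-∑ k ∈ Finset.range N, h k (2 ^ k * θ)) with hE
  have hEc : Continuous E := by
    refine Real.continuous_exp.comp (Continuous.neg ?_)
    exact continuous_finset_sum _ fun k _ => (hcont k).comp (by fun_prop)
  set G : ℝ → ℝ := fun θ => F (2 ^ N * θ) with hG
  have hGc : Continuous G := hF.comp (by fun_prop)
  have hG0 : ∀ θ, 0 ≤ G θ := fun θ => hF0 _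
  set a : ℝ := 2 * Real.pi / 2 ^ N with ha
  have ha0 : 0 < a := by positivity
  have hGper : Function.Periodic G a := by
    intro θ
    have e : (2 : ℝ) ^ N * (θ + a) = 2 ^ N * θ + 2 * Real.pi := by
      rw [ha]
      field_simp
    show F (2 ^ N * (θ + a)) = F (2 ^ N * θ)
    rw [e]
    exact hFper _
  set c : ℝ := Real.exp (-(9 * δ)) with hc
  have hc0 : 0 < c := Real.exp_pos _
  -- distortion
  have hdist : ∀ θ t, |θ - t| ≤ a → c * E t ≤ E θ := by
    intro θ t hθ
    have h1 := dist_le hδ hh N θ t hθ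
    rw [hc, hE]
    simp only
    rw [← Real.exp_add, Real.exp_le_exp]
    have := (abs_le.1 h1).2
    linarith
  -- the arcs
  have harc : ∀ m : ℕ, c * (1 / a) * (∫ t in (a * m)..(a * (m + 1 : ℕ)), E t) *
      (∫ θ in (0 : ℝ)..a, G θ) ≤ ∫ θ in (a * m)..(a * (m + 1 : ℕ)), E θ * G θ := by
    intro m
    have hle : a * (m : ℝ) ≤ a * ((m + 1 : ℕ) : ℝ) := by
      push_cast
      nlinarith
    have hlen : a * ((m + 1 : ℕ) : ℝ) - a * (m : ℝ) = a := by
      push_cast
      ring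
    have h1 : ∀ θ ∈ Icc (a * (m : ℝ)) (a * ((m + 1 : ℕ) : ℝ)),
        c * (1 / a) * (∫ t in (a * m)..(a * (m + 1 : ℕ)), E t) ≤ E θ := by
      intro θ hθ
      have h2 : (∫ t in (a * m)..(a * (m + 1 : ℕ)), c * E t) ≤
          ∫ t in (a * m)..(a * (m + 1 : ℕ)), E θ := by
        refine intervalIntegral.integral_mono_on hle
          ((continuous_const.mul hEc).intervalIntegrable _ _)
          (continuous_const.intervalIntegrable _ _) ?_
        intro t ht
        refine hdist θ t ?_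
        rw [abs_le]
        constructor
        · linarith [hθ.1, ht.2]
        · linarith [hθ.2, ht.1]
      rw [intervalIntegral.integral_const, intervalIntegral.integral_const_mul, hlen,
        smul_eq_mul] at h2
      calc c * (1 / a) * (∫ t in (a * m)..(a * (m + 1 : ℕ)), E t)
          = (1 / a) * (c * ∫ t in (a * m)..(a * (m + 1 : ℕ)), E t) := by ring
        _ ≤ (1 / a) * (a * E θ) := mul_le_mul_of_nonneg_left h2 (by positivity)
        _ = E θ := by field_simp
    have h3 : (∫ θ in (0 : ℝ)..a, G θ) = ∫ θ in (a * m)..(a * (m + 1 : ℕ)), G θ := by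
      have h4 := hGper.intervalIntegral_add_eq 0 (a * m)
      rw [zero_add] at h4
      rw [h4]
      congr 1
      push_cast
      ring
    rw [h3, ← intervalIntegral.integral_const_mul]
    refine intervalIntegral.integral_mono_on hle
      ((continuous_const.mul hGc).intervalIntegrable _ _)
      ((hEc.mul hGc).intervalIntegrable _ _) ?_
    intro θ hθ
    exact mul_le_mul_of_nonneg_right (h1 θ hθ) (hG0 θ)
  have hend : a * ((2 ^ N : ℕ) : ℝ) = 2 * Real.pi := by
    rw [ha]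
    push_cast
    field_simp
  have hsumE : ∑ m ∈ Finset.range (2 ^ N), ∫ t in (a * (m : ℕ))..(a * ((m + 1 : ℕ) : ℝ)), E t =
      ∫ t in (0 : ℝ)..(2 * Real.pi), E t := by
    have := intervalIntegral.sum_integral_adjacent_intervals (μ := volume) (f := E)
      (a := fun m : ℕ => a * (m : ℝ)) (n := 2 ^ N)
      (fun k _ => hEc.intervalIntegrable _ _)
    rw [this, hend]
    simp
  have hsumEG : ∑ m ∈ Finset.range (2 ^ N),
      ∫ t in (a * (m : ℕ))..(a * ((m + 1 : ℕ) : ℝ)), E t * G t =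
      ∫ t in (0 : ℝ)..(2 * Real.pi), E t * G t := by
    have := intervalIntegral.sum_integral_adjacent_intervals (μ := volume)
      (f := fun t => E t * G t) (a := fun m : ℕ => a * (m : ℝ)) (n := 2 ^ N)
      (fun k _ => (hEc.mul hGc).intervalIntegrable _ _)
    rw [this, hend]
    simp
  have hGF : (∫ θ in (0 : ℝ)..a, G θ) = (1 / 2 ^ N) * ∫ θ in (0 : ℝ)..(2 * Real.pi), F θ := by
    have h1 := intervalIntegral.integral_comp_mul_left (a := 0) (b := a) F
      (c := (2 : ℝ) ^ N) (by positivity)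
    have h2 : (2 : ℝ) ^ N * a = 2 * Real.pi := by
      rw [ha]
      field_simp
    rw [mul_zero, h2] at h1
    show (∫ θ in (0 : ℝ)..a, F (2 ^ N * θ)) = _
    rw [h1, smul_eq_mul, one_div]
  have htot : ∑ m ∈ Finset.range (2 ^ N), c * (1 / a) *
      (∫ t in (a * (m : ℕ))..(a * ((m + 1 : ℕ) : ℝ)), E t) * (∫ θ in (0 : ℝ)..a, G θ) ≤
      ∫ t in (0 : ℝ)..(2 * Real.pi), E t * G t := by
    rw [← hsumEG]
    exact Finset.sum_le_sum fun m _ => harc m
  rw [← Finset.sum_mul, ← Finset.mul_sum, hsumE, hGF] at htot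
  have hfin : c * (∫ θ in (0 : ℝ)..(2 * Real.pi), E θ) * (∫ θ in (0 : ℝ)..(2 * Real.pi), F θ) =
      2 * Real.pi * (c * (1 / a) * (∫ t in (0 : ℝ)..(2 * Real.pi), E t) *
        ((1 / 2 ^ N) * ∫ θ in (0 : ℝ)..(2 * Real.pi), F θ)) := by
    rw [ha]
    field_simp
  show c * (∫ θ in (0 : ℝ)..(2 * Real.pi), E θ) * (∫ θ in (0 : ℝ)..(2 * Real.pi), F θ) ≤
    2 * Real.pi * ∫ θ in (0 : ℝ)..(2 * Real.pi), E θ * G θ
  rw [hfin]
  exact mul_le_mul_of_nonneg_left htot (by positivity)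


end Pool.Agent.Helper25.RB.MUL
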