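import Pool.Agent.Helper25.RB.Stm6

/-!
# PER: Cesàro means of eventually periodic sequences
-/

set_option autoImplicit false

open Filter Topology Metric Set MeasureTheory

namespace Pool.Agent.Helper25.RB.PER

theorem main : S_PER := by
  intro u K p hp hu
  set T : ℕ → ℝ := fun N => ∑ j ∈ Finset.range p, u (N + j) with hT
  have hT1 : ∀ N, K ≤ N → T (N + 1) = T N := by
    intro N hN
    have h1 : ∑ j ∈ Finset.range (p + 1), u (N + j) = T N + u (N + p) := by
      rw [Finset.sum_range_succ]
    have h2 : ∑ j ∈ Finset.range (p + 1), u (N + j) = T (N + 1) + u N := by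
      rw [Finset.sum_range_succ']
      simp only [hT, add_zero]
      congr 1
      refine Finset.sum_congr rfl fun j _ => ?_
      congr 1
      ring
    have h3 := hu N hN
    linarith
  have hT2 : ∀ N, K ≤ N → T N = T K := by
    intro N hN
    induction N, hN using Nat.le_induction with
    | base => rfl
    | succ n hn ih => rw [hT1 n hn, ih]
  set m : ℝ := (∑ j ∈ Finset.range p, u (K + j)) / p with hm
  have hp0 : (p : ℝ) ≠ 0 := by exact_mod_cast hp.ne'
  have hTm : ∀ N, K ≤ N → T N = p * m := by
    intro N hN
    rw [hT2 N hN, hm]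
    field_simp
    rfl
  set E : ℕ → ℝ := fun N => (∑ k ∈ Finset.range N, u k) - N * m with hE
  have hE1 : ∀ N, K ≤ N → E (N + p) = E N := by
    intro N hN
    have h := hTm N hN
    simp only [hE]
    rw [Finset.sum_range_add, Nat.cast_add]
    have : ∑ x ∈ Finset.range p, u (N + x) = T N := rfl
    rw [this, h]
    ring
  set B : ℝ := ∑ i ∈ Finset.range (K + p), |E i| with hB
  have hEB : ∀ N, |E N| ≤ B := by
    intro N
    induction N using Nat.strong_induction_on with
    | _ N ih =>
      by_cases h : N < K + p
      · exact Finset.single_le_sum (f := fun i => |E i|) (fun _ _ => abs_nonneg _)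
          (Finset.mem_range.2 h)
      · have h1 : N = (N - p) + p := by omega
        rw [h1, hE1 (N - p) (by omega)]
        exact ih (N - p) (by omega)
  have hlim : Tendsto (fun N : ℕ => E N / N) atTop (𝓝 0) := by
    refine squeeze_zero_norm (a := fun N : ℕ => B / N) ?_ (tendsto_const_div_atTop_nhds_zero_nat B)
    intro N
    rw [norm_div, Real.norm_eq_abs, Real.norm_natCast]
    exact div_le_div_of_nonneg_right (hEB N) (Nat.cast_nonneg N)
  have hfin : Tendsto (fun N : ℕ => E N / N + m) atTop (𝓝 (0 + m)) := hlim.add_const m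
  rw [zero_add] at hfin
  refine hfin.congr' ?_
  filter_upwards [eventually_gt_atTop 0] with N hN
  have hN0 : (N : ℝ) ≠ 0 := by exact_mod_cast hN.ne'
  simp only [hE]
  field_simp
  ring


end Pool.Agent.Helper25.RB.PER
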