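import Pool.Agent.Helper25.RB.Q
import Pool.Agent.Helper25.RB.Stm6

/-!
# Products along the doubling map, local bounds
-/

set_option autoImplicit false

open Filter Topology Metric Set MeasureTheory

namespace Pool.Agent.Helper25.RB.QL

open Pool.Agent.Helper25.RB.Q

theorem main : S_QL := by
  refine ⟨70, by norm_num, ?_⟩
  intro ε u e hε hε1 hu0 huε hp h1' h2' hm j
  have h1 : ∀ k θ, ‖e k θ - 1‖ ≤ ε := fun k θ => (h1' k θ).trans (huε k)
  have h2 : ∀ k θ θ', ‖e k θ - e k θ'‖ ≤ ε * Real.sqrt |θ - θ'| := fun k θ θ' =>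
    (h2' k θ θ').trans (mul_le_mul_of_nonneg_right (huε k) (Real.sqrt_nonneg _))
  have he : ∀ k, Continuous (e k) := fun k => cont_of hε _ (h2 k)
  have hpi := Real.pi_pos
  have hb := holder_near hε hε1 hp h1 h2 hm
  have hE0 : ∀ (i : ℕ) (θ : ℝ), Complex.exp (-(2 ^ i * (θ : ℂ)) * Complex.I) = E i θ :=
    fun _ _ => rfl
  -- the left side
  have e1 : ∫ θ in (0 : ℝ)..(2 * Real.pi), (∏ i ∈ Finset.range (j + 1), e i (2 ^ i * θ)) *
      Complex.exp (-(2 ^ j * θ) * Complex.I) =
      ∫ t in (0 : ℝ)..(2 * Real.pi), (e j t * Qf e j t) * E 0 t := by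
    have h3 := prod_eq he hp j (fun t => e j t * E 0 t) ((he j).mul (E_cont 0))
      ((hp j).mul (E_per 0))
    have h4 : ∫ θ in (0 : ℝ)..(2 * Real.pi), (∏ i ∈ Finset.range (j + 1), e i (2 ^ i * θ)) *
        Complex.exp (-(2 ^ j * θ) * Complex.I) =
        ∫ θ in (0 : ℝ)..(2 * Real.pi), (∏ i ∈ Finset.range j, e i (2 ^ i * θ)) *
          (fun t => e j t * E 0 t) (2 ^ j * θ) := by
      refine intervalIntegral.integral_congr fun θ _ => ?_
      have e2 : E 0 (2 ^ j * θ) = Complex.exp (-(2 ^ j * θ) * Complex.I) := by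
        unfold E
        congr 1
        push_cast
        ring
      simp only [Finset.prod_range_succ, e2]
      ring
    rw [h4, h3]
    exact intervalIntegral.integral_congr fun t _ => by
      ring
  rw [e1, expand he j 0, ← Finset.sum_sub_distrib]
  have hterm : ∀ l ∈ Finset.range (j + 1),
      ‖(∫ t in (0 : ℝ)..(2 * Real.pi), ((e (j - l) t - 1) * Qf e (j - l) t) * E (0 + l) t) -
        ∫ θ in (0 : ℝ)..(2 * Real.pi), (e (j - l) θ - 1) *
          Complex.exp (-(2 ^ l * θ) * Complex.I)‖ ≤ 22 * Real.pi * ε * ((3 / 4) ^ l * u (j - l)) := by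
    intro l _
    set k := j - l
    have hc1 : Continuous fun t => ((e k t - 1) * Qf e k t) * E l t :=
      (((he k).sub continuous_const).mul (Qf_cont he k)).mul (E_cont l)
    have hc2 : Continuous fun t => (e k t - 1) * E l t :=
      ((he k).sub continuous_const).mul (E_cont l)
    have h3 : (∫ t in (0 : ℝ)..(2 * Real.pi), ((e k t - 1) * Qf e k t) * E (0 + l) t) -
        ∫ θ in (0 : ℝ)..(2 * Real.pi), (e k θ - 1) * Complex.exp (-(2 ^ l * θ) * Complex.I) =
        ∫ t in (0 : ℝ)..(2 * Real.pi), ((e k t - 1) * (Qf e k t - 1)) * E l t := by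
      simp only [hE0, zero_add]
      rw [← intervalIntegral.integral_sub (hc1.intervalIntegrable _ _)
        (hc2.intervalIntegrable _ _)]
      exact intervalIntegral.integral_congr fun t _ => by
        ring
    rw [h3]
    have h4 : ∀ t t', ‖(e k t - 1) * (Qf e k t - 1) - (e k t' - 1) * (Qf e k t' - 1)‖ ≤
        11 * (u k * ε) * Real.sqrt |t - t'| := by
      intro t t'
      have e2 : (e k t - 1) * (Qf e k t - 1) - (e k t' - 1) * (Qf e k t' - 1) =
          (e k t - e k t') * (Qf e k t - 1) + (e k t' - 1) * (Qf e k t - Qf e k t') := by ring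
      rw [e2]
      have hs := Real.sqrt_nonneg |t - t'|
      have h5 : ‖(e k t - e k t') * (Qf e k t - 1)‖ ≤ (u k * Real.sqrt |t - t'|) * (8 * ε) := by
        rw [norm_mul]
        exact mul_le_mul (h2' k t t') ((hb k).2 t) (norm_nonneg _) (mul_nonneg (hu0 k) hs)
      have h6 : ‖(e k t' - 1) * (Qf e k t - Qf e k t')‖ ≤ u k * (3 * ε * Real.sqrt |t - t'|) := by
        rw [norm_mul]
        exact mul_le_mul (h1' k t') ((hb k).1 t t') (norm_nonneg _) (hu0 k)
      refine (norm_add_le _ _).trans ((add_le_add h5 h6).trans (le_of_eq ?_))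
      ring
    have h5 := four (fun t => (e k t - 1) * (Qf e k t - 1))
      (((he k).sub continuous_const).mul ((Qf_cont he k).sub continuous_const))
      (by
        intro t
        simp only [hp k t, Qf_per hp k t])
      (11 * (u k * ε)) (by have := hu0 k; positivity) h4 l
    refine h5.trans ?_
    have h6 : Real.sqrt (Real.pi / 2 ^ l) ≤ 2 * (3 / 4) ^ l := by
      rw [Real.sqrt_le_left (by positivity), mul_pow, ← pow_mul, mul_comm l 2, pow_mul]
      rw [div_le_iff₀ (by positivity), mul_assoc, ← mul_pow]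
      have h7 : (1 : ℝ) ≤ ((3 / 4) ^ 2 * 2) ^ l := one_le_pow₀ (by norm_num)
      have h8 := Real.pi_lt_d2
      nlinarith
    calc Real.pi * (11 * (u k * ε)) * Real.sqrt (Real.pi / 2 ^ l)
        ≤ Real.pi * (11 * (u k * ε)) * (2 * (3 / 4) ^ l) :=
          mul_le_mul_of_nonneg_left h6 (by have := hu0 k; positivity)
      _ = 22 * Real.pi * ε * ((3 / 4) ^ l * u k) := by ring
  refine (norm_sum_le _ _).trans ((Finset.sum_le_sum hterm).trans ?_)
  rw [← Finset.mul_sum]
  have hs0 : 0 ≤ ∑ l ∈ Finset.range (j + 1), (3 / 4 : ℝ) ^ l * u (j - l) :=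
    Finset.sum_nonneg fun l _ => mul_nonneg (by positivity) (hu0 _)
  have h8 := Real.pi_lt_d2
  apply mul_le_mul_of_nonneg_right _ hs0
  nlinarith

end Pool.Agent.Helper25.RB.QL
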