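import Pool.Agent.Helper25.RB.C1
import Pool.Agent.Helper25.RB.Stm6

/-!
# From the counting estimate to the moments (helper17 for helper25)
-/

set_option autoImplicit false

open Filter Topology Metric Set MeasureTheory

namespace Pool.Agent.Helper25.RB.SEPB

open Pool.Agent.Helper25.JB Pool.Agent.Helper25.RB Pool.Agent.Helper25.RB.DER

variable {δ : ℝ} {L : ℕ → ℂ → ℂ}

/-- the circle -/
noncomputable def e (θ : ℝ) : ℂ := Complex.exp (θ * Complex.I)

theorem e_norm (θ : ℝ) : ‖e θ‖ = 1 := Complex.norm_exp_ofReal_mul_I θ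

theorem e_per (θ : ℝ) (k : ℤ) : e (θ + 2 * Real.pi * k) = e θ := by
  have : ((θ + 2 * Real.pi * k : ℝ) : ℂ) * Complex.I = θ * Complex.I + k * (2 * Real.pi * Complex.I) := by
    push_cast
    ring
  rw [e, e, this, Complex.exp_add, Complex.exp_int_mul_two_pi_mul_I, mul_one]

theorem e_pow (θ : ℝ) (j : ℕ) : e θ ^ (2 ^ j) = e (2 ^ j * θ) := by
  rw [e, e, ← Complex.exp_nat_mul]
  congr 1
  push_cast
  ring

/-- chords -/
theorem chord {a b : ℝ} (h1 : Real.pi / 2 ≤ |a - b|) (h2 : |a - b| ≤ Real.pi) : 1 ≤ ‖e a - e b‖ := by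
  have e1 : e a - e b = e b * (e (a - b) - 1) := by
    rw [mul_sub, mul_one]
    congr 1
    rw [e, e, e, ← Complex.exp_add]
    congr 1
    push_cast
    ring
  rw [e1, norm_mul, e_norm, one_mul]
  have h3 : (e (a - b) - 1).re = Real.cos (a - b) - 1 := by
    rw [e, Complex.sub_re, Complex.exp_ofReal_mul_I_re, Complex.one_re]
  have h4 : Real.cos (a - b) ≤ 0 := by
    rw [← Real.cos_abs]
    exact Real.cos_nonpos_of_pi_div_two_le_of_le h1 (by linarith [Real.pi_pos])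
  have h5 := Complex.abs_re_le_norm (e (a - b) - 1)
  rw [h3] at h5
  have h6 := neg_le_abs (Real.cos (a - b) - 1)
  linarith

/-- the expansion -/
noncomputable def lam (L : ℕ → ℂ → ℂ) (n : ℕ) (θ : ℝ) : ℝ := 2 ^ n * Real.exp ((S L n (e θ)).re)

theorem lam_pos (n : ℕ) (θ : ℝ) : 0 < lam L n θ := by
  unfold lam
  positivity

theorem lam_succ (h : Sys δ L) (n : ℕ) (θ : ℝ) :
    lam L n θ ≤ lam L (n + 1) θ ∧ lam L (n + 1) θ ≤ 4 * lam L n θ := by
  have hp := lam_pos (L := L) n θ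
  obtain ⟨v, hv⟩ : ∃ v, v = Phi L n (e θ ^ (2 ^ n)) := ⟨_, rfl⟩
  have hz : ‖e θ ^ (2 ^ n)‖ ≤ 1 := by rw [norm_pow, e_norm, one_pow]
  have hvn : ‖v‖ ≤ 21 / 20 := by rw [hv]; exact Phi_le h n hz
  have h1 : lam L (n + 1) θ = lam L n θ * (2 * ‖1 + v * deriv (L n) v / 2‖) := by
    rw [← exp_ell h n hvn, Complex.norm_exp, lam, lam, S, Finset.sum_range_succ, ← S, ← hv, Complex.add_re,
      Real.exp_add]
    ring
  have h2 := u_bd (h.diff n) (h.bd n) hvn
  have h3 : ‖1 + v * deriv (L n) v / 2‖ ≤ 2 := by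
    refine (norm_add_le _ _).trans ?_
    rw [norm_one]
    linarith [h.small]
  have h4 : 1 / 2 ≤ ‖1 + v * deriv (L n) v / 2‖ := by
    have := norm_sub_le (1 + v * deriv (L n) v / 2) (v * deriv (L n) v / 2)
    rw [add_sub_cancel_right, norm_one] at this
    linarith [h.small]
  rw [h1]
  constructor <;> nlinarith

theorem lam_mono (h : Sys δ L) {m n : ℕ} (hmn : m ≤ n) (θ : ℝ) : lam L m θ ≤ lam L n θ := by
  induction n, hmn using Nat.le_induction with
  | base => exact le_rfl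
  | succ n _ ih => exact ih.trans (lam_succ h n θ).1

theorem lam_zero (θ : ℝ) : lam L 0 θ = 1 := by simp [lam, S]

theorem lam_ge (h : Sys δ L) (n : ℕ) (θ : ℝ) : 1 ≤ lam L n θ := by
  rw [← lam_zero (L := L) θ]
  exact lam_mono h (Nat.zero_le n) θ

theorem lam_le (h : Sys δ L) (n : ℕ) (θ : ℝ) : lam L n θ ≤ 4 ^ n := by
  induction n with
  | zero => rw [lam_zero, pow_zero]
  | succ n ih =>
    refine (lam_succ h n θ).2.trans ?_
    rw [pow_succ]
    linarith

/-- `Phi_m` separates the points at distance at least `1` -/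
theorem Phi_sep (h : Sys δ L) (m : ℕ) {z z' : ℂ} (hz : ‖z‖ ≤ 1) (hz' : ‖z'‖ ≤ 1) (hd : 1 ≤ ‖z - z'‖) :
    1 / 2 ≤ ‖Phi L m z - Phi L m z'‖ := by
  have near : ∀ z : ℂ, ‖z‖ ≤ 1 → ‖Phi L m z - z‖ ≤ 2 * δ := by
    intro z hz
    have b1 := (spec h m).2.2.1 z hz
    have h1 := Complex.norm_exp_sub_one_le (x := psi L m z) (by linarith [h.small])
    have e1 : Phi L m z - z = z * (Complex.exp (psi L m z) - 1) := by
      unfold Phi
      ring
    rw [e1, norm_mul]
    calc ‖z‖ * ‖Complex.exp (psi L m z) - 1‖ ≤ 1 * (2 * δ) := by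
          gcongr
          linarith
      _ = 2 * δ := one_mul _
  have h1 := near z hz
  have h2 := near z' hz'
  have h3 : ‖z - z'‖ ≤ ‖Phi L m z - Phi L m z'‖ + ‖Phi L m z - z‖ + ‖Phi L m z' - z'‖ := by
    have e1 : z - z' = (Phi L m z - Phi L m z') - (Phi L m z - z) + (Phi L m z' - z') := by ring
    calc ‖z - z'‖ = ‖(Phi L m z - Phi L m z') - (Phi L m z - z) + (Phi L m z' - z')‖ := by rw [← e1]
      _ ≤ ‖(Phi L m z - Phi L m z') - (Phi L m z - z)‖ + ‖Phi L m z' - z'‖ := norm_add_le _ _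
      _ ≤ _ := by
        gcongr
        exact norm_sub_le _ _
  linarith [h.small]

/-- the separation of the points of generation `n` -/
theorem sep {C : ℝ} (hC : 1 ≤ C) (h : Sys δ L)
    (hD : ∀ (n : ℕ) (θ θ' θ'' : ℝ),
      |θ - θ'| ≤ 2 * Real.pi / 2 ^ n → |θ - θ''| ≤ 2 * Real.pi / 2 ^ n → |θ' - θ''| ≤ 2 * Real.pi / 2 ^ n →
      ‖Phi L n (Complex.exp (θ * Complex.I) ^ (2 ^ n)) - Phi L n (Complex.exp (θ' * Complex.I) ^ (2 ^ n))‖ ≤
        C * (2 ^ n * Real.exp ((S L n (Complex.exp (θ'' * Complex.I))).re)) *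
          ‖Phi L 0 (Complex.exp (θ * Complex.I)) - Phi L 0 (Complex.exp (θ' * Complex.I))‖)
    (n : ℕ) {θ θ' : ℝ} (h1 : |θ - θ'| ≤ Real.pi) (h2 : 2 * Real.pi / 2 ^ n ≤ |θ - θ'|) :
    1 ≤ 2 * C * lam L n θ * ‖Phi L 0 (e θ) - Phi L 0 (e θ')‖ := by
  classical
  have hpi := Real.pi_pos
  have hn : Real.pi / 2 ≤ 2 ^ n * |θ - θ'| := by
    have h3 : 2 ^ n * (2 * Real.pi / 2 ^ n) ≤ 2 ^ n * |θ - θ'| := by gcongr
    rw [mul_div_cancel₀ _ (by positivity)] at h3
    linarith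
  have hex : ∃ m : ℕ, Real.pi / 2 ≤ 2 ^ m * |θ - θ'| := ⟨n, hn⟩
  obtain ⟨m, hm⟩ : ∃ m, m = Nat.find hex := ⟨_, rfl⟩
  have hm1 : Real.pi / 2 ≤ 2 ^ m * |θ - θ'| := by rw [hm]; exact Nat.find_spec hex
  have hmn : m ≤ n := by rw [hm]; exact Nat.find_min' hex hn
  have hm2 : 2 ^ m * |θ - θ'| ≤ Real.pi := by
    rcases Nat.eq_zero_or_pos m with h0 | h0
    · rw [h0, pow_zero, one_mul]
      exact h1
    · have h3 : ¬ Real.pi / 2 ≤ 2 ^ (m - 1) * |θ - θ'| := Nat.find_min hex (by omega)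
      have h4 : (2 : ℝ) ^ m = 2 * 2 ^ (m - 1) := by
        rw [← _root_.pow_succ']
        congr 1
        omega
      rw [h4]
      push Not at h3
      linarith
  have hd : |θ - θ'| ≤ 2 * Real.pi / 2 ^ m := by
    rw [le_div_iff₀ (by positivity)]
    linarith
  have h3 := hD m θ θ' θ hd (by rw [sub_self, abs_zero]; positivity) (by rw [abs_sub_comm]; exact hd)
  have h4 : 1 ≤ ‖e θ ^ (2 ^ m) - e θ' ^ (2 ^ m)‖ := by
    rw [e_pow, e_pow]
    refine chord ?_ ?_
    · rw [← mul_sub, abs_mul, abs_of_pos (by positivity : (0 : ℝ) < 2 ^ m)]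
      exact hm1
    · rw [← mul_sub, abs_mul, abs_of_pos (by positivity : (0 : ℝ) < 2 ^ m)]
      exact hm2
  have h5 := Phi_sep h m (by rw [norm_pow, e_norm, one_pow]) (by rw [norm_pow, e_norm, one_pow]) h4
  have h6 : ‖Phi L m (e θ ^ (2 ^ m)) - Phi L m (e θ' ^ (2 ^ m))‖ ≤
      C * lam L m θ * ‖Phi L 0 (e θ) - Phi L 0 (e θ')‖ := h3
  have h7 : C * lam L m θ * ‖Phi L 0 (e θ) - Phi L 0 (e θ')‖ ≤
      C * lam L n θ * ‖Phi L 0 (e θ) - Phi L 0 (e θ')‖ := by
    have := lam_mono h hmn θ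
    gcongr
  linarith

/-- the angles of generation `n` -/
noncomputable def t (n : ℕ) (i : ℕ) : ℝ := 2 * Real.pi * i / 2 ^ n

theorem shift (n : ℕ) {i j : ℕ} (hi : i < 2 ^ n) (hj : j < 2 ^ n) (hij : i ≠ j) :
    ∃ θ' : ℝ, e θ' = e (t n j) ∧ |t n i - θ'| ≤ Real.pi ∧ 2 * Real.pi / 2 ^ n ≤ |t n i - θ'| := by
  have hpi := Real.pi_pos
  obtain ⟨k, hk⟩ : ∃ k : ℤ, k = round ((t n i - t n j) / (2 * Real.pi)) := ⟨_, rfl⟩
  refine ⟨t n j + 2 * Real.pi * k, e_per _ _, ?_, ?_⟩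
  · have h1 := abs_sub_round ((t n i - t n j) / (2 * Real.pi))
    rw [← hk] at h1
    have e1 : t n i - (t n j + 2 * Real.pi * k) = 2 * Real.pi * ((t n i - t n j) / (2 * Real.pi) - k) := by
      field_simp
      ring
    rw [e1, abs_mul, abs_of_pos (by positivity : 0 < 2 * Real.pi)]
    nlinarith
  · have e1 : t n i - (t n j + 2 * Real.pi * k) = 2 * Real.pi / 2 ^ n * (((i : ℤ) - j - 2 ^ n * k : ℤ) : ℝ) := by
      unfold t
      push_cast
      field_simp
      ring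
    rw [e1, abs_mul, abs_of_pos (by positivity : 0 < 2 * Real.pi / 2 ^ n)]
    have h1 : ((i : ℤ) - j - 2 ^ n * k) ≠ 0 := by
      intro h0
      have hi' : (i : ℤ) < 2 ^ n := by exact_mod_cast hi
      have hj' : (j : ℤ) < 2 ^ n := by exact_mod_cast hj
      have hN : (0 : ℤ) < 2 ^ n := by positivity
      rcases lt_trichotomy k 0 with hk0 | hk0 | hk0
      · have : (2 : ℤ) ^ n * k ≤ 2 ^ n * (-1) := by
          apply mul_le_mul_of_nonneg_left _ hN.le
          omega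
        omega
      · rw [hk0, mul_zero] at h0
        omega
      · have : (2 : ℤ) ^ n * 1 ≤ 2 ^ n * k := by
          apply mul_le_mul_of_nonneg_left _ hN.le
          omega
        omega
    have h2 : (1 : ℝ) ≤ |(((i : ℤ) - j - 2 ^ n * k : ℤ) : ℝ)| := by
      rw [← Int.cast_abs]
      exact_mod_cast Int.one_le_abs h1
    have h3 : 0 < 2 * Real.pi / 2 ^ n := by positivity
    nlinarith

/-! ### the sums on short arcs -/

theorem r_geo {r : ℝ} (h0 : 0 ≤ r) (h1 : r ≤ 3 / 4) (n : ℕ) : ∑ j ∈ Finset.range n, r ^ (n - j) ≤ 3 := by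
  induction n with
  | zero => simp
  | succ n ih =>
    rw [Finset.sum_range_succ]
    have e1 : ∑ j ∈ Finset.range n, r ^ (n + 1 - j) = r * ∑ j ∈ Finset.range n, r ^ (n - j) := by
      rw [Finset.mul_sum]
      refine Finset.sum_congr rfl fun j hj => ?_
      rw [← _root_.pow_succ']
      congr 1
      have := Finset.mem_range.1 hj
      omega
    rw [e1, show n + 1 - n = 1 by omega, pow_one]
    nlinarith

theorem S_near {C₁ : ℝ} (hC₁ : 0 ≤ C₁) (hH : ∀ (k : ℕ) (θ θ' : ℝ), ‖ell L k (Phi L k (e θ)) - ell L k (Phi L k (e θ'))‖ ≤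
    C₁ * Real.sqrt |θ - θ'|) (n : ℕ) {θ θ' : ℝ} (ht : |θ - θ'| ≤ 2 * Real.pi / 2 ^ n) :
    |(S L n (e θ)).re - (S L n (e θ')).re| ≤ 9 * C₁ := by
  have h1 := Complex.abs_re_le_norm (S L n (e θ) - S L n (e θ'))
  rw [Complex.sub_re] at h1
  refine h1.trans ?_
  obtain ⟨r, hr⟩ : ∃ r, r = Real.sqrt (1 / 2) := ⟨_, rfl⟩
  have hr0 : 0 ≤ r := by rw [hr]; positivity
  have hr2 : r ^ 2 = 1 / 2 := by rw [hr]; exact Real.sq_sqrt (by norm_num)
  have hr1 : r ≤ 3 / 4 := by nlinarith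
  have h2 : S L n (e θ) - S L n (e θ') = ∑ j ∈ Finset.range n,
      (ell L j (Phi L j (e (2 ^ j * θ))) - ell L j (Phi L j (e (2 ^ j * θ')))) := by
    rw [S, S, ← Finset.sum_sub_distrib]
    refine Finset.sum_congr rfl fun j _ => ?_
    rw [e_pow, e_pow]
  rw [h2]
  refine (norm_sum_le _ _).trans ?_
  have h3 : ∀ j ∈ Finset.range n, ‖ell L j (Phi L j (e (2 ^ j * θ))) - ell L j (Phi L j (e (2 ^ j * θ')))‖ ≤
      3 * C₁ * r ^ (n - j) := by
    intro j hj
    have hj' := Finset.mem_range.1 hj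
    refine (hH j _ _).trans ?_
    have h4 : Real.sqrt |2 ^ j * θ - 2 ^ j * θ'| ≤ 3 * r ^ (n - j) := by
      rw [Real.sqrt_le_left (by positivity), ← mul_sub, abs_mul, abs_of_pos (by positivity : (0 : ℝ) < 2 ^ j)]
      have h5 : (r ^ (n - j)) ^ 2 = 2 ^ j / 2 ^ n := by
        rw [← pow_mul, mul_comm, pow_mul, hr2, one_div, inv_pow, eq_div_iff (by positivity)]
        have : (2 : ℝ) ^ n = 2 ^ (n - j) * 2 ^ j := by
          rw [← pow_add]
          congr 1
          omega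
        rw [this, ← mul_assoc, inv_mul_cancel₀ (by positivity), one_mul]
      rw [mul_pow, h5]
      have h6 : (0 : ℝ) < 2 ^ j / 2 ^ n := by positivity
      calc (2 : ℝ) ^ j * |θ - θ'| ≤ 2 ^ j * (2 * Real.pi / 2 ^ n) := by gcongr
        _ = 2 * Real.pi * (2 ^ j / 2 ^ n) := by ring
        _ ≤ 3 ^ 2 * (2 ^ j / 2 ^ n) := by
          gcongr
          linarith [Real.pi_lt_four]
    calc C₁ * Real.sqrt |2 ^ j * θ - 2 ^ j * θ'| ≤ C₁ * (3 * r ^ (n - j)) := by gcongr
      _ = _ := by ring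
  refine (Finset.sum_le_sum h3).trans ?_
  rw [← Finset.mul_sum]
  have := r_geo hr0 hr1 n
  nlinarith

theorem S_cont {C₁ : ℝ} (hH : ∀ (k : ℕ) (θ θ' : ℝ), ‖ell L k (Phi L k (e θ)) - ell L k (Phi L k (e θ'))‖ ≤
    C₁ * Real.sqrt |θ - θ'|) (n : ℕ) : Continuous fun θ : ℝ => S L n (e θ) := by
  have hc : ∀ k, Continuous fun θ : ℝ => ell L k (Phi L k (e θ)) := by
    intro k
    rw [continuous_iff_continuousAt]
    intro x
    rw [ContinuousAt, tendsto_iff_norm_sub_tendsto_zero]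
    have h : Tendsto (fun y : ℝ => C₁ * Real.sqrt |y - x|) (𝓝 x) (𝓝 0) := by
      have h1 : Continuous fun y : ℝ => C₁ * Real.sqrt |y - x| := by fun_prop
      have h2 := h1.tendsto x
      simpa using h2
    exact squeeze_zero (fun y => norm_nonneg _) (fun y => hH k y x) h
  have h2 : (fun θ : ℝ => S L n (e θ)) = fun θ => ∑ j ∈ Finset.range n, ell L j (Phi L j (e (2 ^ j * θ))) := by
    funext θ
    rw [S]
    refine Finset.sum_congr rfl fun j _ => ?_
    rw [e_pow]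
  rw [h2]
  exact continuous_finset_sum _ fun j _ => (hc j).comp (continuous_const.mul continuous_id)

/-- the integral and the sum over the points of generation `n` -/
theorem int_le {C₁ s : ℝ} (hC₁ : 0 ≤ C₁) (hs : 0 ≤ s) (hs2 : s ≤ 2) (hH : ∀ (k : ℕ) (θ θ' : ℝ),
    ‖ell L k (Phi L k (e θ)) - ell L k (Phi L k (e θ'))‖ ≤ C₁ * Real.sqrt |θ - θ'|) (n : ℕ) :
    ∫ θ in (0 : ℝ)..(2 * Real.pi), Real.exp (-(s * (S L n (e θ)).re)) ≤
      ∑ i ∈ Finset.range (2 ^ n), Real.exp (18 * C₁) * Real.exp (-(s * (S L n (e (t n i))).re)) *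
        (2 * Real.pi / 2 ^ n) := by
  have hpi := Real.pi_pos
  have hcont : Continuous fun θ : ℝ => Real.exp (-(s * (S L n (e θ)).re)) := by
    have := S_cont hH n
    fun_prop
  have h1 := intervalIntegral.sum_integral_adjacent_intervals (a := t n) (n := 2 ^ n) (μ := volume)
    (f := fun θ : ℝ => Real.exp (-(s * (S L n (e θ)).re))) fun k _ => hcont.intervalIntegrable _ _
  have e0 : t n 0 = 0 := by simp [t]
  have e1 : t n (2 ^ n) = 2 * Real.pi := by
    unfold t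
    push_cast
    field_simp
  rw [e0, e1] at h1
  rw [← h1]
  refine Finset.sum_le_sum fun i _ => ?_
  have hlen : t n (i + 1) - t n i = 2 * Real.pi / 2 ^ n := by
    unfold t
    push_cast
    ring
  have hle : t n i ≤ t n (i + 1) := by
    have : 0 < 2 * Real.pi / 2 ^ n := by positivity
    linarith
  have h2 : ∀ θ ∈ Icc (t n i) (t n (i + 1)), Real.exp (-(s * (S L n (e θ)).re)) ≤
      Real.exp (18 * C₁) * Real.exp (-(s * (S L n (e (t n i))).re)) := by
    intro θ hθ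
    rw [← Real.exp_add, Real.exp_le_exp]
    have h3 := S_near hC₁ hH n (θ := θ) (θ' := t n i) (by
      rw [abs_of_nonneg (by linarith [hθ.1])]
      linarith [hθ.2])
    have h4 := (abs_le.1 h3).1
    nlinarith
  have h3 := intervalIntegral.integral_mono_on (μ := volume) hle (hcont.intervalIntegrable (t n i) (t n (i + 1)))
    (intervalIntegrable_const (c := Real.exp (18 * C₁) * Real.exp (-(s * (S L n (e (t n i))).re)))) h2
  rw [intervalIntegral.integral_const, smul_eq_mul, hlen] at h3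
  rw [mul_comm _ (2 * Real.pi / 2 ^ n)]
  exact h3

theorem main : S_DSN → S_HK → S_SEPB := by
  rintro ⟨C, hC, hD⟩ ⟨C₁, hC₁, hH⟩ δ L h τ c s A r₀ hτ hs1 hs2 hr₀ hA
  classical
  have hpi := Real.pi_pos
  have hH' : ∀ (k : ℕ) (θ θ' : ℝ), ‖ell L k (Phi L k (e θ)) - ell L k (Phi L k (e θ'))‖ ≤
      C₁ * Real.sqrt |θ - θ'| := by
    intro k θ θ'
    have h1 := (hH δ L (fun _ => δ) h (fun _ => le_rfl) h.bd k).2.1 θ θ'
    refine h1.trans ?_
    have : C₁ * δ ≤ C₁ * 1 := by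
      gcongr
      linarith [h.small]
    rw [mul_one] at this
    gcongr
  have hA0 : 0 ≤ A := by
    have := hA r₀ hr₀ le_rfl 0 Fin.elim0 (fun i => i.elim0) (fun i => i.elim0)
    simpa using this
  obtain ⟨r₁, hr₁⟩ : ∃ r₁, r₁ = min (‖τ‖ / (12 * C)) r₀ := ⟨_, rfl⟩
  have hτ0 : 0 < ‖τ‖ := norm_pos_iff.2 hτ
  have hr₁0 : 0 < r₁ := by
    rw [hr₁]
    exact lt_min (by positivity) hr₀
  have hr₁τ : r₁ ≤ ‖τ‖ / (12 * C) := by rw [hr₁]; exact min_le_left _ _
  have hr₁r : r₁ ≤ r₀ := by rw [hr₁]; exact min_le_right _ _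
  have hr₁s : 0 < r₁ ^ s := Real.rpow_pos_of_pos hr₁0 s
  -- the sum over the points
  have hsum : ∀ n : ℕ, ∑ i ∈ Finset.range (2 ^ n), (lam L n (t n i)) ^ (-s) ≤ (2 * n + 1) * (A / r₁ ^ s) := by
    intro n
    have hl : ∀ i : ℕ, ∃ l : ℕ, (2 : ℝ) ^ l ≤ lam L n (t n i) ∧ lam L n (t n i) < 2 ^ (l + 1) := fun i =>
      exists_nat_pow_near (lam_ge h n (t n i)) (by norm_num)
    choose l hl1 hl2 using hl
    have hmaps : ∀ i ∈ Finset.range (2 ^ n), l i ∈ Finset.range (2 * n + 1) := by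
      intro i _
      rw [Finset.mem_range]
      have h1 := (hl1 i).trans (lam_le h n (t n i))
      have h2 : (4 : ℝ) ^ n = 2 ^ (2 * n) := by
        rw [pow_mul]
        norm_num
      rw [h2] at h1
      have := (pow_le_pow_iff_right₀ (by norm_num : (1 : ℝ) < 2)).1 h1
      omega
    rw [← Finset.sum_fiberwise_of_maps_to hmaps]
    have h1 : ∀ k ∈ Finset.range (2 * n + 1),
        ∑ i ∈ Finset.range (2 ^ n) with l i = k, (lam L n (t n i)) ^ (-s) ≤ A / r₁ ^ s := by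
      intro k _
      obtain ⟨F, hF⟩ : ∃ F : Finset ℕ, F = {i ∈ Finset.range (2 ^ n) | l i = k} := ⟨_, rfl⟩
      rw [← hF]
      have h2 : ∀ i ∈ F, (lam L n (t n i)) ^ (-s) ≤ ((2 : ℝ) ^ k) ^ (-s) := by
        intro i hi
        rw [hF, Finset.mem_filter] at hi
        have := hl1 i
        rw [hi.2] at this
        exact Real.rpow_le_rpow_of_nonpos (by positivity) this (by linarith)
      refine (Finset.sum_le_sum h2).trans ?_
      rw [Finset.sum_const, nsmul_eq_mul]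
      -- the counting estimate
      have hr0 : 0 < r₁ / 2 ^ k := by positivity
      have hrle : r₁ / 2 ^ k ≤ r₀ := by
        refine (div_le_self hr₁0.le ?_).trans hr₁r
        exact one_le_pow₀ (by norm_num)
      have h3 := hA (r₁ / 2 ^ k) hr0 hrle F.card
        (fun a => c + τ * Phi L 0 (e (t n (F.equivFin.symm a : ℕ))))
        (fun a => ⟨e (t n (F.equivFin.symm a : ℕ)), by rw [mem_sphere, dist_zero_right, e_norm], rfl⟩)
        (by
          intro a b hab
          obtain ⟨i, hi⟩ : ∃ i : ℕ, i = F.equivFin.symm a := ⟨_, rfl⟩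
          obtain ⟨j, hj⟩ : ∃ j : ℕ, j = F.equivFin.symm b := ⟨_, rfl⟩
          have hij : i ≠ j := by
            rw [hi, hj]
            intro h0
            exact hab (F.equivFin.symm.injective (Subtype.ext h0))
          have hiF : i ∈ F := by rw [hi]; exact (F.equivFin.symm a).2
          have hjF : j ∈ F := by rw [hj]; exact (F.equivFin.symm b).2
          rw [hF, Finset.mem_filter, Finset.mem_range] at hiF hjF
          obtain ⟨θ', g1, g2, g3⟩ := shift n hiF.1 hjF.1 hij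
          have g4 := sep hC h (fun n θ θ' θ'' a b c => (hD δ L h n θ θ' θ'' a b c).1) n g2 g3
          rw [g1] at g4
          have g5 : lam L n (t n i) ≤ 2 ^ (k + 1) := by
            have := hl2 i
            rw [hiF.2] at this
            exact this.le
          have n0 := norm_nonneg (Phi L 0 (e (t n i)) - Phi L 0 (e (t n j)))
          have g6 : 1 ≤ 2 * C * 2 ^ (k + 1) * ‖Phi L 0 (e (t n i)) - Phi L 0 (e (t n j))‖ := by
            refine g4.trans ?_
            gcongr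
          simp only [← hi, ← hj]
          have e1 : c + τ * Phi L 0 (e (t n i)) - (c + τ * Phi L 0 (e (t n j))) =
              τ * (Phi L 0 (e (t n i)) - Phi L 0 (e (t n j))) := by ring
          rw [e1, norm_mul]
          have g7 : 3 * (r₁ / 2 ^ k) ≤ ‖τ‖ / (2 * C * 2 ^ (k + 1)) := by
            have g8 : 3 * (r₁ / 2 ^ k) ≤ 3 * (‖τ‖ / (12 * C) / 2 ^ k) := by gcongr
            refine g8.trans (le_of_eq ?_)
            rw [pow_succ]
            field_simp
            norm_num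
          refine g7.trans ?_
          rw [div_le_iff₀ (by positivity)]
          calc ‖τ‖ = ‖τ‖ * 1 := (mul_one _).symm
            _ ≤ ‖τ‖ * (2 * C * 2 ^ (k + 1) * ‖Phi L 0 (e (t n i)) - Phi L 0 (e (t n j))‖) := by gcongr
            _ = _ := by ring)
      rw [Real.div_rpow hr₁0.le (by positivity)] at h3
      rw [le_div_iff₀ hr₁s, Real.rpow_neg (by positivity)]
      have h4 : (F.card : ℝ) * (((2 : ℝ) ^ k) ^ s)⁻¹ * r₁ ^ s = (F.card : ℝ) * (r₁ ^ s / (2 ^ k) ^ s) := by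
        rw [div_eq_mul_inv]
        ring
      rw [h4]
      exact h3
    refine (Finset.sum_le_sum h1).trans ?_
    rw [Finset.sum_const, Finset.card_range, nsmul_eq_mul]
    push_cast
    exact le_rfl
  refine ⟨4 * Real.pi * Real.exp (18 * C₁) * (A / r₁ ^ s), fun n => ?_⟩
  have h1 := int_le (L := L) (by linarith) (by linarith) hs2 hH' n
  have hp : 0 ≤ (2 : ℝ) ^ ((n : ℝ) * (1 - s)) := by positivity
  have h2 : (2 : ℝ) ^ ((n : ℝ) * (1 - s)) * ∑ i ∈ Finset.range (2 ^ n),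
      Real.exp (18 * C₁) * Real.exp (-(s * (S L n (e (t n i))).re)) * (2 * Real.pi / 2 ^ n) =
      2 * Real.pi * Real.exp (18 * C₁) * ∑ i ∈ Finset.range (2 ^ n), (lam L n (t n i)) ^ (-s) := by
    rw [Finset.mul_sum, Finset.mul_sum]
    refine Finset.sum_congr rfl fun i _ => ?_
    have e1 : (2 : ℝ) ^ ((n : ℝ) * (1 - s)) = 2 ^ n * ((2 : ℝ) ^ n) ^ (-s) := by
      rw [mul_sub, mul_one, sub_eq_add_neg, Real.rpow_add (by norm_num), Real.rpow_natCast, ← Real.rpow_natCast 2 n,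
        ← Real.rpow_mul (by norm_num)]
      congr 2
      ring
    have e2 : (lam L n (t n i)) ^ (-s) = ((2 : ℝ) ^ n) ^ (-s) * Real.exp (-(s * (S L n (e (t n i))).re)) := by
      rw [lam, Real.mul_rpow (by positivity) (Real.exp_pos _).le, ← Real.exp_mul]
      congr 2
      ring
    rw [e1, e2]
    field_simp
  calc (2 : ℝ) ^ ((n : ℝ) * (1 - s)) *
        ∫ θ in (0 : ℝ)..(2 * Real.pi), Real.exp (-(s * (S L n (Complex.exp (θ * Complex.I))).re))
      ≤ (2 : ℝ) ^ ((n : ℝ) * (1 - s)) * ∑ i ∈ Finset.range (2 ^ n),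
        Real.exp (18 * C₁) * Real.exp (-(s * (S L n (e (t n i))).re)) * (2 * Real.pi / 2 ^ n) :=
        mul_le_mul_of_nonneg_left h1 hp
    _ = 2 * Real.pi * Real.exp (18 * C₁) * ∑ i ∈ Finset.range (2 ^ n), (lam L n (t n i)) ^ (-s) := h2
    _ ≤ 2 * Real.pi * Real.exp (18 * C₁) * ((2 * n + 1) * (A / r₁ ^ s)) := by
        gcongr
        exact hsum n
    _ ≤ 2 * Real.pi * Real.exp (18 * C₁) * ((2 * (n + 1)) * (A / r₁ ^ s)) := by
        gcongr
        linarith
    _ = _ := by ring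

end Pool.Agent.Helper25.RB.SEPB
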