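import Pool.Agent.Helper25.RB.V
import Pool.Agent.Helper25.RB.Stm6

/-!
# Hölder estimates of first and second order of the factors, with local bounds
-/

set_option autoImplicit false
set_option linter.unusedVariables false

open Filter Topology Metric Set MeasureTheory

namespace Pool.Agent.Helper25.RB.VL

open Pool.Agent.Helper25.JB Pool.Agent.Helper25.RB.V

section

variable {δ : ℝ} {L : ℕ → ℂ → ℂ} (hS : Sys δ L)
include hS

theorem ell_bd {W : ℝ} (hW0 : 0 ≤ W) (hW : W ≤ δ) (k : ℕ) (hLW : ∀ v ∈ ball (0 : ℂ) 2, ‖L k v‖ ≤ W)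
    {v : ℂ} (hv : ‖v‖ ≤ 5 / 4) : ‖ell L k v‖ ≤ 5 * W := by
  have hs := hS.small
  have h1 := (half (hS.diff k) hLW hW0).1 v hv
  have h2 := logL (σ := 9 / 4 * W) (by positivity) (by linarith) h1
    (y := 0) (by rw [norm_zero]; positivity)
  simp only [add_zero, Complex.log_one, sub_zero] at h2
  have h3 : ell L k v = (Complex.log (1 + v * deriv (L k) v / 2) - v * deriv (L k) v / 2) +
      v * deriv (L k) v / 2 := by
    unfold ell
    ring
  rw [h3]
  refine (norm_add_le _ _).trans ?_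
  have h4 : 2 * (9 / 4 * W) * ‖v * deriv (L k) v / 2‖ ≤ 2 * (9 / 4 * W) * (9 / 4 * W) := by gcongr
  nlinarith

theorem ell_lip {W : ℝ} (hW0 : 0 ≤ W) (hW : W ≤ δ) (k : ℕ) (hLW : ∀ v ∈ ball (0 : ℂ) 2, ‖L k v‖ ≤ W)
    {v w : ℂ} (hv : ‖v‖ ≤ 5 / 4) (hw : ‖w‖ ≤ 5 / 4) :
    ‖ell L k v - ell L k w‖ ≤ 13 * W * ‖v - w‖ := by
  have hs := hS.small
  have hH := half (hS.diff k) hLW hW0
  have h1 := hH.1 v hv
  have h1' := hH.1 w hw
  have h2 := logL (σ := 9 / 4 * W) (by positivity) (by linarith) h1 h1'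
  have h5 := hH.2 v w hv hw
  have h3 : ell L k v - ell L k w =
      ((Complex.log (1 + v * deriv (L k) v / 2) - v * deriv (L k) v / 2) -
      (Complex.log (1 + w * deriv (L k) w / 2) - w * deriv (L k) w / 2)) +
      (v * deriv (L k) v / 2 - w * deriv (L k) w / 2) := by
    unfold ell
    ring
  rw [h3]
  refine (norm_add_le _ _).trans ?_
  have h0 : 0 ≤ ‖v - w‖ := norm_nonneg _
  have h6 : 2 * (9 / 4 * W) * ‖v * deriv (L k) v / 2 - w * deriv (L k) w / 2‖ ≤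
      2 * (9 / 4 * W) * (12 * W * ‖v - w‖) := by gcongr
  have h7 : 0 ≤ W * ‖v - w‖ := by positivity
  have h8 : 2 * (9 / 4 * W) * (12 * W * ‖v - w‖) ≤ W * ‖v - w‖ := by
    have : 2 * (9 / 4 * W) * (12 * W * ‖v - w‖) = (54 * W) * (W * ‖v - w‖) := by ring
    rw [this]
    nlinarith
  linarith

theorem ell_lip2 {W : ℝ} (hW0 : 0 ≤ W) (hW : W ≤ δ) (k : ℕ) (hLW : ∀ v ∈ ball (0 : ℂ) 2, ‖L k v‖ ≤ W)
    {a b : ℂ} (hL : ∀ v ∈ ball (0 : ℂ) 2, ‖L k v - (a * v + b * v ^ 2)‖ ≤ W ^ 2)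
    {v w : ℂ} (hv : ‖v‖ ≤ 5 / 4) (hw : ‖w‖ ≤ 5 / 4) :
    ‖(ell L k v - (a / 2 * v + b * v ^ 2)) - (ell L k w - (a / 2 * w + b * w ^ 2))‖ ≤
      72 * (δ * W) * ‖v - w‖ := by
  have hs := hS.small
  have hH := half (hS.diff k) hLW hW0
  have h1 := hH.1 v hv
  have h1' := hH.1 w hw
  have h2 := logL (σ := 9 / 4 * W) (by positivity) (by linarith) h1 h1'
  have h5 := hH.2 v w hv hw
  have hq : Differentiable ℂ (fun v : ℂ => a * v + b * v ^ 2) := by fun_prop
  have hE := half (f := fun v => L k v - (a * v + b * v ^ 2)) ((hS.diff k).sub hq.differentiableOn)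
    hL (by positivity)
  have hder : ∀ v : ℂ, ‖v‖ ≤ 5 / 4 → deriv (fun v => L k v - (a * v + b * v ^ 2)) v =
      deriv (L k) v - (a + 2 * b * v) := by
    intro v hv
    have g1 : DifferentiableAt ℂ (L k) v := by
      refine (hS.diff k v ?_).differentiableAt (isOpen_ball.mem_nhds ?_) <;>
      · rw [mem_ball, dist_zero_right]; linarith
    have g2 : HasDerivAt (fun v : ℂ => a * v + b * v ^ 2) (a * 1 + b * (2 * v ^ (2 - 1) * 1)) v :=
      ((hasDerivAt_id v).const_mul a).add (((hasDerivAt_id v).pow 2).const_mul b)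
    have g3 := (g1.hasDerivAt.sub g2).deriv
    refine g3.trans ?_
    ring
  have h6 := hE.2 v w hv hw
  rw [hder v hv, hder w hw] at h6
  have h3 : (ell L k v - (a / 2 * v + b * v ^ 2)) - (ell L k w - (a / 2 * w + b * w ^ 2)) =
      ((Complex.log (1 + v * deriv (L k) v / 2) - v * deriv (L k) v / 2) -
      (Complex.log (1 + w * deriv (L k) w / 2) - w * deriv (L k) w / 2)) +
      (v * (deriv (L k) v - (a + 2 * b * v)) / 2 - w * (deriv (L k) w - (a + 2 * b * w)) / 2) := by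
    unfold ell
    ring
  rw [h3]
  refine (norm_add_le _ _).trans ?_
  have h7 : 2 * (9 / 4 * W) * ‖v * deriv (L k) v / 2 - w * deriv (L k) w / 2‖ ≤
      2 * (9 / 4 * W) * (12 * W * ‖v - w‖) := by gcongr
  have h8 : 2 * (9 / 4 * W) * (12 * W * ‖v - w‖) = 54 * (W ^ 2 * ‖v - w‖) := by ring
  have h9 : W ^ 2 * ‖v - w‖ ≤ δ * W * ‖v - w‖ := by
    rw [sq]
    gcongr
  have h10 : 12 * W ^ 2 * ‖v - w‖ = 12 * (W ^ 2 * ‖v - w‖) := by ring
  have h11 : 0 ≤ W ^ 2 * ‖v - w‖ := by positivity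
  rw [h10] at h6
  have h12 : 72 * (δ * W) * ‖v - w‖ = 72 * (δ * W * ‖v - w‖) := by ring
  rw [h12]
  linarith

end

theorem main : S_VL := by
  refine ⟨1000, by norm_num, fun δ L w a b hS hwδ hLw ha hb hL k => ?_⟩
  have hp := hS.pos
  have hs := hS.small
  obtain ⟨W, hWdef⟩ : ∃ W, W = w k := ⟨_, rfl⟩
  have hWδ : W ≤ δ := hWdef ▸ hwδ k
  have hLW : ∀ v ∈ ball (0 : ℂ) 2, ‖L k v‖ ≤ W := hWdef ▸ hLw k
  have hW0 : 0 ≤ W := (norm_nonneg _).trans (hLW 0 (by simp))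
  have haW : ‖a k‖ ≤ W := hWdef ▸ ha k
  have hbW : ‖b k‖ ≤ W := hWdef ▸ hb k
  have hLk : ∀ v ∈ ball (0 : ℂ) 2, ‖L k v - (a k * v + b k * v ^ 2)‖ ≤ W ^ 2 := hWdef ▸ hL k
  rw [← hWdef]
  set u : ℝ → ℂ := fun θ => ((1 : ℝ) : ℂ) * Complex.exp (θ * Complex.I) with hu
  have hue : ∀ θ : ℝ, Complex.exp (θ * Complex.I) = u θ := fun θ => by
    simp only [hu, Complex.ofReal_one, one_mul]
  have hun : ∀ θ, ‖u θ‖ ≤ 1 := circ 1 (by norm_num) le_rfl
  have hPn : ∀ θ, ‖Phi L k (u θ)‖ ≤ 5 / 4 := fun θ => (Phi_le hS k (hun θ)).trans (by norm_num)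
  have hell : ∀ θ, ‖-ell L k (Phi L k (u θ)) / 2‖ ≤ 3 * W := by
    intro θ
    rw [norm_div, norm_neg, Complex.norm_ofNat]
    have := ell_bd hS hW0 hWδ k hLW (hPn θ)
    linarith
  have hsub : ∀ θ θ', Real.sqrt ‖u θ - u θ'‖ ≤ Real.sqrt |θ - θ'| := fun θ θ' =>
    Real.sqrt_le_sqrt (circ_sub 1 (by norm_num) le_rfl θ θ')
  have hPs : ∀ θ θ', ‖Phi L k (u θ) - Phi L k (u θ')‖ ≤ 9 * Real.sqrt |θ - θ'| := fun θ θ' =>
    (Phi_hol hS k (hun θ) (hun θ')).trans (by have := hsub θ θ'; linarith)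
  have hs12 : ∀ θ θ', ‖-ell L k (Phi L k (u θ)) / 2 - -ell L k (Phi L k (u θ')) / 2‖ ≤
      60 * W * Real.sqrt |θ - θ'| := by
    intro θ θ'
    have e : -ell L k (Phi L k (u θ)) / 2 - -ell L k (Phi L k (u θ')) / 2 =
        -(ell L k (Phi L k (u θ)) - ell L k (Phi L k (u θ'))) / 2 := by ring
    rw [e, norm_div, norm_neg, Complex.norm_ofNat]
    have h3 := ell_lip hS hW0 hWδ k hLW (hPn θ) (hPn θ')
    have h4 := hPs θ θ'
    have h5 : 13 * W * ‖Phi L k (u θ) - Phi L k (u θ')‖ ≤ 13 * W * (9 * Real.sqrt |θ - θ'|) := by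
      gcongr
    have h6 : 0 ≤ W * Real.sqrt |θ - θ'| := by positivity
    linarith
  have hex : ∀ θ θ', ‖(ee L k 1 θ - -ell L k (Phi L k (u θ)) / 2) -
      (ee L k 1 θ' - -ell L k (Phi L k (u θ')) / 2)‖ ≤ 360 * W ^ 2 * Real.sqrt |θ - θ'| := by
    intro θ θ'
    have h3 := expL (σ := 3 * W) (by positivity) (by linarith) (hell θ) (hell θ')
    have h4 := hs12 θ θ'
    refine h3.trans ?_
    calc 2 * (3 * W) * ‖-ell L k (Phi L k (u θ)) / 2 - -ell L k (Phi L k (u θ')) / 2‖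
        ≤ 2 * (3 * W) * (60 * W * Real.sqrt |θ - θ'|) := by gcongr
      _ = 360 * W ^ 2 * Real.sqrt |θ - θ'| := by ring
  refine ⟨?_, ?_, ?_⟩
  · intro θ
    have h3 := Complex.norm_exp_sub_one_le (x := -ell L k (Phi L k (u θ)) / 2)
      (by have := hell θ; linarith)
    have h4 := hell θ
    show ‖Complex.exp (-ell L k (Phi L k (u θ)) / 2) - 1‖ ≤ _
    linarith
  · intro θ θ'
    have h3 := hex θ θ'
    have h4 := hs12 θ θ'
    have e : ee L k 1 θ - ee L k 1 θ' = ((ee L k 1 θ - -ell L k (Phi L k (u θ)) / 2) -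
      (ee L k 1 θ' - -ell L k (Phi L k (u θ')) / 2)) +
      (-ell L k (Phi L k (u θ)) / 2 - -ell L k (Phi L k (u θ')) / 2) := by ring
    rw [e]
    refine (norm_add_le _ _).trans ?_
    have h6 : 0 ≤ W * Real.sqrt |θ - θ'| := by positivity
    have h7 : W ^ 2 * Real.sqrt |θ - θ'| ≤ 1 * (W * Real.sqrt |θ - θ'|) := by
      rw [sq, mul_assoc]
      gcongr
      linarith
    nlinarith
  · intro θ θ'
    have h3 := hex θ θ'
    have h4 := ell_lip2 hS hW0 hWδ k hLW hLk (hPn θ) (hPn θ')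
    have h5 := hPs θ θ'
    have h6 : ‖(Phi L k (u θ) - u θ) - (Phi L k (u θ') - u θ')‖ ≤ 160 * δ * Real.sqrt |θ - θ'| :=
      (Phi_sub hS k (hun θ) (hun θ')).trans (by have := hsub θ θ'; gcongr)
    have hM := maps_Phi hS.pos (small40 hS) hS.diff hS.bd hS.zero
    have h7 : ‖Phi L k (u θ') - u θ'‖ ≤ 2 * δ := by
      have h8 := hM.near k (u θ') (hun θ')
      have h9 := hun θ'
      calc ‖Phi L k (u θ') - u θ'‖ ≤ 2 * δ * ‖u θ'‖ := h8
        _ ≤ 2 * δ * 1 := by gcongr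
        _ = 2 * δ := mul_one _
    set s := Real.sqrt |θ - θ'| with hsdef
    have hs0 : 0 ≤ s := Real.sqrt_nonneg _
    -- the quadratic part
    have h8 : ‖((a k / 2 * Phi L k (u θ) + b k * Phi L k (u θ) ^ 2) -
        (a k / 2 * u θ + b k * u θ ^ 2)) -
        ((a k / 2 * Phi L k (u θ') + b k * Phi L k (u θ') ^ 2) -
        (a k / 2 * u θ' + b k * u θ' ^ 2))‖ ≤ 480 * (δ * W * s) := by
      have e : ((a k / 2 * Phi L k (u θ) + b k * Phi L k (u θ) ^ 2) -
          (a k / 2 * u θ + b k * u θ ^ 2)) -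
          ((a k / 2 * Phi L k (u θ') + b k * Phi L k (u θ') ^ 2) -
          (a k / 2 * u θ' + b k * u θ' ^ 2)) =
          ((Phi L k (u θ) - u θ) - (Phi L k (u θ') - u θ')) *
            (a k / 2 + b k * (Phi L k (u θ) + u θ)) +
          (Phi L k (u θ') - u θ') * (b k * (((Phi L k (u θ) - u θ) - (Phi L k (u θ') - u θ')) +
            2 * (u θ - u θ'))) := by ring
      rw [e]
      have h9 : ‖a k / 2 + b k * (Phi L k (u θ) + u θ)‖ ≤ 11 / 4 * W := by
        refine (norm_add_le _ _).trans ?_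
        rw [norm_div, norm_mul, Complex.norm_ofNat]
        have g3 : ‖Phi L k (u θ) + u θ‖ ≤ 9 / 4 :=
          (norm_add_le _ _).trans (by have := hPn θ; have := hun θ; linarith)
        have g4 : ‖b k‖ * ‖Phi L k (u θ) + u θ‖ ≤ W * (9 / 4) := by gcongr
        linarith
      have h10 : ‖((Phi L k (u θ) - u θ) - (Phi L k (u θ') - u θ')) + 2 * (u θ - u θ')‖ ≤
          5 * s := by
        refine (norm_add_le _ _).trans ?_
        rw [norm_mul, Complex.norm_ofNat]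
        have g1 : ‖u θ - u θ'‖ ≤ 2 * s := by
          have g2 : ‖u θ - u θ'‖ ≤ 2 := (norm_sub_le _ _).trans
            (by have := hun θ; have := hun θ'; linarith)
          have g3 := Real.sq_sqrt (norm_nonneg (u θ - u θ'))
          have g4 := hsub θ θ'
          have g5 : 0 ≤ Real.sqrt ‖u θ - u θ'‖ := Real.sqrt_nonneg _
          have g6 : Real.sqrt ‖u θ - u θ'‖ ≤ 2 := by
            rw [Real.sqrt_le_left (by norm_num)]
            linarith
          calc ‖u θ - u θ'‖ = Real.sqrt ‖u θ - u θ'‖ * Real.sqrt ‖u θ - u θ'‖ := by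
                rw [← sq, g3]
            _ ≤ 2 * s := by gcongr
        have g2 : 160 * δ * s ≤ 1 * s := by
          gcongr
          linarith
        linarith
      refine (norm_add_le _ _).trans ?_
      rw [norm_mul, norm_mul, norm_mul]
      have h13 : 0 ≤ δ * W * s := by positivity
      calc ‖(Phi L k (u θ) - u θ) - (Phi L k (u θ') - u θ')‖ *
            ‖a k / 2 + b k * (Phi L k (u θ) + u θ)‖ +
            ‖Phi L k (u θ') - u θ'‖ * (‖b k‖ *
              ‖((Phi L k (u θ) - u θ) - (Phi L k (u θ') - u θ')) + 2 * (u θ - u θ')‖)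
          ≤ (160 * δ * s) * (11 / 4 * W) + (2 * δ) * (W * (5 * s)) := by gcongr
        _ = 450 * (δ * W * s) := by ring
        _ ≤ 480 * (δ * W * s) := by linarith
    have h11 : 72 * (δ * W) * ‖Phi L k (u θ) - Phi L k (u θ')‖ ≤ 72 * (δ * W) * (9 * s) := by gcongr
    have e : (ee L k 1 θ - 1 + (a k / 2 * u θ + b k * u θ ^ 2) / 2) -
        (ee L k 1 θ' - 1 + (a k / 2 * u θ' + b k * u θ' ^ 2) / 2) =
        ((ee L k 1 θ - -ell L k (Phi L k (u θ)) / 2) -
          (ee L k 1 θ' - -ell L k (Phi L k (u θ')) / 2)) -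
        (((ell L k (Phi L k (u θ)) - (a k / 2 * Phi L k (u θ) + b k * Phi L k (u θ) ^ 2)) -
          (ell L k (Phi L k (u θ')) - (a k / 2 * Phi L k (u θ') + b k * Phi L k (u θ') ^ 2))) +
        (((a k / 2 * Phi L k (u θ) + b k * Phi L k (u θ) ^ 2) -
          (a k / 2 * u θ + b k * u θ ^ 2)) -
          ((a k / 2 * Phi L k (u θ') + b k * Phi L k (u θ') ^ 2) -
          (a k / 2 * u θ' + b k * u θ' ^ 2)))) / 2 := by ring
    rw [hue θ, hue θ', e]
    refine (norm_sub_le _ _).trans ?_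
    rw [norm_div, Complex.norm_ofNat]
    have h12 := norm_add_le
      ((ell L k (Phi L k (u θ)) - (a k / 2 * Phi L k (u θ) + b k * Phi L k (u θ) ^ 2)) -
          (ell L k (Phi L k (u θ')) - (a k / 2 * Phi L k (u θ') + b k * Phi L k (u θ') ^ 2)))
      (((a k / 2 * Phi L k (u θ) + b k * Phi L k (u θ) ^ 2) -
          (a k / 2 * u θ + b k * u θ ^ 2)) -
          ((a k / 2 * Phi L k (u θ') + b k * Phi L k (u θ') ^ 2) -
          (a k / 2 * u θ' + b k * u θ' ^ 2)))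
    have h13 : 0 ≤ δ * W * s := by positivity
    have h14 : W ^ 2 * s ≤ δ * W * s := by
      rw [sq]
      gcongr
    have h15 : 360 * W ^ 2 * s = 360 * (W ^ 2 * s) := by ring
    have h16 : 72 * (δ * W) * (9 * s) = 648 * (δ * W * s) := by ring
    have h17 : 1000 * δ * W * s = 1000 * (δ * W * s) := by ring
    rw [h17]
    rw [h15] at h3
    rw [h16] at h11
    linarith

end Pool.Agent.Helper25.RB.VL
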