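import Pool.Agent.Helper25.RB.FinL
import Pool.Agent.Helper25.RB.FinC
import Pool.Agent.Helper25.RB.FinE
import Pool.Agent.Helper25.RB.EXP
import Pool.Agent.Helper25.RB.COV
import Pool.Agent.Helper25.RB.HK
import Pool.Agent.Helper25.RB.CI1
import Pool.Agent.Helper25.RB.MUL
import Pool.Agent.Helper25.RB.BLK
import Pool.Agent.Helper25.RB.FALC
import Pool.Agent.Helper25.RB.SEPB
import Pool.Agent.Helper25.RB.PER
import Pool.Agent.Helper25.RB.DSN
import Pool.Agent.Helper25.RB.COEL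
import Pool.Agent.Helper25.RB.VL
import Pool.Agent.Helper25.RB.QL
import Pool.Agent.Helper25.RB.BES0
import Pool.Agent.Helper25.RB.LOWE

/-!
# The dimension formula
-/

set_option autoImplicit false

open Filter Topology Metric Set MeasureTheory

namespace Pool.Agent.Helper25.RB

open Pool.Agent.H384R2.Fatou Pool.Agent.H723R2.LSW Pool.Agent.Y282.WD Pool.Agent.Helper25.JB

theorem t_COEL : S_COEL := COEL.main VL.main QL.main CI1.main
theorem t_LOWE : S_LOWE := LOWE.main CI1.main t_COEL BES0.main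
theorem t_SEPB : S_SEPB := SEPB.main DSN.main HK.main
theorem t_COV : S_COV := COV.main DSN.main

/-- linear growth contradicts exponential growth -/
theorem no_growth {K α : ℝ} (hα : 0 < α) {f : ℕ → ℝ} (hf : ∀ᶠ n : ℕ in atTop, α * n ≤ f n)
    (h : ∀ n : ℕ, Real.exp (f n) ≤ K * ((n : ℝ) + 1)) : False := by
  have hK : 0 < K := by
    have := h 0
    have := Real.exp_pos (f 0)
    simp only [Nat.cast_zero, zero_add, mul_one] at *
    linarith
  have h1 : ∀ᶠ n : ℕ in atTop, 4 * K / α ^ 2 + 1 ≤ (n : ℝ) := tendsto_natCast_atTop_atTop.eventually_ge_atTop _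
  obtain ⟨n, hn1, hn2⟩ := (hf.and h1).exists
  have h2 := h n
  have h3 : Real.exp (α * n) ≤ K * ((n : ℝ) + 1) := (Real.exp_le_exp.2 hn1).trans h2
  have h0 : 0 ≤ α * n := by positivity
  have h4 := Real.quadratic_le_exp_of_nonneg h0
  have h5 : (1 : ℝ) ≤ n := by
    have : 0 ≤ 4 * K / α ^ 2 := by positivity
    linarith
  have h6 : 4 * K < α ^ 2 * n := by
    have : 4 * K / α ^ 2 < n := by linarith
    rw [div_lt_iff₀ (by positivity)] at this
    linarith
  have h7 : (α * n) ^ 2 / 2 ≤ K * ((n : ℝ) + 1) := by linarith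
  have h8 : K * ((n : ℝ) + 1) ≤ K * (2 * n) := by gcongr; linarith
  have h9 : (α * n) ^ 2 / 2 = (α ^ 2 * n) * n / 2 := by ring
  rw [h9] at h7
  have h10 : 4 * K * n < α ^ 2 * n * n := by gcongr
  linarith

/-- **lower bound** for the cycles -/
theorem lower_periodic : ∃ C c : ℝ, 1 ≤ C ∧ 0 < c ∧ ∀ (q : ℤ) (p : ℕ), 0 < p → T^[p] q = q →
    (∀ j : ℕ, C ≤ |((T^[j] q : ℤ) : ℝ)|) → ∀ V : ℝ,
    Tendsto (fun N : ℕ => (∑ k ∈ Finset.range N, 1 / |((T^[k] q : ℤ) : ℝ)| ^ 4) / (N : ℝ)) atTop (𝓝 V) →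
    ENNReal.ofReal (1 + c * V) ≤ dimH (frontier (FatouComponent f₀ (q : ℂ))) := by
  obtain ⟨C0, hC0, hcore⟩ := core
  obtain ⟨C1, hC1, hfal⟩ := falconer
  obtain ⟨C2, hC2, hJB⟩ := Pool.Agent.Helper25.JB.main
  obtain ⟨η, δ₀, hη, hδ₀, hgrow⟩ := lower_growth HK.main MUL.main BLK.main t_LOWE (1 / (4 * C0)) (by positivity)
    (by rw [div_le_one (by positivity)]; linarith)
  obtain ⟨R, hR⟩ : ∃ R : ℝ, R = max (1000000 * C0) (max (C0 / δ₀) (max C1 C2)) := ⟨_, rfl⟩
  obtain ⟨c, hc⟩ : ∃ c : ℝ, c = min 1 (η * C0 ^ 2 / 2048) := ⟨_, rfl⟩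
  have hc0 : 0 < c := by rw [hc]; positivity
  have hc1 : c ≤ 1 := by rw [hc]; exact min_le_left _ _
  have hc2 : c ≤ η * C0 ^ 2 / 2048 := by rw [hc]; exact min_le_right _ _
  refine ⟨R, c, by rw [hR]; exact le_max_of_le_left (by linarith), hc0, fun q p hp hq hn V hV => ?_⟩
  have hR1 : 1000000 * C0 ≤ R := by rw [hR]; exact le_max_left _ _
  have hR2 : C0 / δ₀ ≤ R := by rw [hR]; exact (le_max_left _ _).trans (le_max_right _ _)
  have hR3 : C1 ≤ R := by rw [hR]; exact (le_max_left _ _).trans ((le_max_right _ _).trans (le_max_right _ _))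
  have hR4 : C2 ≤ R := by rw [hR]; exact (le_max_right _ _).trans ((le_max_right _ _).trans (le_max_right _ _))
  have hR0 : 1 ≤ R := by linarith
  obtain ⟨τ, L, a, b, hLd, hL0, hsm, hLb, ha, hb, hL2, hmain, hτ, hΨ⟩ := hcore q fun j => by linarith [hn j]
  -- sizes
  have hx1 : ∀ k : ℕ, 1 ≤ |((T^[k] q : ℤ) : ℝ)| := fun k => by linarith [hn k]
  have hbt : ∀ k : ℕ, |((T^[k] q : ℤ) : ℝ)| ≤ bt (T^[k] q) := fun k => bt_ge (hx1 k) le_rfl
  have hbt0 : ∀ k : ℕ, 0 < bt (T^[k] q) := fun k => by linarith [hbt k, hx1 k]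
  set w : ℕ → ℝ := fun k => C0 / bt (T^[k] q) ^ 2 with hwdef
  have hw0 : ∀ k, 0 < w k := fun k => by
    have := hbt0 k
    simp only [hwdef]; positivity
  obtain ⟨δ, hδ⟩ : ∃ δ, δ = C0 / R ^ 2 := ⟨_, rfl⟩
  have hδ0 : 0 ≤ δ := by rw [hδ]; positivity
  have hδs : δ ≤ 1 / 100000 := by
    rw [hδ, div_le_div_iff₀ (by positivity) (by norm_num)]
    nlinarith
  have hδδ₀ : δ ≤ δ₀ := by
    rw [hδ, div_le_iff₀ (by positivity)]
    rw [div_le_iff₀ hδ₀] at hR2
    nlinarith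
  have hwδ : ∀ k, w k ≤ δ := by
    intro k
    rw [hδ]
    simp only [hwdef]
    have h1 := (hn k).trans (hbt k)
    gcongr
  have hS : Sys δ L := ⟨hδ0, hδs, hLd, fun k v hv => (hLb k v hv).trans (hwδ k), hL0⟩
  have hκ : ∀ j : ℕ, 1 / (4 * C0) * w (j + 1) ≤ ‖a (j + 1) / 2 + b j‖ := by
    intro j
    refine le_trans (le_of_eq ?_) (hmain j)
    simp only [hwdef]
    field_simp
  have hg := hgrow δ L w a b hS hδδ₀ hwδ hLb ha hb hL2 hκ
  -- the squares of the weights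
  have hwx : ∀ k, C0 ^ 2 / 256 * (1 / |((T^[k] q : ℤ) : ℝ)| ^ 4) ≤ w k ^ 2 := by
    intro k
    have h1 := bt_le (hx1 k)
    have h2 := hbt0 k
    have h3 : 0 < |((T^[k] q : ℤ) : ℝ)| := by linarith [hx1 k]
    have h4 : bt (T^[k] q) ^ 4 ≤ (4 * |((T^[k] q : ℤ) : ℝ)|) ^ 4 := by gcongr
    simp only [hwdef]
    rw [div_pow, ← pow_mul, div_mul_div_comm, mul_one, div_le_div_iff₀ (by positivity) (by positivity)]
    have h5 : (4 * |((T^[k] q : ℤ) : ℝ)|) ^ 4 = 256 * |((T^[k] q : ℤ) : ℝ)| ^ 4 := by ring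
    rw [h5] at h4
    show C0 ^ 2 * bt (T^[k] q) ^ (2 * 2) ≤ C0 ^ 2 * _
    gcongr
  -- the mean
  have hV0 : 0 ≤ V := ge_of_tendsto' hV fun N => by positivity
  have hV1 : V ≤ 1 := by
    refine le_of_tendsto hV (Eventually.of_forall fun N => ?_)
    rcases Nat.eq_zero_or_pos N with h | h
    · rw [h]; simp
    rw [div_le_one (by exact_mod_cast h)]
    calc ∑ k ∈ Finset.range N, 1 / |((T^[k] q : ℤ) : ℝ)| ^ 4 ≤ ∑ k ∈ Finset.range N, (1 : ℝ) := by
          refine Finset.sum_le_sum fun k _ => ?_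
          rw [div_le_one (by have := hx1 k; positivity)]
          exact one_le_pow₀ (hx1 k)
      _ = N := by simp
  have hdim1 : 1 ≤ dimH (frontier (FatouComponent f₀ (q : ℂ))) := by
    obtain ⟨_, _, h⟩ := hJB q fun j => hR4.trans (hn j)
    exact (h 0).2.2.2.2.2.2.2.2.2.2.1
  by_contra hcon
  push Not at hcon
  obtain ⟨s, hs⟩ : ∃ s : ℝ, s = (dimH (frontier (FatouComponent f₀ (q : ℂ)))).toReal := ⟨_, rfl⟩
  have hfin : dimH (frontier (FatouComponent f₀ (q : ℂ))) ≠ ⊤ := ne_top_of_lt hcon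
  have hs1 : 1 ≤ s := by
    rw [hs]
    have := ENNReal.toReal_mono hfin hdim1
    simpa using this
  have hs2 : s < 1 + c * V := by
    rw [hs]
    exact (ENNReal.lt_ofReal_iff_toReal_lt hfin).1 hcon
  have hs3 : s ≤ 2 := by nlinarith
  have hVpos : 0 < V := by
    rcases eq_or_lt_of_le hV0 with h | h
    · rw [← h, mul_zero, add_zero] at hs2; linarith
    · exact h
  obtain ⟨hcomp, a', ha', r₀, hr₀, hself⟩ := hfal q p hp hq fun j => hR3.trans (hn j)
  have hdims : dimH (frontier (FatouComponent f₀ (q : ℂ))) ≤ ENNReal.ofReal s := by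
    rw [hs, ENNReal.ofReal_toReal hfin]
  obtain ⟨A, hA⟩ := FALC.main _ a' r₀ s hcomp ha' hr₀ (by linarith) hself hdims
  have hτ0 : (τ 0 : ℂ) ≠ 0 := by
    intro h
    have h1 : τ 0 = 0 := by exact_mod_cast h
    have h2 := hτ 0
    rw [h1, abs_zero] at h2
    have h3 : 0 < rho (T^[0] q) := (Pool.Agent.Y151.WD.t_TAIL.2 _).1
    rw [← h2] at h3
    exact lt_irrefl _ h3
  have hfr : (fun z => ((T^[0] q : ℤ) : ℂ) + τ 0 * Phi L 0 z) '' sphere 0 1 =
      frontier (FatouComponent f₀ (q : ℂ)) := (hΨ _ rfl 0).2.2.2.2.2.2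
  obtain ⟨B, hB⟩ := t_SEPB δ L hS (τ 0 : ℂ) ((T^[0] q : ℤ) : ℂ) s A r₀ hτ0 hs1 hs3 hr₀ (by
    intro r hr hr' m x hx hsep
    rw [hfr] at hx
    exact hA r hr hr' m x hx hsep)
  have hpp := Real.pi_pos
  have hcont : ∀ n : ℕ, Continuous fun θ : ℝ => (S L n (Complex.exp (θ * Complex.I))).re := by
    intro n
    simp only [reS]
    exact continuous_finsetSum _ fun k _ =>
      (hh_continuous HK.main hS k).comp (continuous_const.mul continuous_id)
  -- the moments of order one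
  have hE : ∀ n : ℕ, Real.pi * Real.exp (η * ((∑ j ∈ Finset.range n, w j ^ 2) / 4 - 2)) ≤
      (|B| + 2 * Real.pi) * ((n : ℝ) + 1) * (2 : ℝ) ^ ((n : ℝ) * (s - 1)) := by
    intro n
    refine (hg n).trans ?_
    have h1 := hB n
    have h2 : (2 : ℝ) ^ ((n : ℝ) * (1 - s)) * (2 : ℝ) ^ ((n : ℝ) * (s - 1)) = 1 := by
      rw [← Real.rpow_add (by norm_num)]
      have : (n : ℝ) * (1 - s) + (n : ℝ) * (s - 1) = 0 := by ring
      rw [this, Real.rpow_zero]
    have h3 : 1 ≤ (2 : ℝ) ^ ((n : ℝ) * (s - 1)) :=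
      Real.one_le_rpow (by norm_num) (mul_nonneg (Nat.cast_nonneg _) (by linarith))
    set E := ∫ θ in (0 : ℝ)..(2 * Real.pi), Real.exp (-(s * (S L n (Complex.exp (θ * Complex.I))).re)) with hEdef
    have h4 : E ≤ |B| * ((n : ℝ) + 1) * (2 : ℝ) ^ ((n : ℝ) * (s - 1)) := by
      calc E = ((2 : ℝ) ^ ((n : ℝ) * (1 - s)) * E) * (2 : ℝ) ^ ((n : ℝ) * (s - 1)) := by
            rw [mul_assoc, mul_comm E, ← mul_assoc, h2, one_mul]
        _ ≤ (B * ((n : ℝ) + 1)) * (2 : ℝ) ^ ((n : ℝ) * (s - 1)) := by gcongr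
        _ ≤ |B| * ((n : ℝ) + 1) * (2 : ℝ) ^ ((n : ℝ) * (s - 1)) := by
            gcongr
            exact le_abs_self B
    have h5 : ∫ θ in (0 : ℝ)..(2 * Real.pi), Real.exp (-(S L n (Complex.exp (θ * Complex.I))).re) ≤
        E + 2 * Real.pi := by
      have h6 : E + 2 * Real.pi = ∫ θ in (0 : ℝ)..(2 * Real.pi),
          (Real.exp (-(s * (S L n (Complex.exp (θ * Complex.I))).re)) + 1) := by
        rw [intervalIntegral.integral_add, intervalIntegral.integral_const]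
        · simp only [sub_zero, smul_eq_mul, mul_one, hEdef]
        · exact (Real.continuous_exp.comp ((continuous_const.mul (hcont n)).neg)).intervalIntegrable _ _
        · exact continuous_const.intervalIntegrable _ _
      rw [h6]
      refine intervalIntegral.integral_mono_on (by positivity) ?_ ?_ fun θ _ => ?_
      · exact (Real.continuous_exp.comp (hcont n).neg).intervalIntegrable _ _
      · exact ((Real.continuous_exp.comp ((continuous_const.mul (hcont n)).neg)).add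
          continuous_const).intervalIntegrable _ _
      · set x := (S L n (Complex.exp (θ * Complex.I))).re
        rcases le_total x 0 with hx | hx
        · have : Real.exp (-x) ≤ Real.exp (-(s * x)) := Real.exp_le_exp.2 (by nlinarith)
          linarith
        · have h7 : Real.exp (-x) ≤ 1 := Real.exp_le_one_iff.2 (by linarith)
          have h8 := Real.exp_pos (-(s * x))
          linarith
    refine h5.trans ?_
    have h7 : 2 * Real.pi ≤ 2 * Real.pi * ((n : ℝ) + 1) * (2 : ℝ) ^ ((n : ℝ) * (s - 1)) := by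
      have h8 : (1 : ℝ) ≤ (n : ℝ) + 1 := by have := Nat.cast_nonneg (α := ℝ) n; linarith
      calc 2 * Real.pi = 2 * Real.pi * 1 * 1 := by ring
        _ ≤ _ := by gcongr
    calc E + 2 * Real.pi ≤ |B| * ((n : ℝ) + 1) * (2 : ℝ) ^ ((n : ℝ) * (s - 1)) +
          2 * Real.pi * ((n : ℝ) + 1) * (2 : ℝ) ^ ((n : ℝ) * (s - 1)) := add_le_add h4 h7
      _ = _ := by ring
  -- contradiction
  refine no_growth (K := (|B| + 2 * Real.pi) * Real.exp (2 * η) / Real.pi) (α := η * C0 ^ 2 / 4096 * V)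
    (by positivity) (f := fun n => η * (∑ j ∈ Finset.range n, w j ^ 2) / 4 - (n : ℝ) * (s - 1) * Real.log 2)
    ?_ ?_
  · -- the growth
    have h1 : ∀ᶠ N : ℕ in atTop, 3 / 4 * V < (∑ k ∈ Finset.range N, 1 / |((T^[k] q : ℤ) : ℝ)| ^ 4) / (N : ℝ) :=
      hV.eventually (lt_mem_nhds (by linarith))
    filter_upwards [h1, eventually_gt_atTop 0] with N h2 hN
    have hN' : (0 : ℝ) < N := by exact_mod_cast hN
    rw [lt_div_iff₀ hN'] at h2
    have h3 : C0 ^ 2 / 256 * ∑ k ∈ Finset.range N, 1 / |((T^[k] q : ℤ) : ℝ)| ^ 4 ≤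
        ∑ j ∈ Finset.range N, w j ^ 2 := by
      rw [Finset.mul_sum]
      exact Finset.sum_le_sum fun k _ => hwx k
    have h4 : C0 ^ 2 / 256 * (3 / 4 * V * N) ≤ ∑ j ∈ Finset.range N, w j ^ 2 := by
      refine le_trans ?_ h3
      gcongr
    have h5 : Real.log 2 ≤ 1 := by have := Real.log_two_lt_d9; linarith
    have h6 : (N : ℝ) * (s - 1) * Real.log 2 ≤ N * (c * V) * 1 := by
      have h7 : 0 ≤ Real.log 2 := Real.log_nonneg (by norm_num)
      have h8 : 0 ≤ s - 1 := by linarith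
      have h9 : s - 1 ≤ c * V := by linarith
      gcongr
    have h7 : N * (c * V) * 1 ≤ N * (η * C0 ^ 2 / 2048 * V) := by
      rw [mul_one]
      gcongr
    have h8 : η * (C0 ^ 2 / 256 * (3 / 4 * V * N)) / 4 ≤ η * (∑ j ∈ Finset.range N, w j ^ 2) / 4 := by
      gcongr
    have h9 : η * (C0 ^ 2 / 256 * (3 / 4 * V * N)) / 4 = 3 * (η * C0 ^ 2 / 4096 * V * N) := by ring
    have h10 : (N : ℝ) * (η * C0 ^ 2 / 2048 * V) = 2 * (η * C0 ^ 2 / 4096 * V * N) := by ring
    linarith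
  · intro n
    have h1 := hE n
    have e1 : Real.exp (η * ((∑ j ∈ Finset.range n, w j ^ 2) / 4 - 2)) =
        Real.exp (η * (∑ j ∈ Finset.range n, w j ^ 2) / 4) * Real.exp (-(2 * η)) := by
      rw [← Real.exp_add]; congr 1; ring
    have e2 : (2 : ℝ) ^ ((n : ℝ) * (s - 1)) = Real.exp ((n : ℝ) * (s - 1) * Real.log 2) := by
      rw [Real.rpow_def_of_pos (by norm_num)]; congr 1; ring
    rw [e1, e2] at h1
    have e3 : Real.exp (η * (∑ j ∈ Finset.range n, w j ^ 2) / 4 - (n : ℝ) * (s - 1) * Real.log 2) =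
        Real.exp (η * (∑ j ∈ Finset.range n, w j ^ 2) / 4) * Real.exp (-((n : ℝ) * (s - 1) * Real.log 2)) := by
      rw [← Real.exp_add]; congr 1
    show Real.exp (η * (∑ j ∈ Finset.range n, w j ^ 2) / 4 - (n : ℝ) * (s - 1) * Real.log 2) ≤ _
    rw [e3]
    set X := Real.exp (η * (∑ j ∈ Finset.range n, w j ^ 2) / 4)
    set Y := (n : ℝ) * (s - 1) * Real.log 2
    have h2 : Real.exp Y * Real.exp (-Y) = 1 := by rw [← Real.exp_add, add_neg_cancel, Real.exp_zero]
    have h3 : Real.exp (2 * η) * Real.exp (-(2 * η)) = 1 := by rw [← Real.exp_add, add_neg_cancel, Real.exp_zero]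
    have h4 : X * Real.exp (-Y) = (Real.pi * (X * Real.exp (-(2 * η)))) * (Real.exp (2 * η) * Real.exp (-Y)) / Real.pi := by
      field_simp
      linear_combination (-X) * h3
    rw [h4]
    calc (Real.pi * (X * Real.exp (-(2 * η)))) * (Real.exp (2 * η) * Real.exp (-Y)) / Real.pi ≤
          ((|B| + 2 * Real.pi) * ((n : ℝ) + 1) * Real.exp Y) * (Real.exp (2 * η) * Real.exp (-Y)) / Real.pi := by
          gcongr
      _ = (|B| + 2 * Real.pi) * Real.exp (2 * η) / Real.pi * ((n : ℝ) + 1) * (Real.exp Y * Real.exp (-Y)) := by ring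
      _ = (|B| + 2 * Real.pi) * Real.exp (2 * η) / Real.pi * ((n : ℝ) + 1) := by rw [h2, mul_one]

end Pool.Agent.Helper25.RB
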