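import Pool.Agent.Helper25.RB.Stm6
import Pool.Agent.Helper25.RB.Core

/-!
# The upper bound of the dimension
-/

set_option autoImplicit false

open Filter Topology Metric Set MeasureTheory

namespace Pool.Agent.Helper25.RB

open Pool.Agent.Helper25.JB

/-- the real parts of the terms -/
noncomputable def hh (L : ℕ → ℂ → ℂ) (k : ℕ) (θ : ℝ) : ℝ :=
  (ell L k (Phi L k (Complex.exp (θ * Complex.I)))).re

theorem reS (L : ℕ → ℂ → ℂ) (N : ℕ) (θ : ℝ) :
    (S L N (Complex.exp (θ * Complex.I))).re = ∑ k ∈ Finset.range N, hh L k (2 ^ k * θ) := by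
  unfold S hh
  rw [Complex.re_sum]
  refine Finset.sum_congr rfl fun k _ => ?_
  have e : Complex.exp (θ * Complex.I) ^ (2 ^ k) = Complex.exp (((2 ^ k * θ : ℝ) : ℂ) * Complex.I) := by
    rw [← Complex.exp_nat_mul]
    congr 1
    push_cast
    ring
  rw [e]

theorem exp_per (θ : ℝ) : Complex.exp (((θ + 2 * Real.pi : ℝ) : ℂ) * Complex.I) = Complex.exp (θ * Complex.I) := by
  push_cast
  rw [add_mul, Complex.exp_add, Complex.exp_two_pi_mul_I, mul_one]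

theorem hh_periodic (L : ℕ → ℂ → ℂ) (k : ℕ) : Function.Periodic (hh L k) (2 * Real.pi) := by
  intro θ
  unfold hh
  rw [exp_per]

theorem cont_of_sqrt {E : Type*} [NormedAddCommGroup E] {f : ℝ → E} {K : ℝ}
    (h : ∀ θ θ', ‖f θ - f θ'‖ ≤ K * Real.sqrt |θ - θ'|) : Continuous f := by
  rw [continuous_iff_continuousAt]
  intro θ
  rw [ContinuousAt, tendsto_iff_norm_sub_tendsto_zero]
  have h1 : Tendsto (fun t : ℝ => K * Real.sqrt |t - θ|) (𝓝 θ) (𝓝 (K * Real.sqrt |θ - θ|)) := by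
    refine Continuous.tendsto ?_ θ
    fun_prop
  rw [sub_self, abs_zero, Real.sqrt_zero, mul_zero] at h1
  exact squeeze_zero (fun _ => norm_nonneg _) (fun t => h t θ) h1

/-- the facts on the real parts -/
theorem hh_facts (hHK : S_HK) : ∃ C : ℝ, 1 ≤ C ∧ ∀ (δ : ℝ) (L : ℕ → ℂ → ℂ) (w : ℕ → ℝ), Sys δ L →
    (∀ k, w k ≤ δ) → (∀ k, ∀ v ∈ ball (0 : ℂ) 2, ‖L k v‖ ≤ w k) → ∀ k : ℕ,
    (∀ θ, |hh L k θ| ≤ C * w k) ∧ (∀ θ θ', |hh L k θ - hh L k θ'| ≤ C * w k * Real.sqrt |θ - θ'|) ∧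
    ∫ θ in (0 : ℝ)..(2 * Real.pi), hh L k θ = 0 := by
  obtain ⟨C, hC, h⟩ := hHK
  refine ⟨C, hC, fun δ L w hS hwδ hw k => ?_⟩
  obtain ⟨h1, h2, h3⟩ := h δ L w hS hwδ hw k
  refine ⟨fun θ => (Complex.abs_re_le_norm _).trans (h1 θ), fun θ θ' => ?_, ?_⟩
  · unfold hh
    rw [← Complex.sub_re]
    exact (Complex.abs_re_le_norm _).trans (h2 θ θ')
  · have hc : Continuous fun θ : ℝ => ell L k (Phi L k (Complex.exp (θ * Complex.I))) := cont_of_sqrt h2
    have h4 := Complex.reCLM.intervalIntegral_comp_comm (hc.intervalIntegrable (0 : ℝ) (2 * Real.pi))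
      (μ := volume)
    rw [h3] at h4
    simp only [Complex.reCLM_apply, Complex.zero_re] at h4
    exact h4

theorem hh_continuous (hHK : S_HK) {δ : ℝ} {L : ℕ → ℂ → ℂ} (hS : Sys δ L) (k : ℕ) : Continuous (hh L k) := by
  obtain ⟨C, hC, h⟩ := hh_facts hHK
  have h1 := (h δ L (fun _ => δ) hS (fun _ => le_rfl) hS.bd k).2.1
  exact cont_of_sqrt (f := hh L k) (K := C * δ) h1

/-- the upper bound of the dimension -/
theorem upper_dim (hEXP : S_EXP) (hCOV : S_COV) (hHK : S_HK) : ∃ A : ℝ, 1 ≤ A ∧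
    ∀ (δ : ℝ) (L : ℕ → ℂ → ℂ) (w : ℕ → ℝ), Sys δ L → A * δ ≤ 1 → (∀ k, w k ≤ δ) →
    (∀ k, ∀ v ∈ ball (0 : ℂ) 2, ‖L k v‖ ≤ w k) →
    ∀ V : ℝ, 0 ≤ V → A * V ≤ 1 → (∀ᶠ N : ℕ in atTop, ∑ k ∈ Finset.range N, w k ^ 2 ≤ V * N) →
    dimH (Phi L 0 '' sphere 0 1) ≤ ENNReal.ofReal (1 + A * V) := by
  obtain ⟨C, hC, hfacts⟩ := hh_facts hHK
  obtain ⟨E, hE, hexp⟩ := hEXP
  refine ⟨1000 * C + 2 * E * C ^ 2, by nlinarith, fun δ L w hS hAδ hwδ hLw V hV hAV hev => ?_⟩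
  have hpp := Real.pi_pos
  set A : ℝ := 1000 * C + 2 * E * C ^ 2 with hA
  have hEC : 0 ≤ E * C ^ 2 := by positivity
  have hw0 : ∀ k, 0 ≤ w k := fun k => (norm_nonneg _).trans (hLw k 0 (by simp))
  have hδ0 := hS.pos
  apply hCOV δ L hS (1 + A * V) (2 * Real.pi) (by nlinarith) (by linarith)
  apply Eventually.frequently
  filter_upwards [hev] with N hN
  have hCw : ∀ k, C * w k ≤ 1 / 1000 := by
    intro k
    have h1 := hwδ k
    have h2 : C * w k ≤ C * δ := by gcongr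
    nlinarith
  have h1 := hexp (fun k => C * w k) (hh L) (fun k => by have := hw0 k; positivity) hCw (hh_periodic L)
    (fun k => (hfacts δ L w hS hwδ hLw k).1) (fun k => (hfacts δ L w hS hwδ hLw k).2.1)
    (fun k => (hfacts δ L w hS hwδ hLw k).2.2) (1 + A * V) N (by nlinarith) (by linarith)
  simp only [reS]
  have h2 : ∑ k ∈ Finset.range N, (C * w k) ^ 2 = C ^ 2 * ∑ k ∈ Finset.range N, w k ^ 2 := by
    rw [Finset.mul_sum]
    exact Finset.sum_congr rfl fun k _ => by ring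
  rw [h2] at h1
  have h3 : E * (C ^ 2 * ∑ k ∈ Finset.range N, w k ^ 2) ≤ (N : ℝ) * (A * V) * Real.log 2 := by
    have h4 : (1 / 2 : ℝ) ≤ Real.log 2 := by have := Real.log_two_gt_d9; linarith
    calc E * (C ^ 2 * ∑ k ∈ Finset.range N, w k ^ 2) ≤ E * (C ^ 2 * (V * N)) := by gcongr
      _ = (N : ℝ) * ((2 * E * C ^ 2) * V) * (1 / 2) := by ring
      _ ≤ (N : ℝ) * (A * V) * Real.log 2 := by
        gcongr
        rw [hA]
        linarith
  have h4 : (2 : ℝ) ^ ((N : ℝ) * (1 - (1 + A * V))) = Real.exp (-((N : ℝ) * (A * V) * Real.log 2)) := by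
    rw [Real.rpow_def_of_pos (by norm_num)]
    congr 1
    ring
  rw [h4]
  calc Real.exp (-((N : ℝ) * (A * V) * Real.log 2)) * _
      ≤ Real.exp (-((N : ℝ) * (A * V) * Real.log 2)) *
        (2 * Real.pi * Real.exp (E * (C ^ 2 * ∑ k ∈ Finset.range N, w k ^ 2))) := by gcongr
    _ ≤ Real.exp (-((N : ℝ) * (A * V) * Real.log 2)) *
        (2 * Real.pi * Real.exp ((N : ℝ) * (A * V) * Real.log 2)) := by gcongr
    _ = 2 * Real.pi := by
        rw [mul_left_comm, ← Real.exp_add, neg_add_cancel, Real.exp_zero, mul_one]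

end Pool.Agent.Helper25.RB
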