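import Pool.Agent.Helper25.RB.DER
import Pool.Agent.Helper25.RB.Stm4

/-!
# Lipschitz constants for summable perturbations
-/

set_option autoImplicit false

open Filter Topology Metric Set MeasureTheory

namespace Pool.Agent.Helper25.RB.LIP

open Pool.Agent.Helper25.JB Pool.Agent.Helper25.RB Pool.Agent.Helper25.RB.DER

variable {w : ℕ → ℝ} {L : ℕ → ℂ → ℂ}

/-- the tails -/
noncomputable def T (w : ℕ → ℝ) (k : ℕ) : ℝ := ∑' l, w (k + l)

theorem T_succ (hs : Summable w) (k : ℕ) : T w k = w k + T w (k + 1) := by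
  have h1 : Summable fun l => w (k + l) := by
    have := (summable_nat_add_iff k).2 hs
    simpa only [add_comm k] using this
  rw [T, h1.tsum_eq_zero_add, T]
  simp only [add_zero]
  congr 2
  funext l
  congr 1
  ring

theorem T_nonneg (h0 : ∀ k, 0 ≤ w k) (k : ℕ) : 0 ≤ T w k := tsum_nonneg fun _ => h0 _

theorem T_le (h0 : ∀ k, 0 ≤ w k) (hs : Summable w) (k : ℕ) : T w k ≤ ∑' l, w l := by
  induction k with
  | zero => rw [T]; simp
  | succ k ih =>
    have := T_succ hs k
    linarith [h0 k]

theorem it_tendsto (h : Sys (1 / 100000) L) (k : ℕ) {z : ℂ} (hz : ‖z‖ ≤ 1) :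
    Tendsto (fun j => it L j k z) atTop (𝓝 (psi L k z)) := by
  have hc : CauchySeq fun j => it L j k z := by
    refine cauchySeq_of_le_geometric (3 / 4) (1 / 100000) (by norm_num) fun j => ?_
    rw [dist_comm, dist_eq_norm]
    exact it_diff h.pos (le40 h) h.diff h.bd j k z hz
  exact hc.tendsto_limUnder

theorem it_lip (h : WSys w L) (j : ℕ) : ∀ (k : ℕ) (z z' : ℂ), ‖z‖ ≤ 1 → ‖z'‖ ≤ 1 →
    ‖it L j k z - it L j k z'‖ ≤ 4 * T w k * ‖z - z'‖ := by
  have hb := it_bd h.sys.pos (le40 h.sys) h.sys.bd
  induction j with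
  | zero =>
    intro k z z' _ _
    have := T_nonneg h.nonneg k
    simp only [it, sub_zero, norm_zero]
    positivity
  | succ j ih =>
    intro k z z' hz hz'
    have hz2 : ‖z ^ 2‖ ≤ 1 := by rw [norm_pow]; exact pow_le_one₀ (norm_nonneg _) hz
    have hz2' : ‖z' ^ 2‖ ≤ 1 := by rw [norm_pow]; exact pow_le_one₀ (norm_nonneg _) hz'
    have h1 := ih (k + 1) (z ^ 2) (z' ^ 2) hz2 hz2'
    have h2 := ih k z z' hz hz'
    have b1 := hb j k z hz
    have b2 := hb j k z' hz'
    have h0 : 0 ≤ ‖z - z'‖ := norm_nonneg _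
    have hT := T_succ h.summable k
    have hT0 := T_nonneg h.nonneg k
    have hT1 := T_nonneg h.nonneg (k + 1)
    have hTs : T w k ≤ 1 / 1000 := (T_le h.nonneg h.summable k).trans h.small
    have hw := h.nonneg k
    have h3 : ‖z ^ 2 - z' ^ 2‖ ≤ 2 * ‖z - z'‖ := by
      have e : z ^ 2 - z' ^ 2 = (z + z') * (z - z') := by ring
      rw [e, norm_mul]
      gcongr
      exact (norm_add_le _ _).trans (by linarith)
    have h5 : ‖z * Complex.exp (it L j k z) - z' * Complex.exp (it L j k z')‖ ≤ 11 / 10 * ‖z - z'‖ := by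
      have e : z * Complex.exp (it L j k z) - z' * Complex.exp (it L j k z') =
          (z - z') * Complex.exp (it L j k z) +
          z' * (Complex.exp (it L j k z) - Complex.exp (it L j k z')) := by ring
      rw [e]
      refine (norm_add_le _ _).trans ?_
      rw [norm_mul, norm_mul]
      have h6 := exp_sub (a := it L j k z) (b := it L j k z') (by linarith) (by linarith)
      have h7 := exp_near (a := it L j k z) (by linarith)
      have h8 : 4 * T w k * ‖z - z'‖ ≤ 4 * (1 / 1000) * ‖z - z'‖ := by gcongr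
      calc ‖z - z'‖ * ‖Complex.exp (it L j k z)‖ +
            ‖z'‖ * ‖Complex.exp (it L j k z) - Complex.exp (it L j k z')‖
          ≤ ‖z - z'‖ * (21 / 20) + 1 * (3 * (4 * (1 / 1000) * ‖z - z'‖)) := by
            gcongr
            refine h6.trans ?_
            gcongr
            exact h2.trans h8
        _ ≤ 11 / 10 * ‖z - z'‖ := by linarith
    have h6 := lip (h.sys.diff k) (h.bd k) (v := z' * Complex.exp (it L j k z'))
      (w := z * Complex.exp (it L j k z))
      (by have := arg_bd (le40 h.sys) hz' b2; linarith) (by have := arg_bd (le40 h.sys) hz b1; linarith)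
    rw [norm_sub_rev (z' * Complex.exp (it L j k z'))] at h6
    have e : it L (j + 1) k z - it L (j + 1) k z' =
        ((it L j (k + 1) (z ^ 2) - it L j (k + 1) (z' ^ 2)) +
          (L k (z' * Complex.exp (it L j k z')) - L k (z * Complex.exp (it L j k z)))) / 2 := by
      show (it L j (k + 1) (z ^ 2) - L k (z * Complex.exp (it L j k z))) / 2 -
        (it L j (k + 1) (z' ^ 2) - L k (z' * Complex.exp (it L j k z'))) / 2 = _
      ring
    rw [e, norm_div, Complex.norm_ofNat, div_le_iff₀ (by norm_num)]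
    refine (norm_add_le _ _).trans ?_
    calc ‖it L j (k + 1) (z ^ 2) - it L j (k + 1) (z' ^ 2)‖ +
          ‖L k (z' * Complex.exp (it L j k z')) - L k (z * Complex.exp (it L j k z))‖
        ≤ 4 * T w (k + 1) * (2 * ‖z - z'‖) + 3 * w k * (11 / 10 * ‖z - z'‖) := by
          gcongr
          · exact h1.trans (by gcongr)
          · exact h6.trans (by gcongr)
      _ ≤ 4 * T w k * ‖z - z'‖ * 2 := by
          rw [hT]
          nlinarith [mul_nonneg hw h0]

theorem main : S_LIP := by
  intro w L h k z z' hz hz'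
  exact le_of_tendsto ((it_tendsto h.sys k hz).sub (it_tendsto h.sys k hz')).norm
    (Eventually.of_forall fun j => it_lip h j k z z' hz hz')

end Pool.Agent.Helper25.RB.LIP
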