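import Pool.Agent.Helper25.RB.C1
import Pool.Agent.Helper25.RB.LIP
import Pool.Agent.Helper25.RB.V
import Pool.Agent.Helper25.RB.COE

/-!
# Hölder regularity of the derivative on the circle bounds the resonant coefficients (helper17 for helper25)

`main : S_LIP → S_GR1`.
-/

set_option autoImplicit false

open Filter Topology Metric Set MeasureTheory intervalIntegral

namespace Pool.Agent.Helper25.RB.GR1

open Pool.Agent.Helper25.JB Pool.Agent.Helper25.RB Pool.Agent.Helper25.RB.DER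

/-- the Fourier coefficient and the translation by half a period -/
theorem halfp {v : ℝ → ℂ} {B : ℝ} (hc : Continuous v) (hp : Function.Periodic v (2 * Real.pi)) (N : ℕ) (hN : 0 < N)
    (hv : ∀ θ : ℝ, ‖v θ - v (θ + Real.pi / N)‖ ≤ B) :
    ‖∫ θ in (0 : ℝ)..(2 * Real.pi), v θ * Complex.exp (-(N * θ) * Complex.I)‖ ≤ Real.pi * B := by
  have hN' : (N : ℝ) ≠ 0 := by positivity
  have hNc : (N : ℂ) ≠ 0 := by exact_mod_cast hN.ne'
  set g : ℝ → ℂ := fun θ => v θ * Complex.exp (-(N * θ) * Complex.I) with hg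
  have hgp : Function.Periodic g (2 * Real.pi) := by
    intro θ
    simp only [hg, hp θ]
    congr 1
    have : -((N : ℂ) * ((θ + 2 * Real.pi : ℝ) : ℂ)) * Complex.I = -(N * θ) * Complex.I
        + ((-(N : ℤ) : ℤ) : ℂ) * (2 * Real.pi * Complex.I) := by
      push_cast
      ring
    rw [this, Complex.exp_add, Complex.exp_int_mul_two_pi_mul_I, mul_one]
  have h1 : ∫ θ in (0 : ℝ)..(2 * Real.pi), g θ
      = - ∫ θ in (0 : ℝ)..(2 * Real.pi), v (θ + Real.pi / N) * Complex.exp (-(N * θ) * Complex.I) := by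
    have h2 := hgp.intervalIntegral_add_eq 0 (Real.pi / N)
    rw [zero_add] at h2
    have h3 : ∫ θ in (0 : ℝ)..(2 * Real.pi), g (θ + Real.pi / N)
        = ∫ θ in (Real.pi / N)..(Real.pi / N + 2 * Real.pi), g θ := by
      rw [intervalIntegral.integral_comp_add_right (fun θ => g θ) (Real.pi / N)]
      rw [zero_add, add_comm (2 * Real.pi)]
    rw [h2, ← h3, ← intervalIntegral.integral_neg]
    refine intervalIntegral.integral_congr fun θ _ => ?_
    simp only [hg]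
    have : -((N : ℂ) * ((θ + Real.pi / N : ℝ) : ℂ)) * Complex.I
        = -(N * θ) * Complex.I - Real.pi * Complex.I := by
      push_cast
      field_simp
      ring
    rw [this, Complex.exp_sub, Complex.exp_pi_mul_I]
    ring
  have h4 : (2 : ℂ) * ∫ θ in (0 : ℝ)..(2 * Real.pi), g θ
      = ∫ θ in (0 : ℝ)..(2 * Real.pi), (v θ - v (θ + Real.pi / N)) * Complex.exp (-(N * θ) * Complex.I) := by
    have e : ∀ θ : ℝ, (v θ - v (θ + Real.pi / N)) * Complex.exp (-(N * θ) * Complex.I)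
        = g θ - v (θ + Real.pi / N) * Complex.exp (-(N * θ) * Complex.I) := by
      intro θ
      simp only [hg]
      ring
    simp_rw [e]
    rw [intervalIntegral.integral_sub, two_mul]
    · nth_rewrite 2 [h1]
      ring
    · exact (Continuous.intervalIntegrable (by fun_prop) _ _)
    · exact (Continuous.intervalIntegrable (by fun_prop) _ _)
  have h5 : ‖∫ θ in (0 : ℝ)..(2 * Real.pi), (v θ - v (θ + Real.pi / N)) *
      Complex.exp (-(N * θ) * Complex.I)‖ ≤ B * |2 * Real.pi - 0| := by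
    refine intervalIntegral.norm_integral_le_of_norm_le_const fun θ _ => ?_
    have hn : ‖Complex.exp (-((N : ℂ) * θ) * Complex.I)‖ = 1 := by
      have := Complex.norm_exp_ofReal_mul_I (-(N * θ))
      rw [← this]
      congr 3
      push_cast
      ring
    rw [norm_mul, hn, mul_one]
    exact hv θ
  rw [← h4, norm_mul, sub_zero, abs_of_pos (by positivity)] at h5
  have h6 : ‖(2 : ℂ)‖ = 2 := by norm_num
  rw [h6] at h5
  nlinarith [Real.pi_pos]

theorem circle (a b : ℝ) : ‖Complex.exp (a * Complex.I) - Complex.exp (b * Complex.I)‖ ≤ |a - b| := by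
  have e : Complex.exp (a * Complex.I) - Complex.exp (b * Complex.I) =
      Complex.exp (b * Complex.I) * (Complex.exp (Complex.I * ((a - b : ℝ) : ℂ)) - 1) := by
    rw [mul_sub, ← Complex.exp_add, mul_one]
    congr 2
    push_cast
    ring
  rw [e, norm_mul, Complex.norm_exp_ofReal_mul_I, one_mul]
  exact Real.norm_exp_I_mul_ofReal_sub_one_le

/-- a logarithm -/
theorem logd {x y : ℂ} (hx : ‖x‖ ≤ 3 / 1000) (hy : ‖y‖ ≤ 3 / 1000) :
    ‖x - y‖ ≤ 2 * ‖Complex.exp (-x) - Complex.exp (-y)‖ := by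
  have h1 := V.expL (σ := 3 / 1000) (by norm_num) (by norm_num) (x := -x) (y := -y)
    (by rwa [norm_neg]) (by rwa [norm_neg])
  have e : x - y = ((Complex.exp (-x) - -x) - (Complex.exp (-y) - -y)) -
      (Complex.exp (-x) - Complex.exp (-y)) := by ring
  have h2 := norm_sub_le ((Complex.exp (-x) - -x) - (Complex.exp (-y) - -y))
      (Complex.exp (-x) - Complex.exp (-y))
  rw [← e] at h2
  have h3 : ‖-x - -y‖ = ‖x - y‖ := by
    rw [neg_sub_neg, norm_sub_rev]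
  rw [h3] at h1
  have h4 := norm_nonneg (x - y)
  linarith

section

variable {w : ℕ → ℝ} {L : ℕ → ℂ → ℂ}

theorem T_small (h : WSys w L) (k : ℕ) : LIP.T w k ≤ 1 / 1000 :=
  (LIP.T_le h.nonneg h.summable k).trans h.small

theorem w_le (h : WSys w L) (k : ℕ) : w k ≤ LIP.T w k := by
  have h1 := LIP.T_succ h.summable k
  have h2 := LIP.T_nonneg h.nonneg (k + 1)
  linarith

theorem psi_bd (hL : S_LIP) (h : WSys w L) (k : ℕ) {z : ℂ} (hz : ‖z‖ ≤ 1) : ‖psi L k z‖ ≤ 4 * LIP.T w k := by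
  have h1 := hL w L h k z 0 hz (by simp)
  rw [(spec h.sys k).2.1, sub_zero, sub_zero] at h1
  refine h1.trans ?_
  have h2 := LIP.T_nonneg h.nonneg k
  show 4 * LIP.T w k * ‖z‖ ≤ _
  have : 4 * LIP.T w k * ‖z‖ ≤ 4 * LIP.T w k * 1 := by gcongr
  linarith

theorem Phi_id (hL : S_LIP) (h : WSys w L) (k : ℕ) {z : ℂ} (hz : ‖z‖ ≤ 1) :
    ‖Phi L k z - z‖ ≤ 8 * LIP.T w k := by
  have hT := LIP.T_nonneg h.nonneg k
  have hs := T_small h k
  have b1 := psi_bd hL h k hz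
  have h1 := Complex.norm_exp_sub_one_le (x := psi L k z) (by linarith)
  have e : Phi L k z - z = z * (Complex.exp (psi L k z) - 1) := by
    unfold Phi
    ring
  rw [e, norm_mul]
  calc ‖z‖ * ‖Complex.exp (psi L k z) - 1‖ ≤ 1 * (2 * (4 * LIP.T w k)) := by
        gcongr
        exact h1.trans (by gcongr)
    _ = _ := by ring

theorem Phi_sub (hL : S_LIP) (h : WSys w L) (k : ℕ) {z z' : ℂ} (hz : ‖z‖ ≤ 1) (hz' : ‖z'‖ ≤ 1) :
    ‖(Phi L k z - z) - (Phi L k z' - z')‖ ≤ 20 * LIP.T w k * ‖z - z'‖ := by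
  have hT := LIP.T_nonneg h.nonneg k
  have hs := T_small h k
  have b1 := psi_bd hL h k hz
  have b2 := psi_bd hL h k hz'
  have h1 := Complex.norm_exp_sub_one_le (x := psi L k z) (by linarith)
  have h2 := exp_sub (a := psi L k z) (b := psi L k z') (by linarith) (by linarith)
  have h3 : ‖psi L k z - psi L k z'‖ ≤ 4 * LIP.T w k * ‖z - z'‖ := hL w L h k z z' hz hz'
  have h0 : 0 ≤ ‖z - z'‖ := norm_nonneg _
  have e : (Phi L k z - z) - (Phi L k z' - z') = (z - z') * (Complex.exp (psi L k z) - 1) +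
      z' * (Complex.exp (psi L k z) - Complex.exp (psi L k z')) := by
    unfold Phi
    ring
  rw [e]
  refine (norm_add_le _ _).trans ?_
  rw [norm_mul, norm_mul]
  calc ‖z - z'‖ * ‖Complex.exp (psi L k z) - 1‖ +
        ‖z'‖ * ‖Complex.exp (psi L k z) - Complex.exp (psi L k z')‖
      ≤ ‖z - z'‖ * (2 * (4 * LIP.T w k)) + 1 * (3 * (4 * LIP.T w k * ‖z - z'‖)) := by
        have h9 : ‖Complex.exp (psi L k z) - 1‖ ≤ 2 * (4 * LIP.T w k) := h1.trans (by gcongr)
        have h10 : ‖Complex.exp (psi L k z) - Complex.exp (psi L k z')‖ ≤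
          3 * (4 * LIP.T w k * ‖z - z'‖) := h2.trans (by gcongr)
        gcongr
    _ = 20 * LIP.T w k * ‖z - z'‖ := by ring

/-- the second order part of `ell` -/
theorem ell_lip2 (h : WSys w L) (k : ℕ) {a b : ℂ}
    (hL : ∀ v ∈ ball (0 : ℂ) 2, ‖L k v - (a * v + b * v ^ 2)‖ ≤ w k ^ 2)
    {v v' : ℂ} (hv : ‖v‖ ≤ 5 / 4) (hw : ‖v'‖ ≤ 5 / 4) :
    ‖(ell L k v - (a / 2 * v + b * v ^ 2)) - (ell L k v' - (a / 2 * v' + b * v' ^ 2))‖ ≤
      72 * w k ^ 2 * ‖v - v'‖ := by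
  have hp := h.nonneg k
  have hs : w k ≤ 1 / 1000 := (w_le h k).trans (T_small h k)
  have hH := V.half (h.sys.diff k) (h.bd k) hp
  have h1 := hH.1 v hv
  have h1' := hH.1 v' hw
  have h2 := V.logL (σ := 9 / 4 * w k) (by positivity) (by linarith) h1 h1'
  have h5 := hH.2 v v' hv hw
  have hq : Differentiable ℂ (fun v : ℂ => a * v + b * v ^ 2) := by fun_prop
  have hE := V.half (f := fun v => L k v - (a * v + b * v ^ 2)) ((h.sys.diff k).sub hq.differentiableOn)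
    hL (by positivity)
  have hder : ∀ v : ℂ, ‖v‖ ≤ 5 / 4 → deriv (fun v => L k v - (a * v + b * v ^ 2)) v =
      deriv (L k) v - (a + 2 * b * v) := by
    intro v hv
    have g1 : DifferentiableAt ℂ (L k) v := by
      refine (h.sys.diff k v ?_).differentiableAt (isOpen_ball.mem_nhds ?_) <;>
      · rw [mem_ball, dist_zero_right]; linarith
    have g2 : HasDerivAt (fun v : ℂ => a * v + b * v ^ 2) (a * 1 + b * (2 * v ^ (2 - 1) * 1)) v :=
      ((hasDerivAt_id v).const_mul a).add (((hasDerivAt_id v).pow 2).const_mul b)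
    have g3 := (g1.hasDerivAt.sub g2).deriv
    refine g3.trans ?_
    ring
  have h6 := hE.2 v v' hv hw
  rw [hder v hv, hder v' hw] at h6
  have h3 : (ell L k v - (a / 2 * v + b * v ^ 2)) - (ell L k v' - (a / 2 * v' + b * v' ^ 2)) =
      ((Complex.log (1 + v * deriv (L k) v / 2) - v * deriv (L k) v / 2) -
      (Complex.log (1 + v' * deriv (L k) v' / 2) - v' * deriv (L k) v' / 2)) +
      (v * (deriv (L k) v - (a + 2 * b * v)) / 2 - v' * (deriv (L k) v' - (a + 2 * b * v')) / 2) := by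
    unfold ell
    ring
  rw [h3]
  refine (norm_add_le _ _).trans ?_
  have h7 : 2 * (9 / 4 * w k) * ‖v * deriv (L k) v / 2 - v' * deriv (L k) v' / 2‖ ≤
      2 * (9 / 4 * w k) * (12 * w k * ‖v - v'‖) := by gcongr
  have h8 : 2 * (9 / 4 * w k) * (12 * w k * ‖v - v'‖) = 54 * w k ^ 2 * ‖v - v'‖ := by ring
  have h9 : 0 ≤ w k ^ 2 * ‖v - v'‖ := by positivity
  linarith

/-- the remainder -/
noncomputable def xi (L : ℕ → ℂ → ℂ) (a b : ℕ → ℂ) (k : ℕ) (z : ℂ) : ℂ :=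
  ell L k (Phi L k z) - (a k / 2 * z + b k * z ^ 2)

theorem xi_lip (hL : S_LIP) (h : WSys w L) {a b : ℕ → ℂ} (ha : ∀ k, ‖a k‖ ≤ w k) (hb : ∀ k, ‖b k‖ ≤ w k)
    (hab : ∀ k, ∀ v ∈ ball (0 : ℂ) 2, ‖L k v - (a k * v + b k * v ^ 2)‖ ≤ w k ^ 2) (k : ℕ) {z z' : ℂ}
    (hz : ‖z‖ ≤ 1) (hz' : ‖z'‖ ≤ 1) :
    ‖xi L a b k z - xi L a b k z'‖ ≤ 240 * (w k * LIP.T w k) * ‖z - z'‖ := by
  have hT := LIP.T_nonneg h.nonneg k
  have hs := T_small h k
  have hw := h.nonneg k
  have hwT := w_le h k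
  have h0 : 0 ≤ ‖z - z'‖ := norm_nonneg _
  obtain ⟨u, hu⟩ : ∃ u, u = Phi L k z := ⟨_, rfl⟩
  obtain ⟨u', hu'⟩ : ∃ u', u' = Phi L k z' := ⟨_, rfl⟩
  have hS := Phi_sub hL h k hz hz'
  have hI := Phi_id hL h k hz'
  have hun := Phi_le h.sys k hz
  have hun' := Phi_le h.sys k hz'
  rw [← hu] at hun
  rw [← hu'] at hun'
  rw [← hu, ← hu'] at hS
  rw [← hu'] at hI
  have hS1 : 20 * LIP.T w k * ‖z - z'‖ ≤ ‖z - z'‖ := by nlinarith
  have huu : ‖u - u'‖ ≤ 2 * ‖z - z'‖ := by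
    have e : u - u' = (z - z') + ((u - z) - (u' - z')) := by ring
    rw [e]
    refine (norm_add_le _ _).trans ?_
    linarith
  have h1 := ell_lip2 h k (hab k) (v := u) (v' := u') (by linarith) (by linarith)
  have h2 : ‖a k / 2 * ((u - z) - (u' - z'))‖ ≤ 10 * (w k * LIP.T w k) * ‖z - z'‖ := by
    rw [norm_mul, norm_div, Complex.norm_ofNat]
    calc ‖a k‖ / 2 * ‖(u - z) - (u' - z')‖ ≤ w k / 2 * (20 * LIP.T w k * ‖z - z'‖) := by
          have := ha k
          gcongr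
      _ = _ := by ring
  have h3 : ‖b k * (((u - z) - (u' - z')) * (u + z) + (u' - z') * ((u - u') + (z - z')))‖ ≤
      84 * (w k * LIP.T w k) * ‖z - z'‖ := by
    rw [norm_mul]
    have g1 : ‖((u - z) - (u' - z')) * (u + z)‖ ≤ 20 * LIP.T w k * ‖z - z'‖ * 3 := by
      rw [norm_mul]
      gcongr
      exact (norm_add_le _ _).trans (by linarith)
    have g2 : ‖(u' - z') * ((u - u') + (z - z'))‖ ≤ 8 * LIP.T w k * (3 * ‖z - z'‖) := by
      rw [norm_mul]
      gcongr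
      exact (norm_add_le _ _).trans (by linarith)
    calc ‖b k‖ * ‖((u - z) - (u' - z')) * (u + z) + (u' - z') * ((u - u') + (z - z'))‖
        ≤ w k * (20 * LIP.T w k * ‖z - z'‖ * 3 + 8 * LIP.T w k * (3 * ‖z - z'‖)) := by
          have := hb k
          gcongr
          exact (norm_add_le _ _).trans (add_le_add g1 g2)
      _ = _ := by ring
  have e : xi L a b k z - xi L a b k z' =
      ((ell L k u - (a k / 2 * u + b k * u ^ 2)) - (ell L k u' - (a k / 2 * u' + b k * u' ^ 2))) +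
      a k / 2 * ((u - z) - (u' - z')) +
      b k * (((u - z) - (u' - z')) * (u + z) + (u' - z') * ((u - u') + (z - z'))) := by
    rw [xi, xi, ← hu, ← hu']
    ring
  rw [e]
  refine (norm_add_le _ _).trans ?_
  have h4 := norm_add_le
    ((ell L k u - (a k / 2 * u + b k * u ^ 2)) - (ell L k u' - (a k / 2 * u' + b k * u' ^ 2)))
    (a k / 2 * ((u - z) - (u' - z')))
  have h5 : 72 * w k ^ 2 * ‖u - u'‖ ≤ 144 * (w k * LIP.T w k) * ‖z - z'‖ := by
    calc 72 * w k ^ 2 * ‖u - u'‖ = 72 * (w k * w k) * ‖u - u'‖ := by ring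
      _ ≤ 72 * (w k * LIP.T w k) * (2 * ‖z - z'‖) := by gcongr
      _ = _ := by ring
  have h6 : 0 ≤ w k * LIP.T w k * ‖z - z'‖ := by positivity
  linarith

/-- the sum of the logarithms -/
noncomputable def Lam (L : ℕ → ℂ → ℂ) (z : ℂ) : ℂ := ∑' i, ell L i (Phi L i (z ^ (2 ^ i)))

theorem pow1 {z : ℂ} (hz : ‖z‖ ≤ 1) (i : ℕ) : ‖z ^ (2 ^ i)‖ ≤ 1 := by
  rw [norm_pow]
  exact pow_le_one₀ (norm_nonneg _) hz

theorem tb (h : WSys w L) (i : ℕ) {z : ℂ} (hz : ‖z‖ ≤ 1) : ‖ell L i (Phi L i (z ^ (2 ^ i)))‖ ≤ 3 * w i :=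
  C1.ell_bd h.sys h.bd i (Phi_le h.sys i (pow1 hz i))

theorem ts (h : WSys w L) {z : ℂ} (hz : ‖z‖ ≤ 1) : Summable fun i => ell L i (Phi L i (z ^ (2 ^ i))) :=
  Summable.of_norm_bounded (h.summable.mul_left 3) fun i => tb h i hz

theorem Lam_bd (h : WSys w L) {z : ℂ} (hz : ‖z‖ ≤ 1) : ‖Lam L z‖ ≤ 3 / 1000 := by
  refine (tsum_of_norm_bounded (h.summable.mul_left 3).hasSum fun i => tb h i hz).trans ?_
  rw [tsum_mul_left]
  linarith [h.small]

theorem F_cont (h : WSys w L) (i : ℕ) : ContinuousOn (fun z => ell L i (Phi L i z)) (closedBall 0 1) := by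
  have h1 : ContinuousOn (Phi L i) (closedBall 0 1) := contOn (maps h.sys) (le40 h.sys) i
  refine (C1.ell_cont h.sys i).comp h1 ?_
  intro z hz
  rw [mem_closedBall, dist_zero_right] at hz ⊢
  exact Phi_le h.sys i hz

theorem Fp_cont (h : WSys w L) (i : ℕ) :
    ContinuousOn (fun z => ell L i (Phi L i (z ^ (2 ^ i)))) (closedBall 0 1) := by
  refine (F_cont h i).comp (continuous_pow (2 ^ i)).continuousOn ?_
  intro z hz
  rw [mem_closedBall, dist_zero_right] at hz ⊢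
  exact pow1 hz i

theorem Lam_cont (h : WSys w L) : ContinuousOn (Lam L) (closedBall 0 1) :=
  continuousOn_tsum (Fp_cont h) (h.summable.mul_left 3) fun i z hz => by
    rw [mem_closedBall, dist_zero_right] at hz
    exact tb h i hz

theorem rp {α x : ℝ} (h0 : 0 < α) (h1 : α < 1) (hx : 0 ≤ x) (hx2 : x ≤ 2) : x ≤ 2 * x ^ α := by
  have h2 : x / 2 ≤ (x / 2) ^ α := Real.self_le_rpow_of_le_one (by positivity) (by linarith) h1.le
  have h3 : (x / 2) ^ α ≤ x ^ α := Real.rpow_le_rpow (by positivity) (by linarith) h0.le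
  linarith

theorem Lam_hol (hL : S_LIP) (h : WSys w L) {α K : ℝ} (h0 : 0 < α) (h1 : α < 1)
    (hG : ∀ z z' : ℂ, ‖z‖ = 1 → ‖z'‖ = 1 → ‖GG L z - GG L z'‖ ≤ K * ‖z - z'‖ ^ α) {z z' : ℂ} (hz : ‖z‖ = 1)
    (hz' : ‖z'‖ = 1) : ‖Lam L z - Lam L z'‖ ≤ (4 * |K| + 1) * ‖z - z'‖ ^ α := by
  have l1 := Lam_bd h hz.le
  have l2 := Lam_bd h hz'.le
  have hT := LIP.T_nonneg h.nonneg 0
  have hs := T_small h 0
  have p1 := psi_bd hL h 0 hz.le
  have p2 := psi_bd hL h 0 hz'.le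
  have key := logd l1 l2
  have e1 : ∀ z : ℂ, Complex.exp (-Lam L z) = GG L z * Complex.exp (-psi L 0 z) := by
    intro z
    rw [GG, ← Complex.exp_add]
    congr 1
    show _ = psi L 0 z - Lam L z + -psi L 0 z
    ring
  have n1 : ‖Complex.exp (-psi L 0 z)‖ ≤ 21 / 20 :=
    exp_near (a := -psi L 0 z) (by rw [norm_neg]; linarith)
  have n2 : ‖GG L z'‖ ≤ 21 / 20 := by
    refine exp_near (a := psi L 0 z' - Lam L z') ?_
    exact (norm_sub_le _ _).trans (by linarith)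
  have n3 : ‖Complex.exp (-psi L 0 z) - Complex.exp (-psi L 0 z')‖ ≤ 3 * ‖-psi L 0 z - -psi L 0 z'‖ :=
    exp_sub (by rw [norm_neg]; linarith) (by rw [norm_neg]; linarith)
  have n4 : ‖-psi L 0 z - -psi L 0 z'‖ ≤ 4 * LIP.T w 0 * ‖z - z'‖ := by
    rw [neg_sub_neg, norm_sub_rev]
    exact hL w L h 0 z z' hz.le hz'.le
  have hd0 : 0 ≤ ‖z - z'‖ := norm_nonneg _
  have hd : ‖z - z'‖ ≤ 2 := (norm_sub_le _ _).trans (by linarith)
  have hr := rp h0 h1 hd0 hd
  have hx : 0 ≤ ‖z - z'‖ ^ α := Real.rpow_nonneg hd0 α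
  have n5 : ‖Complex.exp (-psi L 0 z) - Complex.exp (-psi L 0 z')‖ ≤ 24 / 1000 * ‖z - z'‖ ^ α := by
    refine n3.trans ?_
    have : 4 * LIP.T w 0 * ‖z - z'‖ ≤ 4 * (1 / 1000) * (2 * ‖z - z'‖ ^ α) := by gcongr
    linarith
  have n6 : ‖GG L z - GG L z'‖ ≤ |K| * ‖z - z'‖ ^ α := by
    refine (hG z z' hz hz').trans ?_
    gcongr
    exact le_abs_self K
  have e2 : Complex.exp (-Lam L z) - Complex.exp (-Lam L z') =
      (GG L z - GG L z') * Complex.exp (-psi L 0 z) +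
      GG L z' * (Complex.exp (-psi L 0 z) - Complex.exp (-psi L 0 z')) := by
    rw [e1, e1]
    ring
  have n7 : ‖Complex.exp (-Lam L z) - Complex.exp (-Lam L z')‖ ≤
      |K| * ‖z - z'‖ ^ α * (21 / 20) + 21 / 20 * (24 / 1000 * ‖z - z'‖ ^ α) := by
    rw [e2]
    refine (norm_add_le _ _).trans ?_
    rw [norm_mul, norm_mul]
    gcongr
  refine key.trans ?_
  have n8 : 0 ≤ |K| * ‖z - z'‖ ^ α := by positivity
  have e3 : (4 * |K| + 1) * ‖z - z'‖ ^ α = 4 * (|K| * ‖z - z'‖ ^ α) + ‖z - z'‖ ^ α := by ring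
  rw [e3]
  linarith

end

/-- the circle -/
noncomputable def c (θ : ℝ) : ℂ := Complex.exp (θ * Complex.I)

theorem c_norm (θ : ℝ) : ‖c θ‖ = 1 := Complex.norm_exp_ofReal_mul_I θ

theorem c_cont : Continuous c := by
  unfold c
  fun_prop

theorem c_per : Function.Periodic c (2 * Real.pi) := by
  intro θ
  rw [c, c, show ((θ + 2 * Real.pi : ℝ) : ℂ) * Complex.I = θ * Complex.I + 2 * Real.pi * Complex.I by
    push_cast; ring, Complex.exp_add, Complex.exp_two_pi_mul_I, mul_one]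

theorem c_pow (θ : ℝ) (i : ℕ) : c θ ^ (2 ^ i) = c (2 ^ i * θ) := by
  rw [c, c, ← Complex.exp_nat_mul]
  congr 1
  push_cast
  ring

theorem c_sub (θ θ' : ℝ) : ‖c θ - c θ'‖ ≤ |θ - θ'| := circle θ θ'

theorem c_shift (θ : ℝ) (i j : ℕ) :
    c (θ + Real.pi / (2 ^ (j + 1) : ℕ)) ^ (2 ^ (i + (j + 2))) = c θ ^ (2 ^ (i + (j + 2))) := by
  rw [c_pow, c_pow]
  have e : (2 : ℝ) ^ (i + (j + 2)) * (θ + Real.pi / (2 ^ (j + 1) : ℕ)) =
      2 ^ (i + (j + 2)) * θ + (2 ^ i : ℕ) • (2 * Real.pi) := by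
    rw [nsmul_eq_mul]
    push_cast
    field_simp
    ring
  rw [e]
  exact c_per.nsmul (2 ^ i) _

/-- the main coefficient -/
theorem mainc (A B : ℂ) (i j : ℕ) :
    ∫ θ in (0 : ℝ)..(2 * Real.pi), (A / 2 * c θ ^ (2 ^ i) + B * (c θ ^ (2 ^ i)) ^ 2) *
      Complex.exp (-((2 ^ (j + 1) : ℕ) * θ) * Complex.I) =
    (if i = j + 1 then 2 * Real.pi * (A / 2) else 0) + (if i = j then 2 * Real.pi * B else 0) := by
  have e : ∀ θ : ℝ, (A / 2 * c θ ^ (2 ^ i) + B * (c θ ^ (2 ^ i)) ^ 2) *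
      Complex.exp (-((2 ^ (j + 1) : ℕ) * θ) * Complex.I)
      = A / 2 * Complex.exp (((2 ^ i - 2 ^ (j + 1) : ℤ) : ℂ) * θ * Complex.I)
        + B * Complex.exp (((2 ^ (i + 1) - 2 ^ (j + 1) : ℤ) : ℂ) * θ * Complex.I) := by
    intro θ
    have e1 : Complex.exp (((2 ^ i - 2 ^ (j + 1) : ℤ) : ℂ) * θ * Complex.I)
        = c θ ^ (2 ^ i) * Complex.exp (-((2 ^ (j + 1) : ℕ) * θ) * Complex.I) := by
      rw [c, ← Complex.exp_nat_mul, ← Complex.exp_add]
      congr 1
      push_cast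
      ring
    have e2 : Complex.exp (((2 ^ (i + 1) - 2 ^ (j + 1) : ℤ) : ℂ) * θ * Complex.I)
        = (c θ ^ (2 ^ i)) ^ 2 * Complex.exp (-((2 ^ (j + 1) : ℕ) * θ) * Complex.I) := by
      rw [← pow_mul, ← pow_succ, c, ← Complex.exp_nat_mul, ← Complex.exp_add]
      congr 1
      push_cast
      ring
    rw [e1, e2]
    ring
  simp_rw [e]
  rw [intervalIntegral.integral_add (Continuous.intervalIntegrable (by fun_prop) _ _)
    (Continuous.intervalIntegrable (by fun_prop) _ _), intervalIntegral.integral_const_mul,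
    intervalIntegral.integral_const_mul, COE.orth, COE.orth]
  have h1 : ((2 : ℤ) ^ i - 2 ^ (j + 1) = 0) ↔ i = j + 1 := by
    rw [sub_eq_zero]
    exact pow_right_inj₀ (by norm_num) (by norm_num)
  have h2 : ((2 : ℤ) ^ (i + 1) - 2 ^ (j + 1) = 0) ↔ i = j := by
    rw [sub_eq_zero, pow_right_inj₀ (by norm_num) (by norm_num)]
    omega
  simp only [h1, h2]
  split_ifs <;> push_cast <;> ring

theorem main : S_LIP → S_GR1 := by
  intro hL w L a b h ha hb hab α K h0 h1 hG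
  refine ⟨4 * |K| + 481, by positivity, fun j => ?_⟩
  have hNpos : 0 < 2 ^ (j + 1) := by positivity
  have hmem : ∀ θ : ℝ, c θ ∈ closedBall (0 : ℂ) 1 := fun θ => by
    rw [mem_closedBall, dist_zero_right, c_norm]
  -- the coefficient of the sum of the logarithms
  have hvc : Continuous fun θ : ℝ => Lam L (c θ) := (Lam_cont h).comp_continuous c_cont hmem
  have hFc : ∀ i, Continuous fun θ : ℝ => ell L i (Phi L i (c θ ^ (2 ^ i))) := fun i =>
    (Fp_cont h i).comp_continuous c_cont hmem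
  have hI : ‖∫ θ in (0 : ℝ)..(2 * Real.pi), Lam L (c θ) * Complex.exp (-((2 ^ (j + 1) : ℕ) * θ) * Complex.I)‖ ≤
      Real.pi * ((4 * |K| + 1) * (Real.pi / (2 ^ (j + 1) : ℕ)) ^ α) := by
    refine halfp hvc (fun θ => by simp only [c_per θ]) (2 ^ (j + 1)) hNpos fun θ => ?_
    refine (Lam_hol hL h h0 h1 hG (c_norm _) (c_norm _)).trans ?_
    gcongr
    refine (c_sub _ _).trans ?_
    rw [show θ - (θ + Real.pi / (2 ^ (j + 1) : ℕ)) = -(Real.pi / (2 ^ (j + 1) : ℕ)) by ring, abs_neg,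
      abs_of_pos (by positivity)]
  -- the tail has no such coefficient
  have hR : ∫ θ in (0 : ℝ)..(2 * Real.pi), (Lam L (c θ) -
      ∑ i ∈ Finset.range (j + 2), ell L i (Phi L i (c θ ^ (2 ^ i)))) *
      Complex.exp (-((2 ^ (j + 1) : ℕ) * θ) * Complex.I) = 0 := by
    have hRt : ∀ θ : ℝ, Lam L (c θ) - ∑ i ∈ Finset.range (j + 2), ell L i (Phi L i (c θ ^ (2 ^ i))) =
        ∑' i, ell L (i + (j + 2)) (Phi L (i + (j + 2)) (c θ ^ (2 ^ (i + (j + 2))))) := by
      intro θ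
      have := (ts h (c_norm θ).le).sum_add_tsum_nat_add (j + 2)
      rw [Lam, ← this]
      ring
    have h2 := halfp (B := 0) (v := fun θ => Lam L (c θ) -
      ∑ i ∈ Finset.range (j + 2), ell L i (Phi L i (c θ ^ (2 ^ i))))
      (hvc.sub (continuous_finset_sum _ fun i _ => hFc i)) (fun θ => by simp only [c_per θ])
      (2 ^ (j + 1)) hNpos fun θ => by
        simp only [hRt, c_shift, sub_self, norm_zero, le_refl]
    rw [mul_zero] at h2
    exact norm_le_zero_iff.1 h2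
  -- the remainders
  obtain ⟨E, hE⟩ : ∃ E : ℕ → ℂ, ∀ i, E i = ∫ θ in (0 : ℝ)..(2 * Real.pi), xi L a b i (c θ ^ (2 ^ i)) *
      Complex.exp (-((2 ^ (j + 1) : ℕ) * θ) * Complex.I) := ⟨_, fun _ => rfl⟩
  have hxc : ∀ i, Continuous fun θ : ℝ => xi L a b i (c θ ^ (2 ^ i)) := by
    intro i
    have h3 : Continuous fun θ : ℝ => a i / 2 * c θ ^ (2 ^ i) + b i * (c θ ^ (2 ^ i)) ^ 2 := by
      have := c_cont
      fun_prop
    exact (hFc i).sub h3
  have hEb : ∀ i, ‖E i‖ ≤ Real.pi * (240 * (w i * LIP.T w i) * (2 ^ i * (Real.pi / (2 ^ (j + 1) : ℕ)))) := by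
    intro i
    rw [hE]
    refine halfp (hxc i) (fun θ => by simp only [c_per θ]) (2 ^ (j + 1)) hNpos fun θ => ?_
    refine (xi_lip hL h ha hb hab i (pow1 (c_norm _).le i) (pow1 (c_norm _).le i)).trans ?_
    have hT := LIP.T_nonneg h.nonneg i
    have hw := h.nonneg i
    gcongr
    rw [c_pow, c_pow]
    refine (c_sub _ _).trans ?_
    rw [← mul_sub, abs_mul, abs_of_pos (by positivity : (0 : ℝ) < 2 ^ i),
      show θ - (θ + Real.pi / (2 ^ (j + 1) : ℕ)) = -(Real.pi / (2 ^ (j + 1) : ℕ)) by ring, abs_neg,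
      abs_of_pos (by positivity : 0 < Real.pi / (2 ^ (j + 1) : ℕ))]
  -- the decomposition
  have hdec : ∫ θ in (0 : ℝ)..(2 * Real.pi), Lam L (c θ) * Complex.exp (-((2 ^ (j + 1) : ℕ) * θ) * Complex.I) =
      ∑ i ∈ Finset.range (j + 2), E i + 2 * Real.pi * (a (j + 1) / 2 + b j) := by
    have hc1 : Continuous fun θ : ℝ => Complex.exp (-((2 ^ (j + 1) : ℕ) * θ) * Complex.I) := by fun_prop
    have h4 : ∀ i, ∫ θ in (0 : ℝ)..(2 * Real.pi), ell L i (Phi L i (c θ ^ (2 ^ i))) *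
        Complex.exp (-((2 ^ (j + 1) : ℕ) * θ) * Complex.I) =
        E i + ((if i = j + 1 then 2 * Real.pi * (a i / 2) else 0) + (if i = j then 2 * Real.pi * b i else 0)) := by
      intro i
      rw [hE, ← mainc (a i) (b i) i j, ← intervalIntegral.integral_add]
      · refine intervalIntegral.integral_congr fun θ _ => ?_
        simp only [xi]
        ring
      · exact Continuous.intervalIntegrable ((hxc i).mul hc1) _ _
      · refine Continuous.intervalIntegrable (Continuous.mul ?_ hc1) _ _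
        have := c_cont
        fun_prop
    have h5 : ∫ θ in (0 : ℝ)..(2 * Real.pi), Lam L (c θ) *
        Complex.exp (-((2 ^ (j + 1) : ℕ) * θ) * Complex.I) =
        (∫ θ in (0 : ℝ)..(2 * Real.pi), (Lam L (c θ) -
          ∑ i ∈ Finset.range (j + 2), ell L i (Phi L i (c θ ^ (2 ^ i)))) *
          Complex.exp (-((2 ^ (j + 1) : ℕ) * θ) * Complex.I)) +
        ∑ i ∈ Finset.range (j + 2), ∫ θ in (0 : ℝ)..(2 * Real.pi), ell L i (Phi L i (c θ ^ (2 ^ i))) *
          Complex.exp (-((2 ^ (j + 1) : ℕ) * θ) * Complex.I) := by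
      rw [← intervalIntegral.integral_finset_sum, ← intervalIntegral.integral_add]
      · refine intervalIntegral.integral_congr fun θ _ => ?_
        rw [← Finset.sum_mul]
        ring
      · exact Continuous.intervalIntegrable
          ((hvc.sub (continuous_finset_sum _ fun i _ => hFc i)).mul hc1) _ _
      · refine Continuous.intervalIntegrable ?_ _ _
        exact continuous_finset_sum _ fun i _ => (hFc i).mul hc1
      · intro i _
        exact Continuous.intervalIntegrable ((hFc i).mul hc1) _ _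
    rw [h5, hR, zero_add, Finset.sum_congr rfl fun i _ => h4 i, Finset.sum_add_distrib, Finset.sum_add_distrib,
      Finset.sum_ite_eq', Finset.sum_ite_eq', if_pos (Finset.mem_range.2 (by omega)),
      if_pos (Finset.mem_range.2 (by omega))]
    ring
  -- the estimate
  have hfin : 2 * Real.pi * ‖a (j + 1) / 2 + b j‖ ≤
      Real.pi * ((4 * |K| + 1) * (Real.pi / (2 ^ (j + 1) : ℕ)) ^ α) +
      ∑ i ∈ Finset.range (j + 2),
        Real.pi * (240 * (w i * LIP.T w i) * (2 ^ i * (Real.pi / (2 ^ (j + 1) : ℕ)))) := by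
    have e : 2 * Real.pi * ‖a (j + 1) / 2 + b j‖ = ‖2 * (Real.pi : ℂ) * (a (j + 1) / 2 + b j)‖ := by
      rw [norm_mul, norm_mul, Complex.norm_ofNat, Complex.norm_real, Real.norm_eq_abs,
        abs_of_pos Real.pi_pos]
    have e2 : 2 * (Real.pi : ℂ) * (a (j + 1) / 2 + b j) =
        (∫ θ in (0 : ℝ)..(2 * Real.pi), Lam L (c θ) *
          Complex.exp (-((2 ^ (j + 1) : ℕ) * θ) * Complex.I)) - ∑ i ∈ Finset.range (j + 2), E i := by
      rw [hdec]
      ring
    rw [e, e2]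
    refine (norm_sub_le _ _).trans (add_le_add hI ?_)
    exact (norm_sum_le _ _).trans (Finset.sum_le_sum fun i _ => hEb i)
  have hpow : (Real.pi / (2 ^ (j + 1) : ℕ)) ^ α ≤ 2 * (2 : ℝ) ^ (-(α * j)) := by
    have e : (2 : ℝ) ^ (-(α * j)) = ((2 : ℝ) ^ (-(j : ℝ))) ^ α := by
      rw [← Real.rpow_mul (by norm_num)]
      congr 1
      ring
    have e2 : (2 : ℝ) ^ (-(j : ℝ)) = ((2 : ℝ) ^ j)⁻¹ := by
      rw [Real.rpow_neg (by norm_num), Real.rpow_natCast]
    have h3 : Real.pi / (2 ^ (j + 1) : ℕ) ≤ 2 * (2 : ℝ) ^ (-(j : ℝ)) := by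
      rw [e2]
      push_cast
      rw [pow_succ, div_le_iff₀ (by positivity)]
      have : 2 * ((2 : ℝ) ^ j)⁻¹ * (2 ^ j * 2) = 4 := by
        field_simp
        norm_num
      rw [this]
      exact Real.pi_lt_four.le
    have hx : 0 ≤ (2 : ℝ) ^ (-(j : ℝ)) := by positivity
    calc (Real.pi / (2 ^ (j + 1) : ℕ)) ^ α ≤ (2 * (2 : ℝ) ^ (-(j : ℝ))) ^ α :=
          Real.rpow_le_rpow (by positivity) h3 h0.le
      _ = 2 ^ α * (2 : ℝ) ^ (-(α * j)) := by rw [Real.mul_rpow (by norm_num) hx, e]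
      _ ≤ 2 * (2 : ℝ) ^ (-(α * j)) := by
          gcongr
          calc (2 : ℝ) ^ α ≤ 2 ^ (1 : ℝ) := Real.rpow_le_rpow_of_exponent_le (by norm_num) h1.le
            _ = 2 := Real.rpow_one 2
  have hsum : ∑ i ∈ Finset.range (j + 2),
        Real.pi * (240 * (w i * LIP.T w i) * (2 ^ i * (Real.pi / (2 ^ (j + 1) : ℕ)))) =
      Real.pi * (240 * Real.pi) * ∑ i ∈ Finset.range (j + 2), (1 / 2 : ℝ) ^ i *
        (w (j + 1 - i) * ∑' l, w (j + 1 - i + l)) := by
    rw [← Finset.sum_range_reflect, Finset.mul_sum]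
    refine Finset.sum_congr rfl fun i hi => ?_
    rw [Finset.mem_range] at hi
    have e1 : j + 2 - 1 - i = j + 1 - i := by omega
    rw [e1]
    have e2 : (2 : ℝ) ^ (j + 1 - i) * (Real.pi / (2 ^ (j + 1) : ℕ)) = Real.pi * (1 / 2) ^ i := by
      have : (2 : ℝ) ^ (j + 1) = 2 ^ (j + 1 - i) * 2 ^ i := by
        rw [← pow_add]
        congr 1
        omega
      push_cast
      rw [this, one_div, inv_pow]
      field_simp
    rw [e2, LIP.T]
    ring
  rw [hsum] at hfin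
  obtain ⟨ss, hsd⟩ : ∃ s : ℝ, s = ∑ i ∈ Finset.range (j + 2), (1 / 2 : ℝ) ^ i *
        (w (j + 1 - i) * ∑' l, w (j + 1 - i + l)) := ⟨_, rfl⟩
  have hs0 : 0 ≤ ss := by
    rw [hsd]
    refine Finset.sum_nonneg fun i _ => ?_
    have := LIP.T_nonneg h.nonneg (j + 1 - i)
    have h3 := h.nonneg (j + 1 - i)
    rw [LIP.T] at this
    positivity
  rw [← hsd] at hfin ⊢
  have hP : 0 ≤ (2 : ℝ) ^ (-(α * j)) := by positivity
  have hK : 0 ≤ |K| := abs_nonneg K
  have h6 : Real.pi * ((4 * |K| + 1) * (Real.pi / (2 ^ (j + 1) : ℕ)) ^ α) ≤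
      Real.pi * ((4 * |K| + 1) * (2 * (2 : ℝ) ^ (-(α * j)))) := by
    gcongr
  have h7 : 2 * Real.pi * ‖a (j + 1) / 2 + b j‖ ≤ 2 * Real.pi * ((4 * |K| + 1) * (2 : ℝ) ^ (-(α * j)) +
      120 * Real.pi * ss) := by
    refine hfin.trans ((add_le_add_left h6 _).trans (le_of_eq ?_))
    ring
  have h8 := le_of_mul_le_mul_left h7 (by positivity)
  refine h8.trans ?_
  have h9 : 120 * Real.pi * ss ≤ 480 * ss := by
    gcongr
    linarith [Real.pi_lt_four]
  have h10 : 0 ≤ |K| * ss := by positivity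
  nlinarith

end Pool.Agent.Helper25.RB.GR1
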