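import Pool.Agent.Helper25.RB.C1
import Pool.Agent.Helper25.RB.Stm4

/-!
# Growth implies Hölder regularity (helper90 for helper25)
-/

set_option autoImplicit false

open Filter Topology Metric Set MeasureTheory

namespace Pool.Agent.Helper25.RB.HOL

open Pool.Agent.Helper25.JB Pool.Agent.Helper25.RB Pool.Agent.Helper25.RB.DER Pool.Agent.Helper25.RB.C1

variable {δ : ℝ} {L : ℕ → ℂ → ℂ}

/-! ### the Lipschitz constant of `ell` -/

theorem u_bd' {c : ℝ} {f : ℂ → ℂ} (hf : DifferentiableOn ℂ f (ball 0 2))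
    (hb : ∀ v ∈ ball (0 : ℂ) 2, ‖f v‖ ≤ c) {v : ℂ} (hv : ‖v‖ ≤ 3 / 2) :
    ‖v * deriv f v / 2‖ ≤ 9 / 4 * c := by
  have h1 := deriv_bd hf hb (x := v) (by linarith)
  have hc : 0 ≤ c := (norm_nonneg _).trans (hb 0 (by simp))
  rw [norm_div, norm_mul, Complex.norm_ofNat]
  have : ‖v‖ * ‖deriv f v‖ ≤ 3 / 2 * (3 * c) := by gcongr
  linarith

theorem ell_bd' (h : Sys δ L) {c : ℝ} {k : ℕ} (hw : ∀ v ∈ ball (0 : ℂ) 2, ‖L k v‖ ≤ c) {v : ℂ}
    (hv : ‖v‖ ≤ 3 / 2) : ‖ell L k v‖ ≤ 4 * c := by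
  have h1 := u_bd' (h.diff k) (h.bd k) hv
  have h2 := u_bd' (h.diff k) hw hv
  have h3 := Complex.norm_log_one_add_half_le_self (z := v * deriv (L k) v / 2)
    (by linarith [h.small])
  have hc : 0 ≤ c := (norm_nonneg _).trans (hw 0 (by simp))
  rw [ell]
  linarith

theorem ell_diff (h : Sys δ L) (k : ℕ) : DifferentiableOn ℂ (ell L k) (ball 0 (3 / 2)) := by
  have hd : DifferentiableOn ℂ (deriv (L k)) (ball 0 2) := (h.diff k).deriv isOpen_ball
  have h1 : DifferentiableOn ℂ (fun v => 1 + v * deriv (L k) v / 2) (ball 0 (3 / 2)) := by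
    refine (differentiableOn_const _).add ((differentiableOn_id.mul (hd.mono ?_)).div_const 2)
    exact ball_subset_ball (by norm_num)
  refine h1.clog ?_
  intro v hv
  rw [mem_ball, dist_zero_right] at hv
  have h2 := u_bd' (h.diff k) (h.bd k) hv.le
  refine Complex.mem_slitPlane_of_norm_lt_one ?_
  linarith [h.small]

theorem ell_lip (h : Sys δ L) {c : ℝ} {k : ℕ} (hw : ∀ v ∈ ball (0 : ℂ) 2, ‖L k v‖ ≤ c) {v v' : ℂ}
    (hv : ‖v‖ ≤ 21 / 20) (hv' : ‖v'‖ ≤ 21 / 20) : ‖ell L k v - ell L k v'‖ ≤ 10 * c * ‖v - v'‖ := by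
  have h1 : ∀ x ∈ closedBall (0 : ℂ) (21 / 20), ‖deriv (ell L k) x‖ ≤ 10 * c := by
    intro x hx
    rw [mem_closedBall, dist_zero_right] at hx
    have hsub : closedBall x (2 / 5) ⊆ ball (0 : ℂ) (3 / 2) := by
      intro y hy
      rw [mem_closedBall, dist_eq_norm] at hy
      rw [mem_ball, dist_zero_right]
      have : ‖y‖ ≤ ‖y - x‖ + ‖x‖ := by
        have := norm_add_le (y - x) x
        simpa using this
      linarith
    have h2 : ‖deriv (ell L k) x‖ ≤ (4 * c) / (2 / 5) := by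
      refine Complex.norm_deriv_le_of_forall_mem_sphere_norm_le (by norm_num) ?_ ?_
      · exact ((ell_diff h k).mono hsub).diffContOnCl_ball subset_rfl
      · intro y hy
        have hy1 := hsub (sphere_subset_closedBall hy)
        rw [mem_ball, dist_zero_right] at hy1
        exact ell_bd' h hw hy1.le
    linarith
  exact (convex_closedBall (0 : ℂ) (21 / 20)).norm_image_sub_le_of_norm_deriv_le
    (f := ell L k) (C := 10 * c) (x := v') (y := v) (fun x hx => by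
      rw [mem_closedBall, dist_zero_right] at hx
      refine ((ell_diff h k) x ?_).differentiableAt (isOpen_ball.mem_nhds ?_) <;>
      · rw [mem_ball, dist_zero_right]; linarith) h1 (by simpa using hv') (by simpa using hv)

/-! ### the sum -/

theorem pow_lip {z z' : ℂ} (hz : ‖z‖ ≤ 1) (hz' : ‖z'‖ ≤ 1) (n : ℕ) :
    ‖z ^ n - z' ^ n‖ ≤ n * ‖z - z'‖ := by
  induction n with
  | zero => simp
  | succ n ih =>
    have e : z ^ (n + 1) - z' ^ (n + 1) = z * (z ^ n - z' ^ n) + (z - z') * z' ^ n := by ring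
    rw [e]
    refine (norm_add_le _ _).trans ?_
    rw [norm_mul, norm_mul, norm_pow]
    have h1 : ‖z'‖ ^ n ≤ 1 := pow_le_one₀ (norm_nonneg _) hz'
    calc ‖z‖ * ‖z ^ n - z' ^ n‖ + ‖z - z'‖ * ‖z'‖ ^ n ≤ 1 * (n * ‖z - z'‖) + ‖z - z'‖ * 1 := by gcongr
      _ = ((n + 1 : ℕ) : ℝ) * ‖z - z'‖ := by push_cast; ring

/-- the geometric sum cut at scale `x` -/
theorem cut_sum {α q : ℝ} (hα : 0 < α) (hα1 : α ≤ 1) (hq1 : 1 / 2 < q) (hq2 : q < 1) (hq : q * 2 ^ α = 1) (n : ℕ) :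
    ∀ x : ℝ, 0 < x → x ≤ 2 → ∑ j ∈ Finset.range n, q ^ j * min 1 (2 ^ j * x) ≤
      (1 / (1 - q) + 2 * (1 / (2 * q - 1))) * x ^ α - 1 / (2 * q - 1) * x := by
  have hA : 0 < 1 / (1 - q) := by
    have : 0 < 1 - q := by linarith
    positivity
  have hB : 0 < 1 / (2 * q - 1) := by
    have : 0 < 2 * q - 1 := by linarith
    positivity
  set A := 1 / (1 - q) with hAd
  set B := 1 / (2 * q - 1) with hBd
  have hB1 : B * (2 * q - 1) = 1 := by
    rw [hBd]
    have : 2 * q - 1 ≠ 0 := by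
      have : 0 < 2 * q - 1 := by linarith
      exact this.ne'
    field_simp
  have hq0 : 0 ≤ q := by linarith
  have hgeo : ∀ n, ∑ j ∈ Finset.range n, q ^ j ≤ A := by
    intro n
    have h1 := (summable_geometric_of_lt_one hq0 hq2).sum_le_tsum (Finset.range n)
      (fun j _ => pow_nonneg hq0 j)
    rwa [tsum_geometric_of_lt_one hq0 hq2, ← one_div] at h1
  induction n with
  | zero =>
    intro x hx hx2
    rw [Finset.range_zero, Finset.sum_empty]
    rcases le_or_gt 1 x with h | h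
    · have h2 : 1 ≤ x ^ α := Real.one_le_rpow h hα.le
      nlinarith
    · have h2 : x ≤ x ^ α := by
        have := Real.rpow_le_rpow_of_exponent_ge hx h.le hα1
        rwa [Real.rpow_one] at this
      nlinarith
  | succ n ih =>
    intro x hx hx2
    rcases le_or_gt 1 x with h | h
    · have h2 : 1 ≤ x ^ α := Real.one_le_rpow h hα.le
      have h3 : ∑ j ∈ Finset.range (n + 1), q ^ j * min 1 (2 ^ j * x) ≤ A := by
        refine le_trans (Finset.sum_le_sum fun j _ => ?_) (hgeo (n + 1))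
        calc q ^ j * min 1 (2 ^ j * x) ≤ q ^ j * 1 := by
              gcongr
              exact min_le_left _ _
          _ = q ^ j := mul_one _
      nlinarith
    · rw [Finset.sum_range_succ']
      have h1 := ih (2 * x) (by linarith) (by linarith)
      have e1 : ∑ j ∈ Finset.range n, q ^ (j + 1) * min 1 (2 ^ (j + 1) * x) =
          q * ∑ j ∈ Finset.range n, q ^ j * min 1 (2 ^ j * (2 * x)) := by
        rw [Finset.mul_sum]
        refine Finset.sum_congr rfl fun j _ => ?_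
        rw [pow_succ, pow_succ, mul_assoc (2 ^ j) 2 x]
        ring
      rw [e1]
      have e2 : q * ((A + 2 * B) * (2 * x) ^ α) = (A + 2 * B) * x ^ α := by
        rw [Real.mul_rpow (by norm_num) hx.le]
        linear_combination (A + 2 * B) * x ^ α * hq
      have e3 : min 1 (2 ^ 0 * x) = x := by
        rw [pow_zero, one_mul]
        exact min_eq_right h.le
      rw [e3, pow_zero, one_mul]
      have h4 : q * ∑ j ∈ Finset.range n, q ^ j * min 1 (2 ^ j * (2 * x)) ≤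
          q * ((A + 2 * B) * (2 * x) ^ α - B * (2 * x)) := by gcongr
      rw [mul_sub, e2] at h4
      nlinarith

theorem main (hlip : S_LIP) : S_HOL := by
  intro w L hW α K hα hα1 hK
  have h := hW.sys
  have hw0 := hW.nonneg
  have hsum := hW.summable
  have hsmall := hW.small
  have hbd := hW.bd
  -- the ratio
  obtain ⟨q, hqd⟩ : ∃ q : ℝ, q = (2 : ℝ) ^ (-α) := ⟨_, rfl⟩
  have hq1 : 1 / 2 < q := by
    have h1 : (2 : ℝ) ^ (-(1 : ℝ)) < (2 : ℝ) ^ (-α) :=
      Real.rpow_lt_rpow_of_exponent_lt (by norm_num) (by linarith)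
    rw [Real.rpow_neg_one] at h1
    rw [hqd]
    linarith
  have hq2 : q < 1 := by
    rw [hqd]
    exact Real.rpow_lt_one_of_one_lt_of_neg (by norm_num) (by linarith)
  have hq : q * 2 ^ α = 1 := by
    rw [hqd, ← Real.rpow_add (by norm_num)]
    simp
  have hqj : ∀ j : ℕ, (2 : ℝ) ^ (-(α * j)) = q ^ j := by
    intro j
    rw [hqd, ← Real.rpow_natCast, ← Real.rpow_mul (by norm_num)]
    congr 1
    ring
  have hK0 : 0 ≤ K := by
    have h1 := hK 0
    have h2 := hw0 0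
    rw [hqj 0, pow_zero, mul_one] at h1
    linarith
  obtain ⟨C, hC⟩ : ∃ C : ℝ, C = 1 / (1 - q) + 2 * (1 / (2 * q - 1)) := ⟨_, rfl⟩
  have hB0 : 0 < 1 / (2 * q - 1) := by
    have : 0 < 2 * q - 1 := by linarith
    positivity
  have hC0 : 0 ≤ C := by
    have h1 : 0 < 1 / (1 - q) := by
      have : 0 < 1 - q := by linarith
      positivity
    rw [hC]
    linarith
  -- the terms
  obtain ⟨t, ht⟩ : ∃ t : ℕ → ℂ → ℂ, t = fun i z => ell L i (Phi L i (z ^ (2 ^ i))) := ⟨_, rfl⟩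
  have htb : ∀ (i : ℕ) (z : ℂ), ‖z‖ ≤ 1 → ‖t i z‖ ≤ 3 * w i := by
    intro i z hz
    rw [ht]
    exact ell_bd h hbd i (Phi_le h i (pow_le hz i))
  have hs : Summable fun i => 3 * w i := hsum.mul_left 3
  have hts : ∀ z : ℂ, ‖z‖ ≤ 1 → Summable fun i => t i z := fun z hz =>
    Summable.of_norm_bounded hs fun i => htb i z hz
  have htail : ∀ k, ∑' l, w (k + l) ≤ 1 / 1000 := by
    intro k
    refine le_trans ?_ hsmall
    have h1 := hsum.sum_add_tsum_nat_add k
    have h2 : 0 ≤ ∑ i ∈ Finset.range k, w i := Finset.sum_nonneg fun i _ => hw0 i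
    have h3 : ∑' l, w (k + l) = ∑' l, w (l + k) := by simp only [add_comm k]
    rw [h3]
    linarith
  have hpsi : ∀ (k : ℕ) (z z' : ℂ), ‖z‖ ≤ 1 → ‖z'‖ ≤ 1 →
      ‖psi L k z - psi L k z'‖ ≤ 1 / 250 * ‖z - z'‖ := by
    intro k z z' hz hz'
    refine (hlip w L hW k z z' hz hz').trans ?_
    have h1 := htail k
    have h2 := norm_nonneg (z - z')
    nlinarith
  have hPhi : ∀ (k : ℕ) (z z' : ℂ), ‖z‖ ≤ 1 → ‖z'‖ ≤ 1 →
      ‖Phi L k z - Phi L k z'‖ ≤ 2 * ‖z - z'‖ := by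
    intro k z z' hz hz'
    have e : Phi L k z - Phi L k z' = (z - z') * Complex.exp (psi L k z) +
        z' * (Complex.exp (psi L k z) - Complex.exp (psi L k z')) := by
      unfold Phi
      ring
    have b1 := (spec h k).2.2.1 z hz
    have b2 := (spec h k).2.2.1 z' hz'
    have hle := le40 h
    have h6 := exp_sub (a := psi L k z) (b := psi L k z') (by linarith) (by linarith)
    have h7 := exp_near (a := psi L k z) (by linarith)
    have h8 := hpsi k z z' hz hz'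
    have h9 := norm_nonneg (z - z')
    rw [e]
    refine (norm_add_le _ _).trans ?_
    rw [norm_mul, norm_mul]
    calc ‖z - z'‖ * ‖Complex.exp (psi L k z)‖ +
          ‖z'‖ * ‖Complex.exp (psi L k z) - Complex.exp (psi L k z')‖
        ≤ ‖z - z'‖ * (21 / 20) + 1 * (3 * (1 / 250 * ‖z - z'‖)) := by
          gcongr
          exact h6.trans (by linarith)
      _ ≤ 2 * ‖z - z'‖ := by linarith
  have htl : ∀ (i : ℕ) (z z' : ℂ), ‖z‖ ≤ 1 → ‖z'‖ ≤ 1 →
      ‖t i z - t i z'‖ ≤ 20 * w i * (2 ^ i * ‖z - z'‖) := by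
    intro i z z' hz hz'
    rw [ht]
    have h1 := ell_lip h (hbd i) (Phi_le h i (pow_le hz i)) (Phi_le h i (pow_le hz' i))
    have h2 := hPhi i _ _ (pow_le hz i) (pow_le hz' i)
    have h3 := pow_lip hz hz' (2 ^ i)
    push_cast at h3
    have h4 := hw0 i
    calc ‖ell L i (Phi L i (z ^ 2 ^ i)) - ell L i (Phi L i (z' ^ 2 ^ i))‖
        ≤ 10 * w i * ‖Phi L i (z ^ 2 ^ i) - Phi L i (z' ^ 2 ^ i)‖ := h1
      _ ≤ 10 * w i * (2 * (2 ^ i * ‖z - z'‖)) := by
          gcongr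
          exact h2.trans (by gcongr)
      _ = 20 * w i * (2 ^ i * ‖z - z'‖) := by ring
  refine ⟨3 * (1 / 125 + 20 * K * C), fun z z' hz hz' => ?_⟩
  have hd0 := norm_nonneg (z - z')
  have hd2 : ‖z - z'‖ ≤ 2 := (norm_sub_le _ _).trans (by linarith)
  rcases eq_or_lt_of_le hd0 with hd | hd
  · have : z = z' := sub_eq_zero.1 (norm_eq_zero.1 hd.symm)
    subst this
    rw [sub_self, norm_zero, sub_self, norm_zero, Real.zero_rpow hα.ne', mul_zero]
  -- the bound of the sums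
  have hdiff : ∀ i, ‖t i z - t i z'‖ ≤ 20 * K * (q ^ i * min 1 (2 ^ i * ‖z - z'‖)) := by
    intro i
    have h1 := htl i z z' hz hz'
    have h2 : ‖t i z - t i z'‖ ≤ 20 * w i * 1 := by
      have h3 := norm_sub_le (t i z) (t i z')
      have h4 := htb i z hz
      have h5 := htb i z' hz'
      have h6 := hw0 i
      linarith
    have h3 : ‖t i z - t i z'‖ ≤ 20 * w i * min 1 (2 ^ i * ‖z - z'‖) := by
      rcases min_choice 1 (2 ^ i * ‖z - z'‖) with h4 | h4 <;> rw [h4]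
      · exact h2
      · exact h1
    have h4 := hK i
    rw [hqj] at h4
    have h5 : 0 ≤ min 1 (2 ^ i * ‖z - z'‖) := le_min zero_le_one (by positivity)
    calc ‖t i z - t i z'‖ ≤ 20 * w i * min 1 (2 ^ i * ‖z - z'‖) := h3
      _ ≤ 20 * (K * q ^ i) * min 1 (2 ^ i * ‖z - z'‖) := by gcongr
      _ = _ := by ring
  have hcut : ∀ n, ∑ i ∈ Finset.range n, ‖t i z - t i z'‖ ≤ 20 * K * (C * ‖z - z'‖ ^ α) := by
    intro n
    refine (Finset.sum_le_sum fun i _ => hdiff i).trans ?_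
    rw [← Finset.mul_sum]
    have h1 := cut_sum hα hα1.le hq1 hq2 hq n ‖z - z'‖ hd hd2
    rw [← hC] at h1
    have h2 : 0 ≤ 1 / (2 * q - 1) * ‖z - z'‖ := by positivity
    gcongr
    linarith
  have hsd : Summable fun i => ‖t i z - t i z'‖ :=
    summable_of_sum_range_le (fun i => norm_nonneg _) hcut
  have hT : ‖∑' i, t i z - ∑' i, t i z'‖ ≤ 20 * K * (C * ‖z - z'‖ ^ α) := by
    rw [← (hts z hz).tsum_sub (hts z' hz')]
    refine (norm_tsum_le_tsum_norm hsd).trans ?_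
    exact Real.tsum_le_of_sum_range_le (fun i => norm_nonneg _) hcut
  -- conclusion
  have hX : ∀ z : ℂ, ‖z‖ ≤ 1 → ‖psi L 0 z - ∑' i, t i z‖ ≤ 1 / 40 := by
    intro z hz
    have h1 := (spec h 0).2.2.1 z hz
    have h2 : ‖∑' i, t i z‖ ≤ 3 * ∑' i, w i := by
      rw [← tsum_mul_left]
      exact tsum_of_norm_bounded hs.hasSum fun i => htb i z hz
    have h3 := norm_sub_le (psi L 0 z) (∑' i, t i z)
    linarith
  have hG : ∀ z, GG L z = Complex.exp (psi L 0 z - ∑' i, t i z) := by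
    intro z
    rw [GG, ht]
  rw [hG, hG]
  refine (exp_sub (hX z hz) (hX z' hz')).trans ?_
  have e : psi L 0 z - ∑' i, t i z - (psi L 0 z' - ∑' i, t i z') =
      (psi L 0 z - psi L 0 z') - (∑' i, t i z - ∑' i, t i z') := by ring
  rw [e]
  have h1 := norm_sub_le (psi L 0 z - psi L 0 z') (∑' i, t i z - ∑' i, t i z')
  have h2 := hpsi 0 z z' hz hz'
  have h3 : ‖z - z'‖ ≤ 2 * ‖z - z'‖ ^ α := by
    have e : ‖z - z'‖ = ‖z - z'‖ ^ (1 - α) * ‖z - z'‖ ^ α := by
      rw [← Real.rpow_add hd]; simp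
    have h5 : ‖z - z'‖ ^ (1 - α) ≤ 2 := by
      calc ‖z - z'‖ ^ (1 - α) ≤ 2 ^ (1 - α) := Real.rpow_le_rpow hd0 hd2 (by linarith)
        _ ≤ 2 ^ (1 : ℝ) := Real.rpow_le_rpow_of_exponent_le (by norm_num) (by linarith)
        _ = 2 := by norm_num
    calc ‖z - z'‖ = ‖z - z'‖ ^ (1 - α) * ‖z - z'‖ ^ α := e
      _ ≤ 2 * ‖z - z'‖ ^ α := by gcongr
  have h4 : 3 * (1 / 125 + 20 * K * C) * ‖z - z'‖ ^ α =
      3 * (1 / 250 * (2 * ‖z - z'‖ ^ α) + 20 * K * (C * ‖z - z'‖ ^ α)) := by ring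
  rw [h4]
  gcongr
  linarith

end Pool.Agent.Helper25.RB.HOL
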