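import Pool.Agent.Helper25.RB.Stm5

/-!
# LOW: the frontier of an open set with nonempty exterior has Hausdorff dimension at least one
-/

set_option autoImplicit false

open Filter Topology Metric Set MeasureTheory

namespace Pool.Agent.Helper25.RB.LOW

theorem meets {V T : Set ℂ} (hV : IsOpen V) (hT : IsPreconnected T) (h1 : (T ∩ V).Nonempty)
    (h2 : (T ∩ interior Vᶜ).Nonempty) : (T ∩ frontier V).Nonempty := by
  by_contra hne
  rw [not_nonempty_iff_eq_empty] at hne
  have hcov : T ⊆ V ∪ interior Vᶜ := by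
    intro x hx
    by_cases hxV : x ∈ V
    · exact Or.inl hxV
    · right
      rw [interior_compl]
      intro hxc
      have : x ∈ T ∩ frontier V := ⟨hx, by rw [hV.frontier_eq]; exact ⟨hxc, hxV⟩⟩
      rw [hne] at this
      exact this
  have hdis : Disjoint V (interior Vᶜ) :=
    disjoint_left.2 fun x hx hx' => (interior_subset hx') hx
  rcases hT.subset_or_subset hV isOpen_interior hdis hcov with h | h
  · obtain ⟨x, hx, hx'⟩ := h2
    exact disjoint_left.1 hdis (h hx) hx'
  · obtain ⟨x, hx, hx'⟩ := h1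
    exact disjoint_left.1 hdis hx' (h hx)

theorem main : S_LOW := by
  intro V hV hVne hVc
  obtain ⟨a, ha⟩ := hVne
  obtain ⟨b, hb⟩ := hVc
  obtain ⟨r1, hr1, h1⟩ := Metric.isOpen_iff.1 hV a ha
  obtain ⟨r2, hr2, h2⟩ := Metric.isOpen_iff.1 isOpen_interior b hb
  have hab : b - a ≠ 0 := by
    intro h
    have : b = a := by linear_combination h
    rw [this] at hb
    exact (interior_subset hb) ha
  have hn : ‖b - a‖ ≠ 0 := norm_ne_zero_iff.2 hab
  set w : ℂ := Complex.I * ((b - a) / (‖b - a‖ : ℂ)) with hwdef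
  have hw : ‖w‖ = 1 := by
    rw [hwdef, norm_mul, Complex.norm_I, one_mul, norm_div, Complex.norm_real, norm_norm,
      div_self hn]
  let P : ℂ → ℝ := fun z => (z * (starRingEnd ℂ) w).re
  have hPadd : ∀ x y, P (x + y) = P x + P y := by
    intro x y
    simp only [P, add_mul, Complex.add_re]
  have hPsmul : ∀ (t : ℝ) x, P ((t : ℂ) * x) = t * P x := by
    intro t x
    simp only [P, mul_assoc, Complex.re_ofReal_mul]
  have hPL : LipschitzWith 1 P := by
    refine LipschitzWith.of_dist_le_mul fun x y => ?_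
    rw [NNReal.coe_one, one_mul, Real.dist_eq, dist_eq_norm]
    have e : P x - P y = ((x - y) * (starRingEnd ℂ) w).re := by
      simp only [P, sub_mul, Complex.sub_re]
    rw [e]
    refine (Complex.abs_re_le_norm _).trans ?_
    rw [norm_mul, Complex.norm_conj, hw, mul_one]
  have hPw : P w = 1 := by
    simp only [P]
    rw [Complex.mul_conj, Complex.normSq_eq_norm_sq, hw]
    simp
  have hPab : P b = P a := by
    have e : P (b - a) = 0 := by
      simp only [P]
      have e2 : (b - a) * (starRingEnd ℂ) w = -Complex.I * (‖b - a‖ : ℂ) := by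
        rw [hwdef, map_mul, Complex.conj_I, map_div₀, Complex.conj_ofReal]
        have e3 : (b - a) * (-Complex.I * ((starRingEnd ℂ) (b - a) / (‖b - a‖ : ℂ)))
            = -Complex.I * (((b - a) * (starRingEnd ℂ) (b - a)) / (‖b - a‖ : ℂ)) := by ring
        rw [e3, Complex.mul_conj, Complex.normSq_eq_norm_sq]
        have hn' : (‖b - a‖ : ℂ) ≠ 0 := by exact_mod_cast hn
        push_cast
        field_simp
      rw [e2]
      simp
    have : P b = P a + P (b - a) := by rw [← hPadd]; congr 1; ring
    rw [this, e, add_zero]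
  set r := min r1 r2 with hr
  have hr0 : 0 < r := lt_min hr1 hr2
  have key : Ioo (P a - r) (P a + r) ⊆ P '' frontier V := by
    intro s hs
    set t : ℝ := s - P a with ht
    have htr : |t| < r := by
      rw [abs_lt]
      constructor <;> [linarith [hs.1]; linarith [hs.2]]
    have hT : IsPreconnected (segment ℝ (a + (t : ℂ) * w) (b + (t : ℂ) * w)) :=
      (convex_segment _ _).isPreconnected
    have hnt : ‖(t : ℂ) * w‖ = |t| := by rw [norm_mul, hw, mul_one, Complex.norm_real, Real.norm_eq_abs]
    have ha' : a + (t : ℂ) * w ∈ V := by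
      apply h1
      rw [mem_ball, dist_eq_norm, add_sub_cancel_left, hnt]
      exact htr.trans_le (min_le_left _ _)
    have hb' : b + (t : ℂ) * w ∈ interior Vᶜ := by
      apply h2
      rw [mem_ball, dist_eq_norm, add_sub_cancel_left, hnt]
      exact htr.trans_le (min_le_right _ _)
    obtain ⟨z, hz, hzf⟩ := meets hV hT ⟨_, left_mem_segment ℝ _ _, ha'⟩
      ⟨_, right_mem_segment ℝ _ _, hb'⟩
    refine ⟨z, hzf, ?_⟩
    obtain ⟨x, y, hx, hy, hxy, rfl⟩ := hz
    have e1 : x • (a + (t : ℂ) * w) + y • (b + (t : ℂ) * w)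
        = (x : ℂ) * (a + (t : ℂ) * w) + (y : ℂ) * (b + (t : ℂ) * w) := by
      rw [Complex.real_smul, Complex.real_smul]
    rw [e1, hPadd, hPsmul, hPsmul, hPadd, hPadd, hPsmul, hPw, hPab]
    have : s = P a + t := by rw [ht]; ring
    rw [this]
    have hy' : y = 1 - x := by linarith
    rw [hy']
    ring
  have hdim : dimH (P '' frontier V) = 1 := by
    have := Real.dimH_of_nonempty_interior (E := ℝ) (s := P '' frontier V)
      ⟨P a, mem_interior.2 ⟨_, key, isOpen_Ioo, by constructor <;> linarith⟩⟩
    rw [this]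
    simp
  rw [← hdim]
  exact hPL.dimH_image_le _


end Pool.Agent.Helper25.RB.LOW
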