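import Pool.Agent.Helper25.RB.Stm5

/-!
# PRE: preimages under entire functions do not have larger Hausdorff dimension
-/

set_option autoImplicit false

open Filter Topology Metric Set MeasureTheory

namespace Pool.Agent.Helper25.RB.PRE

/-- the zeros of a nonzero entire function are countable -/
theorem countable_zeros {f : ℂ → ℂ} (hf : Differentiable ℂ f) (hne : ∃ z, f z ≠ 0) :
    {z | f z = 0}.Countable := by
  have han : AnalyticOnNhd ℂ f univ := fun z _ => hf.analyticAt z
  have hloc : ∀ z : ℂ, {y | y = z ∨ f y ≠ 0} ∈ 𝓝 z := by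
    intro z
    rcases (hf.analyticAt z).eventually_eq_zero_or_eventually_ne_zero with h | h
    · exfalso
      obtain ⟨z0, hz0⟩ := hne
      have : EqOn f 0 univ :=
        han.eqOn_zero_of_preconnected_of_frequently_eq_zero isPreconnected_univ (mem_univ z)
          ((h.filter_mono nhdsWithin_le_nhds).frequently)
      exact hz0 (this (mem_univ z0))
    · rw [eventually_nhdsWithin_iff] at h
      filter_upwards [h] with y hy
      by_cases hyz : y = z
      · exact Or.inl hyz
      · exact Or.inr (hy hyz)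
  obtain ⟨t, htc, ht⟩ := TopologicalSpace.countable_cover_nhds hloc
  refine htc.mono fun z hz => ?_
  have hz1 : z ∈ ⋃ x ∈ t, {y | y = x ∨ f y ≠ 0} := by rw [ht]; exact mem_univ z
  simp only [mem_iUnion, mem_ofPred_eq, exists_prop] at hz1
  obtain ⟨x, hx, hxz | hxz⟩ := hz1
  · rw [hxz]; exact hx
  · exact absurd hz hxz

theorem main : S_PRE := by
  intro g E hg hne
  have hdg : Differentiable ℂ (deriv g) := by
    intro z
    exact ((hg.analyticAt z).deriv).differentiableAt
  set Z : Set ℂ := {z | deriv g z = 0} with hZ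
  have hZc : Z.Countable := countable_zeros hdg hne
  have hloc : ∀ z ∈ Zᶜ, ∃ U ∈ 𝓝 z, dimH (g ⁻¹' E ∩ U) ≤ dimH E := by
    intro z hz
    have hz' : deriv g z ≠ 0 := hz
    have hs : HasStrictDerivAt g (deriv g z) z := (hg.analyticAt z).hasStrictDerivAt
    have hs' : HasStrictFDerivAt g
        ((ContinuousLinearEquiv.unitsEquivAut ℂ (Units.mk0 (deriv g z) hz') : ℂ ≃L[ℂ] ℂ) : ℂ →L[ℂ] ℂ) z :=
      hs.hasStrictFDerivAt_equiv hz'
    obtain ⟨U, hzU, hUo, hU⟩ := hs'.approximates_deriv_on_open_nhds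
    refine ⟨U, hUo.mem_nhds hzU, ?_⟩
    have hanti := hU.antilipschitz (by
      refine Or.inr ?_
      refine NNReal.half_lt_self ?_
      refine inv_ne_zero ?_
      intro h0
      rw [nnnorm_eq_zero] at h0
      have : ((ContinuousLinearEquiv.unitsEquivAut ℂ (Units.mk0 (deriv g z) hz') : ℂ ≃L[ℂ] ℂ).symm : ℂ →L[ℂ] ℂ) 1 = 0 := by
        rw [h0]; rfl
      have h1 := (ContinuousLinearEquiv.unitsEquivAut ℂ (Units.mk0 (deriv g z) hz') : ℂ ≃L[ℂ] ℂ).symm.injective
        (this.trans (map_zero _).symm)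
      exact one_ne_zero h1)
    have h1 : dimH ((U.domRestrict g) ⁻¹' E) ≤ dimH E := hanti.dimH_preimage_le E
    have h2 : dimH (Subtype.val '' ((U.domRestrict g) ⁻¹' E)) = dimH ((U.domRestrict g) ⁻¹' E) :=
      isometry_subtype_coe.dimH_image _
    have h3 : g ⁻¹' E ∩ U ⊆ Subtype.val '' ((U.domRestrict g) ⁻¹' E) := by
      rintro x ⟨hx1, hx2⟩
      exact ⟨⟨x, hx2⟩, hx1, rfl⟩
    exact (dimH_mono h3).trans (h2.le.trans h1)
  choose! U hU1 hU2 using hloc
  obtain ⟨t, hts, htc, ht⟩ := TopologicalSpace.countable_cover_nhdsWithin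
    (f := U) (s := Zᶜ) (fun z hz => mem_nhdsWithin_of_mem_nhds (hU1 z hz))
  have hcov : g ⁻¹' E ⊆ Z ∪ ⋃ z ∈ t, (g ⁻¹' E ∩ U z) := by
    intro x hx
    by_cases hxZ : x ∈ Z
    · exact Or.inl hxZ
    · right
      have := ht hxZ
      simp only [mem_iUnion, exists_prop] at this ⊢
      obtain ⟨z, hz, hxz⟩ := this
      exact ⟨z, hz, hx, hxz⟩
  refine (dimH_mono hcov).trans ?_
  rw [dimH_union, dimH_countable hZc, dimH_bUnion htc]
  refine max_le zero_le ?_
  exact iSup₂_le fun z hz => hU2 z (hts hz)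


end Pool.Agent.Helper25.RB.PRE
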