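import Pool.Agent.Helper25.RB.Stm4

/-! module SEQ (helper9): a discrete Gronwall inequality -/

set_option autoImplicit false

open Filter Topology Metric Set MeasureTheory

namespace Pool.Agent.Helper25.RB.SEQ

open Pool.Agent.Helper25.RB

theorem main : S_SEQ := by
  intro w α K κ hw hs hα hα1 hκ hK h
  set b : ℝ := (2 : ℝ) ^ α with hb
  have hb0 : 0 < b := by positivity
  have hb1 : 1 ≤ b := Real.one_le_rpow (by norm_num) hα.le
  have hb2 : b < 2 := by
    calc b = (2 : ℝ) ^ α := rfl
      _ < (2 : ℝ) ^ (1 : ℝ) := Real.rpow_lt_rpow_of_exponent_lt (by norm_num) hα1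
      _ = 2 := by norm_num
  have hpow : ∀ j : ℕ, (2 : ℝ) ^ (-(α * j)) = (b ^ j)⁻¹ := by
    intro j
    rw [Real.rpow_neg (by norm_num), Real.rpow_mul (by norm_num), Real.rpow_natCast]
  set t : ℕ → ℝ := fun k => ∑' l, w (k + l) with ht
  have ht0 : ∀ k, 0 ≤ t k := fun k => tsum_nonneg fun l => hw _
  have htT : ∀ k, t k ≤ t 0 := by
    intro k
    have h1 := hs.sum_add_tsum_nat_add k
    have h2 : 0 ≤ ∑ i ∈ Finset.range k, w i := Finset.sum_nonneg fun i _ => hw i
    have h3 : t k = ∑' i, w (i + k) := by
      simp only [ht, add_comm]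
    have h4 : t 0 = ∑' i, w i := by simp only [ht, zero_add]
    rw [h3, h4]
    linarith
  have htlim : Tendsto t atTop (𝓝 0) := by
    have h1 := tendsto_sum_nat_add w
    refine h1.congr fun k => ?_
    simp only [ht, add_comm]
  set ρ : ℝ := b / 2 with hρ
  have hρ0 : 0 ≤ ρ := by positivity
  have hρ1 : ρ < 1 := by rw [hρ]; linarith
  have h1ρ : 0 < 1 - ρ := by linarith
  obtain ⟨k1, hk1⟩ : ∃ k1 : ℕ, ∀ k, k1 ≤ k → K * t k ≤ κ * (1 - ρ) / 2 := by
    have h1 : Tendsto (fun k => K * t k) atTop (𝓝 (K * 0)) := htlim.const_mul K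
    rw [mul_zero] at h1
    have h2 : ∀ᶠ k in atTop, K * t k < κ * (1 - ρ) / 2 :=
      h1.eventually (gt_mem_nhds (by positivity))
    obtain ⟨k1, hk1⟩ := eventually_atTop.1 h2
    exact ⟨k1, fun k hk => (hk1 k hk).le⟩
  set W : ℕ → ℝ := fun j => b ^ j * w j with hW
  have hW0 : ∀ j, 0 ≤ W j := fun j => mul_nonneg (by positivity) (hw j)
  set A : ℝ := ∑ k ∈ Finset.range k1, W k with hA
  have hA0 : 0 ≤ A := Finset.sum_nonneg fun k _ => hW0 k
  have hAk : ∀ k, k < k1 → W k ≤ A := fun k hk =>
    Finset.single_le_sum (f := W) (fun i _ => hW0 i) (Finset.mem_range.2 hk)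
  set C : ℝ := (K * b + K * A * t 0 / (1 - ρ)) / κ with hC
  have hC0 : 0 ≤ C := by
    have := ht0 0
    positivity
  set B : ℝ := max (W 0) (2 * C) with hB
  have key : ∀ m, W m ≤ B := by
    intro m
    induction m using Nat.strong_induction_on with
    | _ m ih =>
      rcases Nat.eq_zero_or_pos m with rfl | hm
      · exact le_max_left _ _
      · by_contra hcon
        push Not at hcon
        obtain ⟨j, rfl⟩ : ∃ j, m = j + 1 := ⟨m - 1, by omega⟩
        set x := W (j + 1) with hx
        have hBx : ∀ k, k ≤ j + 1 → W k ≤ x := by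
          intro k hk
          rcases hk.lt_or_eq with h1 | h1
          · exact (ih k h1).trans hcon.le
          · rw [h1]
        have hx0 : 0 ≤ x := hW0 _
        have hterm : ∀ k, k ≤ j + 1 → K * (W k * t k) ≤ K * A * t 0 + κ * (1 - ρ) / 2 * x := by
          intro k hk
          have e0 : 0 ≤ K * A * t 0 := mul_nonneg (mul_nonneg hK hA0) (ht0 0)
          have e1 : 0 ≤ κ * (1 - ρ) / 2 * x := mul_nonneg (by positivity) hx0
          rcases lt_or_ge k k1 with h1 | h1
          · have e2 : W k * t k ≤ A * t 0 := mul_le_mul (hAk k h1) (htT k) (ht0 k) hA0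
            have e3 := mul_le_mul_of_nonneg_left e2 hK
            calc K * (W k * t k) ≤ K * (A * t 0) := e3
              _ = K * A * t 0 := by ring
              _ ≤ _ := by linarith
          · calc K * (W k * t k) = (K * t k) * W k := by ring
              _ ≤ (κ * (1 - ρ) / 2) * x := mul_le_mul (hk1 k h1) (hBx k hk) (hW0 k) (by positivity)
              _ ≤ _ := by linarith
        have hj := h j
        have hbj : 0 < b ^ (j + 1) := by positivity
        have e1 := mul_le_mul_of_nonneg_left hj hbj.le
        have e2 : b ^ (j + 1) * (κ * w (j + 1)) = κ * x := by rw [hx, hW]; ring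
        have e3 : b ^ (j + 1) * (K * (2 : ℝ) ^ (-(α * j)) +
            K * ∑ i ∈ Finset.range (j + 2), (1 / 2 : ℝ) ^ i * (w (j + 1 - i) * ∑' l, w (j + 1 - i + l)))
            = K * b + ∑ i ∈ Finset.range (j + 2), ρ ^ i * (K * (W (j + 1 - i) * t (j + 1 - i))) := by
          rw [hpow j, mul_add, Finset.mul_sum, Finset.mul_sum]
          congr 1
          · rw [pow_succ]
            field_simp
          · apply Finset.sum_congr rfl
            intro i hi
            rw [Finset.mem_range] at hi
            have h5 : b ^ (j + 1) = b ^ i * b ^ (j + 1 - i) := by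
              rw [← pow_add]
              congr 1
              omega
            have h6 : ρ ^ i = b ^ i * (1 / 2 : ℝ) ^ i := by
              rw [hρ, ← mul_pow]
              congr 1
              ring
            rw [h5, h6]
            simp only [hW, ht]
            ring
        rw [e2, e3] at e1
        have e4 : ∑ i ∈ Finset.range (j + 2), ρ ^ i * (K * (W (j + 1 - i) * t (j + 1 - i))) ≤
            (1 - ρ)⁻¹ * (K * A * t 0 + κ * (1 - ρ) / 2 * x) := by
          have e5 : 0 ≤ K * A * t 0 + κ * (1 - ρ) / 2 * x := by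
            have := mul_nonneg (mul_nonneg hK hA0) (ht0 0)
            positivity
          calc ∑ i ∈ Finset.range (j + 2), ρ ^ i * (K * (W (j + 1 - i) * t (j + 1 - i)))
              ≤ ∑ i ∈ Finset.range (j + 2), ρ ^ i * (K * A * t 0 + κ * (1 - ρ) / 2 * x) := by
                apply Finset.sum_le_sum
                intro i _
                exact mul_le_mul_of_nonneg_left (hterm _ (by omega)) (by positivity)
            _ = (∑ i ∈ Finset.range (j + 2), ρ ^ i) * (K * A * t 0 + κ * (1 - ρ) / 2 * x) := by
                rw [Finset.sum_mul]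
            _ ≤ (1 - ρ)⁻¹ * (K * A * t 0 + κ * (1 - ρ) / 2 * x) := by
                apply mul_le_mul_of_nonneg_right _ e5
                rw [← tsum_geometric_of_lt_one hρ0 hρ1]
                exact (summable_geometric_of_lt_one hρ0 hρ1).sum_le_tsum _ (fun i _ => by positivity)
        have e6 : (1 - ρ)⁻¹ * (K * A * t 0 + κ * (1 - ρ) / 2 * x) =
            K * A * t 0 / (1 - ρ) + κ / 2 * x := by
          field_simp
        have e7 : κ * x ≤ κ * C + κ / 2 * x := by
          have : κ * C = K * b + K * A * t 0 / (1 - ρ) := by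
            rw [hC]
            field_simp
          rw [this]
          linarith
        have e8 : x ≤ 2 * C := by
          have : κ * x ≤ κ * (2 * C) := by linarith
          exact le_of_mul_le_mul_left this hκ
        exact absurd (e8.trans (le_max_right _ _)) (not_le.2 hcon)
  refine ⟨B, fun j => ?_⟩
  rw [hpow j, ← div_eq_mul_inv, le_div_iff₀ (by positivity)]
  calc w j * b ^ j = W j := by rw [hW]; ring
    _ ≤ B := key j

end Pool.Agent.Helper25.RB.SEQ
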