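import Pool.Agent.Helper25.RB.Stm4

/-! module SUM (helper9): inverse squares of distinct large integers -/

set_option autoImplicit false

open Filter Topology Metric Set MeasureTheory

namespace Pool.Agent.Helper25.RB.SUM

open Pool.Agent.Helper25.RB

theorem tel (N B : ℕ) (_hN : 1 ≤ N) : ∑ n ∈ Finset.Ico N (N + B), (2 * (1 / (n : ℝ) - 1 / ((n : ℝ) + 1))) ≤
    2 / (N : ℝ) - 2 / ((N : ℝ) + B) := by
  induction B with
  | zero => simp
  | succ B ih =>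
    rw [← add_assoc, Finset.sum_Ico_succ_top (by omega)]
    push_cast
    have h1 : 2 * (1 / ((N : ℝ) + B) - 1 / ((N : ℝ) + B + 1)) =
      2 / ((N : ℝ) + B) - 2 / ((N : ℝ) + B + 1) := by ring
    rw [h1]
    have h2 : (N : ℝ) + (B + 1) = (N : ℝ) + B + 1 := by ring
    rw [h2]
    linarith

theorem half (y : ℕ → ℕ) (M : ℝ) (T : Finset ℕ) (hy : Set.InjOn y T) (hM : 1 ≤ M)
    (h : ∀ j ∈ T, M ≤ (y j : ℝ)) : ∑ j ∈ T, 1 / (y j : ℝ) ^ 2 ≤ 2 / M := by
  classical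
  set N : ℕ := ⌈M⌉₊ with hN
  have hN1 : 1 ≤ N := Nat.one_le_ceil_iff.2 (by linarith)
  have hNM : M ≤ N := Nat.le_ceil M
  obtain ⟨B, hB⟩ : ∃ B : ℕ, ∀ j ∈ T, y j < N + B := by
    refine ⟨(T.sup y) + 1, fun j hj => ?_⟩
    have := Finset.le_sup (f := y) hj
    omega
  have h1 : ∑ j ∈ T, 1 / (y j : ℝ) ^ 2 ≤ ∑ j ∈ T, (2 * (1 / ((y j : ℕ) : ℝ) - 1 / (((y j : ℕ) : ℝ) + 1))) := by
    apply Finset.sum_le_sum
    intro j hj
    have h2 : (1 : ℝ) ≤ y j := hM.trans (h j hj)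
    have h3 : (2 * (1 / ((y j : ℕ) : ℝ) - 1 / (((y j : ℕ) : ℝ) + 1))) = 2 / ((y j : ℝ) * ((y j : ℝ) + 1)) := by
      field_simp
      ring
    rw [h3, div_le_div_iff₀ (by positivity) (by positivity)]
    nlinarith
  have h2 : ∑ j ∈ T, (2 * (1 / ((y j : ℕ) : ℝ) - 1 / (((y j : ℕ) : ℝ) + 1))) =
      ∑ n ∈ T.image y, (2 * (1 / (n : ℝ) - 1 / ((n : ℝ) + 1))) := by
    rw [Finset.sum_image hy]
  have h3 : ∑ n ∈ T.image y, (2 * (1 / (n : ℝ) - 1 / ((n : ℝ) + 1))) ≤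
      ∑ n ∈ Finset.Ico N (N + B), (2 * (1 / (n : ℝ) - 1 / ((n : ℝ) + 1))) := by
    apply Finset.sum_le_sum_of_subset_of_nonneg
    · intro n hn
      obtain ⟨j, hj, rfl⟩ := Finset.mem_image.1 hn
      rw [Finset.mem_Ico]
      exact ⟨Nat.ceil_le.2 (h j hj), hB j hj⟩
    · intro n hn _
      rw [Finset.mem_Ico] at hn
      have h4 : (0 : ℝ) < n := by exact_mod_cast (by omega : 0 < n)
      have h5 : 1 / ((n : ℝ) + 1) ≤ 1 / (n : ℝ) := one_div_le_one_div_of_le h4 (by linarith)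
      linarith
  have h4 := tel N B hN1
  have hNr : (1 : ℝ) ≤ N := by exact_mod_cast hN1
  have h5 : 2 / (N : ℝ) ≤ 2 / M := div_le_div_of_nonneg_left (by norm_num) (by linarith) hNM
  have h6 : 0 ≤ 2 / ((N : ℝ) + B) := by positivity
  linarith

theorem main : S_SUM := by
  classical
  intro x M hx hM h
  have key : ∀ T : Finset ℕ, ∑ j ∈ T, 1 / (x j : ℝ) ^ 2 ≤ 8 / M := by
    intro T
    have h0 : ∀ j, (x j : ℝ) ^ 2 = ((x j).natAbs : ℝ) ^ 2 := by
      intro j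
      rw [Nat.cast_natAbs, Int.cast_abs, sq_abs]
    have habs : ∀ j, M ≤ ((x j).natAbs : ℝ) := by
      intro j
      rw [Nat.cast_natAbs, Int.cast_abs]
      exact h j
    have h1 : ∑ j ∈ T with 0 ≤ x j, 1 / ((x j).natAbs : ℝ) ^ 2 ≤ 2 / M := by
      apply half (fun j => (x j).natAbs) M _ _ hM (fun j _ => habs j)
      intro i hi j hj hij
      simp only [Finset.coe_filter, Set.mem_ofPred_eq] at hi hj
      simp only at hij
      apply hx
      omega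
    have h2 : ∑ j ∈ T with ¬ 0 ≤ x j, 1 / ((x j).natAbs : ℝ) ^ 2 ≤ 2 / M := by
      apply half (fun j => (x j).natAbs) M _ _ hM (fun j _ => habs j)
      intro i hi j hj hij
      simp only [Finset.coe_filter, Set.mem_ofPred_eq] at hi hj
      simp only at hij
      apply hx
      omega
    have h3 := Finset.sum_filter_add_sum_filter_not T (fun j => 0 ≤ x j)
      (fun j => 1 / ((x j).natAbs : ℝ) ^ 2)
    have h4 : ∑ j ∈ T, 1 / (x j : ℝ) ^ 2 = ∑ j ∈ T, 1 / ((x j).natAbs : ℝ) ^ 2 :=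
      Finset.sum_congr rfl fun j _ => by rw [h0 j]
    have h5 : 8 / M = 2 / M + 2 / M + 4 / M := by ring
    have h6 : 0 ≤ 4 / M := by positivity
    linarith
  have hs : Summable (fun j => 1 / (x j : ℝ) ^ 2) :=
    summable_of_sum_le (fun j => by positivity) key
  exact ⟨hs, hs.tsum_le_of_sum_le key⟩

end Pool.Agent.Helper25.RB.SUM
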