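import Pool.Agent.Helper25.JB.Riem
import Pool.Agent.Helper25.RB.Stm

/-!
# Statements on the nonautonomous system

`Phi L k z = z exp (psi L k z)`, `2 psi L k z + L k (Phi L k z) = psi L (k+1) (z²)` (`psi_spec`, `maps_Phi`).
-/

set_option autoImplicit false

open Filter Topology Metric Set MeasureTheory

namespace Pool.Agent.Helper25.RB

open Pool.Agent.Helper25.JB

/-- the logarithm of the correction of the derivative -/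
noncomputable def ell (L : ℕ → ℂ → ℂ) (k : ℕ) (v : ℂ) : ℂ := Complex.log (1 + v * deriv (L k) v / 2)

/-- the hypotheses -/
structure Sys (δ : ℝ) (L : ℕ → ℂ → ℂ) : Prop where
  pos : 0 ≤ δ
  small : δ ≤ 1 / 100000
  diff : ∀ k, DifferentiableOn ℂ (L k) (ball 0 2)
  bd : ∀ k, ∀ v ∈ ball (0 : ℂ) 2, ‖L k v‖ ≤ δ
  zero : ∀ k, L k 0 = 0

/-- sums along the doubling map -/
noncomputable def S (L : ℕ → ℂ → ℂ) (m : ℕ) (z : ℂ) : ℂ :=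
  ∑ i ∈ Finset.range m, ell L i (Phi L i (z ^ (2 ^ i)))

/-- the factors on the circle of radius `r` -/
noncomputable def ee (L : ℕ → ℂ → ℂ) (k : ℕ) (r : ℝ) (θ : ℝ) : ℂ :=
  Complex.exp (-ell L k (Phi L k (r * Complex.exp (θ * Complex.I))) / 2)

/-- V: Hölder estimates of first and second order of the factors. -/
def S_V : Prop := ∃ C : ℝ, 1 ≤ C ∧ ∀ (δ : ℝ) (L : ℕ → ℂ → ℂ) (a b : ℕ → ℂ), Sys δ L →
  (∀ k, ‖a k‖ ≤ δ) → (∀ k, ‖b k‖ ≤ δ) →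
  (∀ k, ∀ v ∈ ball (0 : ℂ) 2, ‖L k v - (a k * v + b k * v ^ 2)‖ ≤ δ ^ 2) →
  ∀ (k : ℕ) (r : ℝ), 0 ≤ r → r ≤ 1 →
    (∀ θ : ℝ, ‖ee L k r θ - 1‖ ≤ C * δ) ∧
    (∀ θ θ' : ℝ, ‖ee L k r θ - ee L k r θ'‖ ≤ C * δ * Real.sqrt |θ - θ'|) ∧
    (∀ θ θ' : ℝ,
      ‖(ee L k r θ - 1 + (a k / 2 * (r * Complex.exp (θ * Complex.I)) +
          b k * (r * Complex.exp (θ * Complex.I)) ^ 2) / 2) -
        (ee L k r θ' - 1 + (a k / 2 * (r * Complex.exp (θ' * Complex.I)) +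
          b k * (r * Complex.exp (θ' * Complex.I)) ^ 2) / 2)‖ ≤ C * δ ^ 2 * Real.sqrt |θ - θ'|)

/-- DER: the derivative of the Riemann map from the sums. -/
def S_DER : Prop := ∀ (δ : ℝ) (L : ℕ → ℂ → ℂ), Sys δ L → ∀ (m : ℕ) (z : ℂ), ‖z‖ < 1 → ‖z ^ (2 ^ m)‖ ≤ 1 / 2 →
  ‖Complex.exp (-S L m z / 2)‖ ^ 2 ≤ 3 * ‖deriv (Phi L 0) z‖

/-- C1: if the perturbations are summable then the derivative of the Riemann map extends continuously and without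
zeros to the closed disc. -/
def S_C1 : Prop := ∀ (δ : ℝ) (L : ℕ → ℂ → ℂ) (w : ℕ → ℝ), Sys δ L → Summable w →
  (∀ k, ∀ v ∈ ball (0 : ℂ) 2, ‖L k v‖ ≤ w k) →
  ∀ k : ℕ, ∃ G : ℂ → ℂ, ContinuousOn G (closedBall 0 1) ∧ (∀ z ∈ closedBall (0 : ℂ) 1, G z ≠ 0) ∧
    ∀ z ∈ ball (0 : ℂ) 1, HasDerivAt (Phi L k) (G z) z

/-- CIR: mean values on the circles. -/
def S_CIR : Prop := ∀ (δ : ℝ) (L : ℕ → ℂ → ℂ), Sys δ L → ∀ r : ℝ, 0 < r → r < 1 →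
  (∀ j : ℕ, ∫ θ in (0 : ℝ)..(2 * Real.pi), Complex.exp (-S L j (r * Complex.exp (θ * Complex.I)) / 2) =
    2 * Real.pi) ∧
  (∀ j m : ℕ, j < m → ∫ θ in (0 : ℝ)..(2 * Real.pi), Complex.exp (-S L m (r * Complex.exp (θ * Complex.I)) / 2) *
      Complex.exp (-(2 ^ j * θ) * Complex.I) =
    ∫ θ in (0 : ℝ)..(2 * Real.pi), Complex.exp (-S L (j + 1) (r * Complex.exp (θ * Complex.I)) / 2) *
      Complex.exp (-(2 ^ j * θ) * Complex.I))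

/-- COE: the Fourier coefficients at the frequencies `2^j`, up to terms of second order. -/
def S_COE : Prop := ∃ C : ℝ, 1 ≤ C ∧ ∀ (δ : ℝ) (L : ℕ → ℂ → ℂ) (a b : ℕ → ℂ), Sys δ L → C * δ ≤ 1 →
  (∀ k, ‖a k‖ ≤ δ) → (∀ k, ‖b k‖ ≤ δ) →
  (∀ k, ∀ v ∈ ball (0 : ℂ) 2, ‖L k v - (a k * v + b k * v ^ 2)‖ ≤ δ ^ 2) →
  ∀ (j : ℕ) (r : ℝ), 0 < r → r < 1 →
    ‖(∫ θ in (0 : ℝ)..(2 * Real.pi), Complex.exp (-S L (j + 2) (r * Complex.exp (θ * Complex.I)) / 2) *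
      Complex.exp (-(2 ^ (j + 1) * θ) * Complex.I)) +
      Real.pi * r ^ (2 ^ (j + 1)) * (a (j + 1) / 2 + b j)‖ ≤ C * δ ^ 2

end Pool.Agent.Helper25.RB
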